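import Pool.Agent.Lib.MP_55dccf_gt.Defs2

/-!
# MP_55dccf_gt : absolute extensors, basic closure properties (T01)
-/

set_option autoImplicit false

open Set Topology TopologicalSpace Filter

namespace Pool.MP55

/-! ## T01 (AE1.lean): absolute extensors, basic closure properties -/

section T01

variable {Y Y' : Type} [TopologicalSpace Y] [TopologicalSpace Y']

theorem AESet.of_retract {S : Set Y} {S' : Set Y'} (hS : AESet S) (i : Y' → Y) (r : Y → Y')
    (hi : ContinuousOn i S') (hr : ContinuousOn r S) (him : MapsTo i S' S) (hrm : MapsTo r S S')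
    (hri : ∀ y ∈ S', r (i y) = y) : AESet S' := by
  intro Z _ _ _ C hC f hf hm
  obtain ⟨F, hF, hFS, hFe⟩ := hS Z C hC (fun z => i (f z)) (hi.comp hf hm)
    (fun z hz => him (hm hz))
  refine ⟨fun z => r (F z), ?_, fun z => hrm (hFS z), fun z hz => ?_⟩
  · exact hr.comp_continuous hF hFS
  · have h := hFe hz
    simp only at h
    show r (F z) = f z
    rw [h, hri _ (hm hz)]

theorem AESet.prod {S : Set Y} {T : Set Y'} (hS : AESet S) (hT : AESet T) :
    AESet (S ×ˢ T) := by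
  intro Z _ _ _ C hC f hf hm
  obtain ⟨F, hF, hFS, hFe⟩ := hS Z C hC (fun z => (f z).1) (continuous_fst.comp_continuousOn hf)
    (fun z hz => (hm hz).1)
  obtain ⟨G, hG, hGS, hGe⟩ := hT Z C hC (fun z => (f z).2) (continuous_snd.comp_continuousOn hf)
    (fun z hz => (hm hz).2)
  refine ⟨fun z => (F z, G z), hF.prodMk hG, fun z => ⟨hFS z, hGS z⟩, fun z hz => ?_⟩
  exact Prod.ext (hFe hz) (hGe hz)

theorem AESet.pi {ι : Type} {Y : ι → Type} [∀ i, TopologicalSpace (Y i)] {S : ∀ i, Set (Y i)}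
    (hS : ∀ i, AESet (S i)) : AESet (Set.pi univ S) := by
  intro Z _ _ _ C hC f hf hm
  have h : ∀ i, ∃ F : Z → Y i, Continuous F ∧ (∀ z, F z ∈ S i) ∧ EqOn F (fun z => f z i) C :=
    fun i => hS i Z C hC (fun z => f z i) ((continuous_apply i).comp_continuousOn hf)
      (fun z hz => hm hz i (mem_univ i))
  choose F hF hFS hFe using h
  refine ⟨fun z i => F i z, continuous_pi hF, fun z i _ => hFS i z, fun z hz => ?_⟩
  funext i
  exact hFe i hz

theorem aeset_Icc {a b : ℝ} (h : a ≤ b) : AESet (Icc a b) := by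
  intro Z _ _ _ C hC f hf hm
  let g : C(↥C, ℝ) := ⟨C.domRestrict f, continuousOn_iff_continuous_domRestrict.1 hf⟩
  obtain ⟨F, hF, hFe⟩ := g.exists_restrict_eq_forall_mem_of_closed (t := Icc a b)
    (fun x => hm x.2) (nonempty_Icc.2 h) hC
  refine ⟨F, F.continuous, hF, fun z hz => ?_⟩
  exact DFunLike.congr_fun hFe (⟨z, hz⟩ : ↥C)

theorem aeset_singleton (y : Y) : AESet ({y} : Set Y) := by
  intro Z _ _ _ C hC f hf hm
  exact ⟨fun _ => y, continuous_const, fun _ => rfl, fun z hz => (hm hz).symm⟩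

theorem ae1_nonempty [Nonempty Y] {S : Set Y} (hS : AESet S) : S.Nonempty := by
  obtain ⟨y⟩ := (inferInstance : Nonempty Y)
  obtain ⟨F, -, hF, -⟩ := hS Unit ∅ isClosed_empty (fun _ => y) (continuousOn_empty _)
    (fun _ h => h.elim)
  exact ⟨F (), hF ()⟩

theorem aeset_union {S₁ S₂ : Set Y} (h₁ : IsClosed S₁) (h₂ : IsClosed S₂)
    (e₁ : AESet S₁) (e₂ : AESet S₂) (e : AESet (S₁ ∩ S₂)) : AESet (S₁ ∪ S₂) := by
  classical
  intro Z _ _ _ C hC f hf hm
  let _ := metrizableSpaceMetric Z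
  have hC₁ : IsClosed (C ∩ f ⁻¹' S₁) := hf.preimage_isClosed_of_isClosed hC h₁
  have hC₂ : IsClosed (C ∩ f ⁻¹' S₂) := hf.preimage_isClosed_of_isClosed hC h₂
  set C₁ : Set Z := C ∩ f ⁻¹' S₁ with hC₁d
  set C₂ : Set Z := C ∩ f ⁻¹' S₂ with hC₂d
  rcases C₁.eq_empty_or_nonempty with hE₁ | hne₁
  · have hm2 : MapsTo f C S₂ := by
      intro z hz
      rcases hm hz with h | h
      · exact absurd (show z ∈ C₁ from ⟨hz, h⟩) (by rw [hE₁]; exact notMem_empty z)
      · exact h
    obtain ⟨F, hF, hFS, hFe⟩ := e₂ Z C hC f hf hm2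
    exact ⟨F, hF, fun z => Or.inr (hFS z), hFe⟩
  rcases C₂.eq_empty_or_nonempty with hE₂ | hne₂
  · have hm2 : MapsTo f C S₁ := by
      intro z hz
      rcases hm hz with h | h
      · exact h
      · exact absurd (show z ∈ C₂ from ⟨hz, h⟩) (by rw [hE₂]; exact notMem_empty z)
    obtain ⟨F, hF, hFS, hFe⟩ := e₁ Z C hC f hf hm2
    exact ⟨F, hF, fun z => Or.inl (hFS z), hFe⟩
  -- the two closed halves
  set D₁ : Set Z := {z | Metric.infDist z C₁ ≤ Metric.infDist z C₂} with hD₁d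
  set D₂ : Set Z := {z | Metric.infDist z C₂ ≤ Metric.infDist z C₁} with hD₂d
  have hc1 : Continuous fun z : Z => Metric.infDist z C₁ := Metric.continuous_infDist_pt C₁
  have hc2 : Continuous fun z : Z => Metric.infDist z C₂ := Metric.continuous_infDist_pt C₂
  have hD₁ : IsClosed D₁ := isClosed_le hc1 hc2
  have hD₂ : IsClosed D₂ := isClosed_le hc2 hc1
  have hDD : D₁ ∪ D₂ = univ := by
    ext z
    simp only [mem_union, mem_univ, iff_true]
    exact le_total (Metric.infDist z C₁) (Metric.infDist z C₂)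
  have hCD₁ : C₁ ⊆ D₁ := by
    intro z hz
    show Metric.infDist z C₁ ≤ Metric.infDist z C₂
    rw [Metric.infDist_zero_of_mem hz]
    exact Metric.infDist_nonneg
  have hCD₂ : C₂ ⊆ D₂ := by
    intro z hz
    show Metric.infDist z C₂ ≤ Metric.infDist z C₁
    rw [Metric.infDist_zero_of_mem hz]
    exact Metric.infDist_nonneg
  have h12 : ∀ z, z ∈ C₁ → z ∈ D₂ → z ∈ C₂ := by
    intro z hz hz2
    have h0 : Metric.infDist z C₂ ≤ 0 := by
      have : Metric.infDist z C₂ ≤ Metric.infDist z C₁ := hz2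
      rwa [Metric.infDist_zero_of_mem hz] at this
    exact (hC₂.mem_iff_infDist_zero hne₂).2 (le_antisymm h0 Metric.infDist_nonneg)
  have h21 : ∀ z, z ∈ C₂ → z ∈ D₁ → z ∈ C₁ := by
    intro z hz hz2
    have h0 : Metric.infDist z C₁ ≤ 0 := by
      have : Metric.infDist z C₁ ≤ Metric.infDist z C₂ := hz2
      rwa [Metric.infDist_zero_of_mem hz] at this
    exact (hC₁.mem_iff_infDist_zero hne₁).2 (le_antisymm h0 Metric.infDist_nonneg)
  -- extension to the intersection
  obtain ⟨F12, hF12, hF12S, hF12e⟩ := e Z (C₁ ∩ C₂) (hC₁.inter hC₂) f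
    (hf.mono fun z hz => hz.1.1) (fun z hz => ⟨hz.1.2, hz.2.2⟩)
  have key : ∀ (E : Set Z), IsClosed E → E ⊆ C →
      (∀ z, z ∈ E → z ∈ D₁ → z ∈ D₂ → z ∈ C₁ ∩ C₂) → ∀ (S : Set Y), AESet S → MapsTo f E S →
      S₁ ∩ S₂ ⊆ S → ∃ G : Z → Y, Continuous G ∧ (∀ z, G z ∈ S) ∧ EqOn G f E ∧
        EqOn G F12 (D₁ ∩ D₂) := by
    intro E hE hEC hED S hS hES hsub
    have hcl : IsClosed (D₁ ∩ D₂) := hD₁.inter hD₂
    have hg1 : EqOn (fun z => if z ∈ E then f z else F12 z) f E := fun z hz => if_pos hz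
    have hg2 : EqOn (fun z => if z ∈ E then f z else F12 z) F12 (D₁ ∩ D₂) := by
      intro z hz
      by_cases hzE : z ∈ E
      · show (if z ∈ E then f z else F12 z) = F12 z
        rw [if_pos hzE]
        exact (hF12e (hED z hzE hz.1 hz.2)).symm
      · exact if_neg hzE
    have hcont : ContinuousOn (fun z => if z ∈ E then f z else F12 z) (E ∪ (D₁ ∩ D₂)) :=
      ContinuousOn.union_of_isClosed ((hf.mono hEC).congr hg1)
        (hF12.continuousOn.congr hg2) hE hcl
    have hmap : MapsTo (fun z => if z ∈ E then f z else F12 z) (E ∪ (D₁ ∩ D₂)) S := by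
      intro z _
      by_cases hzE : z ∈ E
      · show (if z ∈ E then f z else F12 z) ∈ S
        rw [if_pos hzE]
        exact hES hzE
      · show (if z ∈ E then f z else F12 z) ∈ S
        rw [if_neg hzE]
        exact hsub (hF12S z)
    obtain ⟨G, hG, hGS, hGe⟩ := hS Z (E ∪ (D₁ ∩ D₂)) (hE.union hcl) _ hcont hmap
    exact ⟨G, hG, hGS, (hGe.mono subset_union_left).trans hg1,
      (hGe.mono subset_union_right).trans hg2⟩
  obtain ⟨G₁, hG₁, hG₁S, hG₁e, hG₁F⟩ := key C₁ hC₁ (fun z hz => hz.1)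
    (fun z hz _ hz2 => ⟨hz, h12 z hz hz2⟩) S₁ e₁ (fun z hz => hz.2) inter_subset_left
  obtain ⟨G₂, hG₂, hG₂S, hG₂e, hG₂F⟩ := key C₂ hC₂ (fun z hz => hz.1)
    (fun z hz hz1 _ => ⟨h21 z hz hz1, hz⟩) S₂ e₂ (fun z hz => hz.2) inter_subset_right
  have hF1 : EqOn (fun z => if z ∈ D₁ then G₁ z else G₂ z) G₁ D₁ := fun z hz => if_pos hz
  have hF2 : EqOn (fun z => if z ∈ D₁ then G₁ z else G₂ z) G₂ D₂ := by
    intro z hz
    by_cases hz1 : z ∈ D₁
    · show (if z ∈ D₁ then G₁ z else G₂ z) = G₂ z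
      rw [if_pos hz1, hG₁F ⟨hz1, hz⟩, hG₂F ⟨hz1, hz⟩]
    · exact if_neg hz1
  refine ⟨fun z => if z ∈ D₁ then G₁ z else G₂ z, ?_, ?_, ?_⟩
  · rw [← continuousOn_univ, ← hDD]
    exact ContinuousOn.union_of_isClosed (hG₁.continuousOn.congr hF1)
      (hG₂.continuousOn.congr hF2) hD₁ hD₂
  · intro z
    by_cases hz1 : z ∈ D₁
    · show (if z ∈ D₁ then G₁ z else G₂ z) ∈ S₁ ∪ S₂
      rw [if_pos hz1]
      exact Or.inl (hG₁S z)
    · show (if z ∈ D₁ then G₁ z else G₂ z) ∈ S₁ ∪ S₂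
      rw [if_neg hz1]
      exact Or.inr (hG₂S z)
  · intro z hz
    rcases hm hz with h | h
    · have hz1 : z ∈ C₁ := ⟨hz, h⟩
      exact (hF1 (hCD₁ hz1)).trans (hG₁e hz1)
    · have hz2 : z ∈ C₂ := ⟨hz, h⟩
      exact (hF2 (hCD₂ hz2)).trans (hG₂e hz2)

/-- finitely many closed AE sets any two of which meet exactly in the AE set `S₀` -/
theorem aeset_iUnion {ι : Type} [Finite ι] [Nonempty ι] {S : ι → Set Y} {S₀ : Set Y}
    (hc : ∀ i, IsClosed (S i)) (he : ∀ i, AESet (S i)) (h₀ : AESet S₀)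
    (hsub : ∀ i, S₀ ⊆ S i) (hint : ∀ i j, i ≠ j → S i ∩ S j = S₀) : AESet (⋃ i, S i) := by
  classical
  have := Fintype.ofFinite ι
  have key : ∀ s : Finset ι, s.Nonempty → AESet (⋃ i ∈ s, S i) := by
    intro s hs
    induction hs using Finset.Nonempty.cons_induction with
    | singleton a =>
      have h : (⋃ i ∈ ({a} : Finset ι), S i) = S a := by simp
      rw [h]
      exact he a
    | cons a s ha hs ih =>
      have h : (⋃ i ∈ Finset.cons a s ha, S i) = S a ∪ ⋃ i ∈ s, S i := by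
        ext x
        simp only [Finset.mem_cons, mem_iUnion, exists_prop, mem_union, exists_eq_or_imp]
      rw [h]
      have hcs : IsClosed (⋃ i ∈ s, S i) :=
        s.finite_toSet.isClosed_biUnion fun i _ => hc i
      refine aeset_union (hc a) hcs (he a) ih ?_
      have hi : S a ∩ ⋃ i ∈ s, S i = S₀ := by
        ext x
        simp only [mem_inter_iff, mem_iUnion, exists_prop]
        constructor
        · rintro ⟨hxa, i, his, hxi⟩
          have hne : a ≠ i := fun h => ha (h ▸ his)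
          rw [← hint a i hne]
          exact ⟨hxa, hxi⟩
        · intro hx
          obtain ⟨i, hi⟩ := hs
          exact ⟨hsub a hx, i, hi, hsub i hx⟩
      rw [hi]
      exact h₀
  have h := key Finset.univ Finset.univ_nonempty
  simpa using h

theorem isAE_subtype_iff {S : Set Y} (hne : S.Nonempty) : IsAE ↥S ↔ AESet S := by
  classical
  constructor
  · intro h Z _ _ _ C hC f hf hm
    obtain ⟨y₀, hy₀⟩ := hne
    let f' : Z → ↥S := fun z => if hz : z ∈ C then ⟨f z, hm hz⟩ else ⟨y₀, hy₀⟩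
    have hf'v : ∀ z, z ∈ C → (f' z).1 = f z := by
      intro z hz
      simp only [f', dif_pos hz]
    have hf' : ContinuousOn f' C := by
      rw [Topology.IsInducing.subtypeVal.continuousOn_iff]
      exact hf.congr hf'v
    obtain ⟨F, hF, -, hFe⟩ := h Z C hC f' hf' (mapsTo_univ _ _)
    refine ⟨fun z => (F z).1, continuous_subtype_val.comp hF, fun z => (F z).2, fun z hz => ?_⟩
    show (F z).1 = f z
    rw [hFe hz]
    exact hf'v z hz
  · intro h Z _ _ _ C hC f hf hm
    obtain ⟨F, hF, hFS, hFe⟩ := h Z C hC (fun z => (f z).1)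
      (continuous_subtype_val.comp_continuousOn hf) (fun z _ => (f z).2)
    refine ⟨fun z => ⟨F z, hFS z⟩, hF.subtype_mk hFS, fun z => mem_univ _, fun z hz => ?_⟩
    exact Subtype.ext (hFe hz)

instance ae1_nonempty_CN : Nonempty CN := ⟨apex⟩

/-- image of an AE compact set under an injective continuous map -/
theorem AESet.image_of_injOn [Nonempty Y] [T2Space Y'] {S : Set Y} (hS : AESet S)
    (hc : IsCompact S) (f : Y → Y') (hf : ContinuousOn f S) (hinj : InjOn f S) :
    AESet (f '' S) := by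
  refine AESet.of_retract hS (Function.invFunOn f S) f ?_ hf ?_ (mapsTo_image f S) ?_
  · rw [continuousOn_iff_isClosed]
    intro t ht
    refine ⟨f '' (S ∩ t), ?_, ?_⟩
    · exact ((hc.inter_right ht).image_of_continuousOn (hf.mono inter_subset_left)).isClosed
    · ext y
      constructor
      · rintro ⟨hyt, x, hx, rfl⟩
        have h1 : Function.invFunOn f S (f x) ∈ S := Function.invFunOn_mem ⟨x, hx, rfl⟩
        have h2 : f (Function.invFunOn f S (f x)) = f x := Function.invFunOn_eq ⟨x, hx, rfl⟩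
        exact ⟨⟨_, ⟨h1, hyt⟩, h2⟩, ⟨x, hx, rfl⟩⟩
      · rintro ⟨⟨x, ⟨hx, hxt⟩, rfl⟩, -⟩
        have h1 : Function.invFunOn f S (f x) ∈ S := Function.invFunOn_mem ⟨x, hx, rfl⟩
        have h2 : f (Function.invFunOn f S (f x)) = f x := Function.invFunOn_eq ⟨x, hx, rfl⟩
        have h3 : Function.invFunOn f S (f x) = x := hinj h1 hx h2
        refine ⟨?_, ⟨x, hx, rfl⟩⟩
        show Function.invFunOn f S (f x) ∈ t
        rw [h3]
        exact hxt
  · rintro y ⟨x, hx, rfl⟩
    exact Function.invFunOn_mem ⟨x, hx, rfl⟩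
  · rintro y ⟨x, hx, rfl⟩
    exact Function.invFunOn_eq ⟨x, hx, rfl⟩

/-- restriction of the extension property to `IsAE` -/
theorem IsAE.extend (h : IsAE Y) {Z : Type} [TopologicalSpace Z] [CompactSpace Z]
    [MetrizableSpace Z] {C : Set Z} (hC : IsClosed C) {f : Z → Y} (hf : ContinuousOn f C) :
    ∃ F : Z → Y, Continuous F ∧ EqOn F f C := by
  obtain ⟨F, hF, -, hFe⟩ := h Z C hC f hf (mapsTo_univ _ _)
  exact ⟨F, hF, hFe⟩

end T01

end Pool.MP55
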