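import Pool.Agent.Lib.MP_55dccf_gt.Defs2

/-!
# MP_55dccf_gt : T02, exchange lemma, controlled homotopies, equiconnecting maps
-/

set_option autoImplicit false

open Set Topology TopologicalSpace unitInterval

namespace Pool.MP55

section T02

/-- a map which is continuous on each member of a finite closed cover is continuous -/
private theorem ae2_continuous_of_cover {Z W : Type} [TopologicalSpace Z] [TopologicalSpace W]
    {κ : Type} [Finite κ] (A : κ → Set Z) (hA : ∀ i, IsClosed (A i)) (hcov : ∀ z, ∃ i, z ∈ A i)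
    {F : Z → W} (hF : ∀ i, ContinuousOn F (A i)) : Continuous F :=
  (locallyFinite_of_finite A).continuous (by
    rw [eq_univ_iff_forall]; intro z; obtain ⟨i, hi⟩ := hcov z; exact mem_iUnion.2 ⟨i, hi⟩) hA hF

private theorem ae2_union {Z W : Type} [TopologicalSpace Z] [TopologicalSpace W]
    {S T : Set Z} (hS : IsClosed S) (hT : IsClosed T) {F : Z → W} (h1 : ContinuousOn F S)
    (h2 : ContinuousOn F T) : ContinuousOn F (S ∪ T) := by
  intro z hz
  have a : ContinuousWithinAt F S z := by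
    by_cases h : z ∈ S
    · exact h1 z h
    · exact continuousWithinAt_of_notMem_closure (by rwa [hS.closure_eq])
  have b : ContinuousWithinAt F T z := by
    by_cases h : z ∈ T
    · exact h2 z h
    · exact continuousWithinAt_of_notMem_closure (by rwa [hT.closure_eq])
  exact continuousWithinAt_union.2 ⟨a, b⟩

variable {B B' : Type} [TopologicalSpace B] [TopologicalSpace B']

/-- exchange lemma: `B = B0 ∪ ⋃ R i`, `p : B' → B` is a homeomorphism over `B0` (with inverse `s`)
and the sets `p⁻¹ (R i)` are AE. -/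
theorem isAE_exchange {ι : Type} [Finite ι] (p : B' → B) (hp : Continuous p)
    (B0 : Set B) (R : ι → Set B) (hB0 : IsClosed B0) (hR : ∀ i, IsClosed (R i))
    (hRd : ∀ i j, i ≠ j → Disjoint (R i) (R j)) (hcov : ∀ b, b ∈ B0 ∨ ∃ i, b ∈ R i)
    (s : B → B') (hs : ContinuousOn s B0) (hps : ∀ b ∈ B0, p (s b) = b)
    (hsp : ∀ x, p x ∈ B0 → s (p x) = x) (hK : ∀ i, AESet (p ⁻¹' (R i))) (hAE : IsAE B) :
    IsAE B' := by
  classical
  intro Z _ _ _ C hC f hf _
  obtain ⟨G, hG, -, hGC⟩ := hAE Z C hC (p ∘ f) (hp.comp_continuousOn hf) (mapsTo_univ _ _)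
  -- the functions on the pieces
  set g : Z → B' := fun z => if G z ∈ B0 then s (G z) else f z with hg
  have hg0 : ∀ z, G z ∈ B0 → g z = s (G z) := fun z hz => by simp only [hg, if_pos hz]
  have hgC : ∀ z ∈ C, g z = f z := by
    intro z hz
    by_cases h : G z ∈ B0
    · rw [hg0 z h]
      have h1 : G z = p (f z) := hGC hz
      rw [h1]; rw [h1] at h
      exact hsp _ h
    · simp only [hg, if_neg h]
  have hB0Z : IsClosed (G ⁻¹' B0) := hB0.preimage hG
  have hgcont : ContinuousOn g (G ⁻¹' B0 ∪ C) := by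
    refine ae2_union hB0Z hC ?_ ?_
    · refine ContinuousOn.congr ?_ (fun z hz => hg0 z hz)
      exact hs.comp hG.continuousOn (fun z hz => hz)
    · exact hf.congr hgC
  have hpg : ∀ z ∈ G ⁻¹' B0 ∪ C, p (g z) = G z := by
    rintro z (hz | hz)
    · rw [hg0 z hz]; exact hps _ hz
    · rw [hgC z hz]; exact (hGC hz).symm
  have hext : ∀ i, ∃ F : Z → B', Continuous F ∧ (∀ z, F z ∈ p ⁻¹' (R i)) ∧
      EqOn F g (G ⁻¹' (R i) ∩ (G ⁻¹' B0 ∪ C)) := by
    intro i
    refine hK i Z _ (((hR i).preimage hG).inter (hB0Z.union hC)) g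
      (hgcont.mono inter_subset_right) ?_
    intro z hz
    have := hpg z hz.2
    rw [mem_preimage, this]; exact hz.1
  choose Fi hFi hFiR hFig using hext
  set F : Z → B' := fun z => if G z ∈ B0 then s (G z) else
    if h : ∃ i, G z ∈ R i then Fi h.choose z else f z with hF
  have hF0 : ∀ z, G z ∈ B0 → F z = s (G z) := fun z hz => by simp only [hF, if_pos hz]
  have hFR : ∀ i z, G z ∈ R i → F z = Fi i z := by
    intro i z hz
    by_cases h0 : G z ∈ B0
    · rw [hF0 z h0, hFig i ⟨hz, Or.inl h0⟩, hg0 z h0]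
    · have h : ∃ i, G z ∈ R i := ⟨i, hz⟩
      simp only [hF, if_neg h0, dif_pos h]
      have : h.choose = i := by
        by_contra hne
        exact (Set.disjoint_left.1 (hRd _ _ hne)) h.choose_spec hz
      rw [this]
  refine ⟨F, ?_, fun z => mem_univ _, ?_⟩
  · refine ae2_continuous_of_cover (κ := Option ι)
      (fun o => o.elim (G ⁻¹' B0) (fun i => G ⁻¹' (R i))) ?_ ?_ ?_
    · rintro (_ | i)
      · exact hB0Z
      · exact (hR i).preimage hG
    · intro z
      rcases hcov (G z) with h | ⟨i, h⟩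
      · exact ⟨none, h⟩
      · exact ⟨some i, h⟩
    · rintro (_ | i)
      · exact (hs.comp hG.continuousOn (fun z hz => hz)).congr (fun z hz => hF0 z hz)
      · exact (hFi i).continuousOn.congr (fun z hz => hFR i z hz)
  · intro z hz
    rcases hcov (G z) with h | ⟨i, h⟩
    · rw [hF0 z h, ← hg0 z h, hgC z hz]
    · rw [hFR i z h, hFig i ⟨h, Or.inr hz⟩, hgC z hz]

/-- controlled homotopy from the identity to `q ∘ p` -/
theorem exists_homotopy [CompactSpace B'] [MetrizableSpace B'] {ι : Type} [Finite ι]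
    (p : B' → B) (hp : Continuous p) (q : B → B') (hq : Continuous q)
    (R : ι → Set B) (hR : ∀ i, IsClosed (R i)) (hRd : ∀ i j, i ≠ j → Disjoint (R i) (R j))
    (hK : ∀ i, AESet (p ⁻¹' (R i))) (hqR : ∀ i, ∀ b ∈ R i, p (q b) ∈ R i)
    (hfix : ∀ x, (∀ i, p x ∉ R i) → q (p x) = x) :
    ∃ H : B' × I → B', Continuous H ∧ (∀ x, H (x, 0) = x) ∧ (∀ x, H (x, 1) = q (p x)) ∧
      ∀ x t, H (x, t) = x ∨ ∃ i, p x ∈ R i ∧ p (H (x, t)) ∈ R i := by
  classical
  set W : Set B' := {x | q (p x) = x} with hW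
  have hWc : IsClosed W := isClosed_eq (hq.comp hp) continuous_id
  set V : Set B' := closure (⋃ i, p ⁻¹' (R i))ᶜ with hV
  have hVc : IsClosed V := isClosed_closure
  have hVW : V ⊆ W := by
    refine closure_minimal (fun x hx => ?_) hWc
    refine hfix x fun i hi => hx (mem_iUnion.2 ⟨i, hi⟩)
  set g : B' × I → B' := fun z => if z.2 = 1 then q (p z.1) else z.1 with hg
  have hg1 : ∀ x, g (x, 1) = q (p x) := fun x => by simp [hg]
  have hg0 : ∀ z : B' × I, z.2 ≠ 1 → g z = z.1 := fun z hz => by simp [hg, hz]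
  have hgV : ∀ z : B' × I, z.1 ∈ V → g z = z.1 := by
    intro z hz
    by_cases h : z.2 = 1
    · simp only [hg, if_pos h]; exact hVW hz
    · exact hg0 z h
  have hext : ∀ i, ∃ F : B' × I → B', Continuous F ∧ (∀ z, F z ∈ p ⁻¹' (R i)) ∧
      EqOn F g ((p ⁻¹' (R i)) ×ˢ {0} ∪ ((p ⁻¹' (R i)) ×ˢ {1} ∪ (p ⁻¹' (R i) ∩ V) ×ˢ univ)) := by
    intro i
    have hKc : IsClosed (p ⁻¹' (R i)) := (hR i).preimage hp
    have c1 : IsClosed ((p ⁻¹' (R i)) ×ˢ ({0} : Set I)) := hKc.prod isClosed_singleton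
    have c2 : IsClosed ((p ⁻¹' (R i)) ×ˢ ({1} : Set I)) := hKc.prod isClosed_singleton
    have c3 : IsClosed ((p ⁻¹' (R i) ∩ V) ×ˢ (univ : Set I)) := (hKc.inter hVc).prod isClosed_univ
    refine hK i (B' × I) _ (c1.union (c2.union c3)) g ?_ ?_
    · refine ae2_union c1 (c2.union c3) ?_ (ae2_union c2 c3 ?_ ?_)
      · refine continuous_fst.continuousOn.congr ?_
        rintro ⟨x, t⟩ ⟨-, ht⟩
        have ht0 : t = 0 := ht
        subst ht0
        exact hg0 (x, 0) (zero_ne_one : (0 : I) ≠ 1)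
      · refine ((hq.comp hp).comp continuous_fst).continuousOn.congr ?_
        rintro ⟨x, t⟩ ⟨-, ht⟩
        have ht1 : t = 1 := ht
        subst ht1
        exact hg1 x
      · refine continuous_fst.continuousOn.congr ?_
        rintro ⟨x, t⟩ ⟨hx, -⟩
        exact hgV _ hx.2
    · rintro ⟨x, t⟩ hz
      have hx : p x ∈ R i := by
        rcases hz with hz | hz | hz
        · exact hz.1
        · exact hz.1
        · exact hz.1.1
      by_cases h : t = 1
      · subst h
        rw [hg1]; exact hqR i _ hx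
      · rw [hg0 _ h]; exact hx
  choose Fi hFi hFiR hFig using hext
  set H : B' × I → B' := fun z => if h : ∃ i, p z.1 ∈ R i then Fi h.choose z else z.1 with hH
  have hHR : ∀ i z, p z.1 ∈ R i → H z = Fi i z := by
    intro i z hz
    have h : ∃ i, p z.1 ∈ R i := ⟨i, hz⟩
    simp only [hH, dif_pos h]
    have : h.choose = i := by
      by_contra hne
      exact (Set.disjoint_left.1 (hRd _ _ hne)) h.choose_spec hz
    rw [this]
  have hHV : ∀ z : B' × I, z.1 ∈ V → H z = z.1 := by
    intro z hz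
    by_cases h : ∃ i, p z.1 ∈ R i
    · obtain ⟨i, hi⟩ := h
      rw [hHR i z hi, hFig i (Or.inr (Or.inr ⟨⟨hi, hz⟩, mem_univ _⟩)), hgV z hz]
    · simp only [hH, dif_neg h]
  refine ⟨H, ?_, ?_, ?_, ?_⟩
  · refine ae2_continuous_of_cover (κ := Option ι)
      (fun o => o.elim (Prod.fst ⁻¹' V) (fun i => (fun z : B' × I => p z.1) ⁻¹' (R i))) ?_ ?_ ?_
    · rintro (_ | i)
      · exact hVc.preimage continuous_fst
      · exact (hR i).preimage (hp.comp continuous_fst)
    · intro z
      by_cases h : ∃ i, p z.1 ∈ R i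
      · obtain ⟨i, hi⟩ := h
        exact ⟨some i, hi⟩
      · refine ⟨none, subset_closure ?_⟩
        intro hz
        rw [mem_iUnion] at hz
        exact h hz
    · rintro (_ | i)
      · exact continuous_fst.continuousOn.congr (fun z hz => hHV z hz)
      · exact (hFi i).continuousOn.congr (fun z hz => hHR i z hz)
  · intro x
    by_cases h : ∃ i, p x ∈ R i
    · obtain ⟨i, hi⟩ := h
      rw [hHR i (x, 0) hi, hFig i (Or.inl (mk_mem_prod hi (mem_singleton _))),
        hg0 (x, 0) (zero_ne_one : (0 : I) ≠ 1)]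
    · have h' : ¬ ∃ i, p (x, (0 : I)).1 ∈ R i := h
      rw [hH]; simp only [dif_neg h']
  · intro x
    by_cases h : ∃ i, p x ∈ R i
    · obtain ⟨i, hi⟩ := h
      rw [hHR i (x, 1) hi, hFig i (Or.inr (Or.inl (mk_mem_prod hi (mem_singleton _)))), hg1]
    · simp only [hH, dif_neg h]
      exact (hfix x (fun i hi => h ⟨i, hi⟩)).symm
  · intro x t
    by_cases h : ∃ i, p x ∈ R i
    · obtain ⟨i, hi⟩ := h
      refine Or.inr ⟨i, hi, ?_⟩
      rw [hHR i (x, t) hi]
      exact hFiR i _
    · left; simp only [hH, dif_neg h]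

/-- equiconnecting map -/
theorem exists_lam {Y : Type} [TopologicalSpace Y] [CompactSpace Y] [MetrizableSpace Y]
    (h : IsAE Y) : ∃ lam : Y × Y × ℝ → Y, Continuous lam ∧ (∀ x y, lam (x, y, 0) = x) ∧
      (∀ x y, lam (x, y, 1) = y) ∧ ∀ x t, lam (x, x, t) = x := by
  classical
  set g : Y × Y × I → Y := fun z => if z.2.2 = 1 then z.2.1 else z.1 with hg
  set C : Set (Y × Y × I) := {z | z.2.2 = 0} ∪ ({z | z.2.2 = 1} ∪ {z | z.1 = z.2.1}) with hC
  have c1 : IsClosed {z : Y × Y × I | z.2.2 = 0} := isClosed_eq (by fun_prop) continuous_const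
  have c2 : IsClosed {z : Y × Y × I | z.2.2 = 1} := isClosed_eq (by fun_prop) continuous_const
  have c3 : IsClosed {z : Y × Y × I | z.1 = z.2.1} := isClosed_eq (by fun_prop) (by fun_prop)
  have hg0 : ∀ z : Y × Y × I, z.2.2 = 0 → g z = z.1 := by
    intro z hz
    have : z.2.2 ≠ 1 := by rw [hz]; exact zero_ne_one
    simp only [hg, if_neg this]
  have hg1 : ∀ z : Y × Y × I, z.2.2 = 1 → g z = z.2.1 := by
    intro z hz
    simp only [hg, if_pos hz]
  have hg2 : ∀ z : Y × Y × I, z.1 = z.2.1 → g z = z.1 := by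
    intro z hz
    by_cases h : z.2.2 = 1
    · simp only [hg, if_pos h, hz]
    · simp only [hg, if_neg h]
  obtain ⟨L, hL, -, hLC⟩ := h (Y × Y × I) C (c1.union (c2.union c3)) g
    (ae2_union c1 (c2.union c3) (continuous_fst.continuousOn.congr hg0)
      (ae2_union c2 c3 ((continuous_fst.comp continuous_snd).continuousOn.congr hg1)
        (continuous_fst.continuousOn.congr hg2))) (mapsTo_univ _ _)
  refine ⟨fun z => L (z.1, z.2.1, projIcc 0 1 zero_le_one z.2.2), ?_, ?_, ?_, ?_⟩
  · exact hL.comp (continuous_fst.prodMk ((continuous_fst.comp continuous_snd).prodMk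
      (continuous_projIcc.comp (continuous_snd.comp continuous_snd))))
  · intro x y
    have h0 : projIcc (0 : ℝ) 1 zero_le_one 0 = 0 := projIcc_left _
    simp only [h0]
    rw [hLC (Or.inl rfl), hg0 _ rfl]
  · intro x y
    have h1 : projIcc (0 : ℝ) 1 zero_le_one 1 = 1 := projIcc_right _
    simp only [h1]
    rw [hLC (Or.inr (Or.inl rfl)), hg1 _ rfl]
  · intro x t
    simp only
    rw [hLC (Or.inr (Or.inr rfl)), hg2 _ rfl]

/-- uniform local path connectedness -/
theorem exists_joinedIn_ball {Y : Type} [MetricSpace Y] [CompactSpace Y] (h : IsAE Y)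
    {ε : ℝ} (hε : 0 < ε) : ∃ δ > 0, ∀ x y : Y, dist x y < δ → JoinedIn (Metric.ball x ε) x y := by
  obtain ⟨lam, hlam, h0, h1, hd⟩ := exists_lam h
  have hL : Continuous fun z : Y × Y × I => lam (z.1, z.2.1, (z.2.2 : ℝ)) :=
    hlam.comp (continuous_fst.prodMk ((continuous_fst.comp continuous_snd).prodMk
      (continuous_subtype_val.comp (continuous_snd.comp continuous_snd))))
  have hu := CompactSpace.uniformContinuous_of_continuous hL
  obtain ⟨δ, hδ, H⟩ := Metric.uniformContinuous_iff.1 hu ε hε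
  refine ⟨δ, hδ, fun x y hxy => ?_⟩
  refine ⟨⟨⟨fun t => lam (x, y, (t : ℝ)), ?_⟩, ?_, ?_⟩, ?_⟩
  · exact hlam.comp (continuous_const.prodMk (continuous_const.prodMk continuous_subtype_val))
  · exact h0 x y
  · exact h1 x y
  · intro t
    rw [Metric.mem_ball]
    have := H (a := (x, y, t)) (b := (x, x, t)) (by
      rw [Prod.dist_eq, Prod.dist_eq]
      simp only [dist_self]
      rw [max_eq_right (le_max_of_le_left dist_nonneg), max_eq_left dist_nonneg, dist_comm]
      exact hxy)
    simp only [hd] at this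
    exact this

end T02

end Pool.MP55
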