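import Pool.Agent.Lib.MP_55dccf_gt.Defs2

/-!
# MP_55dccf_gt : API of the cone
-/

set_option autoImplicit false

open Set Topology TopologicalSpace unitInterval Filter

namespace Pool.MP55

/-! ## T03 (Cone.lean): API of the cone -/

section T03

theorem nm_nonneg (z : CN) : 0 ≤ nm z := norm_nonneg _

theorem nm_le_one (z : CN) : nm z ≤ 1 := by
  obtain ⟨z, r, hr, x, hx, rfl⟩ := z
  show ‖r • x‖ ≤ 1
  rw [norm_smul, norm_of_mem_Th hx, mul_one, Real.norm_of_nonneg hr.1]
  exact hr.2

theorem continuous_nm : Continuous nm := continuous_norm.comp continuous_subtype_val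

theorem continuous_cl : Continuous cl := by
  unfold cl
  fun_prop

theorem cl_of_mem {r : ℝ} (h : r ∈ Icc (0 : ℝ) 1) : cl r = r := by
  unfold cl
  rw [min_eq_right h.2, max_eq_right h.1]

theorem nm_rad (r : ℝ) (x : TH) : nm (rad r x) = cl r := by
  show ‖cl r • x.1‖ = cl r
  rw [norm_smul, norm_of_mem_Th x.2, mul_one, Real.norm_of_nonneg (cl_mem r).1]

theorem nm_inc (x : TH) : nm (inc x) = 1 := by
  rw [inc, nm_rad, cl_of_mem ⟨zero_le_one, le_rfl⟩]

theorem nm_apex : nm apex = 0 := by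
  rw [apex, nm_rad, cl_of_mem ⟨le_rfl, zero_le_one⟩]

theorem Cone.apex_val : apex.1 = 0 := by
  have h := nm_apex
  exact norm_eq_zero.1 h

theorem nm_eq_zero_iff {z : CN} : nm z = 0 ↔ z = apex := by
  constructor
  · intro h
    apply Subtype.ext
    rw [Cone.apex_val]
    exact norm_eq_zero.1 h
  · rintro rfl
    exact nm_apex

theorem rad_of_nonpos {r : ℝ} (h : r ≤ 0) (x : TH) : rad r x = apex := by
  rw [← nm_eq_zero_iff, nm_rad, cl_of_le h]

theorem rad_zero (x : TH) : rad 0 x = apex := rad_of_nonpos le_rfl x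

theorem Cone.ne_apex_iff {z : CN} : z ≠ apex ↔ z.1 ≠ 0 := by
  rw [Ne, ← nm_eq_zero_iff]
  exact not_congr norm_eq_zero

theorem Cone.dirT_val {z : CN} (h : z.1 ≠ 0) : (dirT z).1 = ‖z.1‖⁻¹ • z.1 := by
  unfold dirT
  rw [dif_neg h]

theorem Cone.cl_pos {r : ℝ} (h : 0 < r) : 0 < cl r := by
  unfold cl
  exact lt_max_of_lt_right (lt_min one_pos h)

theorem dirT_rad {r : ℝ} (h : 0 < r) (x : TH) : dirT (rad r x) = x := by
  have h1 : 0 < cl r := Cone.cl_pos h
  have h2 : (rad r x).1 = cl r • x.1 := rfl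
  have h3 : ‖(rad r x).1‖ = cl r := nm_rad r x
  have h4 : (rad r x).1 ≠ 0 := by
    rw [← norm_ne_zero_iff, h3]
    exact h1.ne'
  apply Subtype.ext
  rw [Cone.dirT_val h4, h3, h2, smul_smul, inv_mul_cancel₀ h1.ne', one_smul]

theorem dirT_inc (x : TH) : dirT (inc x) = x := dirT_rad one_pos x

theorem dirT_apex : dirT apex = baseT := by
  unfold dirT
  rw [dif_pos Cone.apex_val]

theorem rad_nm_dirT (z : CN) : rad (nm z) (dirT z) = z := by
  by_cases h : z = apex
  · rw [h, nm_apex, rad_zero]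
  · have h1 : z.1 ≠ 0 := Cone.ne_apex_iff.1 h
    apply Subtype.ext
    show cl (nm z) • (dirT z).1 = z.1
    rw [cl_of_mem ⟨nm_nonneg z, nm_le_one z⟩, Cone.dirT_val h1, nm, smul_smul,
      mul_inv_cancel₀ (norm_ne_zero_iff.2 h1), one_smul]

theorem rad_dirT_of {z : CN} {r : ℝ} (h : nm z = r) : rad r (dirT z) = z := by
  rw [← h, rad_nm_dirT]

theorem inc_dirT {z : CN} (h : nm z = 1) : inc (dirT z) = z := rad_dirT_of h

theorem continuous_rad : Continuous fun p : ℝ × TH => rad p.1 p.2 := by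
  refine Continuous.subtype_mk ?_ _
  exact (continuous_cl.comp continuous_fst).smul (continuous_subtype_val.comp continuous_snd)

theorem continuous_inc : Continuous inc :=
  continuous_rad.comp (continuous_const.prodMk continuous_id)

theorem inc_injective : Function.Injective inc := fun x y h => by
  rw [← dirT_inc x, ← dirT_inc y, h]

theorem continuousOn_dirT : ContinuousOn dirT {z | z ≠ apex} := by
  rw [IsInducing.subtypeVal.continuousOn_iff]
  have h1 : ContinuousOn (fun z : CN => ‖z.1‖⁻¹ • z.1) {z | z ≠ apex} := by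
    have h2 : ContinuousOn (fun z : CN => ‖z.1‖⁻¹) {z | z ≠ apex} :=
      ContinuousOn.inv₀ continuous_nm.continuousOn fun z hz =>
        norm_ne_zero_iff.2 (Cone.ne_apex_iff.1 hz)
    exact h2.smul continuous_subtype_val.continuousOn
  exact h1.congr fun z hz => Cone.dirT_val (Cone.ne_apex_iff.1 hz)

theorem Cone.continuousWithinAt_rad_of {X : Type} [TopologicalSpace X] {s : Set X} {g : X → ℝ}
    {h : X → TH} {x : X} (hg : ContinuousWithinAt g s x)
    (hh : 0 < g x → ContinuousWithinAt h s x) :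
    ContinuousWithinAt (fun x => rad (g x) (h x)) s x := by
  by_cases hx : 0 < g x
  · exact continuous_rad.continuousAt.comp_continuousWithinAt (f := fun x => (g x, h x))
      (hg.prodMk (hh hx))
  · rw [IsInducing.subtypeVal.continuousWithinAt_iff]
    have h1 : (rad (g x) (h x)).1 = 0 := by
      rw [rad_of_nonpos (not_lt.1 hx), Cone.apex_val]
    show Tendsto (fun y => (rad (g y) (h y)).1) (𝓝[s] x) (𝓝 (rad (g x) (h x)).1)
    rw [h1, tendsto_zero_iff_norm_tendsto_zero]
    have h2 : (fun y => ‖(rad (g y) (h y)).1‖) = fun y => cl (g y) := by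
      funext y
      exact nm_rad _ _
    rw [h2, ← cl_of_le (not_lt.1 hx)]
    exact continuous_cl.continuousAt.comp_continuousWithinAt hg

/-- the direction may be discontinuous where the radius vanishes -/
theorem continuous_rad_of {X : Type} [TopologicalSpace X] {g : X → ℝ} {h : X → TH}
    (hg : Continuous g) (hh : ∀ x, 0 < g x → ContinuousAt h x) :
    Continuous fun x => rad (g x) (h x) := by
  rw [continuous_iff_continuousAt]
  intro x
  rw [← continuousWithinAt_univ]
  exact Cone.continuousWithinAt_rad_of hg.continuousAt.continuousWithinAt fun hx =>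
    (hh x hx).continuousWithinAt

theorem continuousOn_rad_of {X : Type} [TopologicalSpace X] {s : Set X} {g : X → ℝ} {h : X → TH}
    (hg : ContinuousOn g s) (hh : ∀ x ∈ s, 0 < g x → ContinuousWithinAt h s x) :
    ContinuousOn (fun x => rad (g x) (h x)) s := fun x hx =>
  Cone.continuousWithinAt_rad_of (hg x hx) (hh x hx)

theorem Cone.continuousAt_dirT {z : CN} (h : z ≠ apex) : ContinuousAt dirT z :=
  continuousOn_dirT.continuousAt (isOpen_ne.mem_nhds h)

theorem Cone.continuous_rad_dirT {X : Type} [TopologicalSpace X] {g : X → ℝ} {f : X → CN}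
    (hg : Continuous g) (hf : Continuous f) (h : ∀ x, 0 < g x → f x ≠ apex) :
    Continuous fun x => rad (g x) (dirT (f x)) :=
  continuous_rad_of hg fun x hx =>
    ContinuousAt.comp (g := dirT) (Cone.continuousAt_dirT (h x hx)) hf.continuousAt

theorem continuous_st {κ : ℝ} (h0 : 0 < κ) : Continuous (st κ) := by
  refine Cone.continuous_rad_dirT (continuous_nm.div_const κ) continuous_id fun z hz => ?_
  rintro rfl
  simp [nm_apex] at hz

theorem sh_apex (κ : ℝ) : sh κ apex = apex := by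
  rw [sh, nm_apex, mul_zero, rad_zero]

theorem continuous_sh (κ : ℝ) : Continuous (sh κ) := by
  refine Cone.continuous_rad_dirT (continuous_nm.const_mul κ) continuous_id fun z hz => ?_
  rintro rfl
  simp [nm_apex] at hz

theorem nm_st {κ : ℝ} (h0 : 0 < κ) (z : CN) : nm (st κ z) = min 1 (nm z / κ) := by
  rw [st, nm_rad, cl, max_eq_right (le_min zero_le_one (div_nonneg (nm_nonneg z) h0.le))]

theorem nm_sh {κ : ℝ} (h0 : 0 < κ) (h1 : κ ≤ 1) (z : CN) : nm (sh κ z) = κ * nm z := by
  rw [sh, nm_rad, cl_of_mem ⟨mul_nonneg h0.le (nm_nonneg z),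
    mul_le_one₀ h1 (nm_nonneg z) (nm_le_one z)⟩]

theorem Cone.nm_pos {z : CN} (h : z ≠ apex) : 0 < nm z :=
  lt_of_le_of_ne (nm_nonneg z) fun h' => h (nm_eq_zero_iff.1 h'.symm)

theorem dirT_st {κ : ℝ} (h0 : 0 < κ) (z : CN) : dirT (st κ z) = dirT z := by
  by_cases h : z = apex
  · rw [h, st, nm_apex, zero_div, rad_zero]
  · exact dirT_rad (div_pos (Cone.nm_pos h) h0) _

theorem dirT_sh {κ : ℝ} (h0 : 0 < κ) (z : CN) : dirT (sh κ z) = dirT z := by
  by_cases h : z = apex
  · rw [h, sh_apex]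
  · exact dirT_rad (mul_pos h0 (Cone.nm_pos h)) _

theorem st_sh {κ : ℝ} (h0 : 0 < κ) (h1 : κ ≤ 1) (z : CN) : st κ (sh κ z) = z := by
  rw [st, dirT_sh h0, nm_sh h0 h1, mul_div_cancel_left₀ _ h0.ne', rad_nm_dirT]

theorem sh_st {κ : ℝ} (h0 : 0 < κ) {z : CN} (h : nm z ≤ κ) : sh κ (st κ z) = z := by
  rw [sh, dirT_st h0, nm_st h0, min_eq_right ((div_le_one h0).2 h), mul_div_cancel₀ _ h0.ne',
    rad_nm_dirT]

theorem st_of_nm_one {κ : ℝ} (h0 : 0 < κ) (h1 : κ ≤ 1) {z : CN} (h : nm z = 1) :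
    st κ z = z := by
  have h2 : nm (st κ z) = 1 := by
    rw [nm_st h0, h]
    exact min_eq_left ((one_le_div h0).2 h1)
  rw [← inc_dirT h2, dirT_st h0, inc_dirT h]

theorem nm_st_lt_one_iff {κ : ℝ} (h0 : 0 < κ) {z : CN} : nm (st κ z) < 1 ↔ nm z < κ := by
  rw [nm_st h0, min_lt_iff, div_lt_one h0]
  simp

end T03

end Pool.MP55
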