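import Pool.Agent.Lib.MP_55dccf_gt.Defs2
import Pool.Agent.Lib.MP_55dccf_gt.Cone

/-!
# MP_55dccf_gt, piece T04: descending maps to the wedge and the cone
-/

set_option autoImplicit false

open Set Topology TopologicalSpace unitInterval

namespace Pool.MP55

theorem continuous_pt (i : Idx) : Continuous (pt i) := by
  refine Continuous.subtype_mk ?_ _
  refine continuous_pi fun j => ?_
  by_cases h : j = i
  · simp only [h, if_true]
    fun_prop
  · simp only [h, if_false]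
    exact continuous_const

private lemma exp_eq_imp {s t : ℝ}
    (h : Complex.exp (2 * Real.pi * s * Complex.I) = Complex.exp (2 * Real.pi * t * Complex.I)) :
    ∃ n : ℤ, s = t + n := by
  obtain ⟨n, hn⟩ := Complex.exp_eq_exp_iff_exists_int.1 h
  refine ⟨n, ?_⟩
  have hpi : (2 * Real.pi * Complex.I : ℂ) ≠ 0 := Complex.two_pi_I_ne_zero
  have h1 : (2 * Real.pi * Complex.I : ℂ) * (s : ℂ) = (2 * Real.pi * Complex.I : ℂ) * ((t : ℂ) + n) := by
    linear_combination hn
  have h2 := mul_left_cancel₀ hpi h1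
  exact_mod_cast h2

private lemma int_ends {s t : ℝ} (hs : s ∈ Icc (0 : ℝ) 1) (ht : t ∈ Icc (0 : ℝ) 1) {n : ℤ}
    (h : s = t + n) : s = t ∨ ((s = 0 ∨ s = 1) ∧ (t = 0 ∨ t = 1)) := by
  have h1 : (n : ℝ) ≤ 1 := by linarith [hs.2, ht.1]
  have h2 : (-1 : ℝ) ≤ n := by linarith [hs.1, ht.2]
  have h1' : n ≤ 1 := by exact_mod_cast h1
  have h2' : -1 ≤ n := by exact_mod_cast h2
  have h3 : n = -1 ∨ n = 0 ∨ n = 1 := by omega
  rcases h3 with h3 | h3 | h3
  · subst h3; push_cast at h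
    right
    exact ⟨Or.inl (by linarith [hs.1, ht.2]), Or.inr (by linarith [hs.1, ht.2])⟩
  · subst h3; push_cast at h
    left; linarith
  · subst h3; push_cast at h
    right
    exact ⟨Or.inr (by linarith [hs.2, ht.1]), Or.inl (by linarith [hs.2, ht.1])⟩

/-- two parameters of the same point of the wedge -/
theorem pt_eq_pt {i j : Idx} {s t : ℝ} (hs : s ∈ Icc (0 : ℝ) 1) (ht : t ∈ Icc (0 : ℝ) 1)
    (h : pt i s = pt j t) : (i = j ∧ s = t) ∨ ((s = 0 ∨ s = 1) ∧ (t = 0 ∨ t = 1)) := by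
  have h' : ∀ k : Idx, (if k = i then Complex.exp (2 * Real.pi * s * Complex.I) else 1 : ℂ)
      = if k = j then Complex.exp (2 * Real.pi * t * Complex.I) else 1 := fun k =>
    congrFun (congrArg Subtype.val h) k
  have hI0 : (0 : ℝ) ∈ Icc (0 : ℝ) 1 := ⟨le_rfl, zero_le_one⟩
  have e0 : Complex.exp (2 * Real.pi * ((0 : ℝ) : ℂ) * Complex.I) = 1 := by simp
  by_cases hij : i = j
  · subst hij
    have h1 := h' i
    simp only [if_true] at h1
    obtain ⟨n, hn⟩ := exp_eq_imp h1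
    rcases int_ends hs ht hn with h2 | h2
    · exact Or.inl ⟨rfl, h2⟩
    · exact Or.inr h2
  · right
    have h1 := h' i
    have h2 := h' j
    simp only [if_true, hij, if_false] at h1
    simp only [if_true, Ne.symm hij, if_false] at h2
    constructor
    · rw [← e0] at h1
      obtain ⟨n, hn⟩ := exp_eq_imp h1
      rcases int_ends hs hI0 hn with h3 | h3
      · exact Or.inl h3
      · exact h3.1
    · rw [← e0] at h2
      obtain ⟨n, hn⟩ := exp_eq_imp h2
      rcases int_ends hI0 ht hn with h3 | h3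
      · exact Or.inl h3.symm
      · exact h3.2

private lemma pre_spec (x : TH) : (pre x).2 ∈ Icc (0 : ℝ) 1 ∧ pt (pre x).1 (pre x).2 = x :=
  Classical.choose_spec (exists_pt x)

private lemma desc_aux {Y : Type} {g : Idx → ℝ → Y} {y0 : Y} (h0 : ∀ i, g i 0 = y0)
    (h1 : ∀ i, g i 1 = y0) {i j : Idx} {s t : ℝ} (hs : s ∈ Icc (0 : ℝ) 1)
    (ht : t ∈ Icc (0 : ℝ) 1) (h : pt i s = pt j t) : g i s = g j t := by
  rcases pt_eq_pt hs ht h with ⟨rfl, rfl⟩ | ⟨h2, h3⟩
  · rfl
  · have e1 : g i s = y0 := by rcases h2 with rfl | rfl <;> simp [h0, h1]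
    have e2 : g j t = y0 := by rcases h3 with rfl | rfl <;> simp [h0, h1]
    rw [e1, e2]

theorem desc_pt {Y : Type} {g : Idx → ℝ → Y} {y0 : Y} (h0 : ∀ i, g i 0 = y0)
    (h1 : ∀ i, g i 1 = y0) (i : Idx) {s : ℝ} (hs : s ∈ Icc (0 : ℝ) 1) :
    desc g (pt i s) = g i s := by
  have hp := pre_spec (pt i s)
  exact desc_aux h0 h1 hp.1 hs hp.2

theorem continuous_desc {Y : Type} [TopologicalSpace Y] {g : Idx → ℝ → Y} {y0 : Y}
    (hg : ∀ i, ContinuousOn (g i) (Icc 0 1)) (h0 : ∀ i, g i 0 = y0) (h1 : ∀ i, g i 1 = y0) :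
    Continuous (desc g) := by
  let q : Idx × ↥(Icc (0 : ℝ) 1) → TH := fun p => pt p.1 p.2
  have hq : Continuous q := by
    rw [continuous_prod_of_discrete_left]
    intro i
    exact (continuous_pt i).comp continuous_subtype_val
  have hqs : Function.Surjective q := by
    intro x
    obtain ⟨p, hp, hx⟩ := exists_pt x
    exact ⟨(p.1, ⟨p.2, hp⟩), hx⟩
  have hqq : IsQuotientMap q := hq.isClosedMap.isQuotientMap hq hqs
  rw [hqq.continuous_iff]
  have : desc g ∘ q = fun p => g p.1 p.2 := by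
    funext p
    exact desc_pt h0 h1 p.1 p.2.2
  rw [this, continuous_prod_of_discrete_left]
  intro i
  exact continuousOn_iff_continuous_domRestrict.1 (hg i)

/-- descending a map with parameters to the cone: `g i s r t` with `s, r ∈ [0,1]` -/
theorem exists_cone_desc {X Y : Type} [TopologicalSpace X] [TopologicalSpace Y]
    (g : Idx → ℝ → ℝ → X → Y)
    (hg : ∀ i, ContinuousOn (fun p : ℝ × ℝ × X => g i p.1 p.2.1 p.2.2)
      {p | p.1 ∈ Icc (0 : ℝ) 1 ∧ p.2.1 ∈ Icc (0 : ℝ) 1})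
    (b : ℝ → X → Y) (h0 : ∀ i, ∀ r ∈ Icc (0 : ℝ) 1, ∀ x, g i 0 r x = b r x)
    (h1 : ∀ i, ∀ r ∈ Icc (0 : ℝ) 1, ∀ x, g i 1 r x = b r x)
    (hz : ∀ i, ∀ s ∈ Icc (0 : ℝ) 1, ∀ x, g i s 0 x = b 0 x) :
    ∃ G : CN × X → Y, Continuous G ∧ ∀ i, ∀ s ∈ Icc (0 : ℝ) 1, ∀ r ∈ Icc (0 : ℝ) 1, ∀ x,
      G (rad r (pt i s), x) = g i s r x := by
  let G : CN × X → Y := fun p => g (pre (dirT p.1)).1 (pre (dirT p.1)).2 (nm p.1) p.2
  have hG : ∀ i, ∀ s ∈ Icc (0 : ℝ) 1, ∀ r ∈ Icc (0 : ℝ) 1, ∀ x,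
      G (rad r (pt i s), x) = g i s r x := by
    intro i s hs r hr x
    have hn : nm (rad r (pt i s)) = r := by rw [nm_rad, cl_of_mem hr]
    show g (pre (dirT (rad r (pt i s)))).1 (pre (dirT (rad r (pt i s)))).2
      (nm (rad r (pt i s))) x = g i s r x
    rw [hn]
    rcases hr.1.eq_or_lt with h | h
    · subst h
      rw [hz _ _ (pre_spec _).1, hz _ _ hs]
    · rw [dirT_rad h]
      have hp := pre_spec (pt i s)
      exact desc_aux (g := fun i s => g i s r x) (y0 := b r x) (fun i => h0 i r hr x)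
        (fun i => h1 i r hr x) hp.1 hs hp.2
  refine ⟨G, ?_, hG⟩
  let q0 : Idx × ↥(Icc (0 : ℝ) 1) × ↥(Icc (0 : ℝ) 1) → CN := fun p => rad p.2.2 (pt p.1 p.2.1)
  have hq0 : Continuous q0 := by
    rw [continuous_prod_of_discrete_left]
    intro i
    have : Continuous fun p : ↥(Icc (0 : ℝ) 1) × ↥(Icc (0 : ℝ) 1) => ((p.2 : ℝ), pt i p.1) :=
      (continuous_subtype_val.comp continuous_snd).prodMk
        ((continuous_pt i).comp (continuous_subtype_val.comp continuous_fst))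
    exact continuous_rad.comp this
  have hq0s : Function.Surjective q0 := by
    intro z
    obtain ⟨p, hp, hx⟩ := exists_pt (dirT z)
    refine ⟨(p.1, ⟨p.2, hp⟩, ⟨nm z, nm_nonneg z, nm_le_one z⟩), ?_⟩
    show rad (nm z) (pt p.1 p.2) = z
    rw [hx, rad_nm_dirT]
  let q : (Idx × ↥(Icc (0 : ℝ) 1) × ↥(Icc (0 : ℝ) 1)) × X → CN × X := Prod.map q0 id
  have hq : Continuous q := hq0.prodMap continuous_id
  have hqs : Function.Surjective q := hq0s.prodMap Function.surjective_id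
  have hqc : IsClosedMap q := (hq0.isProperMap.prodMap isProperMap_id).isClosedMap
  have hqq : IsQuotientMap q := hqc.isQuotientMap hq hqs
  rw [hqq.continuous_iff]
  have : G ∘ q = fun p => g p.1.1 p.1.2.1 p.1.2.2 p.2 := by
    funext p
    exact hG p.1.1 p.1.2.1 p.1.2.1.2 p.1.2.2 p.1.2.2.2 p.2
  rw [this]
  have e : (fun p : (Idx × ↥(Icc (0 : ℝ) 1) × ↥(Icc (0 : ℝ) 1)) × X =>
      g p.1.1 p.1.2.1 p.1.2.2 p.2) =
      (fun p : Idx × (↥(Icc (0 : ℝ) 1) × ↥(Icc (0 : ℝ) 1)) × X =>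
      g p.1 p.2.1.1 p.2.1.2 p.2.2) ∘ (Homeomorph.prodAssoc _ _ _) := rfl
  rw [e]
  refine Continuous.comp ?_ (Homeomorph.continuous _)
  rw [continuous_prod_of_discrete_left]
  intro i
  have h2 : Continuous fun p : (↥(Icc (0 : ℝ) 1) × ↥(Icc (0 : ℝ) 1)) × X =>
      ((p.1.1 : ℝ), (p.1.2 : ℝ), p.2) :=
    (continuous_subtype_val.comp (continuous_fst.comp continuous_fst)).prodMk
      ((continuous_subtype_val.comp (continuous_snd.comp continuous_fst)).prodMk continuous_snd)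
  exact (hg i).comp_continuous h2 fun p => ⟨p.1.1.2, p.1.2.2⟩

private lemma joined_base (x : TH) : Joined baseT x := by
  obtain ⟨⟨i, s⟩, hs, rfl⟩ := exists_pt x
  have hc : Continuous fun t : I => pt i ((t : ℝ) * s) :=
    (continuous_pt i).comp (continuous_subtype_val.mul continuous_const)
  exact ⟨⟨⟨fun t : I => pt i ((t : ℝ) * s), hc⟩, by simp [pt_zero], by simp⟩⟩

instance : PathConnectedSpace TH where
  nonempty := ⟨baseT⟩
  joined := fun x y => (joined_base x).symm.trans (joined_base y)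

private lemma continuous_chi : Continuous chi := by
  unfold chi
  exact continuous_cl.comp (by fun_prop)

private lemma chi_zero : chi 0 = 0 := by
  unfold chi; exact cl_of_le (by norm_num)

private lemma chi_one : chi 1 = 1 := by
  unfold chi; exact cl_of_ge (by norm_num)

private lemma cpath_zero (i : Idx) : cpath i 0 = baseT := by
  unfold cpath
  rw [if_pos (by norm_num), mul_zero, chi_zero, pt_zero]

private lemma cpath_one (i : Idx) : cpath i 1 = baseT := by
  unfold cpath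
  rw [if_neg (by norm_num), if_neg (by norm_num), if_neg (by norm_num)]
  have : (4 : ℝ) - 4 * 1 = 0 := by norm_num
  rw [this, chi_zero, pt_zero]

private lemma continuous_cpath (i : Idx) : Continuous (cpath i) := by
  unfold cpath
  have hc : ∀ (j : Idx) (f : ℝ → ℝ), Continuous f → Continuous fun s => pt j (chi (f s)) :=
    fun j f hf => (continuous_pt j).comp (continuous_chi.comp hf)
  refine Continuous.if_le (hc _ _ (by fun_prop)) ?_ continuous_id continuous_const ?_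
  · refine Continuous.if_le (hc _ _ (by fun_prop)) ?_ continuous_id continuous_const ?_
    · refine Continuous.if_le (hc _ _ (by fun_prop)) (hc _ _ (by fun_prop)) continuous_id
        continuous_const ?_
      intro s hs
      have hs' : s = 3 / 4 := hs
      subst hs'
      have e1 : (3 : ℝ) - 4 * (3 / 4) = 0 := by norm_num
      have e2 : (4 : ℝ) - 4 * (3 / 4) = 1 := by norm_num
      rw [e1, e2, chi_zero, chi_one, pt_zero, pt_one]
    · intro s hs
      have hs' : s = 1 / 2 := hs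
      subst hs'
      rw [if_pos (by norm_num)]
      have e1 : (4 : ℝ) * (1 / 2) - 1 = 1 := by norm_num
      have e2 : (3 : ℝ) - 4 * (1 / 2) = 1 := by norm_num
      rw [e1, e2, chi_one, pt_one, pt_one]
  · intro s hs
    have hs' : s = 1 / 4 := hs
    subst hs'
    rw [if_pos (by norm_num)]
    have e1 : (4 : ℝ) * (1 / 4) = 1 := by norm_num
    have e2 : (4 : ℝ) * (1 / 4) - 1 = 0 := by norm_num
    rw [e2, e1, chi_one, chi_zero, pt_one, pt_zero]

theorem continuous_phi1 : Continuous phi1 :=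
  continuous_desc (fun i => (continuous_cpath i).continuousOn) cpath_zero cpath_one

theorem phi1_pt (i : Idx) {s : ℝ} (hs : s ∈ Icc (0 : ℝ) 1) : phi1 (pt i s) = cpath i s :=
  desc_pt cpath_zero cpath_one i hs

private lemma pin_aux0 (k : ℕ) (j : Fin k) (i : Idx) :
    pt i (cl (k * (0 : ℝ) - (j : ℕ))) = baseT := by
  rw [cl_of_le, pt_zero]
  have : (0 : ℝ) ≤ ((j : ℕ) : ℝ) := Nat.cast_nonneg _
  linarith

private lemma pin_aux1 (k : ℕ) (j : Fin k) (i : Idx) :
    pt i (cl (k * (1 : ℝ) - (j : ℕ))) = baseT := by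
  rw [cl_of_ge, pt_one]
  have : ((j : ℕ) : ℝ) + 1 ≤ k := by exact_mod_cast j.2
  linarith

theorem continuous_pin (k : ℕ) (j : Fin k) : Continuous (pin k j) := by
  refine continuous_desc (fun i => ?_) (pin_aux0 k j) (pin_aux1 k j)
  exact ((continuous_pt i).comp (continuous_cl.comp (by fun_prop))).continuousOn

theorem pin_pt (k : ℕ) (j : Fin k) (i : Idx) {s : ℝ} (hs : s ∈ Icc (0 : ℝ) 1) :
    pin k j (pt i s) = pt i (cl (k * s - (j : ℕ))) :=
  desc_pt (pin_aux0 k j) (pin_aux1 k j) i hs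

theorem pin_wedge (k : ℕ) [NeZero k] (x : TH) : ∃ j0, ∀ j, j ≠ j0 → pin k j x = baseT := by
  set i := (pre x).1 with hi
  set s := (pre x).2 with hs
  have hs' : s ∈ Icc (0 : ℝ) 1 := (pre_spec x).1
  have hk : 0 < k := Nat.pos_of_ne_zero (NeZero.ne k)
  have key : ∀ j : Fin k, pin k j x = pt i (cl (k * s - (j : ℕ))) := fun j => rfl
  have hks : 0 ≤ (k : ℝ) * s := mul_nonneg (Nat.cast_nonneg _) hs'.1
  by_cases hlt : ⌊(k : ℝ) * s⌋₊ < k
  · refine ⟨⟨⌊(k : ℝ) * s⌋₊, hlt⟩, fun j hj => ?_⟩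
    rw [key]
    rcases lt_or_gt_of_ne (fun h => hj (Fin.ext h) : (j : ℕ) ≠ ⌊(k : ℝ) * s⌋₊) with h | h
    · have h1 : ((j : ℕ) : ℝ) + 1 ≤ (k : ℝ) * s := by
        have : ((j : ℕ) + 1 : ℕ) ≤ ⌊(k : ℝ) * s⌋₊ := h
        have h2 := (Nat.le_floor_iff hks).1 this
        push_cast at h2; exact h2
      rw [cl_of_ge (by linarith), pt_one]
    · have h1 : (k : ℝ) * s < (j : ℕ) := (Nat.floor_lt hks).1 h
      rw [cl_of_le (by linarith), pt_zero]
  · refine ⟨⟨0, hk⟩, fun j _ => ?_⟩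
    have h1 : (k : ℝ) ≤ (k : ℝ) * s := (Nat.le_floor_iff hks).1 (not_lt.1 hlt)
    have h2 : ((j : ℕ) : ℝ) + 1 ≤ k := by exact_mod_cast j.2
    rw [key, cl_of_ge (by linarith), pt_one]

theorem continuous_phi (k : ℕ) (j : Fin k) : Continuous (phi k j) :=
  (continuous_pin k j).comp continuous_phi1

theorem phi_base (k : ℕ) (j : Fin k) : phi k j baseT = baseT := by
  have h0 : (0 : ℝ) ∈ Icc (0 : ℝ) 1 := ⟨le_rfl, zero_le_one⟩
  have h1 : phi1 baseT = baseT := by
    rw [← pt_zero 0, phi1_pt 0 h0, cpath_zero, pt_zero]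
  unfold phi
  rw [h1]
  conv_lhs => rw [← pt_zero 0]
  rw [pin_pt k j 0 h0, pin_aux0]

end Pool.MP55
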