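import Pool.Agent.Lib.MP_55dccf_gt.Defs2
import Pool.Agent.Lib.MP_55dccf_gt.AE1
import Pool.Agent.Lib.MP_55dccf_gt.AE2
import Pool.Agent.Lib.MP_55dccf_gt.Cone
import Pool.Agent.Lib.MP_55dccf_gt.Desc

/-!
# MP_55dccf_gt, T07 : the cone, the wedge of cones and the local model `K0` are AE
-/

set_option autoImplicit false

open Set Topology TopologicalSpace unitInterval

namespace Pool.MP55

/-! ## the cone is AE -/

/-- `T07`: the parametrisation of the `i`-th disc of the cone -/
noncomputable def t07e (i : Idx) (w : ℂ) : VV := fun j => if j = i then w else (‖w‖ : ℂ)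

/-- `T07`: the `i`-th disc of the cone -/
def t07D (i : Idx) : Set VV := t07e i '' Metric.closedBall (0 : ℂ) 1

theorem t07e_continuous (i : Idx) : Continuous (t07e i) := by
  refine continuous_pi fun j => ?_
  unfold t07e
  by_cases h : j = i
  · simp only [h, if_true]; exact continuous_id
  · simp only [h, if_false]; fun_prop

theorem t07e_apply_self (i : Idx) (w : ℂ) : t07e i w i = w := by simp [t07e]

theorem t07D_closed (i : Idx) : IsClosed (t07D i) :=
  ((isCompact_closedBall (0 : ℂ) 1).image (t07e_continuous i)).isClosed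

theorem t07_disc : AESet (Metric.closedBall (0 : ℂ) 1) := by
  have h1 : AESet (Icc (-1 : ℝ) 1 ×ˢ Icc (-1 : ℝ) 1) :=
    AESet.prod (aeset_Icc (by norm_num)) (aeset_Icc (by norm_num))
  refine AESet.of_retract h1 (fun z : ℂ => (z.re, z.im))
    (fun p : ℝ × ℝ => ((max 1 ‖(p.1 + p.2 * Complex.I : ℂ)‖)⁻¹ : ℝ) • (p.1 + p.2 * Complex.I : ℂ))
    ?_ ?_ ?_ ?_ ?_
  · exact (by fun_prop : Continuous fun z : ℂ => (z.re, z.im)).continuousOn
  · have hc : Continuous fun p : ℝ × ℝ => (p.1 + p.2 * Complex.I : ℂ) := by fun_prop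
    have hm : Continuous fun p : ℝ × ℝ => max 1 ‖(p.1 + p.2 * Complex.I : ℂ)‖ :=
      continuous_const.max hc.norm
    refine Continuous.continuousOn ?_
    refine (hm.inv₀ ?_).smul hc
    intro p
    have : (1 : ℝ) ≤ max 1 ‖(p.1 + p.2 * Complex.I : ℂ)‖ := le_max_left _ _
    linarith
  · intro z hz
    have hz' : ‖z‖ ≤ 1 := by simpa using hz
    have h1 := (Complex.abs_re_le_norm z).trans hz'
    have h2 := (Complex.abs_im_le_norm z).trans hz'
    exact ⟨abs_le.1 h1, abs_le.1 h2⟩
  · intro p _
    rw [mem_closedBall_zero_iff, norm_smul]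
    have h1 : (1 : ℝ) ≤ max 1 ‖(p.1 + p.2 * Complex.I : ℂ)‖ := le_max_left _ _
    have h2 : ‖(p.1 + p.2 * Complex.I : ℂ)‖ ≤ max 1 ‖(p.1 + p.2 * Complex.I : ℂ)‖ := le_max_right _ _
    rw [Real.norm_of_nonneg (by positivity), inv_mul_le_iff₀ (by linarith), mul_one]
    exact h2
  · intro z hz
    have hz' : ‖z‖ ≤ 1 := by simpa using hz
    simp only [Complex.re_add_im]
    rw [max_eq_left hz', inv_one, one_smul]

theorem t07D_ae (i : Idx) : AESet (t07D i) := by
  refine AESet.of_retract t07_disc (fun z : VV => z i) (t07e i) ?_ ?_ ?_ ?_ ?_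
  · exact (continuous_apply i).continuousOn
  · exact (t07e_continuous i).continuousOn
  · rintro _ ⟨w, hw, rfl⟩
    simpa [t07e_apply_self] using hw
  · intro w hw; exact ⟨w, hw, rfl⟩
  · rintro _ ⟨w, hw, rfl⟩
    simp only [t07e_apply_self]

/-- `T07`: the base segment -/
def t07S : Set VV := (fun t : ℝ => (fun _ => (t : ℂ) : VV)) '' Icc 0 1

theorem t07S_ae : AESet t07S := by
  refine AESet.of_retract (aeset_Icc (zero_le_one' ℝ)) (fun z : VV => (z 0).re)
    (fun t : ℝ => (fun _ => (t : ℂ) : VV)) ?_ ?_ ?_ ?_ ?_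
  · exact (by fun_prop : Continuous fun z : VV => (z 0).re).continuousOn
  · exact (by fun_prop : Continuous fun t : ℝ => (fun _ => (t : ℂ) : VV)).continuousOn
  · rintro _ ⟨t, ht, rfl⟩; simpa using ht
  · intro t ht; exact ⟨t, ht, rfl⟩
  · rintro _ ⟨t, ht, rfl⟩; simp

theorem t07_Cn_eq : Cn = ⋃ i, t07D i := by
  ext z
  simp only [mem_iUnion]
  constructor
  · rintro ⟨r, hr, x, hx, rfl⟩
    obtain ⟨i, hi⟩ := hx.2
    refine ⟨i, r • x i, ?_, ?_⟩
    · rw [mem_closedBall_zero_iff, norm_smul, hx.1 i, mul_one, Real.norm_of_nonneg hr.1]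
      exact hr.2
    · funext j
      unfold t07e
      by_cases h : j = i
      · subst h; simp
      · simp only [h, if_false, Pi.smul_apply]
        rw [norm_smul, hx.1 i, mul_one, Real.norm_of_nonneg hr.1, hi j h]
        simp
  · rintro ⟨i, w, hw, rfl⟩
    have hw' : ‖w‖ ≤ 1 := by simpa using hw
    by_cases h0 : w = 0
    · subst h0
      refine ⟨0, ⟨le_rfl, zero_le_one⟩, fun _ => 1, one_mem_Th, ?_⟩
      funext j; simp [t07e]
    · have hn : ‖w‖ ≠ 0 := by simpa using h0
      refine ⟨‖w‖, ⟨norm_nonneg _, hw'⟩, fun j => if j = i then (‖w‖⁻¹ : ℝ) • w else 1,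
        ⟨fun j => ?_, i, fun j hj => by simp [hj]⟩, ?_⟩
      · by_cases h : j = i
        · simp only [h, if_true]
          rw [norm_smul, Real.norm_of_nonneg (by positivity), inv_mul_cancel₀ hn]
        · simp [h]
      · funext j
        unfold t07e
        by_cases h : j = i
        · simp only [h, if_true, Pi.smul_apply]
          rw [smul_smul, mul_inv_cancel₀ hn, one_smul]
        · simp [h]

theorem t07D_inter {i j : Idx} (hij : i ≠ j) : t07D i ∩ t07D j = t07S := by
  apply Subset.antisymm
  · rintro z ⟨⟨w, hw, rfl⟩, ⟨w', hw', h⟩⟩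
    have hw1 : ‖w‖ ≤ 1 := by simpa using hw
    refine ⟨‖w‖, ⟨norm_nonneg _, hw1⟩, ?_⟩
    -- `w' = ‖w‖`, `w = ‖w'‖`
    have h1 : w' = (‖w‖ : ℂ) := by
      have := congrFun h j
      simpa [t07e, hij.symm] using this
    have h2 : ((‖w'‖ : ℝ) : ℂ) = w := by
      have := congrFun h i
      simpa [t07e, hij] using this
    have h3 : w = (‖w‖ : ℂ) := by
      rw [h1] at h2
      simpa using h2.symm
    funext l
    unfold t07e
    by_cases hl : l = i
    · simp only [hl, if_true]; exact h3.symm
    · simp [hl]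
  · rintro _ ⟨t, ht, rfl⟩
    have ht' : ‖(t : ℂ)‖ = t := by simpa using ht.1
    have hb : (t : ℂ) ∈ Metric.closedBall (0 : ℂ) 1 := by
      rw [mem_closedBall_zero_iff, ht']; exact ht.2
    constructor
    · refine ⟨t, hb, ?_⟩
      funext l; simp only [t07e, ht']; split_ifs <;> rfl
    · refine ⟨t, hb, ?_⟩
      funext l; simp only [t07e, ht']; split_ifs <;> rfl

theorem t07S_sub (i : Idx) : t07S ⊆ t07D i := by
  rintro _ ⟨t, ht, rfl⟩
  have ht' : ‖(t : ℂ)‖ = t := by simpa using ht.1
  have hb : (t : ℂ) ∈ Metric.closedBall (0 : ℂ) 1 := by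
    rw [mem_closedBall_zero_iff, ht']; exact ht.2
  refine ⟨t, hb, ?_⟩
  funext l; simp only [t07e, ht']; split_ifs <;> rfl

theorem isAE_CN : IsAE CN := by
  have hne : Cn.Nonempty := ⟨apex.1, apex.2⟩
  rw [isAE_subtype_iff hne, t07_Cn_eq]
  exact aeset_iUnion t07D_closed t07D_ae t07S_ae t07S_sub (fun i j h => t07D_inter h)

/-! ## the wedge of cones -/

theorem t07_WW_eq (k : ℕ) :
    WW k = ⋃ j0 : Fin k, {z : Fin k → CN | ∀ j, j ≠ j0 → z j = inc baseT} := by
  ext z; simp [WW]

theorem t07_A_closed (k : ℕ) (j0 : Fin k) :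
    IsClosed {z : Fin k → CN | ∀ j, j ≠ j0 → z j = inc baseT} := by
  simp only [Set.ofPred_forall]
  exact isClosed_iInter fun j => isClosed_iInter fun _ =>
    isClosed_eq (continuous_apply j) continuous_const

theorem isClosed_WW (k : ℕ) : IsClosed (WW k) := by
  rw [t07_WW_eq]
  exact isClosed_iUnion_of_finite (t07_A_closed k)

theorem aeset_WW (k : ℕ) [NeZero k] : AESet (WW k) := by
  classical
  rw [t07_WW_eq]
  have hne : Nonempty (Fin k) := ⟨⟨0, Nat.pos_of_ne_zero (NeZero.ne k)⟩⟩
  refine aeset_iUnion (S₀ := {fun _ => inc baseT}) (t07_A_closed k) ?_ (aeset_singleton _) ?_ ?_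
  · intro j0
    refine AESet.of_retract isAE_CN (fun z : Fin k → CN => z j0)
      (fun w => Function.update (fun _ => inc baseT) j0 w) ?_ ?_ ?_ ?_ ?_
    · exact (continuous_apply j0).continuousOn
    · exact (Continuous.update (f := fun _ : CN => (fun _ : Fin k => inc baseT)) continuous_const
        j0 continuous_id).continuousOn
    · intro z _; exact mem_univ _
    · intro w _ j hj
      exact Function.update_of_ne hj _ _
    · intro z hz
      funext j
      by_cases h : j = j0
      · subst h; simp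
      · rw [Function.update_of_ne h]; exact (hz j h).symm
  · intro j0 z hz j _
    rw [mem_singleton_iff] at hz
    rw [hz]
  · intro i j hij
    ext z
    simp only [mem_inter_iff, mem_ofPred_eq, mem_singleton_iff]
    constructor
    · rintro ⟨h1, h2⟩
      funext l
      by_cases h : l = i
      · exact h2 l (by rw [h]; exact hij)
      · exact h1 l h
    · rintro rfl
      exact ⟨fun _ _ => rfl, fun _ _ => rfl⟩

/-! ## the local model `K0` -/

theorem t07_inc_val (x : TH) : (inc x).1 = x.1 := by
  show cl 1 • x.1 = x.1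
  rw [cl_of_ge le_rfl, one_smul]

theorem t07_apex_val : apex.1 = 0 := by
  show cl 0 • baseT.1 = 0
  rw [cl_of_le le_rfl, zero_smul]

theorem t07_ev_ne_apex {w : CN} (hw : 0 < nm w) : ∀ᶠ w' in 𝓝 w, w' ≠ apex := by
  have : IsOpen {w' : CN | w' ≠ apex} := isOpen_ne
  refine this.mem_nhds ?_
  rintro rfl
  rw [nm_apex] at hw
  exact lt_irrefl _ hw

theorem t07_dirT_continuousAt {w : CN} (hw : w ≠ apex) : ContinuousAt dirT w :=
  continuousOn_dirT.continuousAt (isOpen_ne.mem_nhds hw)

theorem t07_ne_apex_of_nm {w : CN} (hw : 0 < nm w) : w ≠ apex := by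
  rintro rfl
  rw [nm_apex] at hw
  exact lt_irrefl _ hw

theorem t07_rad_phi_continuous (k : ℕ) (j : Fin k) :
    Continuous fun w : CN => rad (nm w) (phi k j (dirT w)) := by
  refine continuous_rad_of continuous_nm fun w hw => ?_
  exact (continuous_phi k j).continuousAt.comp (t07_dirT_continuousAt (t07_ne_apex_of_nm hw))

theorem t07_K0_iff (k : ℕ) (x : CN × (Fin k → CN)) :
    (x.1 = apex ∨ ∀ j, x.2 j = inc (phi k j (dirT x.1))) ↔
      ∀ j, nm x.1 • (x.2 j).1 = (rad (nm x.1) (phi k j (dirT x.1))).1 := by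
  constructor
  · rintro (h | h) j
    · rw [h, nm_apex, zero_smul, rad_zero, t07_apex_val]
    · rw [h j, t07_inc_val]
      show _ = cl (nm x.1) • _
      rw [cl_of_mem ⟨nm_nonneg _, nm_le_one _⟩]
  · intro h
    by_cases h0 : x.1 = apex
    · exact Or.inl h0
    · right
      intro j
      have hn : nm x.1 ≠ 0 := fun h1 => h0 (nm_eq_zero_iff.1 h1)
      have h1 := h j
      have h2 : (rad (nm x.1) (phi k j (dirT x.1))).1 = nm x.1 • (phi k j (dirT x.1)).1 := by
        show cl (nm x.1) • _ = _
        rw [cl_of_mem ⟨nm_nonneg _, nm_le_one _⟩]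
      rw [h2] at h1
      apply Subtype.ext
      rw [t07_inc_val]
      exact smul_right_injective _ hn h1

theorem isClosed_K0 (k : ℕ) : IsClosed (K0 k) := by
  have : K0 k = {x : CN × (Fin k → CN) | x.2 ∈ WW k} ∩
      {x | ∀ j, nm x.1 • (x.2 j).1 = (rad (nm x.1) (phi k j (dirT x.1))).1} := by
    ext x
    simp only [mem_inter_iff, mem_ofPred_eq, ← t07_K0_iff]
    rfl
  rw [this]
  refine ((isClosed_WW k).preimage continuous_snd).inter ?_
  simp only [Set.ofPred_forall]
  refine isClosed_iInter fun j => isClosed_eq ?_ ?_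
  · exact (continuous_nm.comp continuous_fst).smul
      (continuous_subtype_val.comp ((continuous_apply j).comp continuous_snd))
  · exact continuous_subtype_val.comp ((t07_rad_phi_continuous k j).comp continuous_fst)

section K0AE

variable (k : ℕ) [NeZero k]

/-- `T07`: the section of the local model -/
noncomputable def t07phi (w : CN) : ↥(WW k) :=
  ⟨fun j => inc (phi k j (dirT w)), by
    obtain ⟨j0, h⟩ := phi_wedge k (dirT w)
    exact ⟨j0, fun j hj => by simp only [h j hj]⟩⟩

theorem t07phi_continuousAt {w : CN} (hw : w ≠ apex) : ContinuousAt (t07phi k) w := by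
  refine Topology.IsInducing.subtypeVal.continuousAt_iff.2 ?_
  refine continuousAt_pi.2 fun j => ?_
  exact continuous_inc.continuousAt.comp
    ((continuous_phi k j).continuousAt.comp (t07_dirT_continuousAt hw))

/-- continuity of the second component of the retraction -/
theorem t07_second {lam : ↥(WW k) × ↥(WW k) × ℝ → ↥(WW k)} (hl : Continuous lam)
    (h0 : ∀ x y, lam (x, y, 0) = x) (hd : ∀ x t, lam (x, x, t) = x) :
    Continuous fun x : CN × ↥(WW k) =>
      lam (x.2, t07phi k x.1, min 1 (nm x.1 / dist x.2 (t07phi k x.1))) := by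
  have : CompactSpace ↥(WW k) := isCompact_iff_compactSpace.1 (isClosed_WW k).isCompact
  -- uniform estimate
  have hunif : ∀ ε > 0, ∃ η > 0, ∀ (z y : ↥(WW k)), ∀ τ ∈ Icc (0 : ℝ) 1,
      dist z y * τ < η → dist (lam (z, y, τ)) z < ε := by
    intro ε hε
    set K : Set (↥(WW k) × ↥(WW k) × ℝ) :=
      (univ ×ˢ univ ×ˢ Icc (0 : ℝ) 1) ∩ {q | ε ≤ dist (lam q) q.1} with hK
    have hKc : IsCompact K := by
      refine IsCompact.inter_right (isCompact_univ.prod (isCompact_univ.prod isCompact_Icc)) ?_
      exact isClosed_le continuous_const (hl.dist continuous_fst)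
    have hg : Continuous fun q : ↥(WW k) × ↥(WW k) × ℝ => dist q.1 q.2.1 * q.2.2 := by
      fun_prop
    have hpos : ∀ q ∈ K, 0 < dist q.1 q.2.1 * q.2.2 := by
      rintro ⟨z, y, τ⟩ ⟨⟨-, -, hτ⟩, hq⟩
      simp only [mem_ofPred_eq] at hq
      rcases hτ.1.eq_or_lt with h | h
      · exfalso
        simp only at h
        rw [← h, h0, dist_self] at hq
        linarith
      · have : z ≠ y := by
          rintro rfl
          rw [hd, dist_self] at hq
          linarith
        exact mul_pos (dist_pos.2 this) h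
    rcases K.eq_empty_or_nonempty with he | hne
    · refine ⟨1, one_pos, fun z y τ hτ _ => ?_⟩
      by_contra hcon
      push Not at hcon
      have : (z, y, τ) ∈ K := ⟨⟨mem_univ _, mem_univ _, hτ⟩, hcon⟩
      rw [he] at this
      exact this
    · obtain ⟨q0, hq0, hmin⟩ := hKc.exists_isMinOn hne hg.continuousOn
      refine ⟨_, hpos q0 hq0, fun z y τ hτ hlt => ?_⟩
      by_contra hcon
      push Not at hcon
      have hmem : (z, y, τ) ∈ K := ⟨⟨mem_univ _, mem_univ _, hτ⟩, hcon⟩
      have := hmin hmem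
      simp only [mem_ofPred_eq] at this
      linarith
  rw [continuous_iff_continuousAt]
  rintro ⟨w0, z0⟩
  by_cases hA : w0 ≠ apex ∧ dist z0 (t07phi k w0) ≠ 0
  · obtain ⟨hw, hκ⟩ := hA
    have hphi : ContinuousAt (fun x : CN × ↥(WW k) => t07phi k x.1) (w0, z0) :=
      ContinuousAt.comp (f := Prod.fst) (g := t07phi k) (t07phi_continuousAt k hw)
        continuous_fst.continuousAt
    have h2 : ContinuousAt (fun x : CN × ↥(WW k) => x.2) (w0, z0) := continuous_snd.continuousAt
    have hn : ContinuousAt (fun x : CN × ↥(WW k) => nm x.1) (w0, z0) :=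
      (continuous_nm.comp continuous_fst).continuousAt
    have hτ : ContinuousAt (fun x : CN × ↥(WW k) =>
        min 1 (nm x.1 / dist x.2 (t07phi k x.1))) (w0, z0) :=
      continuousAt_const.min (hn.div (h2.dist hphi) hκ)
    exact ContinuousAt.comp (g := lam) hl.continuousAt (h2.prodMk (hphi.prodMk hτ))
  · -- the remaining points
    have hval : lam (z0, t07phi k w0, min 1 (nm w0 / dist z0 (t07phi k w0))) = z0 := by
      by_cases hw : w0 = apex
      · rw [hw, nm_apex, zero_div, min_eq_right zero_le_one, h0]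
      · have hκ : dist z0 (t07phi k w0) = 0 := by
          by_contra hcon
          exact hA ⟨hw, hcon⟩
        rw [hκ, div_zero, min_eq_right zero_le_one, h0]
    rw [Metric.continuousAt_iff']
    intro ε hε
    obtain ⟨η, hη, hu⟩ := hunif (ε / 2) (by linarith)
    have hsmall : ∀ᶠ x : CN × ↥(WW k) in 𝓝 (w0, z0),
        min (dist x.2 (t07phi k x.1)) (nm x.1) < η := by
      by_cases hw : w0 = apex
      · have hn : Filter.Tendsto (fun x : CN × ↥(WW k) => nm x.1) (𝓝 (w0, z0)) (𝓝 (nm w0)) :=
          (continuous_nm.comp continuous_fst).continuousAt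
        rw [hw, nm_apex] at hn
        rw [hw]
        filter_upwards [hn.eventually_lt_const hη] with x hx
        exact (min_le_right _ _).trans_lt hx
      · have hκ : dist z0 (t07phi k w0) = 0 := by
          by_contra hcon
          exact hA ⟨hw, hcon⟩
        have hphi : ContinuousAt (fun x : CN × ↥(WW k) => t07phi k x.1) (w0, z0) :=
          ContinuousAt.comp (f := Prod.fst) (g := t07phi k) (t07phi_continuousAt k hw)
            continuous_fst.continuousAt
        have h2 : ContinuousAt (fun x : CN × ↥(WW k) => x.2) (w0, z0) :=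
          continuous_snd.continuousAt
        have hd' : Filter.Tendsto (fun x : CN × ↥(WW k) => dist x.2 (t07phi k x.1)) (𝓝 (w0, z0))
            (𝓝 (dist z0 (t07phi k w0))) := h2.dist hphi
        rw [hκ] at hd'
        filter_upwards [hd'.eventually_lt_const hη] with x hx
        exact (min_le_left _ _).trans_lt hx
    have hz : ∀ᶠ x : CN × ↥(WW k) in 𝓝 (w0, z0), dist x.2 z0 < ε / 2 :=
      (continuous_snd.continuousAt (x := (w0, z0))).eventually
        (Metric.ball_mem_nhds z0 (by linarith))
    filter_upwards [hsmall, hz] with x hx hxz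
    show dist (lam (x.2, t07phi k x.1, min 1 (nm x.1 / dist x.2 (t07phi k x.1))))
      (lam (z0, t07phi k w0, min 1 (nm w0 / dist z0 (t07phi k w0)))) < ε
    rw [hval]
    have hτm : min 1 (nm x.1 / dist x.2 (t07phi k x.1)) ∈ Icc (0 : ℝ) 1 :=
      ⟨le_min zero_le_one (div_nonneg (nm_nonneg _) dist_nonneg), min_le_left _ _⟩
    have hle : dist x.2 (t07phi k x.1) * min 1 (nm x.1 / dist x.2 (t07phi k x.1)) ≤
        min (dist x.2 (t07phi k x.1)) (nm x.1) := by
      rcases (dist_nonneg (x := x.2) (y := t07phi k x.1)).eq_or_lt with h | h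
      · rw [← h, zero_mul]
        exact le_min le_rfl (nm_nonneg _)
      · apply le_min
        · exact mul_le_of_le_one_right h.le (min_le_left _ _)
        · calc dist x.2 (t07phi k x.1) * min 1 (nm x.1 / dist x.2 (t07phi k x.1))
              ≤ dist x.2 (t07phi k x.1) * (nm x.1 / dist x.2 (t07phi k x.1)) :=
                mul_le_mul_of_nonneg_left (min_le_right _ _) h.le
            _ = nm x.1 := by field_simp
    have h1 := hu x.2 (t07phi k x.1) _ hτm (hle.trans_lt hx)
    calc dist (lam (x.2, t07phi k x.1, min 1 (nm x.1 / dist x.2 (t07phi k x.1)))) z0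
        ≤ dist (lam (x.2, t07phi k x.1, min 1 (nm x.1 / dist x.2 (t07phi k x.1)))) x.2
          + dist x.2 z0 := dist_triangle _ _ _
      _ < ε / 2 + ε / 2 := add_lt_add h1 hxz
      _ = ε := by ring

/-- `T07`: continuous version of `nm w * dist z (phi w)` -/
noncomputable def t07kap (x : CN × ↥(WW k)) : ℝ := nm x.1 * dist x.2 (t07phi k x.1)

theorem t07kap_continuous : Continuous (t07kap k) := by
  rw [continuous_iff_continuousAt]
  rintro ⟨w0, z0⟩
  by_cases hw : w0 = apex
  · subst hw
    have : CompactSpace ↥(WW k) := isCompact_iff_compactSpace.1 (isClosed_WW k).isCompact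
    have hval : t07kap k (apex, z0) = 0 := by simp [t07kap, nm_apex]
    have hb : ∃ M : ℝ, ∀ x y : ↥(WW k), dist x y ≤ M :=
      ⟨Metric.diam (univ : Set ↥(WW k)), fun x y =>
        Metric.dist_le_diam_of_mem isCompact_univ.isBounded (mem_univ _) (mem_univ _)⟩
    obtain ⟨M, hM⟩ := hb
    unfold ContinuousAt
    rw [hval]
    have hn : Filter.Tendsto (fun x : CN × ↥(WW k) => nm x.1 * M) (𝓝 (apex, z0)) (𝓝 0) := by
      have : Continuous fun x : CN × ↥(WW k) => nm x.1 * M :=
        (continuous_nm.comp continuous_fst).mul continuous_const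
      have h := this.tendsto (apex, z0)
      simpa [nm_apex] using h
    refine squeeze_zero (fun x => mul_nonneg (nm_nonneg _) dist_nonneg) (fun x => ?_) hn
    exact mul_le_mul_of_nonneg_left (hM _ _) (nm_nonneg _)
  · have hphi : ContinuousAt (fun x : CN × ↥(WW k) => t07phi k x.1) (w0, z0) :=
      ContinuousAt.comp (f := Prod.fst) (g := t07phi k) (t07phi_continuousAt k hw)
        continuous_fst.continuousAt
    have h2 : ContinuousAt (fun x : CN × ↥(WW k) => x.2) (w0, z0) := continuous_snd.continuousAt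
    have hn : ContinuousAt (fun x : CN × ↥(WW k) => nm x.1) (w0, z0) :=
      (continuous_nm.comp continuous_fst).continuousAt
    exact hn.mul (h2.dist hphi)

/-- continuity of the first component of the retraction -/
theorem t07_first : Continuous fun x : CN × ↥(WW k) =>
    rad (nm x.1 - Real.sqrt (t07kap k x)) (dirT x.1) := by
  refine continuous_rad_of ?_ ?_
  · exact (continuous_nm.comp continuous_fst).sub (t07kap_continuous k).sqrt
  · rintro ⟨w, z⟩ hw
    have hw' : 0 < nm w := by
      have := Real.sqrt_nonneg (t07kap k (w, z))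
      simp only at hw
      linarith
    exact ContinuousAt.comp (f := Prod.fst) (g := dirT)
      (t07_dirT_continuousAt (t07_ne_apex_of_nm hw')) continuous_fst.continuousAt

end K0AE

theorem aeset_K0 (k : ℕ) [NeZero k] : AESet (K0 k) := by
  have : CompactSpace ↥(WW k) := isCompact_iff_compactSpace.1 (isClosed_WW k).isCompact
  have hk : 0 < k := Nat.pos_of_ne_zero (NeZero.ne k)
  have hWne : (WW k).Nonempty := ⟨(t07phi k apex).1, (t07phi k apex).2⟩
  have hKne : (K0 k).Nonempty := ⟨(apex, (t07phi k apex).1), (t07phi k apex).2, Or.inl rfl⟩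
  have hW : IsAE ↥(WW k) := (isAE_subtype_iff hWne).2 (aeset_WW k)
  obtain ⟨lam, hl, h0, h1, hd⟩ := exists_lam hW
  have hprod : AESet (univ : Set (CN × ↥(WW k))) := by
    rw [← univ_prod_univ]
    exact AESet.prod isAE_CN hW
  rw [← isAE_subtype_iff hKne]
  -- the retraction takes values in `K0`
  have hmem : ∀ x : CN × ↥(WW k),
      (rad (nm x.1 - Real.sqrt (t07kap k x)) (dirT x.1),
        (lam (x.2, t07phi k x.1, min 1 (nm x.1 / dist x.2 (t07phi k x.1)))).1) ∈ K0 k := by
    rintro ⟨w, z⟩
    refine ⟨(lam _).2, ?_⟩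
    simp only
    rcases le_or_gt (nm w - Real.sqrt (t07kap k (w, z))) 0 with hle | hgt
    · left
      exact rad_of_nonpos hle _
    · right
      intro j
      have hw : 0 < nm w := by
        have := Real.sqrt_nonneg (t07kap k (w, z))
        linarith
      have hlt : t07kap k (w, z) < nm w ^ 2 := by
        have h2 : Real.sqrt (t07kap k (w, z)) < nm w := by linarith
        exact (Real.sqrt_lt' hw).1 h2
      have hdist : dist z (t07phi k w) < nm w := by
        have : nm w * dist z (t07phi k w) < nm w ^ 2 := hlt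
        nlinarith
      rw [dirT_rad hgt]
      have hres : lam (z, t07phi k w, min 1 (nm w / dist z (t07phi k w))) = t07phi k w := by
        rcases (dist_nonneg (x := z) (y := t07phi k w)).eq_or_lt with h | h
        · have hz : z = t07phi k w := dist_eq_zero.1 h.symm
          rw [← hz]
          exact hd _ _
        · have : min 1 (nm w / dist z (t07phi k w)) = 1 := by
            apply min_eq_left
            rw [le_div_iff₀ h, one_mul]
            exact hdist.le
          rw [this, h1]
      rw [hres]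
      rfl
  refine AESet.of_retract hprod (fun y : ↥(K0 k) => (y.1.1, ⟨y.1.2, y.2.1⟩))
    (fun x => ⟨_, hmem x⟩) ?_ ?_ (fun _ _ => mem_univ _) (fun _ _ => mem_univ _) ?_
  · refine Continuous.continuousOn ?_
    refine (continuous_fst.comp continuous_subtype_val).prodMk ?_
    exact Continuous.subtype_mk (continuous_snd.comp continuous_subtype_val) _
  · refine Continuous.continuousOn ?_
    refine Continuous.subtype_mk ?_ _
    exact (t07_first k).prodMk (continuous_subtype_val.comp (t07_second k hl h0 hd))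
  · rintro ⟨⟨w, z⟩, hwz⟩ -
    apply Subtype.ext
    have hz : z ∈ WW k := hwz.1
    by_cases hw : w = apex
    · subst hw
      refine Prod.ext ?_ ?_
      · show rad (nm apex - Real.sqrt (t07kap k (apex, ⟨z, hz⟩))) (dirT apex) = apex
        apply rad_of_nonpos
        rw [nm_apex]
        linarith [Real.sqrt_nonneg (t07kap k (apex, ⟨z, hz⟩))]
      · show (lam ((⟨z, hz⟩ : ↥(WW k)), t07phi k apex,
          min 1 (nm apex / dist (⟨z, hz⟩ : ↥(WW k)) (t07phi k apex)))).1 = z
        rw [nm_apex, zero_div, min_eq_right zero_le_one, h0]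
    · have hzφ : (⟨z, hz⟩ : ↥(WW k)) = t07phi k w := by
        apply Subtype.ext
        funext j
        rcases hwz.2 with h | h
        · exact absurd h hw
        · exact h j
      have hκ : t07kap k (w, (⟨z, hz⟩ : ↥(WW k))) = 0 := by
        simp [t07kap, hzφ]
      refine Prod.ext ?_ ?_
      · show rad (nm w - Real.sqrt (t07kap k (w, ⟨z, hz⟩))) (dirT w) = w
        rw [hκ, Real.sqrt_zero, sub_zero, rad_nm_dirT]
      · show (lam ((⟨z, hz⟩ : ↥(WW k)), t07phi k w,
          min 1 (nm w / dist (⟨z, hz⟩ : ↥(WW k)) (t07phi k w)))).1 = z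
        rw [← hzφ, hd]

end Pool.MP55
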