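import Pool.Agent.Lib.MP_55dccf_gt.CovBase

/-!
# MP_55dccf_gt, T05 : an essential loop
-/

set_option autoImplicit false

open Set Topology TopologicalSpace unitInterval

namespace Pool.MP55

theorem covB_mem (z : Circle) : (fun j : Idx => if j = 0 then (z : ℂ) else 1) ∈ Th := by
  refine ⟨fun i => ?_, 0, fun j hj => by simp [hj]⟩
  by_cases h : i = 0
  · simp only [h, if_true]
    exact Circle.norm_coe z
  · simp [h]

/-- the circle of index `0`, once around -/
def covBloop (z : Circle) : TH := ⟨fun j => if j = 0 then (z : ℂ) else 1, covB_mem z⟩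

theorem continuous_covBloop : Continuous covBloop := by
  refine Continuous.subtype_mk (continuous_pi fun j => ?_) _
  by_cases h : j = 0
  · simp only [h, if_true]
    exact continuous_subtype_val
  · simp only [h, if_false]
    exact continuous_const

theorem covBloop_exp (s : ℝ) : covBloop (Circle.exp (2 * Real.pi * s)) = pt 0 s := by
  apply Subtype.ext
  funext j
  by_cases h : j = 0
  · simp [covBloop, pt, h, Circle.coe_exp]
  · simp [covBloop, pt, h]

theorem covB_edge_inj {g h : Gp} {i : Idx} {s : ℝ} (hs : s ∈ Icc (0 : ℝ) 1)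
    (e : edge g i s = edge h i s) : g = h := by
  have hmem : edge h i s ∈ EE := ⟨h, i, s, hs, rfl⟩
  have h1 : act (g * h⁻¹) (edge h i s) = edge h i s := by
    rw [act_edge, inv_mul_cancel_right, e]
  have h2 := act_free hmem h1
  exact mul_inv_eq_one.1 h2

theorem exists_ess : ∃ ℓ : Circle → TH, Continuous ℓ ∧ Ess ℓ := by
  classical
  refine ⟨covBloop, continuous_covBloop, ?_⟩
  rintro ⟨m, hm, hmE⟩
  -- the lift along the parameter interval
  set p : I → TH × (Gp → ℂ) := fun s => m (Circle.exp (2 * Real.pi * (s : ℝ))) with hp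
  have hpc : Continuous p :=
    hm.comp (Circle.exp.continuous.comp (continuous_const.mul continuous_subtype_val))
  have hex : ∀ s : I, ∃ g : Gp, edge g 0 (s : ℝ) = p s := by
    intro s
    have h1 : edge 1 0 (s : ℝ) ∈ EE := ⟨1, 0, s, s.2, rfl⟩
    have h2 : p s ∈ EE := (hmE _).1
    have h3 : (edge 1 0 (s : ℝ)).1 = (p s).1 := by
      rw [edge_fst, hp]
      show pt 0 (s : ℝ) = (m (Circle.exp (2 * Real.pi * (s : ℝ)))).1
      rw [(hmE _).2, covBloop_exp]
    obtain ⟨g, hg⟩ := act_trans h1 h2 h3
    refine ⟨g, ?_⟩
    rw [← hg, act_edge, mul_one]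
  choose f hf using hex
  have hcl : ∀ g : Gp, IsClosed {s : I | f s = g} := by
    intro g
    have h1 : {s : I | f s = g} = {s : I | edge g 0 (s : ℝ) = p s} := by
      ext s
      constructor
      · intro h
        have h : f s = g := h
        show edge g 0 (s : ℝ) = p s
        rw [← h]
        exact hf s
      · intro h
        have h : edge g 0 (s : ℝ) = p s := h
        exact covB_edge_inj s.2 ((hf s).trans h.symm)
    rw [h1]
    exact isClosed_eq ((continuous_edge g 0).comp continuous_subtype_val) hpc
  have hconst : f 0 = f 1 := by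
    let _ : TopologicalSpace Gp := ⊥
    have : DiscreteTopology Gp := ⟨rfl⟩
    have hfc : Continuous f := by
      rw [continuous_iff_isClosed]
      intro S _
      have h1 : f ⁻¹' S = ⋃ g ∈ S, {s : I | f s = g} := by
        ext s
        simp
      rw [h1]
      exact (Set.toFinite S).isClosed_biUnion fun g _ => hcl g
    exact PreconnectedSpace.constant inferInstance hfc
  have e0 : edge (f 0) 0 0 = p 0 := by simpa using hf 0
  have e1 : edge (f 1) 0 1 = p 1 := by simpa using hf 1
  have e2 : p 0 = p 1 := by
    simp only [hp]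
    congr 1
    apply Circle.ext
    simp
  rw [edge_one, ← hconst, ← e2, ← e0] at e1
  have h3 := edge_zero_inj e1
  exact rho_ne (mul_eq_left.1 h3)

end Pool.MP55
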