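import Pool.Agent.Lib.MP_55dccf_gt.CovBase

/-!
# MP_55dccf_gt, T05 : the maps `phi k j` preserve essential loops
-/

set_option autoImplicit false

open Set Topology TopologicalSpace unitInterval

namespace Pool.MP55

theorem covC_closed_graph {X Y : Type} [TopologicalSpace X] [TopologicalSpace Y] [CompactSpace Y]
    {n : X → Y} (h : IsClosed {p : X × Y | p.2 = n p.1}) : Continuous n := by
  rw [continuous_iff_isClosed]
  intro C hC
  have h1 := isClosedMap_fst_of_compactSpace _ (h.inter (hC.preimage continuous_snd))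
  convert! h1
  ext x
  simp

/-- pullback lemma: a map of the wedge that lifts to an equivariant map of the covering with
`edge 1 i 1 ↦ edge (rhoG i) 0 0` preserves essential loops -/
theorem ess_of_lift {W : Idx → ℝ → TH × (Gp → ℂ)} (hW : ∀ i, ContinuousOn (W i) (Icc 0 1))
    (hWE : ∀ i, ∀ s ∈ Icc (0 : ℝ) 1, W i s ∈ EE)
    (h0 : ∀ i, W i 0 = edge 1 0 0) (h1 : ∀ i, W i 1 = edge (rhoG i) 0 0)
    {f : TH → TH} (hfW : ∀ i, ∀ s ∈ Icc (0 : ℝ) 1, f (pt i s) = (W i s).1)
    {ℓ : Circle → TH} (hℓ : Continuous ℓ) (h : Ess ℓ) : Ess (fun s => f (ℓ s)) := by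
  classical
  rintro ⟨m, hm, hmE⟩
  apply h
  have hEc : CompactSpace ↥EE := isCompact_iff_compactSpace.1 isCompact_EE
  -- the relation between the covering and its image
  set R : Set ((TH × (Gp → ℂ)) × (TH × (Gp → ℂ))) :=
    ⋃ g : Gp, ⋃ i : Idx, (fun s => (edge g i s, act g (W i s))) '' Icc (0 : ℝ) 1 with hR
  have hRc : IsCompact R := isCompact_iUnion fun g => isCompact_iUnion fun i =>
    isCompact_Icc.image_of_continuousOn
      ((continuous_edge g i).continuousOn.prodMk ((continuous_act g).comp_continuousOn (hW i)))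
  have hRm : ∀ e e', (e, e') ∈ R ↔ ∃ g i, ∃ s ∈ Icc (0 : ℝ) 1, e = edge g i s ∧
      e' = act g (W i s) := by
    intro e e'
    simp only [hR, mem_iUnion, mem_image, Prod.mk.injEq]
    constructor
    · rintro ⟨g, i, s, hs, h1, h2⟩; exact ⟨g, i, s, hs, h1.symm, h2.symm⟩
    · rintro ⟨g, i, s, hs, h1, h2⟩; exact ⟨g, i, s, hs, h1.symm, h2.symm⟩
  -- end points
  have hend : ∀ g i s, (s = 0 ∨ s = 1) → act g (W i s) = edge g i s := by
    rintro g i s (rfl | rfl)
    · rw [h0, act_edge, mul_one, edge_zero g i]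
    · rw [h1, act_edge, edge_one]
  -- existence
  have hex : ∀ x : TH, ∀ e' ∈ EE, e'.1 = f x → ∃ e : ↥EE, e.1.1 = x ∧ (e.1, e') ∈ R := by
    intro x e' he' hx
    obtain ⟨⟨i, s⟩, hs, rfl⟩ := exists_pt x
    obtain ⟨g, hg⟩ := act_trans (hWE i s hs) he' (by rw [hx, hfW i s hs])
    exact ⟨⟨edge g i s, g, i, s, hs, rfl⟩, rfl, (hRm _ _).2 ⟨g, i, s, hs, rfl, hg.symm⟩⟩
  -- uniqueness
  have huniq : ∀ e₁ e₂ e' : TH × (Gp → ℂ), e₁.1 = e₂.1 → (e₁, e') ∈ R → (e₂, e') ∈ R →
      e₁ = e₂ := by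
    intro e₁ e₂ e' he h₁ h₂
    obtain ⟨g, i, s, hs, rfl, rfl⟩ := (hRm _ _).1 h₁
    obtain ⟨g', j, t, ht, rfl, h3⟩ := (hRm _ _).1 h₂
    rcases pt_eq_pt hs ht he with ⟨rfl, rfl⟩ | ⟨ha, hb⟩
    · have h4 : act (g'⁻¹ * g) (W i s) = W i s := by
        rw [act_mul, h3, ← act_mul, inv_mul_cancel, act_one]
      have h5 := act_free (hWE i s hs) h4
      rw [inv_mul_eq_one] at h5
      rw [h5]
    · rw [hend g i s ha, hend g' j t hb] at h3
      exact h3
  -- the lift
  have hex' : ∀ z : Circle, ∃ e : ↥EE, e.1.1 = ℓ z ∧ (e.1, m z) ∈ R := fun z =>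
    hex (ℓ z) (m z) (hmE z).1 (hmE z).2
  choose n hn1 hn2 using hex'
  have hn : Continuous n := by
    apply covC_closed_graph
    have heq : {p : Circle × ↥EE | p.2 = n p.1} =
        {p | p.2.1.1 = ℓ p.1} ∩ (fun p : Circle × ↥EE => (p.2.1, m p.1)) ⁻¹' R := by
      ext ⟨z, e⟩
      simp only [mem_ofPred_eq, mem_inter_iff, mem_preimage]
      constructor
      · rintro rfl; exact ⟨hn1 z, hn2 z⟩
      · rintro ⟨h1, h2⟩
        exact Subtype.ext (huniq _ _ _ (by rw [h1, hn1]) h2 (hn2 z))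
    rw [heq]
    refine IsClosed.inter (isClosed_eq ?_ ?_) (hRc.isClosed.preimage ?_)
    · exact continuous_fst.comp (continuous_subtype_val.comp continuous_snd)
    · exact hℓ.comp continuous_fst
    · exact (continuous_subtype_val.comp continuous_snd).prodMk (hm.comp continuous_fst)
  exact ⟨fun z => (n z).1, continuous_subtype_val.comp hn, fun z => ⟨(n z).2, hn1 z⟩⟩

theorem covC_chi_zero : chi 0 = 0 := by
  unfold chi cl
  rw [max_eq_left]
  exact (min_le_right _ _).trans (by norm_num)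

theorem covC_chi_one : chi 1 = 1 := by
  unfold chi cl
  rw [min_eq_left (by norm_num)]
  exact max_eq_right zero_le_one

theorem covC_continuous_cl : Continuous cl := by
  unfold cl
  fun_prop

theorem covC_continuous_chi : Continuous chi :=
  covC_continuous_cl.comp (by fun_prop)

theorem covC_chi_mem (u : ℝ) : chi u ∈ Icc (0 : ℝ) 1 := cl_mem _

theorem ess_pin {k : ℕ} (j : Fin k) {ℓ : Circle → TH} (hℓ : Continuous ℓ) (h : Ess ℓ) :
    Ess (fun s => pin k j (ℓ s)) := by
  refine ess_of_lift (W := fun i s => edge 1 i (cl (k * s - (j : ℕ)))) (fun i => ?_)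
    (fun i s _ => ⟨1, i, _, cl_mem _, rfl⟩) (fun i => ?_) (fun i => ?_) (fun i s hs => ?_) hℓ h
  · exact ((continuous_edge 1 i).comp (covC_continuous_cl.comp (by fun_prop))).continuousOn
  · have : cl (k * 0 - (j : ℕ)) = 0 := by
      unfold cl
      rw [max_eq_left]
      refine (min_le_right _ _).trans ?_
      have : (0 : ℝ) ≤ (j : ℕ) := Nat.cast_nonneg _
      linarith
    show edge 1 i (cl (k * 0 - (j : ℕ))) = _
    rw [this, edge_zero]
  · have : cl (k * 1 - (j : ℕ)) = 1 := by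
      unfold cl
      have hj : ((j : ℕ) : ℝ) + 1 ≤ k := by exact_mod_cast j.2
      rw [min_eq_left (by linarith)]
      exact max_eq_right zero_le_one
    show edge 1 i (cl (k * 1 - (j : ℕ))) = _
    rw [this, edge_one, one_mul]
  · rw [pin_pt k j i hs]
    rfl

/-- lift of the commutator path -/
noncomputable def covCW (i : Idx) (s : ℝ) : TH × (Gp → ℂ) :=
  if s ≤ 1 / 4 then edge 1 (ca i) (chi (4 * s))
  else if s ≤ 1 / 2 then edge (rhoG (ca i)) (cb i) (chi (4 * s - 1))
  else if s ≤ 3 / 4 then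
    edge (rhoG (ca i) * rhoG (cb i) * (rhoG (ca i))⁻¹) (ca i) (chi (3 - 4 * s))
  else edge (rhoG (ca i) * rhoG (cb i) * (rhoG (ca i))⁻¹ * (rhoG (cb i))⁻¹) (cb i)
    (chi (4 - 4 * s))

theorem covC_edge_comp (g : Gp) (i : Idx) {u : ℝ → ℝ} (hu : Continuous u) :
    Continuous fun s => edge g i (chi (u s)) :=
  (continuous_edge g i).comp (covC_continuous_chi.comp hu)

theorem continuous_covCW (i : Idx) : Continuous (covCW i) := by
  unfold covCW
  refine Continuous.if_le (covC_edge_comp _ _ (by fun_prop)) ?_ continuous_id continuous_const ?_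
  · refine Continuous.if_le (covC_edge_comp _ _ (by fun_prop)) ?_ continuous_id continuous_const ?_
    · refine Continuous.if_le (covC_edge_comp _ _ (by fun_prop))
        (covC_edge_comp _ _ (by fun_prop)) continuous_id continuous_const ?_
      intro s hs
      
      subst hs
      have e1 : (3 : ℝ) - 4 * (3 / 4) = 0 := by norm_num
      have e2 : (4 : ℝ) - 4 * (3 / 4) = 1 := by norm_num
      rw [e1, e2, covC_chi_zero, covC_chi_one, edge_zero, edge_one, inv_mul_cancel_right]
    · intro s hs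
      
      subst hs
      have e1 : (4 : ℝ) * (1 / 2) - 1 = 1 := by norm_num
      have e2 : (3 : ℝ) - 4 * (1 / 2) = 1 := by norm_num
      rw [if_pos (by norm_num), e1, e2, covC_chi_one, edge_one, edge_one, inv_mul_cancel_right]
  · intro s hs
    
    subst hs
    have e1 : (4 : ℝ) * (1 / 4) = 1 := by norm_num
    have e2 : (4 : ℝ) * (1 / 4) - 1 = 0 := by norm_num
    rw [if_pos (by norm_num), e2, e1, covC_chi_one, covC_chi_zero, edge_one, edge_zero (rhoG _),
      one_mul]

theorem ess_phi1 {ℓ : Circle → TH} (hℓ : Continuous ℓ) (h : Ess ℓ) :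
    Ess (fun s => phi1 (ℓ s)) := by
  refine ess_of_lift (W := covCW) (fun i => (continuous_covCW i).continuousOn)
    (fun i s _ => ?_) (fun i => ?_) (fun i => ?_) (fun i s hs => ?_) hℓ h
  · unfold covCW
    split_ifs
    · exact ⟨_, _, _, covC_chi_mem _, rfl⟩
    · exact ⟨_, _, _, covC_chi_mem _, rfl⟩
    · exact ⟨_, _, _, covC_chi_mem _, rfl⟩
    · exact ⟨_, _, _, covC_chi_mem _, rfl⟩
  · unfold covCW
    rw [if_pos (by norm_num), mul_zero, covC_chi_zero, edge_zero]
  · unfold covCW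
    have e2 : (4 : ℝ) - 4 * 1 = 0 := by norm_num
    rw [if_neg (by norm_num), if_neg (by norm_num), if_neg (by norm_num), e2, covC_chi_zero,
      edge_zero, ← rho_comm]
  · rw [phi1_pt i hs]
    unfold covCW cpath
    split_ifs <;> rfl

theorem ess_phi {k : ℕ} (j : Fin k) {ℓ : Circle → TH} (hℓ : Continuous ℓ) (h : Ess ℓ) :
    Ess (fun s => phi k j (ℓ s)) :=
  ess_pin j (continuous_phi1.comp hℓ) (ess_phi1 hℓ h)

end Pool.MP55
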