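import Pool.Agent.Lib.MP_55dccf_gt.CovA
import Pool.Agent.Lib.MP_55dccf_gt.CovB
import Pool.Agent.Lib.MP_55dccf_gt.CovC

/-!
# MP_55dccf_gt, T05 (Cover.lean): essential loops (`ess_phi`, `Ess.no_disc`, `exists_ess`)
-/
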