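import Pool.Agent.Lib.MP_55dccf_gt.Defs2
import Pool.Agent.Lib.MP_55dccf_gt.AE1
import Pool.Agent.Lib.MP_55dccf_gt.AE2
import Pool.Agent.Lib.MP_55dccf_gt.Cone
import Pool.Agent.Lib.MP_55dccf_gt.Desc
import Pool.Agent.Lib.MP_55dccf_gt.Cover
import Pool.Agent.Lib.MP_55dccf_gt.AEcone

/-!
# MP_55dccf_gt : T09 (Blow.lean): move O3, blocker data and AE
-/

set_option autoImplicit false
set_option linter.unusedSectionVars false
set_option linter.unusedVariables false

open Set Topology TopologicalSpace unitInterval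

namespace Pool.MP55

section T09

variable {B : Type} [TopologicalSpace B] [CompactSpace B] [MetrizableSpace B]
  (D : BD B) (k : ℕ) [NeZero k]

theorem isClosed_B3 (hD : D.OK) : IsClosed (B3 D k) := by
  have h : B3 D k = ⋂ v, (fun x : B × (D.V → Fin k → CN) => (D.F v x.1, x.2 v)) ⁻¹' (K0 k) := by
    ext x; simp [B3]
  rw [h]
  refine isClosed_iInter fun v => (isClosed_K0 k).preimage ?_
  exact ((hD.hF v).comp continuous_fst).prodMk ((continuous_apply v).comp continuous_snd)

theorem compactSpace_B3 (hD : D.OK) : CompactSpace ↥(B3 D k) :=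
  isCompact_iff_compactSpace.1 (isClosed_B3 D k hD).isCompact

omit [TopologicalSpace B] [CompactSpace B] [MetrizableSpace B] [NeZero k] in
/-- coordinates of a point of `B3` over a non-apex -/
theorem blow_coord (x : ↥(B3 D k)) (v : D.V) (hx : D.F v x.1.1 ≠ apex) (j : Fin k) :
    x.1.2 v j = inc (phi k j (dirT (D.F v x.1.1))) := by
  have h := (x.2 v).2
  rcases h with h | h
  · exact absurd h hx
  · exact h j

/-- over non-apexes the fibre is one point -/
theorem eq_lift3 (hD : D.OK) (x : ↥(B3 D k)) (hx : ∀ v, D.F v x.1.1 ≠ apex) :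
    x = lift3 D k x.1.1 := by
  apply Subtype.ext
  apply Prod.ext
  · rfl
  · funext v j
    exact blow_coord D k x v (hx v) j

omit [CompactSpace B] [MetrizableSpace B] in
theorem blow_continuousOn_coord (hD : D.OK) (u : D.V) (j : Fin k) :
    ContinuousOn (fun b => inc (phi k j (dirT (D.F u b)))) {b | D.F u b ≠ apex} := by
  refine (continuous_inc.comp (continuous_phi k j)).comp_continuousOn ?_
  exact continuousOn_dirT.comp (hD.hF u).continuousOn fun b hb => hb

theorem continuousOn_lift3 (hD : D.OK) :
    ContinuousOn (lift3 D k) {b | ∀ v, D.F v b ≠ apex} := by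
  rw [Topology.IsInducing.subtypeVal.continuousOn_iff]
  refine ContinuousOn.prodMk continuousOn_id ?_
  refine continuousOn_pi.2 fun v => continuousOn_pi.2 fun j => ?_
  exact (blow_continuousOn_coord D k hD v j).mono fun b hb => hb v

omit [CompactSpace B] [MetrizableSpace B] in
theorem blow_c_mem (hD : D.OK) (v : D.V) (j : Fin k) (w : CN) :
    ((D.c v apex,
      Function.update (lift3 D k (D.c v apex)).1.2 v
        (Function.update (fun _ => inc baseT) j w)) : B × (D.V → Fin k → CN)) ∈ B3 D k := by
  intro u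
  by_cases h : u = v
  · subst h
    refine ⟨⟨j, fun j' hj' => ?_⟩, Or.inl ?_⟩
    · simp [Function.update_of_ne hj']
    · exact hD.Fc u apex
  · have := (lift3 D k (D.c v apex)).2 u
    simp only [Function.update_of_ne h]
    exact this

theorem bd3_c_val (hD : D.OK) (v : D.V) (j : Fin k) (w : CN) :
    ((bd3 D k).c (v, j) w).1 = (D.c v apex,
      Function.update (lift3 D k (D.c v apex)).1.2 v
        (Function.update (fun _ => inc baseT) j w)) := by
  have h := blow_c_mem D k hD v j w
  simp only [bd3]
  rw [dif_pos h]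

theorem blow_ne_apex {z : CN} (h : nm z = 1) : z ≠ apex := by
  rintro rfl
  rw [nm_apex] at h
  exact zero_ne_one h

theorem blow_ne_apex' {z : CN} (h : 0 < nm z) : z ≠ apex := by
  rintro rfl
  rw [nm_apex] at h
  exact lt_irrefl _ h

omit [CompactSpace B] [MetrizableSpace B] [NeZero k] in
/-- if a twin coordinate is interior, then the base point is the apex of the cone -/
theorem blow_apex (hD : D.OK) (x : ↥(B3 D k)) (v : D.V) (j : Fin k) (h : nm (x.1.2 v j) < 1) :
    D.F v x.1.1 = apex := by
  by_contra h1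
  rw [blow_coord D k x v h1 j, nm_inc] at h
  exact lt_irrefl _ h

theorem bd3_ok (hD : D.OK) : (bd3 D k).OK where
  hF := fun v => by
    have : Continuous fun x : ↥(B3 D k) => x.1.2 v.1 v.2 := by fun_prop
    exact this
  hc := fun v => by
    rw [Topology.IsInducing.subtypeVal.continuous_iff]
    have h : (Subtype.val ∘ (bd3 D k).c v) = fun w => (D.c v.1 apex,
      Function.update (lift3 D k (D.c v.1 apex)).1.2 v.1
        (Function.update (fun _ => inc baseT) v.2 w)) := by
      funext w
      exact bd3_c_val D k hD v.1 v.2 w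
    rw [h]
    exact continuous_const.prodMk
      (continuous_const.update v.1 (continuous_const.update v.2 continuous_id))
  Fc := fun v z => by
    have h := bd3_c_val D k hD v.1 v.2 z
    change ((bd3 D k).c (v.1, v.2) z).1.2 v.1 v.2 = z
    rw [h]
    simp
  cF := fun v x hx => by
    change nm (x.1.2 v.1 v.2) < 1 at hx
    change (bd3 D k).c (v.1, v.2) (x.1.2 v.1 v.2) = x
    apply Subtype.ext
    rw [bd3_c_val D k hD v.1 v.2]
    have ha := blow_apex D k hD x v.1 v.2 hx
    have hb : D.c v.1 apex = x.1.1 := by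
      have := hD.cF v.1 x.1.1 (by rw [ha, nm_apex]; exact one_pos)
      rwa [ha] at this
    apply Prod.ext
    · exact hb
    · funext u
      by_cases hu : u = v.1
      · subst hu
        simp only [Function.update_self]
        funext j'
        by_cases hj : j' = v.2
        · subst hj; simp
        · rw [Function.update_of_ne hj]
          obtain ⟨j0, hj0⟩ := (x.2 v.1).1
          have h2 : v.2 = j0 := by
            by_contra h3
            have h4 := hj0 v.2 h3
            have h5 : nm (x.1.2 v.1 v.2) = 1 := by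
              change x.1.2 v.1 v.2 = inc baseT at h4
              rw [h4, nm_inc]
            exact absurd hx (by rw [h5]; exact lt_irrefl _)
          rw [← h2] at hj0
          exact (hj0 j' hj).symm
      · simp only [Function.update_of_ne hu]
        funext j'
        have h1 : nm (D.F u x.1.1) = 1 := by
          rcases hD.disj u v.1 hu x.1.1 with h | h
          · exact h
          · rw [ha, nm_apex] at h
            exact absurd h zero_ne_one
        rw [blow_coord D k x u (blow_ne_apex h1) j', hb]
        rfl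
  disj := fun u v huv x => by
    change nm (x.1.2 u.1 u.2) = 1 ∨ nm (x.1.2 v.1 v.2) = 1
    by_contra hcon
    push Not at hcon
    have hu : nm (x.1.2 u.1 u.2) < 1 := lt_of_le_of_ne (nm_le_one _) hcon.1
    have hv : nm (x.1.2 v.1 v.2) < 1 := lt_of_le_of_ne (nm_le_one _) hcon.2
    have hau := blow_apex D k hD x u.1 u.2 hu
    have hav := blow_apex D k hD x v.1 v.2 hv
    have h1 : u.1 = v.1 := by
      by_contra h
      rcases hD.disj u.1 v.1 h x.1.1 with h2 | h2
      · rw [hau, nm_apex] at h2; exact zero_ne_one h2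
      · rw [hav, nm_apex] at h2; exact zero_ne_one h2
    obtain ⟨j0, hj0⟩ := (x.2 u.1).1
    have h2 : u.2 = j0 := by
      by_contra h3
      have h4 : x.1.2 u.1 u.2 = inc baseT := hj0 u.2 h3
      rw [h4, nm_inc] at hu
      exact lt_irrefl _ hu
    have h3 : v.2 = j0 := by
      by_contra h3
      have h4 : x.1.2 u.1 v.2 = inc baseT := hj0 v.2 h3
      rw [← h1, h4, nm_inc] at hv
      exact lt_irrefl _ hv
    exact huv (Prod.ext h1 (h2.trans h3.symm))
  hγ := fun a => by
    have := (continuousOn_lift3 D k hD).comp_continuous (hD.hγ a)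
      (fun s v => blow_ne_apex (hD.γn a v s))
    exact this
  γn := fun a v s => nm_inc _
  γE := fun a v => by
    have h : (fun s => dirT ((bd3 D k).F v ((bd3 D k).γ a s))) =
        fun s => phi k v.2 (dirT (D.F v.1 (D.γ a s))) := by
      funext s
      exact dirT_inc _
    rw [h]
    refine ess_phi v.2 ?_ (hD.γE a v.1)
    exact continuousOn_dirT.comp_continuous ((hD.hF v.1).comp (hD.hγ a))
      (fun s => blow_ne_apex (hD.γn a v.1 s))

/-! ### the local pieces -/

omit [CompactSpace B] [MetrizableSpace B] in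
theorem blow_nm_other (hD : D.OK) {u v : D.V} (huv : u ≠ v) {b : B} (h : nm (D.F v b) < 1) :
    nm (D.F u b) = 1 := by
  rcases hD.disj u v huv b with h1 | h1
  · exact h1
  · exact absurd h (by rw [h1]; exact lt_irrefl _)

theorem blow_st_apex {κ : ℝ} : st κ apex = apex := by
  unfold st
  rw [nm_apex, zero_div, rad_zero]

open Classical in
/-- the retraction of the local model onto the part of `B3` over the subcone of radius `κ` -/
noncomputable def blowR (v : D.V) (κ : ℝ) (y : CN × (Fin k → CN)) : ↥(B3 D k) :=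
  let x : B × (D.V → Fin k → CN) := (D.c v (sh κ y.1),
    Function.update (lift3 D k (D.c v (sh κ y.1))).1.2 v y.2)
  if h : x ∈ B3 D k then ⟨x, h⟩ else lift3 D k (D.c v apex)

omit [CompactSpace B] [MetrizableSpace B] in
theorem blowR_mem (hD : D.OK) (v : D.V) {κ : ℝ} (h0 : 0 < κ) (y : CN × (Fin k → CN))
    (hy : y ∈ K0 k) : ((D.c v (sh κ y.1),
    Function.update (lift3 D k (D.c v (sh κ y.1))).1.2 v y.2) :
      B × (D.V → Fin k → CN)) ∈ B3 D k := by
  intro u
  by_cases h : u = v
  · subst h
    simp only [Function.update_self]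
    rw [hD.Fc]
    refine ⟨hy.1, ?_⟩
    rcases hy.2 with h | h
    · left
      change sh κ y.1 = apex
      rw [h, sh_apex]
    · right
      intro j
      change y.2 j = inc (phi k j (dirT (sh κ y.1)))
      rw [dirT_sh h0]
      exact h j
  · have := (lift3 D k (D.c v (sh κ y.1))).2 u
    simp only [Function.update_of_ne h]
    exact this

omit [CompactSpace B] [MetrizableSpace B] in
theorem blowR_val (hD : D.OK) (v : D.V) {κ : ℝ} (h0 : 0 < κ) (y : CN × (Fin k → CN))
    (hy : y ∈ K0 k) : (blowR D k v κ y).1 = (D.c v (sh κ y.1),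
    Function.update (lift3 D k (D.c v (sh κ y.1))).1.2 v y.2) := by
  have h := blowR_mem D k hD v h0 y hy
  simp only [blowR]
  rw [dif_pos h]

omit [CompactSpace B] [MetrizableSpace B] in
theorem blow_aeset (hD : D.OK) (v : D.V) {κ : ℝ} (h0 : 0 < κ) (h1 : κ < 1) :
    AESet ((fun x : ↥(B3 D k) => x.1.1) ⁻¹' {b | nm (D.F v b) ≤ κ}) := by
  refine AESet.of_retract (aeset_K0 k) (fun x => (st κ (D.F v x.1.1), x.1.2 v))
    (blowR D k v κ) ?_ ?_ ?_ ?_ ?_
  · refine Continuous.continuousOn ?_
    have e1 : Continuous fun x : ↥(B3 D k) => x.1.1 := by fun_prop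
    have e2 : Continuous fun x : ↥(B3 D k) => x.1.2 v := by fun_prop
    exact ((continuous_st h0).comp ((hD.hF v).comp e1)).prodMk e2
  · rw [Topology.IsInducing.subtypeVal.continuousOn_iff]
    have hval : EqOn (Subtype.val ∘ blowR D k v κ) (fun y => (D.c v (sh κ y.1),
        Function.update (lift3 D k (D.c v (sh κ y.1))).1.2 v y.2)) (K0 k) := by
      intro y hy
      exact blowR_val D k hD v h0 y hy
    refine ContinuousOn.congr ?_ hval
    have c1 : Continuous fun y : CN × (Fin k → CN) => D.c v (sh κ y.1) :=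
      (hD.hc v).comp ((continuous_sh κ).comp continuous_fst)
    refine c1.continuousOn.prodMk ?_
    refine continuousOn_pi.2 fun u => ?_
    by_cases h : u = v
    · subst h
      simp only [Function.update_self]
      exact continuousOn_snd
    · simp only [Function.update_of_ne h]
      refine continuousOn_pi.2 fun j => ?_
      have := (blow_continuousOn_coord D k hD u j).comp c1.continuousOn
        (s := K0 k) (fun y _ => ?_)
      · exact this
      · refine blow_ne_apex (blow_nm_other D hD h ?_)
        rw [hD.Fc, nm_sh h0 h1.le]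
        calc κ * nm y.1 ≤ κ * 1 := mul_le_mul_of_nonneg_left (nm_le_one _) h0.le
          _ < 1 := by rwa [mul_one]
  · intro x hx
    refine ⟨(x.2 v).1, ?_⟩
    rcases (x.2 v).2 with h | h
    · left
      change st κ (D.F v x.1.1) = apex
      have h' : D.F v x.1.1 = apex := h
      rw [h', blow_st_apex]
    · right
      intro j
      change x.1.2 v j = inc (phi k j (dirT (st κ (D.F v x.1.1))))
      rw [dirT_st h0]
      exact h j
  · intro y hy
    change nm (D.F v (blowR D k v κ y).1.1) ≤ κ
    rw [blowR_val D k hD v h0 y hy]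
    change nm (D.F v (D.c v (sh κ y.1))) ≤ κ
    rw [hD.Fc, nm_sh h0 h1.le]
    exact mul_le_of_le_one_right h0.le (nm_le_one _)
  · intro x hx
    change nm (D.F v x.1.1) ≤ κ at hx
    have hmem : ((st κ (D.F v x.1.1), x.1.2 v) : CN × (Fin k → CN)) ∈ K0 k := by
      refine ⟨(x.2 v).1, ?_⟩
      rcases (x.2 v).2 with h | h
      · left
        change st κ (D.F v x.1.1) = apex
        have h' : D.F v x.1.1 = apex := h
        rw [h', blow_st_apex]
      · right
        intro j
        change x.1.2 v j = inc (phi k j (dirT (st κ (D.F v x.1.1))))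
        rw [dirT_st h0]
        exact h j
    apply Subtype.ext
    rw [blowR_val D k hD v h0 _ hmem]
    have hb : D.c v (sh κ (st κ (D.F v x.1.1))) = x.1.1 := by
      rw [sh_st h0 hx]
      exact hD.cF v _ (hx.trans_lt h1)
    apply Prod.ext
    · exact hb
    · funext u
      by_cases h : u = v
      · subst h
        simp only [Function.update_self]
      · simp only [Function.update_of_ne h]
        funext j
        rw [blow_coord D k x u (blow_ne_apex (blow_nm_other D hD h (hx.trans_lt h1))) j, hb]
        rfl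

omit [CompactSpace B] [MetrizableSpace B] in
theorem blow_isClosed_R (hD : D.OK) (κ : ℝ) (v : D.V) : IsClosed {b | nm (D.F v b) ≤ κ} :=
  isClosed_le (continuous_nm.comp (hD.hF v)) continuous_const

omit [CompactSpace B] [MetrizableSpace B] in
theorem blow_isClosed_B0 (hD : D.OK) (κ : ℝ) : IsClosed {b | ∀ v, κ ≤ nm (D.F v b)} := by
  simp only [Set.ofPred_forall]
  exact isClosed_iInter fun v => isClosed_le continuous_const (continuous_nm.comp (hD.hF v))

omit [CompactSpace B] [MetrizableSpace B] in
theorem blow_disjoint_R (hD : D.OK) {κ : ℝ} (h1 : κ < 1) (u v : D.V) (huv : u ≠ v) :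
    Disjoint {b | nm (D.F u b) ≤ κ} {b | nm (D.F v b) ≤ κ} := by
  rw [Set.disjoint_left]
  intro b hu hv
  have h := blow_nm_other D hD huv (lt_of_le_of_lt hv h1)
  change nm (D.F u b) ≤ κ at hu
  rw [h] at hu
  exact absurd hu (not_le.2 h1)

theorem isAE_B3 (hD : D.OK) (hB : IsAE B) : IsAE ↥(B3 D k) := by
  refine isAE_exchange (fun x : ↥(B3 D k) => x.1.1) (by fun_prop)
    {b | ∀ v, (1 / 2 : ℝ) ≤ nm (D.F v b)} (fun v => {b | nm (D.F v b) ≤ (1 / 2 : ℝ)})
    (blow_isClosed_B0 D hD _) (fun v => blow_isClosed_R D hD _ v)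
    (fun u v huv => blow_disjoint_R D hD (by norm_num) u v huv) ?_
    (lift3 D k) ?_ (fun b _ => rfl) ?_
    (fun v => blow_aeset D k hD v (by norm_num) (by norm_num)) hB
  · intro b
    by_cases h : ∀ v, (1 / 2 : ℝ) ≤ nm (D.F v b)
    · exact Or.inl h
    · push Not at h
      obtain ⟨v, hv⟩ := h
      exact Or.inr ⟨v, hv.le⟩
  · refine (continuousOn_lift3 D k hD).mono fun b hb v => ?_
    exact blow_ne_apex' (lt_of_lt_of_le (by norm_num) (hb v))
  · intro x hx
    exact (eq_lift3 D k hD x fun v =>
      blow_ne_apex' (lt_of_lt_of_le (by norm_num) (hx v))).symm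

/-- section-like map and controlled homotopy for O3 -/
theorem exists_q3 (hD : D.OK) (hB : IsAE B) {κ : ℝ} (h0 : 0 < κ) (h1 : κ < 1) :
    ∃ (q : B → ↥(B3 D k)) (H : ↥(B3 D k) × I → ↥(B3 D k)), Continuous q ∧ Continuous H ∧
      (∀ b, (∀ v, κ ≤ nm (D.F v b)) → q b = lift3 D k b) ∧
      (∀ b, (q b).1.1 = b ∨ ∃ v, nm (D.F v b) ≤ κ ∧ nm (D.F v (q b).1.1) ≤ κ) ∧
      (∀ x, H (x, 0) = x) ∧ (∀ x, H (x, 1) = q x.1.1) ∧
      (∀ x t, H (x, t) = x ∨ ∃ v, nm (D.F v x.1.1) ≤ κ ∧ nm (D.F v (H (x, t)).1.1) ≤ κ) := by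
  classical
  have : CompactSpace ↥(B3 D k) := compactSpace_B3 D k hD
  -- local maps
  have hloc : ∀ v : D.V, ∃ G : B → ↥(B3 D k), Continuous G ∧
      (∀ b, G b ∈ ((fun x : ↥(B3 D k) => x.1.1) ⁻¹' {b | nm (D.F v b) ≤ κ})) ∧
      EqOn G (lift3 D k) {b | nm (D.F v b) = κ} := by
    intro v
    refine blow_aeset D k hD v h0 h1 B {b | nm (D.F v b) = κ}
      (isClosed_eq (continuous_nm.comp (hD.hF v)) continuous_const) (lift3 D k) ?_ ?_
    · refine (continuousOn_lift3 D k hD).mono fun b hb u => ?_
      change nm (D.F v b) = κ at hb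
      by_cases h : u = v
      · subst h
        exact blow_ne_apex' (by rw [hb]; exact h0)
      · exact blow_ne_apex (blow_nm_other D hD h (by rw [hb]; exact h1))
    · intro b hb
      change nm (D.F v b) = κ at hb
      change nm (D.F v b) ≤ κ
      exact hb.le
  choose G hG hGm hGe using hloc
  -- the global map
  let q : B → ↥(B3 D k) := fun b =>
    if h : ∃ v, nm (D.F v b) ≤ κ then G h.choose b else lift3 D k b
  have hqR : ∀ v b, nm (D.F v b) ≤ κ → q b = G v b := by
    intro v b hb
    have h : ∃ v, nm (D.F v b) ≤ κ := ⟨v, hb⟩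
    have he : h.choose = v := by
      by_contra hne
      exact Set.disjoint_left.1 (blow_disjoint_R D hD h1 _ _ hne) h.choose_spec hb
    simp only [q]
    rw [dif_pos h, he]
  have hq0 : ∀ b, (∀ v, κ ≤ nm (D.F v b)) → q b = lift3 D k b := by
    intro b hb
    by_cases h : ∃ v, nm (D.F v b) ≤ κ
    · obtain ⟨v, hv⟩ := h
      rw [hqR v b hv]
      exact hGe v (le_antisymm hv (hb v))
    · simp only [q]
      rw [dif_neg h]
  have hcq : Continuous q := by
    let Cv : Option D.V → Set B := fun o => Option.elim o {b | ∀ v, κ ≤ nm (D.F v b)}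
      (fun v => {b | nm (D.F v b) ≤ κ})
    refine (locallyFinite_of_finite Cv).continuous ?_ ?_ ?_
    · refine Set.eq_univ_of_forall fun b => ?_
      by_cases h : ∃ v, nm (D.F v b) ≤ κ
      · obtain ⟨v, hv⟩ := h
        exact Set.mem_iUnion.2 ⟨some v, hv⟩
      · push Not at h
        exact Set.mem_iUnion.2 ⟨none, fun v => (h v).le⟩
    · intro o
      cases o with
      | none => exact blow_isClosed_B0 D hD κ
      | some v => exact blow_isClosed_R D hD κ v
    · intro o
      cases o with
      | none =>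
        have h2 : ContinuousOn (lift3 D k) {b | ∀ v, κ ≤ nm (D.F v b)} :=
          (continuousOn_lift3 D k hD).mono fun b hb v =>
            blow_ne_apex' (lt_of_lt_of_le h0 (hb v))
        exact h2.congr fun b hb => hq0 b hb
      | some v =>
        exact (hG v).continuousOn.congr fun b hb => hqR v b hb
  have hqR' : ∀ v b, nm (D.F v b) ≤ κ → nm (D.F v (q b).1.1) ≤ κ := by
    intro v b hb
    rw [hqR v b hb]
    exact hGm v b
  obtain ⟨H, hH, H0, H1, H2⟩ := exists_homotopy (fun x : ↥(B3 D k) => x.1.1) (by fun_prop) q hcq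
    (fun v : D.V => {b | nm (D.F v b) ≤ κ}) (fun v => blow_isClosed_R D hD κ v)
    (fun u v huv => blow_disjoint_R D hD h1 u v huv)
    (fun v => blow_aeset D k hD v h0 h1) (fun v b hb => hqR' v b hb)
    (by
      intro x hx
      have hx' : ∀ v, κ ≤ nm (D.F v x.1.1) := fun v => (not_le.1 (hx v)).le
      change q x.1.1 = x
      rw [hq0 _ hx']
      exact (eq_lift3 D k hD x fun v => blow_ne_apex' (lt_of_lt_of_le h0 (hx' v))).symm)
  refine ⟨q, H, hcq, hH, hq0, ?_, H0, H1, ?_⟩
  · intro b
    by_cases h : ∃ v, nm (D.F v b) ≤ κ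
    · obtain ⟨v, hv⟩ := h
      exact Or.inr ⟨v, hv, hqR' v b hv⟩
    · push Not at h
      left
      rw [hq0 b fun v => (h v).le]
      rfl
  · intro x t
    rcases H2 x t with h | ⟨v, hv, hv'⟩
    · exact Or.inl h
    · exact Or.inr ⟨v, hv, hv'⟩

end T09

end Pool.MP55
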