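import Pool.Agent.Lib.MP_55dccf_gt.Defs2
import Pool.Agent.Lib.MP_55dccf_gt.Cone
import Pool.Agent.Lib.MP_55dccf_gt.Desc

/-!
# T06 (helper28): the suspension of the commutator map is null-homotopic
-/

set_option autoImplicit false

open Set Topology TopologicalSpace unitInterval

namespace Pool.MP55

/-! ### real functions -/

/-- first coordinate of the boundary path of the unit square -/
noncomputable def suspQ1 (s : ℝ) : ℝ := max 0 (min (min 1 (4 * s)) (3 - 4 * s))

/-- second coordinate of the boundary path of the unit square -/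
noncomputable def suspQ2 (s : ℝ) : ℝ := max 0 (min (min 1 (4 * s - 1)) (4 - 4 * s))

noncomputable def suspA (z : ℝ) : ℝ := min 1 (min (4 * z) (4 * (1 - z)))

noncomputable def suspD (a b : ℝ) : ℝ := max 0 (2 * a + 2 * b - 2)

noncomputable def suspU (a b t : ℝ) : ℝ := (t + 1) * (1 + suspD a b)

noncomputable def suspH (a b t : ℝ) : ℝ :=
  suspU a b t - 1 - 2 * max 0 (min (suspD a b) (suspU a b t - 2 * a))

theorem suspQ1_mem (s : ℝ) : suspQ1 s ∈ Icc (0:ℝ) 1 :=
  ⟨le_max_left _ _, max_le zero_le_one ((min_le_left _ _).trans (min_le_left _ _))⟩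

theorem suspQ2_mem (s : ℝ) : suspQ2 s ∈ Icc (0:ℝ) 1 :=
  ⟨le_max_left _ _, max_le zero_le_one ((min_le_left _ _).trans (min_le_left _ _))⟩

theorem suspA_mem {z : ℝ} (h : z ∈ Icc (0:ℝ) 1) : suspA z ∈ Icc (0:ℝ) 1 :=
  ⟨le_min zero_le_one (le_min (by linarith [h.1]) (by linarith [h.2])), min_le_left _ _⟩

theorem suspH_mem {a b t : ℝ} (ha : a ∈ Icc (0:ℝ) 1) (hb : b ∈ Icc (0:ℝ) 1)
    (ht : t ∈ Icc (-1:ℝ) 1) : |suspH a b t| ≤ 1 := by
  have hD0 : 0 ≤ suspD a b := le_max_left _ _
  have hDa : suspD a b ≤ 2 * a := max_le (by linarith [ha.1]) (by linarith [hb.2])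
  have hu0 : 0 ≤ suspU a b t := mul_nonneg (by linarith [ht.1]) (by linarith)
  have hu1 : suspU a b t ≤ 2 * (1 + suspD a b) :=
    mul_le_mul_of_nonneg_right (by linarith [ht.2]) (by linarith)
  unfold suspH
  set D := suspD a b with hD
  set u := suspU a b t with hu
  rw [abs_le]
  rcases le_total (u - 2 * a) 0 with h1 | h1
  · have : max 0 (min D (u - 2 * a)) = 0 := max_eq_left ((min_le_right _ _).trans h1)
    rw [this]
    constructor <;> linarith [ha.2]
  · rcases le_total (u - 2 * a) D with h2 | h2
    · rw [min_eq_right h2, max_eq_right h1]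
      constructor <;> linarith [ha.2]
    · rw [min_eq_left h2, max_eq_right hD0]
      constructor <;> linarith [ha.2]

theorem suspH_one {a b : ℝ} (ha : a ∈ Icc (0:ℝ) 1) : suspH a b 1 = 1 := by
  have hD0 : 0 ≤ suspD a b := le_max_left _ _
  have hu : suspU a b 1 = 2 * (1 + suspD a b) := by unfold suspU; ring
  unfold suspH
  rw [hu, min_eq_left (by linarith [ha.2]), max_eq_right hD0]
  ring

theorem suspH_neg_one {a b : ℝ} (ha : a ∈ Icc (0:ℝ) 1) : suspH a b (-1) = -1 := by
  have hu : suspU a b (-1) = 0 := by unfold suspU; ring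
  unfold suspH
  rw [hu, max_eq_left ((min_le_right _ _).trans (by linarith [ha.1]))]
  ring

theorem suspD_of_le {a b : ℝ} (h : a + b ≤ 1) : suspD a b = 0 := max_eq_left (by linarith)

theorem suspU_of_le {a b t : ℝ} (h : a + b ≤ 1) : suspU a b t = t + 1 := by
  unfold suspU; rw [suspD_of_le h]; ring

theorem suspH_of_le {a b t : ℝ} (h : a + b ≤ 1) : suspH a b t = t := by
  unfold suspH
  rw [suspD_of_le h, suspU_of_le h, max_eq_left (min_le_left _ _)]
  ring

theorem suspH_thr1 {a b t : ℝ} (h : suspU a b t = 2 * a) : suspH a b t = 2 * a - 1 := by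
  have hD0 : 0 ≤ suspD a b := le_max_left _ _
  unfold suspH
  rw [h, sub_self, min_eq_right hD0, max_self]
  ring

theorem suspH_thr2 {a b t : ℝ} (ha : 0 ≤ a) (hb : b = 1) (h : suspU a b t = 2 * suspD a b) :
    suspH a b t = -1 := by
  have hD : suspD a b = 2 * a := by
    unfold suspD; rw [hb, max_eq_right (by linarith)]; ring
  unfold suspH
  rw [h, hD, show 2 * (2 * a) - 2 * a = 2 * a by ring, min_self, max_eq_right (by linarith)]
  ring

theorem susp_pt_eq_base {i : Idx} {z : ℝ} (h : suspA z < 1) : pt i (chi z) = baseT := by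
  unfold suspA at h
  rcases min_lt_iff.1 h with h | h
  · exact absurd h (lt_irrefl _)
  rcases min_lt_iff.1 h with h | h
  · unfold chi
    rw [cl_of_le (by linarith), pt_zero]
  · unfold chi
    rw [cl_of_ge (by linarith), pt_one]

theorem continuous_suspQ1 : Continuous suspQ1 := by unfold suspQ1; fun_prop
theorem continuous_suspQ2 : Continuous suspQ2 := by unfold suspQ2; fun_prop
theorem continuous_suspA : Continuous suspA := by unfold suspA; fun_prop

theorem continuous_suspD : Continuous fun p : ℝ × ℝ => suspD p.1 p.2 := by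
  unfold suspD; fun_prop

/-! ### the map on the square -/

/-- parameters: `p = (s, r, t)` -/
abbrev SuspP := ℝ × ℝ × ℝ

noncomputable def suspT (t : ℝ) : ℝ := max (-1) (min 1 t)

theorem suspT_mem (t : ℝ) : suspT t ∈ Icc (-1:ℝ) 1 :=
  ⟨le_max_left _ _, max_le (by norm_num) (min_le_left _ _)⟩

theorem suspT_of_mem {t : ℝ} (h : t ∈ Icc (-1:ℝ) 1) : suspT t = t := by
  unfold suspT; rw [min_eq_right h.2, max_eq_right h.1]

noncomputable def suspS1 (p : SuspP) : ℝ := cl p.2.1 * suspQ1 p.1
noncomputable def suspS2 (p : SuspP) : ℝ := cl p.2.1 * suspQ2 p.1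
noncomputable def suspA1 (p : SuspP) : ℝ := suspA (suspS1 p)
noncomputable def suspA2 (p : SuspP) : ℝ := suspA (suspS2 p)
noncomputable def suspD' (p : SuspP) : ℝ := suspD (suspA1 p) (suspA2 p)
noncomputable def suspU' (p : SuspP) : ℝ := suspU (suspA1 p) (suspA2 p) (suspT p.2.2)
noncomputable def suspH' (p : SuspP) : ℝ := suspH (suspA1 p) (suspA2 p) (suspT p.2.2)

theorem suspS1_mem (p : SuspP) : suspS1 p ∈ Icc (0:ℝ) 1 :=
  ⟨mul_nonneg (cl_mem _).1 (suspQ1_mem _).1, mul_le_one₀ (cl_mem _).2 (suspQ1_mem _).1
    (suspQ1_mem _).2⟩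

theorem suspS2_mem (p : SuspP) : suspS2 p ∈ Icc (0:ℝ) 1 :=
  ⟨mul_nonneg (cl_mem _).1 (suspQ2_mem _).1, mul_le_one₀ (cl_mem _).2 (suspQ2_mem _).1
    (suspQ2_mem _).2⟩

theorem suspA1_mem (p : SuspP) : suspA1 p ∈ Icc (0:ℝ) 1 := suspA_mem (suspS1_mem p)
theorem suspA2_mem (p : SuspP) : suspA2 p ∈ Icc (0:ℝ) 1 := suspA_mem (suspS2_mem p)

theorem continuous_suspS1 : Continuous suspS1 :=
  (continuous_cl.comp (by fun_prop)).mul (continuous_suspQ1.comp (by fun_prop))

theorem continuous_suspS2 : Continuous suspS2 :=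
  (continuous_cl.comp (by fun_prop)).mul (continuous_suspQ2.comp (by fun_prop))

theorem continuous_suspA1 : Continuous suspA1 := continuous_suspA.comp continuous_suspS1
theorem continuous_suspA2 : Continuous suspA2 := continuous_suspA.comp continuous_suspS2

theorem continuous_suspT : Continuous suspT := by unfold suspT; fun_prop

theorem continuous_suspD' : Continuous suspD' :=
  continuous_suspD.comp (continuous_suspA1.prodMk continuous_suspA2)

theorem continuous_suspU' : Continuous suspU' := by
  unfold suspU' suspU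
  have h1 := continuous_suspD'
  unfold suspD' at h1
  have h2 : Continuous fun p : SuspP => suspT p.2.2 := continuous_suspT.comp (by fun_prop)
  fun_prop

theorem continuous_suspH' : Continuous suspH' := by
  have h1 := continuous_suspD'
  have h2 := continuous_suspU'
  have h3 := continuous_suspA1
  have : suspH' = fun p => suspU' p - 1 - 2 * max 0 (min (suspD' p) (suspU' p - 2 * suspA1 p)) :=
    rfl
  rw [this]
  fun_prop

theorem suspH'_mem (p : SuspP) : |suspH' p| ≤ 1 :=
  suspH_mem (suspA1_mem p) (suspA2_mem p) (suspT_mem _)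

noncomputable def suspX (i : Idx) (p : SuspP) : TH := pt (ca i) (chi (suspS1 p))
noncomputable def suspY (i : Idx) (p : SuspP) : TH := pt (cb i) (chi (suspS2 p))

theorem continuous_chi : Continuous chi := by
  unfold chi
  exact continuous_cl.comp (by fun_prop)

theorem continuous_suspX (i : Idx) : Continuous (suspX i) :=
  (continuous_pt _).comp (continuous_chi.comp continuous_suspS1)

theorem continuous_suspY (i : Idx) : Continuous (suspY i) :=
  (continuous_pt _).comp (continuous_chi.comp continuous_suspS2)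

theorem suspX_eq_base {i : Idx} {p : SuspP} (h : suspA1 p < 1) : suspX i p = baseT :=
  susp_pt_eq_base h

theorem suspY_eq_base {i : Idx} {p : SuspP} (h : suspA2 p < 1) : suspY i p = baseT :=
  susp_pt_eq_base h

open Classical in
noncomputable def suspPX (i : Idx) (p : SuspP) : TH :=
  if suspU' p ≤ 2 * suspA1 p then suspX i p else baseT

open Classical in
noncomputable def suspPY (i : Idx) (p : SuspP) : TH :=
  if 2 - 2 * suspA2 p + 2 * suspD' p ≤ suspU' p then suspY i p else baseT

theorem suspPX_of_lt {i : Idx} {p : SuspP} (h : suspA1 p < 1) : suspPX i p = baseT := by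
  unfold suspPX; rw [suspX_eq_base h, ite_self]

theorem suspPY_of_lt {i : Idx} {p : SuspP} (h : suspA2 p < 1) : suspPY i p = baseT := by
  unfold suspPY; rw [suspY_eq_base h, ite_self]

theorem continuousAt_suspPX {i : Idx} {p : SuspP} (hp : |suspH' p| < 1) :
    ContinuousAt (suspPX i) p := by
  have hc : Continuous fun p => 2 * suspA1 p := continuous_const.mul continuous_suspA1
  rcases (suspA1_mem p).2.lt_or_eq with h1 | h1
  · have : ∀ᶠ q in 𝓝 p, suspPX i q = baseT := by
      filter_upwards [continuous_suspA1.continuousAt.eventually_lt continuousAt_const h1] with q hq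
      exact suspPX_of_lt hq
    exact (continuousAt_const (y := baseT)).congr (this.mono fun q hq => hq.symm)
  · rcases lt_trichotomy (suspU' p) (2 * suspA1 p) with h2 | h2 | h2
    · have : ∀ᶠ q in 𝓝 p, suspPX i q = suspX i q := by
        filter_upwards [continuous_suspU'.continuousAt.eventually_lt
          hc.continuousAt h2] with q hq
        unfold suspPX
        rw [if_pos hq.le]
      exact (continuous_suspX i).continuousAt.congr (this.mono fun q hq => hq.symm)
    · exfalso
      have : suspH' p = 1 := by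
        unfold suspH'
        rw [suspH_thr1 h2, h1]; norm_num
      rw [this, abs_one] at hp
      exact lt_irrefl _ hp
    · have : ∀ᶠ q in 𝓝 p, suspPX i q = baseT := by
        filter_upwards [hc.continuousAt.eventually_lt
          continuous_suspU'.continuousAt h2] with q hq
        unfold suspPX
        rw [if_neg (not_le.2 hq)]
      exact (continuousAt_const (y := baseT)).congr (this.mono fun q hq => hq.symm)

theorem continuousAt_suspPY {i : Idx} {p : SuspP} (hp : |suspH' p| < 1) :
    ContinuousAt (suspPY i) p := by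
  have hc : Continuous fun p => 2 - 2 * suspA2 p + 2 * suspD' p :=
    (continuous_const.sub (continuous_const.mul continuous_suspA2)).add
      (continuous_const.mul continuous_suspD')
  rcases (suspA2_mem p).2.lt_or_eq with h1 | h1
  · have : ∀ᶠ q in 𝓝 p, suspPY i q = baseT := by
      filter_upwards [continuous_suspA2.continuousAt.eventually_lt continuousAt_const h1] with q hq
      exact suspPY_of_lt hq
    exact (continuousAt_const (y := baseT)).congr (this.mono fun q hq => hq.symm)
  · rcases lt_trichotomy (suspU' p) (2 - 2 * suspA2 p + 2 * suspD' p) with h2 | h2 | h2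
    · have : ∀ᶠ q in 𝓝 p, suspPY i q = baseT := by
        filter_upwards [continuous_suspU'.continuousAt.eventually_lt
          hc.continuousAt h2] with q hq
        unfold suspPY
        rw [if_neg (not_le.2 hq)]
      exact (continuousAt_const (y := baseT)).congr (this.mono fun q hq => hq.symm)
    · exfalso
      have : suspH' p = -1 := by
        unfold suspH'
        refine suspH_thr2 (suspA1_mem p).1 h1 ?_
        rw [h1] at h2
        have h3 : suspU' p = 2 * suspD' p := by rw [h2]; ring
        exact h3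
      rw [this, abs_neg, abs_one] at hp
      exact lt_irrefl _ hp
    · have : ∀ᶠ q in 𝓝 p, suspPY i q = suspY i q := by
        filter_upwards [hc.continuousAt.eventually_lt
          continuous_suspU'.continuousAt h2] with q hq
        unfold suspPY
        rw [if_pos hq.le]
      exact (continuous_suspY i).continuousAt.congr (this.mono fun q hq => hq.symm)

/-- one of the two factors is trivial -/
theorem suspP_or (i : Idx) (p : SuspP) : suspPX i p = baseT ∨ suspPY i p = baseT := by
  rcases (suspA1_mem p).2.lt_or_eq with h1 | h1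
  · exact Or.inl (suspPX_of_lt h1)
  rcases (suspA2_mem p).2.lt_or_eq with h2 | h2
  · exact Or.inr (suspPY_of_lt h2)
  have hD : suspD' p = 2 := by
    unfold suspD' suspD
    rw [h1, h2]; norm_num
  by_cases h3 : suspU' p ≤ 2 * suspA1 p
  · right
    unfold suspPY
    rw [if_neg]
    rw [h2, hD, not_le]
    rw [h1] at h3
    linarith
  · left
    unfold suspPX
    rw [if_neg h3]

open Classical in
noncomputable def suspTh (i : Idx) (p : SuspP) : TH :=
  if suspPX i p = baseT then suspPY i p else suspPX i p

theorem suspTh_val (i : Idx) (p : SuspP) : (suspTh i p).1 = (suspPX i p).1 * (suspPY i p).1 := by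
  have hb : (baseT : TH).1 = 1 := rfl
  unfold suspTh
  rcases suspP_or i p with h | h
  · rw [if_pos h, h, hb, one_mul]
  · rw [h]
    split_ifs with h2
    · rw [h2, hb, one_mul]
    · rw [hb, mul_one]

theorem continuousAt_suspTh {i : Idx} {p : SuspP} (hp : |suspH' p| < 1) :
    ContinuousAt (suspTh i) p := by
  rw [IsInducing.subtypeVal.continuousAt_iff]
  have h1 : (Subtype.val ∘ suspTh i) = fun p => (suspPX i p).1 * (suspPY i p).1 :=
    funext fun p => suspTh_val i p
  rw [h1]
  exact (continuous_subtype_val.continuousAt.comp (continuousAt_suspPX hp)).mul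
    (continuous_subtype_val.continuousAt.comp (continuousAt_suspPY hp))

/-- the value of the homotopy in the suspension -/
noncomputable def suspG (i : Idx) (p : SuspP) : CN × ℝ :=
  (rad (1 - |suspH' p|) (suspTh i p), suspH' p)

theorem continuous_suspG (i : Idx) : Continuous (suspG i) := by
  refine Continuous.prodMk ?_ continuous_suspH'
  exact continuous_rad_of (continuous_const.sub continuous_suspH'.abs) fun p hp =>
    continuousAt_suspTh (by linarith)

theorem nm_suspG (i : Idx) (p : SuspP) : nm (suspG i p).1 = 1 - |(suspG i p).2| := by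
  have h1 := suspH'_mem p
  have h2 := abs_nonneg (suspH' p)
  simp only [suspG]
  rw [nm_rad, cl_of_mem ⟨by linarith, by linarith⟩]

/-- when `A1 = 0` or `A2 = 0` -/
theorem suspG_of_left {i : Idx} {p : SuspP} (h : suspA2 p = 0) :
    suspG i p = (rad (1 - |suspT p.2.2|) (suspX i p), suspT p.2.2) := by
  have ha := suspA1_mem p
  have hle : suspA1 p + suspA2 p ≤ 1 := by rw [h]; linarith [ha.2]
  have hH : suspH' p = suspT p.2.2 := suspH_of_le hle
  have hY : suspPY i p = baseT := suspPY_of_lt (by rw [h]; norm_num)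
  have hX : suspPX i p = suspX i p := by
    rcases ha.2.lt_or_eq with h1 | h1
    · rw [suspPX_of_lt h1, suspX_eq_base h1]
    · unfold suspPX
      rw [if_pos]
      have : suspU' p = suspT p.2.2 + 1 := suspU_of_le hle
      rw [this, h1]
      linarith [(suspT_mem p.2.2).2]
  have hT : suspTh i p = suspX i p := by
    unfold suspTh
    rw [hX, hY]
    split_ifs with h3
    · exact h3.symm
    · rfl
  unfold suspG
  rw [hH, hT]

theorem suspG_of_right {i : Idx} {p : SuspP} (h : suspA1 p = 0) :
    suspG i p = (rad (1 - |suspT p.2.2|) (suspY i p), suspT p.2.2) := by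
  have ha := suspA2_mem p
  have hle : suspA1 p + suspA2 p ≤ 1 := by rw [h]; linarith [ha.2]
  have hH : suspH' p = suspT p.2.2 := suspH_of_le hle
  have hX : suspPX i p = baseT := suspPX_of_lt (by rw [h]; norm_num)
  have hY : suspPY i p = suspY i p := by
    rcases ha.2.lt_or_eq with h1 | h1
    · rw [suspPY_of_lt h1, suspY_eq_base h1]
    · unfold suspPY
      rw [if_pos]
      have h4 : suspU' p = suspT p.2.2 + 1 := suspU_of_le hle
      have h5 : suspD' p = 0 := suspD_of_le hle
      rw [h4, h5, h1]
      linarith [(suspT_mem p.2.2).1]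
  have hT : suspTh i p = suspY i p := by
    unfold suspTh
    rw [hX, hY, if_pos rfl]
  unfold suspG
  rw [hH, hT]

theorem suspA_zero : suspA 0 = 0 := by unfold suspA; norm_num
theorem suspA_one : suspA 1 = 0 := by unfold suspA; norm_num

/-- the base value -/
noncomputable def suspB (t : ℝ) : CN × ℝ := (rad (1 - |suspT t|) baseT, suspT t)

theorem suspG_base {i : Idx} {p : SuspP} (h1 : suspS1 p = 0) (h2 : suspS2 p = 0) :
    suspG i p = suspB p.2.2 := by
  have hA1 : suspA1 p = 0 := by unfold suspA1; rw [h1, suspA_zero]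
  have hA2 : suspA2 p = 0 := by unfold suspA2; rw [h2, suspA_zero]
  rw [suspG_of_left hA2, suspX_eq_base (by rw [hA1]; norm_num), suspB]

/-- the boundary values -/
theorem suspG_bdry (i : Idx) {s t : ℝ} (hs : s ∈ Icc (0:ℝ) 1) (ht : t ∈ Icc (-1:ℝ) 1) :
    suspG i (s, 1, t) = (rad (1 - |t|) (cpath i s), t) := by
  have hS1 : suspS1 (s, 1, t) = suspQ1 s := by
    unfold suspS1; simp only; rw [cl_of_ge le_rfl, one_mul]
  have hS2 : suspS2 (s, 1, t) = suspQ2 s := by
    unfold suspS2; simp only; rw [cl_of_ge le_rfl, one_mul]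
  have hT := suspT_of_mem ht
  unfold cpath
  split_ifs with c1 c2 c3
  · have q1 : suspQ1 s = 4 * s := by
      have hs0 := hs.1; have hs1 := hs.2
      unfold suspQ1
      simp only [min_def, max_def]
      split_ifs <;> linarith
    have q2 : suspQ2 s = 0 := by
      have hs0 := hs.1; have hs1 := hs.2
      unfold suspQ2
      simp only [min_def, max_def]
      split_ifs <;> linarith
    have hA : suspA2 (s, 1, t) = 0 := by unfold suspA2; rw [hS2, q2, suspA_zero]
    rw [suspG_of_left hA]
    unfold suspX
    rw [hS1, q1]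
    simp only [hT]
  · have q1 : suspQ1 s = 1 := by
      have hs0 := hs.1; have hs1 := hs.2
      unfold suspQ1
      simp only [min_def, max_def]
      split_ifs <;> linarith
    have q2 : suspQ2 s = 4 * s - 1 := by
      have hs0 := hs.1; have hs1 := hs.2
      unfold suspQ2
      simp only [min_def, max_def]
      split_ifs <;> linarith
    have hA : suspA1 (s, 1, t) = 0 := by unfold suspA1; rw [hS1, q1, suspA_one]
    rw [suspG_of_right hA]
    unfold suspY
    rw [hS2, q2]
    simp only [hT]
  · have q1 : suspQ1 s = 3 - 4 * s := by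
      have hs0 := hs.1; have hs1 := hs.2
      unfold suspQ1
      simp only [min_def, max_def]
      split_ifs <;> linarith
    have q2 : suspQ2 s = 1 := by
      have hs0 := hs.1; have hs1 := hs.2
      unfold suspQ2
      simp only [min_def, max_def]
      split_ifs <;> linarith
    have hA : suspA2 (s, 1, t) = 0 := by unfold suspA2; rw [hS2, q2, suspA_one]
    rw [suspG_of_left hA]
    unfold suspX
    rw [hS1, q1]
    simp only [hT]
  · have q1 : suspQ1 s = 0 := by
      have hs0 := hs.1; have hs1 := hs.2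
      unfold suspQ1
      simp only [min_def, max_def]
      split_ifs <;> linarith
    have q2 : suspQ2 s = 4 - 4 * s := by
      have hs0 := hs.1; have hs1 := hs.2
      unfold suspQ2
      simp only [min_def, max_def]
      split_ifs <;> linarith
    have hA : suspA1 (s, 1, t) = 0 := by unfold suspA1; rw [hS1, q1, suspA_zero]
    rw [suspG_of_right hA]
    unfold suspY
    rw [hS2, q2]
    simp only [hT]

/-- `M = (M₁,M₂)` maps the cylinder `CN × [-1,1]` to the suspension `{nm z = 1 - |s|}`. -/
theorem exists_M : ∃ (M₁ : CN × ℝ → CN) (M₂ : CN × ℝ → ℝ), Continuous M₁ ∧ Continuous M₂ ∧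
    (∀ x, |M₂ x| ≤ 1) ∧ (∀ x, nm (M₁ x) = 1 - |M₂ x|) ∧
    (∀ θ : TH, ∀ t ∈ Icc (-1 : ℝ) 1, M₁ (inc θ, t) = rad (1 - |t|) (phi1 θ) ∧
      M₂ (inc θ, t) = t) ∧ (∀ w, M₂ (w, 1) = 1) ∧ ∀ w, M₂ (w, -1) = -1 := by
  obtain ⟨G, hG, hGe⟩ := exists_cone_desc (X := ℝ) (Y := CN × ℝ)
    (fun i s r t => suspG i (s, r, t)) (fun i => (continuous_suspG i).continuousOn)
    (fun _ t => suspB t)
    (fun i r _ t => suspG_base (by unfold suspS1 suspQ1; norm_num)
      (by unfold suspS2 suspQ2; norm_num))
    (fun i r _ t => suspG_base (by unfold suspS1 suspQ1; norm_num)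
      (by unfold suspS2 suspQ2; norm_num))
    (fun i s _ t => suspG_base (by unfold suspS1; rw [cl_of_le le_rfl, zero_mul])
      (by unfold suspS2; rw [cl_of_le le_rfl, zero_mul]))
  have hrep : ∀ w : CN, ∃ i, ∃ s ∈ Icc (0:ℝ) 1, ∃ r ∈ Icc (0:ℝ) 1, w = rad r (pt i s) := by
    intro w
    obtain ⟨⟨i, s⟩, hs, hp⟩ := exists_pt (dirT w)
    exact ⟨i, s, hs, nm w, ⟨nm_nonneg w, nm_le_one w⟩, by
      simp only at hp
      rw [hp]
      exact (rad_nm_dirT w).symm⟩
  have hval : ∀ x : CN × ℝ, ∃ i p, G x = suspG i p := by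
    rintro ⟨w, t⟩
    obtain ⟨i, s, hs, r, hr, rfl⟩ := hrep w
    exact ⟨i, (s, r, t), hGe i s hs r hr t⟩
  refine ⟨fun x => (G x).1, fun x => (G x).2, continuous_fst.comp hG, continuous_snd.comp hG,
    ?_, ?_, ?_, ?_, ?_⟩
  · intro x
    obtain ⟨i, p, h⟩ := hval x
    simp only [h]
    exact suspH'_mem p
  · intro x
    obtain ⟨i, p, h⟩ := hval x
    simp only [h]
    exact nm_suspG i p
  · intro θ t ht
    obtain ⟨⟨i, s⟩, hs, hp⟩ := exists_pt θ
    simp only at hs hp
    have h1 : G (inc θ, t) = (rad (1 - |t|) (phi1 θ), t) := by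
      have h2 := hGe i s hs 1 ⟨zero_le_one, le_rfl⟩ t
      rw [suspG_bdry i hs ht] at h2
      rw [← hp, phi1_pt i hs]
      exact h2
    simp only [h1, and_self]
  · intro w
    obtain ⟨i, s, hs, r, hr, rfl⟩ := hrep w
    simp only [hGe i s hs r hr]
    have : suspT 1 = 1 := suspT_of_mem ⟨by norm_num, le_rfl⟩
    simp only [suspG, suspH', this]
    exact suspH_one (suspA1_mem _)
  · intro w
    obtain ⟨i, s, hs, r, hr, rfl⟩ := hrep w
    simp only [hGe i s hs r hr]
    have : suspT (-1) = -1 := suspT_of_mem ⟨le_rfl, by norm_num⟩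
    simp only [suspG, suspH', this]
    exact suspH_neg_one (suspA1_mem _)

end Pool.MP55
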