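import Pool.Agent.Lib.MP_55dccf_gt.Cone
import Pool.Agent.Lib.MP_55dccf_gt.Desc
import Pool.Agent.Lib.MP_55dccf_gt.Susp
import Pool.Agent.Lib.MP_55dccf_gt.AEcone

/-!
# MP_55dccf_gt : local push-off
-/

namespace Pool.MP55

set_option autoImplicit false

open Set Topology TopologicalSpace unitInterval

/-! ## T08 (LP.lean): local push-off -/

section T08

/-- clamp to `[-1,1]` -/
noncomputable def LP.cc (t : ℝ) : ℝ := max (-1) (min 1 t)

theorem LP.cc_mem (t : ℝ) : LP.cc t ∈ Icc (-1 : ℝ) 1 :=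
  ⟨le_max_left _ _, max_le (by norm_num) (min_le_left _ _)⟩

theorem LP.cc_of_mem {t : ℝ} (h : t ∈ Icc (-1 : ℝ) 1) : LP.cc t = t := by
  rw [LP.cc, min_eq_right h.2, max_eq_right h.1]

theorem LP.continuous_cc : Continuous LP.cc := by
  unfold LP.cc
  fun_prop

theorem LP.exists_Gam (k : ℕ) [NeZero k] : ∃ Γ : CN → Fin k → CN, Continuous Γ ∧
    (∀ z, Γ z ∈ WW k) ∧ ∀ θ : TH, Γ (inc θ) = fun j => inc (pin k j θ) := by
  obtain ⟨Γ, h1, h2, h3⟩ := aeset_WW k CN {z | nm z = 1}
    (isClosed_eq continuous_nm continuous_const) (fun z j => inc (pin k j (dirT z))) (by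
      refine continuousOn_pi.2 fun j => ?_
      refine (continuous_inc.comp (continuous_pin k j)).comp_continuousOn
        (continuousOn_dirT.mono ?_)
      rintro z hz rfl
      rw [mem_ofPred_eq, nm_apex] at hz
      exact zero_ne_one hz) (by
      intro z _
      obtain ⟨j0, h⟩ := pin_wedge k (dirT z)
      exact ⟨j0, fun j hj => by simp only [h j hj]⟩)
  refine ⟨Γ, h1, h2, fun θ => ?_⟩
  rw [h3 (nm_inc θ)]
  funext j
  show inc (pin k j (dirT (inc θ))) = inc (pin k j θ)
  rw [dirT_inc]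

theorem exists_pushoff_local (k : ℕ) [NeZero k] :
    ∃ (h : CN × ℝ → CN × (Fin k → CN)) (m : CN × ℝ → ℝ), Continuous h ∧ Continuous m ∧
      (∀ x, h x ∈ K0 k) ∧
      (∀ (θ : TH) (t : ℝ), h (inc θ, t) = (inc θ, fun j => inc (phi k j θ)) ∧ m (inc θ, t) = t) ∧
      (∀ w t, |m (w, t) - t| ≤ 1) ∧
      ∀ x, m x = 0 → ∀ j, nm ((h x).2 j) = 1 := by
  classical
  obtain ⟨M₁, M₂, hM₁, hM₂, hM₂1, hM₁n, hMθ, hMp, hMm⟩ := exists_M
  obtain ⟨Γ, hΓ, hΓW, hΓθ⟩ := LP.exists_Gam k
  have h2 : (0 : ℝ) < 1 / 2 := by norm_num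
  have hst : Continuous (st (1 / 2)) := continuous_st h2
  -- the values of `Γ ∘ st (1/2) ∘ M₁`
  have hN : ∀ (θ : TH) (t : ℝ), |t| ≤ 1 / 2 →
      Γ (st (1 / 2) (M₁ (inc θ, t))) = fun j => inc (phi k j θ) := by
    intro θ t ht
    have h3 := (hMθ θ t ⟨by linarith [(abs_le.1 ht).1], by linarith [(abs_le.1 ht).2]⟩).1
    have h4 : 0 < 1 - |t| := by linarith
    have h5 : nm (st (1 / 2) (M₁ (inc θ, t))) = 1 := by
      rw [h3, nm_st h2, nm_rad, cl_of_mem ⟨h4.le, by linarith [abs_nonneg t]⟩]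
      exact min_eq_left (by rw [one_le_div h2]; linarith)
    have h6 : dirT (st (1 / 2) (M₁ (inc θ, t))) = phi1 θ := by
      rw [dirT_st h2, h3, dirT_rad h4]
    rw [← inc_dirT h5, h6, hΓθ]
    rfl
  have hN1 : ∀ y, M₂ y = 0 → ∀ j, nm (Γ (st (1 / 2) (M₁ y)) j) = 1 := by
    intro y hy j
    have h3 : nm (M₁ y) = 1 := by
      rw [hM₁n, hy]
      simp
    rw [st_of_nm_one h2 (by norm_num) h3, ← inc_dirT h3, hΓθ, nm_inc]
  have hst1 : ∀ w : CN, 1 / 2 ≤ nm w → st (1 / 2) w = inc (dirT w) := by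
    intro w hw
    have h5 : nm (st (1 / 2) w) = 1 := by
      rw [nm_st h2]
      exact min_eq_left (by rw [one_le_div h2]; linarith)
    rw [← inc_dirT h5, dirT_st h2]
  -- the map `m`
  let m : CN × ℝ → ℝ := fun x => M₂ (st (1 / 2) x.1, LP.cc (2 * x.2)) / 2 +
    (x.2 - LP.cc (2 * x.2) / 2)
  have hcc2 : Continuous fun x : CN × ℝ => LP.cc (2 * x.2) :=
    LP.continuous_cc.comp (continuous_const.mul continuous_snd)
  have hm : Continuous m := by
    refine Continuous.add ((hM₂.comp ((hst.comp continuous_fst).prodMk hcc2)).div_const 2) ?_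
    exact continuous_snd.sub (hcc2.div_const 2)
  have hm1 : ∀ (w : CN) (t : ℝ), 1 / 2 ≤ nm w → m (w, t) = t := by
    intro w t hw
    have h3 := (hMθ (dirT w) (LP.cc (2 * t)) (LP.cc_mem _)).2
    simp only [m]
    rw [hst1 w hw, h3]
    ring
  have hm2 : ∀ (w : CN) (t : ℝ), 1 / 2 < |t| → m (w, t) = t := by
    intro w t ht
    simp only [m]
    rcases lt_abs.1 ht with h | h
    · have : LP.cc (2 * t) = 1 := by
        rw [LP.cc, min_eq_left (by linarith)]
        exact max_eq_right (by norm_num)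
      rw [this, hMp]
      ring
    · have : LP.cc (2 * t) = -1 := by
        rw [LP.cc]
        exact max_eq_left ((min_le_right _ _).trans (by linarith))
      rw [this, hMm]
      ring
  -- the map `h`
  let A : CN × ℝ → CN × (Fin k → CN) := fun x =>
    (apex, Γ (st (1 / 2) (M₁ (st (1 / 2) x.1, 2 * x.2))))
  let E : CN × ℝ → CN × (Fin k → CN) := fun x =>
    (rad (2 * nm x.1 - 1) (dirT x.1), fun j => inc (phi k j (dirT x.1)))
  have hA : Continuous A :=
    continuous_const.prodMk (hΓ.comp (hst.comp (hM₁.comp ((hst.comp continuous_fst).prodMk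
      (continuous_const.mul continuous_snd)))))
  have hne : ∀ w : CN, 1 / 2 ≤ nm w → w ≠ apex := by
    rintro w hw rfl
    rw [nm_apex] at hw
    linarith
  have hE : ContinuousOn E {x | 1 / 2 ≤ nm x.1} := by
    have hd : ContinuousOn (fun x : CN × ℝ => dirT x.1) {x | 1 / 2 ≤ nm x.1} :=
      continuousOn_dirT.comp continuous_fst.continuousOn fun x hx => hne _ hx
    refine ContinuousOn.prodMk ?_ (continuousOn_pi.2 fun j =>
      (continuous_inc.comp (continuous_phi k j)).comp_continuousOn hd)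
    exact continuous_rad.comp_continuousOn (ContinuousOn.prodMk
      (Continuous.continuousOn (by
        exact ((continuous_nm.comp continuous_fst).const_mul 2).sub continuous_const)) hd)
  have hAE : ∀ x : CN × ℝ, nm x.1 = 1 / 2 → |x.2| ≤ 1 / 8 → A x = E x := by
    rintro ⟨w, t⟩ hw ht
    simp only at hw ht
    simp only [A, E]
    rw [hst1 w hw.ge, hN _ _ (by rw [abs_mul, abs_two]; linarith), hw]
    norm_num
    rw [rad_zero]
  have hAK : ∀ x, A x ∈ K0 k := fun x => ⟨hΓW _, Or.inl rfl⟩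
  have hEK : ∀ x, E x ∈ K0 k := by
    intro x
    refine ⟨?_, ?_⟩
    · obtain ⟨j0, h⟩ := phi_wedge k (dirT x.1)
      exact ⟨j0, fun j hj => by simp only [E, h j hj]⟩
    · rcases le_or_gt (2 * nm x.1 - 1) 0 with h | h
      · exact Or.inl (rad_of_nonpos h _)
      · refine Or.inr fun j => ?_
        simp only [E]
        rw [dirT_rad h]
  let Ca : Set (CN × Icc (-1 : ℝ) 1) := {x | nm x.1 ≤ 1 / 2 ∧ |x.2.1| ≤ 1 / 2}
  let Cb : Set (CN × Icc (-1 : ℝ) 1) := {x | 1 / 2 ≤ nm x.1 ∧ |x.2.1| ≤ 1 / 8} ∪ {x | nm x.1 = 1}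
  have hnm1 : Continuous fun x : CN × Icc (-1 : ℝ) 1 => nm x.1 := continuous_nm.comp continuous_fst
  have hab1 : Continuous fun x : CN × Icc (-1 : ℝ) 1 => |x.2.1| :=
    continuous_abs.comp (continuous_subtype_val.comp continuous_snd)
  have hCa : IsClosed Ca := by
    exact (isClosed_le hnm1 continuous_const).inter (isClosed_le hab1 continuous_const)
  have hCb : IsClosed Cb := by
    exact ((isClosed_le continuous_const hnm1).inter (isClosed_le hab1 continuous_const)).union
      (isClosed_eq hnm1 continuous_const)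
  have hCb2 : ∀ x ∈ Cb, 1 / 2 ≤ nm x.1 := by
    rintro x (hx | hx)
    · exact hx.1
    · rw [show nm x.1 = 1 from hx]
      norm_num
  let j : CN × Icc (-1 : ℝ) 1 → CN × ℝ := fun x => (x.1, x.2.1)
  have hj : Continuous j := continuous_fst.prodMk (continuous_subtype_val.comp continuous_snd)
  let f : CN × Icc (-1 : ℝ) 1 → CN × (Fin k → CN) := fun x => if x ∈ Ca then A (j x) else E (j x)
  have hfA : EqOn f (fun x => A (j x)) Ca := fun x hx => if_pos hx
  have hfE : EqOn f (fun x => E (j x)) Cb := by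
    intro x hx
    by_cases hxa : x ∈ Ca
    · show f x = E (j x)
      rw [hfA hxa]
      rcases hx with hx | hx
      · exact hAE (j x) (le_antisymm hxa.1 hx.1) hx.2
      · have h3 := hxa.1
        rw [show nm x.1 = 1 from hx] at h3
        norm_num at h3
    · exact if_neg hxa
  have hf : ContinuousOn f (Ca ∪ Cb) := by
    refine ContinuousOn.union_of_isClosed ?_ ?_ hCa hCb
    · exact (hA.comp hj).continuousOn.congr hfA
    · exact (hE.comp hj.continuousOn fun x hx => hCb2 x hx).congr hfE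
  obtain ⟨F, hF, hFK, hFf⟩ := aeset_K0 k (CN × Icc (-1 : ℝ) 1) (Ca ∪ Cb) (hCa.union hCb) f hf (by
    intro x hx
    rcases hx with hx | hx
    · rw [hfA hx]
      exact hAK _
    · rw [hfE hx]
      exact hEK _)
  let c : CN × ℝ → CN × Icc (-1 : ℝ) 1 := fun x => (x.1, ⟨LP.cc x.2, LP.cc_mem x.2⟩)
  have hc : Continuous c :=
    continuous_fst.prodMk ((LP.continuous_cc.comp continuous_snd).subtype_mk _)
  refine ⟨fun x => F (c x), m, hF.comp hc, hm, fun x => hFK _, ?_, ?_, ?_⟩
  · intro θ t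
    have h3 : c (inc θ, t) ∈ Cb := Or.inr (nm_inc θ)
    refine ⟨?_, hm1 _ _ (by rw [nm_inc]; norm_num)⟩
    show F (c (inc θ, t)) = (inc θ, fun j => inc (phi k j θ))
    rw [hFf (Or.inr h3), hfE h3]
    show (rad (2 * nm (inc θ) - 1) (dirT (inc θ)), fun j => inc (phi k j (dirT (inc θ)))) =
      (inc θ, fun j => inc (phi k j θ))
    rw [nm_inc, dirT_inc, show (2 : ℝ) * 1 - 1 = 1 by norm_num]
    rfl
  · intro w t
    have h3 : m (w, t) - t = (M₂ (st (1 / 2) w, LP.cc (2 * t)) - LP.cc (2 * t)) / 2 := by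
      simp only [m]
      ring
    have h4 := abs_le.1 (hM₂1 (st (1 / 2) w, LP.cc (2 * t)))
    have h5 := LP.cc_mem (2 * t)
    rw [h3, abs_le]
    constructor <;> linarith [h4.1, h4.2, h5.1, h5.2]
  · rintro ⟨w, t⟩ hmx i
    by_cases hα : nm w ≤ 1 / 2 ∧ |t| ≤ 1 / 2
    · have ht := abs_le.1 hα.2
      have h3 : LP.cc t = t := LP.cc_of_mem ⟨by linarith [ht.1], by linarith [ht.2]⟩
      have h4 : LP.cc (2 * t) = 2 * t := LP.cc_of_mem ⟨by linarith [ht.1], by linarith [ht.2]⟩
      have h5 : c (w, t) ∈ Ca := by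
        refine ⟨hα.1, ?_⟩
        show |LP.cc t| ≤ 1 / 2
        rw [h3]
        exact hα.2
      have h6 : M₂ (st (1 / 2) w, 2 * t) = 0 := by
        have : m (w, t) = M₂ (st (1 / 2) w, 2 * t) / 2 := by
          simp only [m]
          rw [h4]
          ring
        linarith
      show nm ((F (c (w, t))).2 i) = 1
      rw [hFf (Or.inl h5), hfA h5]
      show nm (Γ (st (1 / 2) (M₁ (st (1 / 2) w, 2 * LP.cc t))) i) = 1
      rw [h3]
      exact hN1 _ h6 i
    · have h3 : t = 0 ∧ 1 / 2 < nm w := by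
        rcases lt_or_ge (1 / 2) |t| with h | h
        · have h4 := hm2 w t h
          have h5 : t = 0 := by linarith
          rw [h5, abs_zero] at h
          norm_num at h
        · have h4 : 1 / 2 < nm w := by
            by_contra hcon
            exact hα ⟨not_lt.1 hcon, h⟩
          have h5 := hm1 w t h4.le
          exact ⟨by linarith, h4⟩
      obtain ⟨rfl, h4⟩ := h3
      have h5 : c (w, 0) ∈ Cb := by
        refine Or.inl ⟨h4.le, ?_⟩
        show |LP.cc 0| ≤ 1 / 8
        rw [LP.cc_of_mem ⟨by norm_num, by norm_num⟩, abs_zero]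
        norm_num
      show nm ((F (c (w, 0))).2 i) = 1
      rw [hFf (Or.inr h5), hfE h5]
      exact nm_inc _

end T08

end Pool.MP55
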