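import Pool.Agent.Lib.MP_55dccf_gt.Defs2
import Pool.Agent.Lib.MP_55dccf_gt.Cone
import Pool.Agent.Lib.MP_55dccf_gt.Desc
import Pool.Agent.Lib.MP_55dccf_gt.LP
import Pool.Agent.Lib.MP_55dccf_gt.Blow

/-!
# MP_55dccf_gt : T10, push-off for O3 and paths from the twins
-/

set_option autoImplicit false

open Set Topology TopologicalSpace unitInterval

namespace Pool.MP55

variable {B : Type} [TopologicalSpace B] [CompactSpace B] [MetrizableSpace B]
  (D : BD B) (k : ℕ) [NeZero k]

omit [CompactSpace B] [MetrizableSpace B] in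
/-- the other polar maps are at infinity on a closed cone -/
theorem push_F_c (hD : D.OK) {u v : D.V} (h : u ≠ v) (z : CN) : nm (D.F u (D.c v z)) = 1 := by
  by_cases hz : nm z < 1
  · rcases hD.disj u v h (D.c v z) with h1 | h1
    · exact h1
    · rw [hD.Fc] at h1
      exact absurd h1 hz.ne
  · have h1 : nm z = 1 := le_antisymm (nm_le_one z) (not_lt.1 hz)
    have hcont : Continuous fun r : ℝ => nm (D.F u (D.c v (rad r (dirT z)))) :=
      continuous_nm.comp ((hD.hF u).comp ((hD.hc v).comp
        (continuous_rad.comp (continuous_id.prodMk continuous_const))))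
    have hcl : IsClosed {r : ℝ | nm (D.F u (D.c v (rad r (dirT z)))) = 1} :=
      isClosed_eq hcont continuous_const
    have hsub : Iio (1 : ℝ) ⊆ {r : ℝ | nm (D.F u (D.c v (rad r (dirT z)))) = 1} := by
      intro r hr
      rcases hD.disj u v h (D.c v (rad r (dirT z))) with h2 | h2
      · exact h2
      · rw [hD.Fc, nm_rad] at h2
        exfalso
        have : cl r < 1 := by
          unfold cl
          exact max_lt one_pos (lt_of_le_of_lt (min_le_right _ _) hr)
        exact this.ne h2
    have h3 : (1 : ℝ) ∈ closure (Iio (1 : ℝ)) := by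
      rw [closure_Iio]
      exact self_mem_Iic
    have h4 := closure_minimal hsub hcl h3
    simp only [mem_ofPred_eq] at h4
    have h5 : rad 1 (dirT z) = z := by
      have := rad_nm_dirT z
      rwa [h1] at this
    rwa [h5] at h4

omit [CompactSpace B] [MetrizableSpace B] [NeZero k] in
theorem push_cont_coord (hD : D.OK) {u v : D.V} (h : u ≠ v) (j : Fin k) :
    Continuous fun z : CN => inc (phi k j (dirT (D.F u (D.c v z)))) := by
  refine continuous_inc.comp ((continuous_phi k j).comp ?_)
  refine continuousOn_dirT.comp_continuous ((hD.hF u).comp (hD.hc v)) fun z => ?_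
  intro h0
  have := push_F_c D hD h z
  rw [h0, nm_apex] at this
  exact zero_ne_one this

open Classical in
/-- insertion of the local model over the subcone of radius `κ` of `v` -/
noncomputable def pushIns (v : D.V) (κ : ℝ) (y : CN × (Fin k → CN)) :
    B × (D.V → Fin k → CN) :=
  (D.c v (sh κ y.1), Function.update
    (fun u j => inc (phi k j (dirT (D.F u (D.c v (sh κ y.1)))))) v y.2)

omit [CompactSpace B] [MetrizableSpace B] [NeZero k] in
theorem push_cont_ins (hD : D.OK) (v : D.V) (κ : ℝ) : Continuous (pushIns D k v κ) := by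
  classical
  have hs : Continuous fun y : CN × (Fin k → CN) => sh κ y.1 :=
    (continuous_sh κ).comp continuous_fst
  refine Continuous.prodMk ((hD.hc v).comp hs) ?_
  refine continuous_pi fun u => ?_
  by_cases h : u = v
  · subst h
    simp only [Function.update_self]
    exact continuous_snd
  · simp only [Function.update_of_ne h]
    exact continuous_pi fun j => (push_cont_coord D k hD h j).comp hs

omit [CompactSpace B] [MetrizableSpace B] in
theorem push_ins_mem (hD : D.OK) (v : D.V) {κ : ℝ} (h0 : 0 < κ) {y : CN × (Fin k → CN)}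
    (hy : y ∈ K0 k) : pushIns D k v κ y ∈ B3 D k := by
  classical
  intro u
  by_cases h : u = v
  · subst h
    simp only [pushIns, Function.update_self, hD.Fc]
    refine ⟨hy.1, ?_⟩
    rcases hy.2 with h1 | h1
    · left
      simp only [h1, sh_apex]
    · right
      intro j
      simp only [dirT_sh h0]
      exact h1 j
  · simp only [pushIns, Function.update_of_ne h]
    refine ⟨?_, Or.inr fun j => rfl⟩
    obtain ⟨j0, h1⟩ := phi_wedge k (dirT (D.F u (D.c v (sh κ y.1))))
    exact ⟨j0, fun j hj => by simp only [h1 j hj]⟩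

theorem exists_pushoff (hD : D.OK) {κ : ℝ} (h0 : 0 < κ) (h1 : κ < 1) (t₀ : ℝ) {τ : ℝ}
    (hτ : 0 < τ) : ∃ h : B × ℝ → ↥(B3 D k) × ℝ, Continuous h ∧ (∀ x, |(h x).2 - x.2| ≤ τ) ∧
      (∀ x, (h x).1.1.1 = x.1 ∨ ∃ v, nm (D.F v x.1) ≤ κ ∧ nm (D.F v (h x).1.1.1) ≤ κ) ∧
      ∀ x, (h x).2 = t₀ → (h x).1 ∈ (bd3 D k).good := by
  classical
  obtain ⟨hl, m, hlc, hmc, hlK, hbd, hm1, hgood⟩ := exists_pushoff_local k
  -- local coordinates
  let X : D.V → B × ℝ → CN × ℝ := fun v x => (st κ (D.F v x.1), (x.2 - t₀) / τ)
  have hX : ∀ v, Continuous (X v) := fun v =>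
    Continuous.prodMk ((continuous_st h0).comp ((hD.hF v).comp continuous_fst))
      ((continuous_snd.sub continuous_const).div_const τ)
  let g : D.V → B × ℝ → (B × (D.V → Fin k → CN)) × ℝ := fun v x =>
    (pushIns D k v κ (hl (X v x)), t₀ + τ * m (X v x))
  have hg : ∀ v, Continuous (g v) := fun v =>
    Continuous.prodMk ((push_cont_ins D k hD v κ).comp (hlc.comp (hX v)))
      (continuous_const.add (continuous_const.mul (hmc.comp (hX v))))
  let raw : B × ℝ → (B × (D.V → Fin k → CN)) × ℝ := fun x =>
    if h : ∃ v, nm (D.F v x.1) ≤ κ then g h.choose x else ((lift3 D k x.1).1, x.2)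
  have huniq : ∀ u v b, nm (D.F u b) ≤ κ → nm (D.F v b) ≤ κ → u = v := by
    intro u v b hu hv
    by_contra hne
    rcases hD.disj u v hne b with h | h
    · linarith
    · linarith
  have hraw : ∀ v (x : B × ℝ), nm (D.F v x.1) ≤ κ → raw x = g v x := by
    intro v x hx
    have hex : ∃ v, nm (D.F v x.1) ≤ κ := ⟨v, hx⟩
    have h2 := huniq _ _ _ hex.choose_spec hx
    simp only [raw, dif_pos hex]
    rw [h2]
  have hraw0 : ∀ x : B × ℝ, (∀ v, κ ≤ nm (D.F v x.1)) → raw x = ((lift3 D k x.1).1, x.2) := by
    intro x hx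
    by_cases hex : ∃ v, nm (D.F v x.1) ≤ κ
    · obtain ⟨v, hv⟩ := hex
      rw [hraw v x hv]
      have hκ : nm (D.F v x.1) = κ := le_antisymm hv (hx v)
      set θ := dirT (D.F v x.1) with hθ
      have hst : st κ (D.F v x.1) = inc θ := by
        unfold st inc
        rw [hκ, div_self h0.ne']
      have hb : D.c v (sh κ (inc θ)) = x.1 := by
        have : sh κ (inc θ) = D.F v x.1 := by
          unfold sh
          rw [nm_inc, mul_one, dirT_inc]
          exact rad_dirT_of hκ
        rw [this]
        exact hD.cF v x.1 (by rw [hκ]; exact h1)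
      obtain ⟨h2, h3⟩ := hbd θ ((x.2 - t₀) / τ)
      have hXv : X v x = (inc θ, (x.2 - t₀) / τ) := by
        simp only [X, hst]
      simp only [g]
      rw [hXv, h2, h3]
      refine Prod.ext (Prod.ext ?_ ?_) ?_
      · exact hb
      · funext u j
        simp only [pushIns, lift3]
        by_cases h : u = v
        · subst h
          simp only [Function.update_self, hθ]
        · simp only [Function.update_of_ne h]
          rw [hb]
      · simp only
        field_simp
        ring
    · simp only [raw, dif_neg hex]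
  have hrawc : Continuous raw := by
    refine LocallyFinite.continuous (ι := Option D.V)
      (f := fun o => o.elim {x : B × ℝ | ∀ v, κ ≤ nm (D.F v x.1)}
        fun v => {x : B × ℝ | nm (D.F v x.1) ≤ κ}) (locallyFinite_of_finite _) ?_ ?_ ?_
    · ext x
      simp only [mem_iUnion, mem_univ, iff_true]
      by_cases hex : ∃ v, nm (D.F v x.1) ≤ κ
      · obtain ⟨v, hv⟩ := hex
        exact ⟨some v, hv⟩
      · push Not at hex
        exact ⟨none, fun v => (hex v).le⟩
    · rintro (_ | v)
      · simp only [Option.elim]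
        simp only [Set.ofPred_forall]
        exact isClosed_iInter fun v => isClosed_le continuous_const
          (continuous_nm.comp ((hD.hF v).comp continuous_fst))
      · exact isClosed_le (continuous_nm.comp ((hD.hF v).comp continuous_fst)) continuous_const
    · rintro (_ | v)
      · have hlift : ContinuousOn (fun x : B × ℝ => ((lift3 D k x.1).1, x.2))
            {x : B × ℝ | ∀ v, κ ≤ nm (D.F v x.1)} := by
          refine ContinuousOn.prodMk ?_ continuousOn_snd
          refine continuous_subtype_val.comp_continuousOn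
            ((continuousOn_lift3 D k hD).comp continuousOn_fst ?_)
          intro x hx v hv
          have := hx v
          rw [hv, nm_apex] at this
          linarith
        exact hlift.congr fun x hx => hraw0 x hx
      · exact (hg v).continuousOn.congr fun x hx => hraw v x hx
  have hcases : ∀ x : B × ℝ, (∃ v, nm (D.F v x.1) ≤ κ ∧ raw x = g v x) ∨
      raw x = ((lift3 D k x.1).1, x.2) := by
    intro x
    by_cases hex : ∃ v, nm (D.F v x.1) ≤ κ
    · obtain ⟨v, hv⟩ := hex
      exact Or.inl ⟨v, hv, hraw v x hv⟩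
    · push Not at hex
      exact Or.inr (hraw0 x fun v => (hex v).le)
  have hmem : ∀ x, (raw x).1 ∈ B3 D k := by
    intro x
    rcases hcases x with ⟨v, -, h⟩ | h
    · rw [h]
      exact push_ins_mem D k hD v h0 (hlK _)
    · rw [h]
      exact (lift3 D k x.1).2
  refine ⟨fun x => (⟨(raw x).1, hmem x⟩, (raw x).2), ?_, ?_, ?_, ?_⟩
  · exact Continuous.prodMk ((continuous_fst.comp hrawc).subtype_mk _) (continuous_snd.comp hrawc)
  · intro x
    simp only
    rcases hcases x with ⟨v, -, h⟩ | h
    · rw [h]
      have h2 := hm1 (st κ (D.F v x.1)) ((x.2 - t₀) / τ)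
      have h3 : t₀ + τ * m (X v x) - x.2 = τ * (m (X v x) - (x.2 - t₀) / τ) := by
        field_simp
        ring
      simp only [g]
      rw [h3, abs_mul, abs_of_pos hτ]
      calc τ * |m (X v x) - (x.2 - t₀) / τ| ≤ τ * 1 :=
            mul_le_mul_of_nonneg_left h2 hτ.le
        _ = τ := mul_one τ
    · rw [h]
      simp only [sub_self, abs_zero]
      exact hτ.le
  · intro x
    simp only
    rcases hcases x with ⟨v, hv, h⟩ | h
    · right
      refine ⟨v, hv, ?_⟩
      rw [h]
      simp only [g, pushIns, hD.Fc]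
      rw [nm_sh h0 h1.le]
      exact mul_le_of_le_one_right h0.le (nm_le_one _)
    · left
      rw [h]
      rfl
  · intro x hx
    simp only at hx
    rintro ⟨u, j⟩
    show nm ((raw x).1.2 u j) = 1
    rcases hcases x with ⟨v, hv, h⟩ | h
    · rw [h] at hx ⊢
      simp only [g] at hx ⊢
      have hm0 : m (X v x) = 0 := by
        have : τ * m (X v x) = 0 := by linarith
        exact (mul_eq_zero.1 this).resolve_left hτ.ne'
      by_cases huv : u = v
      · subst huv
        simp only [pushIns, Function.update_self]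
        exact hgood _ hm0 j
      · simp only [pushIns, Function.update_of_ne huv]
        exact nm_inc _
    · rw [h]
      exact nm_inc _

/-! ### paths -/

omit [CompactSpace B] [MetrizableSpace B] in
/-- the lift of a ray -/
theorem push_ray (hD : D.OK) (v : D.V) (θ : TH) {s : Set ℝ} (g : ℝ → ℝ) (hg : ContinuousOn g s)
    (hs : ∀ r ∈ s, 0 < g r ∨ θ = baseT) :
    ContinuousOn (fun r => lift3 D k (D.c v (rad (g r) θ))) s := by
  rw [continuousOn_iff_continuous_domRestrict]
  refine Continuous.subtype_mk ?_ _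
  have hrad : Continuous fun r : s => rad (g r) θ :=
    continuous_rad.comp ((continuousOn_iff_continuous_domRestrict.1 hg).prodMk continuous_const)
  refine Continuous.prodMk ((hD.hc v).comp hrad) ?_
  refine continuous_pi fun u => continuous_pi fun j => ?_
  by_cases h : u = v
  · subst h
    have h2 : (fun r : s => inc (phi k j (dirT (D.F u (D.c u (rad (g r) θ)))))) =
        fun _ => inc (phi k j θ) := by
      funext r
      rw [hD.Fc]
      have h3 : dirT (rad (g r) θ) = θ := by
        rcases hs r r.2 with h4 | rfl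
        · exact dirT_rad h4 θ
        · rcases lt_or_ge 0 (g r) with h5 | h5
          · exact dirT_rad h5 _
          · rw [rad_of_nonpos h5, dirT_apex]
      rw [h3]
    rw [h2]
    exact continuous_const
  · exact (push_cont_coord D k hD h j).comp hrad

/-- the end of the cone of the twin is the lift of the apex -/
theorem push_twin_end (hD : D.OK) (v : D.V) (j : Fin k) :
    (bd3 D k).c (v, j) (inc baseT) = lift3 D k (D.c v apex) := by
  apply Subtype.ext
  rw [bd3_c_val D k hD]
  refine Prod.ext rfl ?_
  funext u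
  by_cases h : u = v
  · subst h
    funext i
    simp only [Function.update_self, lift3, hD.Fc, dirT_apex, phi_base]
    by_cases hi : i = j
    · subst hi
      simp only [Function.update_self]
    · simp only [Function.update_of_ne hi]
  · simp only [Function.update_of_ne h]

omit [TopologicalSpace B] [CompactSpace B] [MetrizableSpace B] in
theorem push_nm_lift3 (u : (bd3 D k).V) (b : B) : nm ((bd3 D k).F u (lift3 D k b)) = 1 :=
  nm_inc _

theorem push_nm_twin (hD : D.OK) (v : D.V) (j : Fin k) (w : CN) (u : (bd3 D k).V) :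
    (u = (v, j) ∧ nm ((bd3 D k).F u ((bd3 D k).c (v, j) w)) = nm w) ∨
      nm ((bd3 D k).F u ((bd3 D k).c (v, j) w)) = 1 := by
  by_cases h : u = (v, j)
  · left
    refine ⟨h, ?_⟩
    rw [h]
    exact congrArg nm ((bd3_ok D k hD).Fc (v, j) w)
  · right
    obtain ⟨u1, u2⟩ := u
    have h1 : (bd3 D k).F (u1, u2) ((bd3 D k).c (v, j) w) =
      ((bd3 D k).c (v, j) w).1.2 u1 u2 := rfl
    have h2 : ((bd3 D k).c (v, j) w).1.2 u1 u2 = Function.update
        (lift3 D k (D.c v apex)).1.2 v (Function.update (fun _ => inc baseT) j w) u1 u2 :=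
      congrFun (congrFun (congrArg Prod.snd (bd3_c_val D k hD v j w)) u1) u2
    refine (congrArg nm (h1.trans h2)).trans ?_
    by_cases hu : u1 = v
    · have hu2 : u2 ≠ j := fun h3 => h (by rw [hu, h3])
      subst hu
      simp only [Function.update_self, Function.update_of_ne hu2]
      exact nm_inc _
    · rw [Function.update_of_ne hu]
      exact nm_inc _

theorem push_twin_base (hD : D.OK) (v : D.V) (j : Fin k) (w : CN) :
    ((bd3 D k).c (v, j) w).1.1 = D.c v apex := by
  rw [bd3_c_val D k hD]

theorem exists_twin_path (hD : D.OK) (v : D.V) (j : Fin k) {κ r : ℝ} (hκ : 0 < κ) (hκ1 : κ < 1)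
    (hr : 0 < r) (hr1 : r ≤ 1) : ∃ β : ℝ → ↥(B3 D k), ContinuousOn β (Icc 0 1) ∧
      β 0 = (bd3 D k).c (v, j) (rad κ baseT) ∧ β 1 = lift3 D k (D.c v (rad r baseT)) ∧
      (∀ t ∈ Ioc (0 : ℝ) 1, ∀ u, κ < nm ((bd3 D k).F u (β t))) ∧
      ∀ t ∈ Icc (0 : ℝ) 1, nm (D.F v (β t).1.1) ≤ r := by
  classical
  let β : ℝ → ↥(B3 D k) := fun t =>
    if t ≤ 1 / 2 then (bd3 D k).c (v, j) (rad (κ + (1 - κ) * (2 * t)) baseT)
    else lift3 D k (D.c v (rad (r * (2 * t - 1)) baseT))
  have hcont : Continuous β := by
    refine Continuous.if_le ?_ ?_ continuous_id continuous_const ?_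
    · refine ((bd3_ok D k hD).hc (v, j)).comp (continuous_rad.comp (Continuous.prodMk ?_
        continuous_const))
      fun_prop
    · have := push_ray D k hD v baseT (s := univ) (fun t : ℝ => r * (2 * t - 1))
        (by fun_prop) (fun _ _ => Or.inr rfl)
      exact continuousOn_univ.1 this
    · intro t ht
      have ht' : t = 1 / 2 := ht
      subst ht'
      have h1 : κ + (1 - κ) * (2 * (1 / 2)) = 1 := by ring
      have h2 : r * (2 * (1 / 2) - 1) = 0 := by ring
      rw [h1, h2, rad_zero]
      exact push_twin_end D k hD v j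
  refine ⟨β, hcont.continuousOn, ?_, ?_, ?_, ?_⟩
  · simp only [β]
    rw [if_pos (by norm_num)]
    congr 2
    ring
  · simp only [β]
    rw [if_neg (by norm_num)]
    congr 3
    ring
  · intro t ht u
    simp only [β]
    split_ifs with h
    · rcases push_nm_twin D k hD v j (rad (κ + (1 - κ) * (2 * t)) baseT) u with ⟨-, hu⟩ | hu
      · refine lt_of_lt_of_eq ?_ hu.symm
        rw [nm_rad, cl_of_mem]
        · have : 0 < (1 - κ) * (2 * t) := mul_pos (by linarith) (by linarith [ht.1])
          linarith
        · have h3 : 0 ≤ (1 - κ) * (2 * t) := mul_nonneg (by linarith) (by linarith [ht.1])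
          have h4 : (1 - κ) * (2 * t) ≤ (1 - κ) * 1 :=
            mul_le_mul_of_nonneg_left (by linarith) (by linarith)
          constructor
          · linarith
          · linarith
      · exact lt_of_lt_of_eq hκ1 hu.symm
    · exact lt_of_lt_of_eq hκ1 (push_nm_lift3 D k u _).symm
  · intro t ht
    simp only [β]
    split_ifs with h
    · rw [push_twin_base D k hD, hD.Fc, nm_apex]
      exact hr.le
    · have h2 : (lift3 D k (D.c v (rad (r * (2 * t - 1)) baseT))).1.1 =
        D.c v (rad (r * (2 * t - 1)) baseT) := rfl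
      rw [h2, hD.Fc, nm_rad]
      have h3 : r * (2 * t - 1) ≤ r * 1 := mul_le_mul_of_nonneg_left (by linarith [ht.2]) hr.le
      unfold cl
      exact max_le hr.le ((min_le_right _ _).trans (by linarith))

/-- a ray in the lift, from radius `a` to radius `b` -/
theorem push_joined_ray (hD : D.OK) (v : D.V) (θ : TH) {κ κ' a b : ℝ} (hκ1 : κ < 1)
    (hκ1' : κ' < 1) (ha : a ∈ Icc 0 κ) (hb : b ∈ Icc 0 κ) (h : (0 < a ∧ 0 < b) ∨ θ = baseT) :
    JoinedIn {y | nm (D.F v y.1.1) ≤ κ ∧ ∀ u, κ' ≤ nm ((bd3 D k).F u y)}
      (lift3 D k (D.c v (rad a θ))) (lift3 D k (D.c v (rad b θ))) := by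
  have hconv : ∀ t ∈ Icc (0 : ℝ) 1, (1 - t) * a + t * b ∈ Icc 0 κ := by
    intro t ht
    have h1 : 0 ≤ (1 - t) * a := mul_nonneg (by linarith [ht.2]) ha.1
    have h2 : 0 ≤ t * b := mul_nonneg ht.1 hb.1
    have h3 : (1 - t) * a ≤ (1 - t) * κ := mul_le_mul_of_nonneg_left ha.2 (by linarith [ht.2])
    have h4 : t * b ≤ t * κ := mul_le_mul_of_nonneg_left hb.2 ht.1
    exact ⟨by linarith, by linarith⟩
  refine JoinedIn.ofLine (f := fun t => lift3 D k (D.c v (rad ((1 - t) * a + t * b) θ))) ?_ ?_ ?_ ?_
  · refine push_ray D k hD v θ _ (by fun_prop) fun t ht => ?_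
    rcases h with ⟨h1, h2⟩ | h
    · left
      rcases eq_or_lt_of_le ht.1 with h0 | h0
      · rw [← h0]
        simpa using h1
      · have h3 : 0 ≤ (1 - t) * a := mul_nonneg (by linarith [ht.2]) h1.le
        have h4 : 0 < t * b := mul_pos h0 h2
        linarith
    · exact Or.inr h
  · simp
  · simp
  · rintro _ ⟨t, ht, rfl⟩
    refine ⟨?_, fun u => ?_⟩
    · have h2 : (lift3 D k (D.c v (rad ((1 - t) * a + t * b) θ))).1.1 =
        D.c v (rad ((1 - t) * a + t * b) θ) := rfl
      simp only [h2, hD.Fc, nm_rad]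
      have h3 := hconv t ht
      rw [cl_of_mem ⟨h3.1, h3.2.trans hκ1.le⟩]
      exact h3.2
    · exact hκ1'.le.trans_eq (push_nm_lift3 D k u _).symm

theorem joinedIn_B3 (hD : D.OK) (v : D.V) {κ κ' : ℝ} (hκ : 0 < κ) (hκ1 : κ < 1)
    (hκ' : 0 < κ') (hκ1' : κ' < 1) (x : ↥(B3 D k)) (hx : nm (D.F v x.1.1) ≤ κ)
    (hg : ∀ u, κ' ≤ nm ((bd3 D k).F u x)) :
    ∃ θ : TH, JoinedIn {y | nm (D.F v y.1.1) ≤ κ ∧ ∀ u, κ' ≤ nm ((bd3 D k).F u y)} x
      (lift3 D k (D.c v (rad κ θ))) := by
  classical
  have hcx : D.c v (D.F v x.1.1) = x.1.1 := hD.cF v _ (hx.trans_lt hκ1)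
  by_cases hap : D.F v x.1.1 = apex
  · -- over the apex
    obtain ⟨⟨j0, hj0⟩, -⟩ := x.2 v
    simp only at hj0
    have hxe : x = (bd3 D k).c (v, j0) (x.1.2 v j0) := by
      apply Subtype.ext
      rw [bd3_c_val D k hD]
      refine Prod.ext ?_ ?_
      · simp only
        rw [← hap, hcx]
      · funext u
        by_cases hu : u = v
        · subst hu
          simp only [Function.update_self]
          funext i
          by_cases hi : i = j0
          · subst hi
            simp only [Function.update_self]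
          · rw [Function.update_of_ne hi]
            exact hj0 i hi
        · simp only [Function.update_of_ne hu]
          obtain ⟨-, h2⟩ := x.2 u
          rcases h2 with h2 | h2
          · exfalso
            simp only at h2
            have := push_F_c D hD hu (D.F v x.1.1)
            rw [hcx, h2, nm_apex] at this
            exact zero_ne_one this
          · funext i
            have := h2 i
            simp only at this
            rw [this]
            simp only [lift3]
            rw [← hap, hcx]
    set w := x.1.2 v j0 with hw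
    have hwn : κ' ≤ nm w := hg (v, j0)
    set θ := dirT w with hθ
    have hset : ∀ z : CN, κ' ≤ nm z → (bd3 D k).c (v, j0) z ∈
        {y : ↥(B3 D k) | nm (D.F v y.1.1) ≤ κ ∧ ∀ u, κ' ≤ nm ((bd3 D k).F u y)} := by
      intro z hz
      refine ⟨?_, fun u => ?_⟩
      · rw [push_twin_base D k hD, hD.Fc, nm_apex]
        exact hκ.le
      · rcases push_nm_twin D k hD v j0 z u with ⟨-, hu⟩ | hu
        · exact hz.trans_eq hu.symm
        · exact hκ1'.le.trans_eq hu.symm
    have hcc := (bd3_ok D k hD).hc (v, j0)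
    -- radially outwards
    have p1 : JoinedIn {y : ↥(B3 D k) | nm (D.F v y.1.1) ≤ κ ∧
        ∀ u, κ' ≤ nm ((bd3 D k).F u y)} x ((bd3 D k).c (v, j0) (inc θ)) := by
      have hw1 := nm_le_one w
      refine JoinedIn.ofLine
        (f := fun t => (bd3 D k).c (v, j0) (rad ((1 - t) * nm w + t) θ)) ?_ ?_ ?_ ?_
      · refine (hcc.comp (continuous_rad.comp (Continuous.prodMk ?_ continuous_const))).continuousOn
        fun_prop
      · simp only [sub_zero, one_mul, add_zero, hθ]
        rw [rad_nm_dirT]
        exact hxe.symm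
      · simp only [sub_self, zero_mul, zero_add]
        rfl
      · rintro _ ⟨t, ht, rfl⟩
        refine hset _ ?_
        rw [nm_rad]
        have h3 : 0 ≤ t * (1 - nm w) := mul_nonneg ht.1 (by linarith)
        have h4 : t * (1 - nm w) ≤ 1 * (1 - nm w) :=
          mul_le_mul_of_nonneg_right ht.2 (by linarith)
        have h5 : (1 - t) * nm w + t = nm w + t * (1 - nm w) := by ring
        rw [h5, cl_of_mem ⟨by linarith, by linarith⟩]
        linarith
    -- along the wedge
    have p2 : JoinedIn {y : ↥(B3 D k) | nm (D.F v y.1.1) ≤ κ ∧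
        ∀ u, κ' ≤ nm ((bd3 D k).F u y)} ((bd3 D k).c (v, j0) (inc θ))
        ((bd3 D k).c (v, j0) (inc baseT)) := by
      obtain ⟨γ⟩ := PathConnectedSpace.joined θ baseT
      refine ⟨γ.map (hcc.comp continuous_inc), fun t => ?_⟩
      refine hset _ ?_
      rw [nm_inc]
      exact hκ1'.le
    have p3 := push_joined_ray D k hD v baseT (κ' := κ') (a := 0) (b := κ) hκ1 hκ1'
      ⟨le_rfl, hκ.le⟩ ⟨hκ.le, le_rfl⟩ (Or.inr rfl)
    rw [rad_zero, ← push_twin_end D k hD v j0] at p3
    exact ⟨baseT, (p1.trans p2).trans p3⟩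
  · -- over other points
    have hxl : x = lift3 D k x.1.1 := by
      refine eq_lift3 D k hD x fun u => ?_
      by_cases hu : u = v
      · subst hu
        exact hap
      · intro h2
        have := push_F_c D hD hu (D.F v x.1.1)
        rw [hcx, h2, nm_apex] at this
        exact zero_ne_one this
    set θ := dirT (D.F v x.1.1) with hθ
    have hpos : 0 < nm (D.F v x.1.1) := by
      refine lt_of_le_of_ne (nm_nonneg _) fun h2 => ?_
      exact hap (nm_eq_zero_iff.1 h2.symm)
    refine ⟨θ, ?_⟩
    have p := push_joined_ray D k hD v θ (κ' := κ') (a := nm (D.F v x.1.1)) (b := κ) hκ1 hκ1'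
      ⟨hpos.le, hx⟩ ⟨hκ.le, le_rfl⟩ (Or.inl ⟨hpos, hκ⟩)
    rw [hθ, rad_nm_dirT, hcx, ← hxl] at p
    exact p

end Pool.MP55
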