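import Pool.Agent.Lib.MP_55dccf_gt.Defs2
import Pool.Agent.Lib.MP_55dccf_gt.Cone
import Pool.Agent.Lib.MP_55dccf_gt.Blow
import Pool.Agent.Lib.MP_55dccf_gt.Push

set_option autoImplicit false

open Set Topology TopologicalSpace unitInterval

namespace Pool.MP55

/-- concatenation of two paths parametrised by `[0,1]` -/
theorem beta_concat {Y : Type} [TopologicalSpace Y] {f g : ℝ → Y}
    (hf : ContinuousOn f (Icc 0 1)) (hg : ContinuousOn g (Icc 0 1)) (h : f 1 = g 0) :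
    ContinuousOn (fun t => if t ≤ 1 / 2 then f (2 * t) else g (2 * t - 1)) (Icc 0 1) := by
  have h1 : ContinuousOn (fun t : ℝ => if t ≤ 1 / 2 then f (2 * t) else g (2 * t - 1))
      (Icc 0 (1 / 2)) := by
    have : ContinuousOn (fun t : ℝ => f (2 * t)) (Icc 0 (1 / 2)) :=
      hf.comp (by fun_prop) (fun t ht => ⟨by linarith [ht.1], by linarith [ht.2]⟩)
    refine this.congr fun t ht => ?_
    simp only [if_pos ht.2]
  have h2 : ContinuousOn (fun t : ℝ => if t ≤ 1 / 2 then f (2 * t) else g (2 * t - 1))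
      (Icc (1 / 2) 1) := by
    have : ContinuousOn (fun t : ℝ => g (2 * t - 1)) (Icc (1 / 2) 1) :=
      hg.comp (by fun_prop) (fun t ht => ⟨by linarith [ht.1], by linarith [ht.2]⟩)
    refine this.congr fun t ht => ?_
    by_cases h3 : t ≤ 1 / 2
    · have : t = 1 / 2 := le_antisymm h3 ht.1
      subst this
      simp only [le_refl, if_true]
      norm_num
      exact h
    · simp only [if_neg h3]
  have h3 : Icc (0 : ℝ) 1 = Icc 0 (1 / 2) ∪ Icc (1 / 2) 1 :=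
    (Icc_union_Icc_eq_Icc (by norm_num) (by norm_num)).symm
  rw [h3]
  exact h1.union_of_isClosed h2 isClosed_Icc isClosed_Icc

theorem exists_beta {B : Type} [MetricSpace B] [CompactSpace B] (D : BD B)
    (hD : D.OK) {n : ℕ} [NeZero n] {δ κ : ℝ} (hδ : 0 < δ) (hκ : 0 < κ)
    (hκ1 : κ < 1) (hsm : ∀ v b b', nm (D.F v b) ≤ κ → nm (D.F v b') ≤ κ → dist b b' < δ)
    (u : Fin n → D.V) (ω : Fin n → ℝ → B) (hω : ∀ j, ContinuousOn (ω j) (Icc 0 1))
    (hω0 : ∀ j, ω j 0 = D.c (u j) (rad κ baseT))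
    (hωκ : ∀ j, ∀ t ∈ Icc (0 : ℝ) 1, ∀ v, κ ≤ nm (D.F v (ω j t)))
    (hωδ : ∀ j, ∀ t ∈ Icc (0 : ℝ) 1, dist (ω j t) (D.c (u j) apex) ≤ 3 * δ) :
    ∃ β : Fin n → ℝ → ↥(B3 D n), (∀ j, ContinuousOn (β j) (Icc 0 1)) ∧
      (∀ j, β j 0 = (bd3 D n).c (u j, j) (rad (1 / 2) baseT)) ∧
      (∀ j, β j 1 = lift3 D n (ω j 1)) ∧
      (∀ j, ∀ t ∈ Ioc (0 : ℝ) 1, ∀ w, 1 / 2 < nm ((bd3 D n).F w (β j t))) ∧
      ∀ j, ∀ t ∈ Icc (0 : ℝ) 1, dist (β j t).1.1 (D.c (u j) apex) ≤ 3 * δ := by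
  have key : ∀ j : Fin n, ∃ β : ℝ → ↥(B3 D n), ContinuousOn β (Icc 0 1) ∧
      β 0 = (bd3 D n).c (u j, j) (rad (1 / 2) baseT) ∧ β 1 = lift3 D n (ω j 1) ∧
      (∀ t ∈ Ioc (0 : ℝ) 1, ∀ w, 1 / 2 < nm ((bd3 D n).F w (β t))) ∧
      ∀ t ∈ Icc (0 : ℝ) 1, dist (β t).1.1 (D.c (u j) apex) ≤ 3 * δ := by
    intro j
    obtain ⟨β₁, c1, b0, b1, bn, br⟩ := exists_twin_path D n hD (u j) j
      (κ := 1 / 2) (r := κ) (by norm_num) (by norm_num) hκ hκ1.le
    have c2 : ContinuousOn (fun t => lift3 D n (ω j t)) (Icc 0 1) := by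
      refine (continuousOn_lift3 D n hD).comp (hω j) fun t ht v hv => ?_
      have := hωκ j t ht v
      rw [hv, nm_apex] at this
      linarith
    refine ⟨fun t => if t ≤ 1 / 2 then β₁ (2 * t) else lift3 D n (ω j (2 * t - 1)),
      beta_concat (g := fun t => lift3 D n (ω j t)) c1 c2 ?_, ?_, ?_, ?_, ?_⟩
    · rw [b1, hω0 j]
    · simp [b0]
    · norm_num
    · intro t ht w
      by_cases h : t ≤ 1 / 2
      · simp only [if_pos h]
        exact bn (2 * t) ⟨by linarith [ht.1], by linarith⟩ w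
      · simp only [if_neg h]
        have : nm ((bd3 D n).F w (lift3 D n (ω j (2 * t - 1)))) = 1 := nm_inc _
        rw [this]; norm_num
    · intro t ht
      by_cases h : t ≤ 1 / 2
      · simp only [if_pos h]
        have h1 := br (2 * t) ⟨by linarith [ht.1], by linarith⟩
        have h2 : nm (D.F (u j) (D.c (u j) apex)) ≤ κ := by
          rw [hD.Fc, nm_apex]; exact hκ.le
        have := hsm (u j) _ _ h1 h2
        linarith
      · simp only [if_neg h]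
        exact hωδ j (2 * t - 1) ⟨by linarith, by linarith [ht.2]⟩
  choose β h1 h2 h3 h4 h5 using key
  exact ⟨β, h1, h2, h3, h4, h5⟩

end Pool.MP55
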