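import Pool.Agent.Lib.MP_55dccf_gt.CovBase

/-!
# MP_55dccf_gt, T05 : the covering map, essential loops do not bound discs
-/

set_option autoImplicit false

open Set Topology TopologicalSpace unitInterval

namespace Pool.MP55

theorem compactSpace_EE : CompactSpace ↥EE := isCompact_iff_compactSpace.1 isCompact_EE

/-- the action on `EE` -/
@[reducible] def actEE : MulAction Gp ↥EE where
  smul g e := ⟨act g e.1, act_mem e.2⟩
  one_smul e := Subtype.ext (act_one e.1)
  mul_smul g h e := Subtype.ext (act_mul g h e.1)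

/-- projection of the covering -/
def pE (e : ↥EE) : TH := e.1.1

theorem continuous_pE : Continuous pE := continuous_fst.comp continuous_subtype_val

theorem surjective_pE : Function.Surjective pE := fun x => by
  obtain ⟨⟨i, s⟩, hs, h⟩ := exists_pt x
  exact ⟨⟨edge 1 i s, 1, i, s, hs, rfl⟩, h⟩

theorem isCoveringMap_pE : IsCoveringMap pE := by
  have := compactSpace_EE
  let _ : MulAction Gp ↥EE := actEE
  have h1 : ContinuousConstSMul Gp ↥EE := ⟨fun g =>
    Continuous.subtype_mk ((continuous_act g).comp continuous_subtype_val) _⟩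
  have h2 : IsCancelSMul Gp ↥EE := isCancelSMul_iff_eq_one_of_smul_eq.2 fun g e h =>
    act_free e.2 (congrArg Subtype.val h)
  have hq : IsQuotientMap pE :=
    continuous_pE.isClosedMap.isQuotientMap continuous_pE surjective_pE
  refine (hq.isQuotientCoveringMap_of_properlyDiscontinuousSMul (G := Gp) ?_).isCoveringMap
  intro e₁ e₂
  constructor
  · intro h
    obtain ⟨g, hg⟩ := act_trans e₂.2 e₁.2 h.symm
    exact ⟨g, Subtype.ext hg⟩
  · rintro ⟨g, rfl⟩
    rfl

/-- an essential loop does not extend over the disc -/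
theorem Ess.no_disc {ℓ : Circle → TH} (h : Ess ℓ) (d : ℂ → TH)
    (hd : ContinuousOn d (Metric.closedBall 0 1)) : ∃ z : Circle, d z ≠ ℓ z := by
  by_contra hcon
  push Not at hcon
  apply h
  have cov := isCoveringMap_pE
  have hmem : ∀ p : I × Circle, ((p.1 : ℝ) : ℂ) * (p.2 : ℂ) ∈ Metric.closedBall (0 : ℂ) 1 := by
    intro p
    rw [mem_closedBall_zero_iff, norm_mul, Circle.norm_coe, mul_one, Complex.norm_real,
      Real.norm_of_nonneg p.1.2.1]
    exact p.1.2.2
  let Hm : C(I × Circle, TH) := ⟨fun p => d (((p.1 : ℝ) : ℂ) * (p.2 : ℂ)), by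
    refine hd.comp_continuous ?_ hmem
    fun_prop⟩
  obtain ⟨e0, he0⟩ := surjective_pE (d 0)
  let f : C(Circle, ↥EE) := ContinuousMap.const _ e0
  have H0 : ∀ a, Hm (0, a) = pE (f a) := by
    intro a
    show d (((0 : ℝ) : ℂ) * (a : ℂ)) = pE e0
    rw [he0]; simp
  have hl := cov.liftHomotopy_lifts Hm f H0
  refine ⟨fun z => (cov.liftHomotopy Hm f H0 (1, z)).1, ?_, ?_⟩
  · exact continuous_subtype_val.comp
      ((cov.liftHomotopy Hm f H0).continuous.comp (by fun_prop))
  · intro s
    refine ⟨(cov.liftHomotopy Hm f H0 (1, s)).2, ?_⟩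
    have h1 : pE (cov.liftHomotopy Hm f H0 (1, s)) = Hm (1, s) := congrFun hl (1, s)
    have h2 : Hm (1, s) = d (((1 : ℝ) : ℂ) * (s : ℂ)) := rfl
    rw [← hcon s]
    show pE (cov.liftHomotopy Hm f H0 (1, s)) = d s
    rw [h1, h2]
    simp

end Pool.MP55
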