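import Pool.Agent.Lib.MP_55dccf_gt.Defs2
import Pool.Agent.Lib.MP_55dccf_gt.Cone
import Pool.Agent.Lib.MP_55dccf_gt.Desc

/-!
# MP_55dccf_gt, T05 : the covering graph, basic facts
-/

set_option autoImplicit false

open Set Topology TopologicalSpace unitInterval

namespace Pool.MP55

/-- the action of `Gp` on the total space -/
def act (g : Gp) (e : TH × (Gp → ℂ)) : TH × (Gp → ℂ) := (e.1, fun x => e.2 (g⁻¹ * x))

theorem continuous_act (g : Gp) : Continuous (act g) := by
  unfold act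
  refine continuous_fst.prodMk (continuous_pi fun x => ?_)
  exact (continuous_apply (g⁻¹ * x)).comp continuous_snd

theorem act_one (e : TH × (Gp → ℂ)) : act 1 e = e := by
  unfold act
  simp

theorem act_mul (g h : Gp) (e : TH × (Gp → ℂ)) : act (g * h) e = act g (act h e) := by
  unfold act
  refine Prod.ext rfl ?_
  funext x
  show e.2 ((g * h)⁻¹ * x) = e.2 (h⁻¹ * (g⁻¹ * x))
  rw [mul_inv_rev, mul_assoc]

theorem act_fst (g : Gp) (e : TH × (Gp → ℂ)) : (act g e).1 = e.1 := rfl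

theorem act_edge (g h : Gp) (i : Idx) (s : ℝ) : act g (edge h i s) = edge (g * h) i s := by
  unfold act edge
  refine Prod.ext rfl ?_
  funext x
  have h1 : (g⁻¹ * x = h) = (x = g * h) := propext inv_mul_eq_iff_eq_mul
  have h2 : (g⁻¹ * x = h * rhoG i) = (x = g * h * rhoG i) := by
    rw [mul_assoc]; exact propext inv_mul_eq_iff_eq_mul
  simp only [h1, h2]

theorem act_mem {g : Gp} {e : TH × (Gp → ℂ)} (he : e ∈ EE) : act g e ∈ EE := by
  obtain ⟨h, i, s, hs, rfl⟩ := he
  exact ⟨g * h, i, s, hs, act_edge g h i s⟩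

theorem edge_fst (h : Gp) (i : Idx) (s : ℝ) : (edge h i s).1 = pt i s := rfl

theorem edge_snd (h : Gp) (i : Idx) (s : ℝ) (g : Gp) : (edge h i s).2 g =
    (if g = h then ((1 - s : ℝ) : ℂ) + ((s * (1 - s) : ℝ) : ℂ) * Complex.I else 0)
    + (if g = h * rhoG i then ((s : ℝ) : ℂ) else 0) := rfl

theorem edge_zero_eq (h : Gp) (i : Idx) :
    edge h i 0 = (baseT, fun g => if g = h then (1 : ℂ) else 0) := by
  refine Prod.ext ?_ ?_
  · exact pt_zero i
  · funext g
    rw [edge_snd]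
    simp

theorem edge_one_eq (h : Gp) (i : Idx) :
    edge h i 1 = (baseT, fun g => if g = h * rhoG i then (1 : ℂ) else 0) := by
  refine Prod.ext ?_ ?_
  · exact pt_one i
  · funext g
    rw [edge_snd]
    simp

/-- `edge h i 0` does not depend on `i`, `edge h i 1` is `edge (h * rhoG i) _ 0` -/
theorem edge_zero (h : Gp) (i : Idx) : edge h i 0 = edge h 0 0 := by
  rw [edge_zero_eq, edge_zero_eq]

theorem edge_one (h : Gp) (i : Idx) : edge h i 1 = edge (h * rhoG i) 0 0 := by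
  rw [edge_zero_eq, edge_one_eq]

theorem edge_zero_inj {h h' : Gp} (e : edge h 0 0 = edge h' 0 0) : h = h' := by
  rw [edge_zero_eq, edge_zero_eq] at e
  have h1 := congrFun (congrArg Prod.snd e) h
  by_contra hne
  simp [hne] at h1

/-- coincidences of points of the edges -/
theorem edge_eq_edge {h h' : Gp} {i j : Idx} {s t : ℝ} (hs : s ∈ Icc (0 : ℝ) 1)
    (ht : t ∈ Icc (0 : ℝ) 1) (e : edge h i s = edge h' j t) :
    (h = h' ∧ i = j ∧ s = t) ∨ (h = h' ∧ s = 0 ∧ t = 0) ∨ (h * rhoG i = h' ∧ s = 1 ∧ t = 0) ∨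
      (h = h' * rhoG j ∧ s = 0 ∧ t = 1) ∨ (h * rhoG i = h' * rhoG j ∧ s = 1 ∧ t = 1) := by
  have key : (s = 0 ∨ s = 1) → (t = 0 ∨ t = 1) →
      (h = h' ∧ s = 0 ∧ t = 0) ∨ (h * rhoG i = h' ∧ s = 1 ∧ t = 0) ∨
      (h = h' * rhoG j ∧ s = 0 ∧ t = 1) ∨ (h * rhoG i = h' * rhoG j ∧ s = 1 ∧ t = 1) := by
    rintro (rfl | rfl) (rfl | rfl)
    · left
      refine ⟨?_, rfl, rfl⟩
      rw [edge_zero, edge_zero h'] at e
      exact edge_zero_inj e
    · right; right; left
      refine ⟨?_, rfl, rfl⟩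
      rw [edge_zero, edge_one] at e
      exact edge_zero_inj e
    · right; left
      refine ⟨?_, rfl, rfl⟩
      rw [edge_one, edge_zero h'] at e
      exact edge_zero_inj e
    · right; right; right
      refine ⟨?_, rfl, rfl⟩
      rw [edge_one, edge_one] at e
      exact edge_zero_inj e
  rcases pt_eq_pt hs ht (congrArg Prod.fst e) with ⟨rfl, rfl⟩ | ⟨h1, h2⟩
  · by_cases h0 : s = 0
    · exact Or.inr (key (Or.inl h0) (Or.inl h0))
    by_cases h1 : s = 1
    · exact Or.inr (key (Or.inr h1) (Or.inr h1))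
    left
    refine ⟨?_, rfl, rfl⟩
    by_contra hne
    have h2 := congrArg Complex.im (congrFun (congrArg Prod.snd e) h)
    rw [edge_snd, edge_snd, if_pos rfl, if_neg hne] at h2
    have h3 : s * (1 - s) ≠ 0 := mul_ne_zero h0 (sub_ne_zero.2 (Ne.symm h1))
    apply h3
    split_ifs at h2 <;> simpa using h2
  · exact Or.inr (key h1 h2)

theorem act_free {g : Gp} {e : TH × (Gp → ℂ)} (he : e ∈ EE) (h : act g e = e) : g = 1 := by
  obtain ⟨k, i, s, hs, rfl⟩ := he
  rw [act_edge] at h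
  rcases edge_eq_edge hs hs h with ⟨h1, -, -⟩ | ⟨h1, -, -⟩ | ⟨-, h1, h2⟩ | ⟨-, h1, h2⟩ | ⟨h1, -, -⟩
  · simpa using h1
  · simpa using h1
  · exact absurd (h1.symm.trans h2) one_ne_zero
  · exact absurd (h1.symm.trans h2) zero_ne_one
  · rw [mul_assoc] at h1
    simpa using h1

theorem act_trans {e e' : TH × (Gp → ℂ)} (he : e ∈ EE) (he' : e' ∈ EE) (h : e.1 = e'.1) :
    ∃ g, act g e = e' := by
  have main : ∀ (k k' : Gp) (i j : Idx) (s t : ℝ), (s = 0 ∨ s = 1) → (t = 0 ∨ t = 1) →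
      ∃ g, act g (edge k i s) = edge k' j t := by
    intro k k' i j s t h1 h2
    have h3 : ∃ a, edge k i s = edge a 0 0 := by
      rcases h1 with rfl | rfl
      · exact ⟨_, edge_zero k i⟩
      · exact ⟨_, edge_one k i⟩
    have h4 : ∃ a, edge k' j t = edge a 0 0 := by
      rcases h2 with rfl | rfl
      · exact ⟨_, edge_zero k' j⟩
      · exact ⟨_, edge_one k' j⟩
    obtain ⟨a, ha⟩ := h3
    obtain ⟨b, hb⟩ := h4
    refine ⟨b * a⁻¹, ?_⟩
    rw [ha, hb, act_edge]
    simp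
  obtain ⟨k, i, s, hs, rfl⟩ := he
  obtain ⟨k', j, t, ht, rfl⟩ := he'
  rcases pt_eq_pt hs ht h with ⟨rfl, rfl⟩ | ⟨h1, h2⟩
  · refine ⟨k' * k⁻¹, ?_⟩
    rw [act_edge]
    simp
  · exact main k k' i j s t h1 h2

theorem continuous_edge (h : Gp) (i : Idx) : Continuous (edge h i) := by
  unfold edge
  refine (continuous_pt i).prodMk (continuous_pi fun g => ?_)
  refine Continuous.add ?_ ?_
  · by_cases hg : g = h
    · simp only [hg, if_true]; fun_prop
    · simp only [hg, if_false]; fun_prop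
  · by_cases hg : g = h * rhoG i
    · simp only [hg, if_true]; fun_prop
    · simp only [hg, if_false]; fun_prop

theorem isCompact_EE : IsCompact EE := by
  have h : EE = ⋃ h : Gp, ⋃ i : Idx, edge h i '' Icc 0 1 := by
    ext e
    simp only [EE, mem_iUnion, mem_image]
    constructor
    · rintro ⟨h, i, s, hs, rfl⟩; exact ⟨h, i, s, hs, rfl⟩
    · rintro ⟨h, i, s, hs, rfl⟩; exact ⟨h, i, s, hs, rfl⟩
  rw [h]
  exact isCompact_iUnion fun h => isCompact_iUnion fun i =>
    isCompact_Icc.image (continuous_edge h i)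

end Pool.MP55
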