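import Pool.Agent.Lib.MP_55dccf_gt.Defs2

/-!
# MP_55dccf_gt : T26, a compact metrizable AE is a retract of the Hilbert cube
-/

set_option autoImplicit false

open Set Topology TopologicalSpace unitInterval

namespace Pool.MP55

/-- a compact metrizable AE is a retract of the Hilbert cube -/
theorem exists_retract {X : Type} [TopologicalSpace X] [CompactSpace X] [MetrizableSpace X]
    (h : IsAE X) (hne : Nonempty X) :
    ∃ e : C(X, ℕ → unitInterval), ∃ r : C(ℕ → unitInterval, X), ∀ x : X, r (e x) = x := by
  let _ : MetricSpace X := metrizableSpaceMetric X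
  have _ : SeparableSpace X := SecondCountableTopology.to_separableSpace
  obtain ⟨F, hF⟩ := Metric.PiNatEmbed.exists_embedding_to_hilbert_cube (X := X)
  have hcl : IsClosed (range F) :=
    (hF.continuous.isClosedEmbedding hF.injective).isClosed_range
  classical
  have hinv : ∀ x, Function.invFun F (F x) = x := Function.leftInverse_invFun hF.injective
  have hcont : ContinuousOn (Function.invFun F) (range F) := by
    rw [continuousOn_iff_continuous_domRestrict]
    have : (range F).domRestrict (Function.invFun F) = hF.toHomeomorph.symm := by
      funext y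
      obtain ⟨x, hx⟩ := hF.toHomeomorph.surjective y
      rw [← hx, Homeomorph.symm_apply_apply]
      exact hinv x
    rw [this]
    exact hF.toHomeomorph.symm.continuous
  obtain ⟨r, hr, -, hre⟩ := h (ℕ → unitInterval) (range F) hcl _ hcont (mapsTo_univ _ _)
  exact ⟨⟨F, hF.continuous⟩, ⟨r, hr⟩, fun x => (hre (mem_range_self x)).trans (hinv x)⟩

end Pool.MP55
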