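import Mathlib

/-!
# MP_55dccf_gt : definitions

A compact AR `X` such that all points of `X × [0,1]` are `Z_∞`, without `Z_2`-points.
-/

set_option autoImplicit false

open Set Topology

namespace Pool.MP55

/-! ## Absolute extensors (for compact metrizable spaces), set version -/

/-- `S ⊆ Y` is an absolute extensor: every map from a closed subset `C` of a compact metrizable
space `Z` into `S` extends to a map `Z → S`. -/
def AESet {Y : Type} [TopologicalSpace Y] (S : Set Y) : Prop :=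
  ∀ (Z : Type) [TopologicalSpace Z] [CompactSpace Z] [TopologicalSpace.MetrizableSpace Z]
    (C : Set Z), IsClosed C → ∀ f : Z → Y, ContinuousOn f C → MapsTo f C S →
      ∃ F : Z → Y, Continuous F ∧ (∀ z, F z ∈ S) ∧ EqOn F f C

/-- the whole space is an absolute extensor -/
def IsAE (Y : Type) [TopologicalSpace Y] : Prop := AESet (univ : Set Y)

/-! ## The cone over a wedge of five circles -/

abbrev Idx := Fin 5
abbrev VV := Idx → ℂ

/-- the wedge of five circles, inside the torus `(S^1)^5 ⊆ ℂ^5` -/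
def Th : Set VV := {x | (∀ i, ‖x i‖ = 1) ∧ ∃ i, ∀ j, j ≠ i → x j = 1}

/-- the cone over `Th` with apex `0` -/
def Cn : Set VV := {z | ∃ r ∈ Icc (0 : ℝ) 1, ∃ x ∈ Th, z = r • x}

abbrev TH := ↥Th
abbrev CN := ↥Cn

lemma norm_of_mem_Th {x : VV} (hx : x ∈ Th) : ‖x‖ = 1 := by
  refine le_antisymm ?_ ?_
  · exact (pi_norm_le_iff_of_nonneg zero_le_one).2 (fun i => (hx.1 i).le)
  · rw [← hx.1 0]; exact norm_le_pi_norm x 0

lemma isClosed_Th : IsClosed Th := by
  have h1 : IsClosed {x : VV | ∀ i, ‖x i‖ = 1} := by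
    simp only [Set.ofPred_forall]
    exact isClosed_iInter fun i => isClosed_eq (by fun_prop) continuous_const
  have h2 : IsClosed {x : VV | ∃ i, ∀ j, j ≠ i → x j = 1} := by
    simp only [Set.ofPred_exists, Set.ofPred_forall]
    refine isClosed_iUnion_of_finite fun i => isClosed_iInter fun j => isClosed_iInter fun _ =>
      isClosed_eq (by fun_prop) continuous_const
  exact h1.inter h2

lemma isCompact_Th : IsCompact Th := by
  refine Metric.isCompact_of_isClosed_isBounded isClosed_Th ?_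
  refine (Metric.isBounded_closedBall (x := (0 : VV)) (r := 1)).subset fun x hx => ?_
  simpa using (norm_of_mem_Th hx).le

lemma isCompact_Cn : IsCompact Cn := by
  have : Cn = (fun p : ℝ × VV => p.1 • p.2) '' (Icc (0 : ℝ) 1 ×ˢ Th) := by
    ext z; constructor
    · rintro ⟨r, hr, x, hx, rfl⟩; exact ⟨(r, x), ⟨hr, hx⟩, rfl⟩
    · rintro ⟨⟨r, x⟩, ⟨hr, hx⟩, rfl⟩; exact ⟨r, hr, x, hx, rfl⟩
  rw [this]
  exact (isCompact_Icc.prod isCompact_Th).image (by fun_prop)

instance : CompactSpace TH := isCompact_iff_compactSpace.1 isCompact_Th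
instance : CompactSpace CN := isCompact_iff_compactSpace.1 isCompact_Cn

lemma one_mem_Th : (fun _ => 1 : VV) ∈ Th := ⟨by simp, 0, by simp⟩

/-- base point of the wedge -/
def baseT : TH := ⟨fun _ => 1, one_mem_Th⟩

/-- radial coordinate (`0` at the apex, `1` at the boundary `Th`) -/
noncomputable def nm (z : CN) : ℝ := ‖z.1‖

/-- clamp to `[0,1]` -/
noncomputable def cl (r : ℝ) : ℝ := max 0 (min 1 r)

lemma cl_mem (r : ℝ) : cl r ∈ Icc (0 : ℝ) 1 :=
  ⟨le_max_left _ _, max_le zero_le_one (min_le_left _ _)⟩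

/-- polar coordinates: the point of the cone with radial coordinate `cl r` and direction `x` -/
noncomputable def rad (r : ℝ) (x : TH) : CN :=
  ⟨cl r • x.1, cl r, cl_mem r, x.1, x.2, rfl⟩

/-- boundary inclusion -/
noncomputable def inc (x : TH) : CN := rad 1 x

/-- apex of the cone -/
noncomputable def apex : CN := rad 0 baseT

lemma dir_mem {z : VV} (hz : z ∈ Cn) (h0 : z ≠ 0) : ‖z‖⁻¹ • z ∈ Th := by
  obtain ⟨r, hr, x, hx, rfl⟩ := hz
  have hr0 : r ≠ 0 := by rintro rfl; simp at h0
  have hx1 := norm_of_mem_Th hx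
  have : ‖r • x‖ = r := by rw [norm_smul, hx1, mul_one, Real.norm_of_nonneg hr.1]
  rw [this, smul_smul, inv_mul_cancel₀ hr0, one_smul]; exact hx

open Classical in
/-- direction of a point of the cone (`baseT` at the apex) -/
noncomputable def dirT (z : CN) : TH :=
  if h : z.1 = 0 then baseT else ⟨‖z.1‖⁻¹ • z.1, dir_mem z.2 h⟩

/-- radial stretching: the subcone of radius `κ` is stretched onto the cone -/
noncomputable def st (κ : ℝ) (z : CN) : CN := rad (nm z / κ) (dirT z)

/-- radial shrinking by the factor `κ` -/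
noncomputable def sh (κ : ℝ) (z : CN) : CN := rad (κ * nm z) (dirT z)

/-! ## points of the wedge, the commutator map, the pinch maps -/

/-- the point of the `i`-th circle with parameter `s` (`s ∈ [0,1]`) -/
noncomputable def pt (i : Idx) (s : ℝ) : TH :=
  ⟨fun j => if j = i then Complex.exp (2 * Real.pi * s * Complex.I) else 1, by
    refine ⟨fun j => ?_, i, fun j hj => by simp [hj]⟩
    by_cases h : j = i
    · simp only [h, if_true]
      have : (2 * Real.pi * s * Complex.I : ℂ) = ((2 * Real.pi * s : ℝ) : ℂ) * Complex.I := by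
        push_cast; ring
      rw [this, Complex.norm_exp_ofReal_mul_I]
    · simp [h]⟩

lemma exists_pt (x : TH) : ∃ p : Idx × ℝ, p.2 ∈ Icc (0 : ℝ) 1 ∧ pt p.1 p.2 = x := by
  obtain ⟨i, hi⟩ := x.2.2
  have h1 := x.2.1 i
  obtain ⟨t, ht⟩ : ∃ t : ℝ, Complex.exp (2 * Real.pi * t * Complex.I) = x.1 i ∧
      t ∈ Icc (0 : ℝ) 1 := by
    have h2 : Complex.exp (Complex.arg (x.1 i) * Complex.I) = x.1 i := by
      have := Complex.norm_mul_exp_arg_mul_I (x.1 i)
      rwa [h1, Complex.ofReal_one, one_mul] at this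
    have hpi := Real.pi_pos
    rcases le_or_gt 0 (Complex.arg (x.1 i)) with h | h
    · refine ⟨Complex.arg (x.1 i) / (2 * Real.pi), ?_, by positivity, ?_⟩
      · rw [← h2]; congr 1; push_cast
        have : (Real.pi : ℂ) ≠ 0 := by exact_mod_cast hpi.ne'
        field_simp
        rw [h2]
      · rw [div_le_one (by positivity)]; linarith [Complex.arg_le_pi (x.1 i)]
    · refine ⟨Complex.arg (x.1 i) / (2 * Real.pi) + 1, ?_, ?_, ?_⟩
      · have : (2 * Real.pi * ((Complex.arg (x.1 i) / (2 * Real.pi) + 1 : ℝ) : ℂ) * Complex.I : ℂ)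
            = Complex.arg (x.1 i) * Complex.I + 2 * Real.pi * Complex.I := by
          push_cast
          have : (Real.pi : ℂ) ≠ 0 := by exact_mod_cast hpi.ne'
          field_simp
        rw [this, Complex.exp_add, Complex.exp_two_pi_mul_I, mul_one, h2]
      · have := Complex.neg_pi_lt_arg (x.1 i)
        have : -(1 : ℝ) ≤ Complex.arg (x.1 i) / (2 * Real.pi) := by
          rw [le_div_iff₀ (by positivity)]; linarith
        linarith
      · have : Complex.arg (x.1 i) / (2 * Real.pi) ≤ 0 :=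
          div_nonpos_of_nonpos_of_nonneg h.le (by positivity)
        linarith
  refine ⟨(i, t), ht.2, ?_⟩
  apply Subtype.ext; funext j
  by_cases h : j = i
  · subst h; simpa [pt] using ht.1
  · simp [pt, h, hi j h]

/-- a chosen parameter `(i,s)` of a point of the wedge -/
noncomputable def pre (x : TH) : Idx × ℝ := Classical.choose (exists_pt x)

/-- descend a function of `(i,s)` to the wedge -/
noncomputable def desc {Y : Type} (g : Idx → ℝ → Y) (x : TH) : Y := g (pre x).1 (pre x).2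

/-- commutator data: `ρ i = ⁅ρ (ca i), ρ (cb i)⁆` -/
def ca : Idx → Idx := ![2, 4, 0, 1, 2]
def cb : Idx → Idx := ![4, 2, 3, 4, 3]

/-- reparametrisation of `[0,1]`, constant near the ends -/
noncomputable def chi (u : ℝ) : ℝ := cl (2 * u - 1 / 2)

/-- commutator path `[x_{ca i}, x_{cb i}]` -/
noncomputable def cpath (i : Idx) (s : ℝ) : TH :=
  if s ≤ 1 / 4 then pt (ca i) (chi (4 * s))
  else if s ≤ 1 / 2 then pt (cb i) (chi (4 * s - 1))
  else if s ≤ 3 / 4 then pt (ca i) (chi (3 - 4 * s))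
  else pt (cb i) (chi (4 - 4 * s))

/-- the commutator map of the wedge -/
noncomputable def phi1 : TH → TH := desc cpath

/-- the `j`-th component of the `k`-fold pinch map -/
noncomputable def pin (k : ℕ) (j : Fin k) : TH → TH :=
  desc fun i s => pt i (cl (k * s - (j : ℕ)))

/-- the `j`-th component of (pinch ∘ commutator) -/
noncomputable def phi (k : ℕ) (j : Fin k) (x : TH) : TH := pin k j (phi1 x)

/-! ## The covering and essential loops -/

abbrev Gp := Equiv.Perm (Fin 5)

/-- permutation from its list of values -/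
def mkP (f g : Fin 5 → Fin 5) (h : ∀ i, g (f i) = i) (h' : ∀ i, f (g i) = i) : Gp := ⟨f, g, h, h'⟩

/-- the holonomies: five elements of `A_5`, each the commutator of two of them -/
def rhoG : Idx → Gp
  | 0 => mkP ![0, 1, 3, 4, 2] ![0, 1, 4, 2, 3] (by decide) (by decide)
  | 1 => mkP ![0, 1, 4, 2, 3] ![0, 1, 3, 4, 2] (by decide) (by decide)
  | 2 => mkP ![0, 2, 3, 1, 4] ![0, 3, 1, 2, 4] (by decide) (by decide)
  | 3 => mkP ![2, 0, 4, 1, 3] ![1, 3, 0, 4, 2] (by decide) (by decide)
  | 4 => mkP ![2, 4, 3, 1, 0] ![4, 3, 0, 2, 1] (by decide) (by decide)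

/-- a point of the edge from `h` to `h * ρ i` of the covering graph -/
noncomputable def edge (h : Gp) (i : Idx) (s : ℝ) : TH × (Gp → ℂ) :=
  (pt i s, fun g => (if g = h then ((1 - s : ℝ) : ℂ) + ((s * (1 - s) : ℝ) : ℂ) * Complex.I else 0)
    + (if g = h * rhoG i then ((s : ℝ) : ℂ) else 0))

/-- total space of the covering of the wedge -/
def EE : Set (TH × (Gp → ℂ)) := {e | ∃ h i, ∃ s ∈ Icc (0 : ℝ) 1, e = edge h i s}

/-- a loop in the wedge is essential if it has no closed lift to `EE` -/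
def Ess (ℓ : Circle → TH) : Prop :=
  ¬ ∃ m : Circle → TH × (Gp → ℂ), Continuous m ∧ ∀ s, m s ∈ EE ∧ (m s).1 = ℓ s

/-! ## Blocker data -/

/-- Blocker data on a space `B` (data part): finitely many cones `c v : CN → B` and polar maps
`F v : B → CN`, and two loops `γ a`. -/
structure BD (B : Type) where
  V : Type
  fin : Fintype V
  dec : DecidableEq V
  ne : Nonempty V
  F : V → B → CN
  c : V → CN → B
  γ : Bool → Circle → B

attribute [instance] BD.fin BD.dec BD.ne

/-- The properties of blocker data: `c v apex` has the conical neighbourhood `c v`, `F v` is the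
polar map, and `F v` maps the two loops to essential loops of the wedge. -/
structure BD.OK {B : Type} [TopologicalSpace B] (D : BD B) : Prop where
  hF : ∀ v, Continuous (D.F v)
  hc : ∀ v, Continuous (D.c v)
  Fc : ∀ v z, D.F v (D.c v z) = z
  cF : ∀ v b, nm (D.F v b) < 1 → D.c v (D.F v b) = b
  disj : ∀ u v, u ≠ v → ∀ b, nm (D.F u b) = 1 ∨ nm (D.F v b) = 1
  hγ : ∀ a, Continuous (D.γ a)
  γn : ∀ a v s, nm (D.F v (D.γ a s)) = 1
  γE : ∀ a v, Ess (fun s => dirT (D.F v (D.γ a s)))

/-- points outside all open cones -/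
def BD.good {B : Type} (D : BD B) : Set B := {b | ∀ v, nm (D.F v b) = 1}

/-- every point can be joined to a blocker inside its `δ`-ball -/
def BD.PathDense {B : Type} [MetricSpace B] (D : BD B) (δ : ℝ) : Prop :=
  ∀ b, ∃ v, JoinedIn (Metric.ball b δ) (D.c v apex) b

/-! ## Move O3: blow-up with the commutator map -/

/-- the local blow-up model -/
def K0 (k : ℕ) : Set (CN × (Fin k → CN)) :=
  {x | (∃ j0, ∀ j, j ≠ j0 → x.2 j = inc baseT) ∧
    (x.1 = apex ∨ ∀ j, x.2 j = inc (phi k j (dirT x.1)))}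

/-- the blown-up space -/
def B3 {B : Type} (D : BD B) (k : ℕ) : Set (B × (D.V → Fin k → CN)) :=
  {x | ∀ v, (D.F v x.1, x.2 v) ∈ K0 k}

lemma pt_zero (i : Idx) : pt i 0 = baseT := by
  apply Subtype.ext; funext j; simp [pt, baseT]

lemma pt_one (i : Idx) : pt i 1 = baseT := by
  apply Subtype.ext; funext j
  have : (2 * Real.pi * (1 : ℝ) * Complex.I : ℂ) = 2 * Real.pi * Complex.I := by push_cast; ring
  simp only [pt, baseT, this, Complex.exp_two_pi_mul_I, ite_self]

lemma cl_of_le {r : ℝ} (h : r ≤ 0) : cl r = 0 := by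
  unfold cl; exact max_eq_left ((min_le_right _ _).trans h)

lemma cl_of_ge {r : ℝ} (h : 1 ≤ r) : cl r = 1 := by
  unfold cl; rw [min_eq_left h]; exact max_eq_right zero_le_one

lemma phi_wedge (k : ℕ) [NeZero k] (x : TH) : ∃ j0, ∀ j, j ≠ j0 → phi k j x = baseT := by
  set i := (pre (phi1 x)).1 with hi
  set s := (pre (phi1 x)).2 with hs
  have hs' : s ∈ Icc (0 : ℝ) 1 := (Classical.choose_spec (exists_pt (phi1 x))).1
  have hk : 0 < k := Nat.pos_of_ne_zero (NeZero.ne k)
  have key : ∀ j : Fin k, phi k j x = pt i (cl (k * s - (j : ℕ))) := fun j => rfl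
  have hks : 0 ≤ (k : ℝ) * s := mul_nonneg (Nat.cast_nonneg _) hs'.1
  by_cases hlt : ⌊(k : ℝ) * s⌋₊ < k
  · refine ⟨⟨⌊(k : ℝ) * s⌋₊, hlt⟩, fun j hj => ?_⟩
    rw [key]
    rcases lt_or_gt_of_ne (fun h => hj (Fin.ext h) : (j : ℕ) ≠ ⌊(k : ℝ) * s⌋₊) with h | h
    · have h1 : ((j : ℕ) : ℝ) + 1 ≤ (k : ℝ) * s := by
        have : ((j : ℕ) + 1 : ℕ) ≤ ⌊(k : ℝ) * s⌋₊ := h
        have h2 := (Nat.le_floor_iff hks).1 this
        push_cast at h2; exact h2
      rw [cl_of_ge (by linarith), pt_one]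
    · have h1 : (k : ℝ) * s < (j : ℕ) := (Nat.floor_lt hks).1 h
      rw [cl_of_le (by linarith), pt_zero]
  · refine ⟨⟨0, hk⟩, fun j _ => ?_⟩
    have h1 : (k : ℝ) ≤ (k : ℝ) * s := (Nat.le_floor_iff hks).1 (not_lt.1 hlt)
    have h2 : ((j : ℕ) : ℝ) + 1 ≤ k := by exact_mod_cast j.2
    rw [key, cl_of_ge (by linarith), pt_one]

/-- the section of `B3 → B` (continuous away from the apexes) -/
noncomputable def lift3 {B : Type} (D : BD B) (k : ℕ) [NeZero k] (b : B) : ↥(B3 D k) :=
  ⟨(b, fun v j => inc (phi k j (dirT (D.F v b)))), fun v => by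
    refine ⟨?_, Or.inr fun j => rfl⟩
    obtain ⟨j0, h⟩ := phi_wedge k (dirT (D.F v b))
    exact ⟨j0, fun j hj => by simp only [h j hj]⟩⟩

open Classical in
/-- blocker data on the blown-up space: the blocker `v` is replaced by `k` twins `(v,j)` -/
noncomputable def bd3 {B : Type} (D : BD B) (k : ℕ) [NeZero k] : BD ↥(B3 D k) where
  V := D.V × Fin k
  fin := inferInstance
  dec := inferInstance
  ne := inferInstance
  F := fun v x => x.1.2 v.1 v.2
  c := fun v w =>
    let x : B × (D.V → Fin k → CN) := (D.c v.1 apex,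
      Function.update (lift3 D k (D.c v.1 apex)).1.2 v.1
        (Function.update (fun _ => inc baseT) v.2 w))
    if h : x ∈ B3 D k then ⟨x, h⟩ else lift3 D k (D.c v.1 apex)
  γ := fun a s => lift3 D k (D.γ a s)

/-! ## Move O1: thickening -/

/-- thickness -/
noncomputable def rho {B : Type} (D : BD B) (κ : ℝ) (b : B) : ℝ :=
  ∏ v, max 0 (nm (D.F v b) - κ)

/-- the thickened space -/
def B1 {B : Type} (D : BD B) (κ : ℝ) : Set (B × ℝ) :=
  {x | 0 ≤ x.2 ∧ x.2 ≤ rho D κ x.1}

lemma rho_nonneg {B : Type} (D : BD B) (κ : ℝ) (b : B) : 0 ≤ rho D κ b :=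
  Finset.prod_nonneg fun _ _ => le_max_left _ _

/-- bottom section -/
def bot1 {B : Type} (D : BD B) (κ : ℝ) (b : B) : ↥(B1 D κ) := ⟨(b, 0), le_rfl, rho_nonneg D κ b⟩

/-- section at relative height `cl t` -/
noncomputable def sec1 {B : Type} (D : BD B) (κ : ℝ) (t : ℝ) (b : B) : ↥(B1 D κ) :=
  ⟨(b, cl t * rho D κ b), mul_nonneg (cl_mem t).1 (rho_nonneg D κ b),
    mul_le_of_le_one_left (rho_nonneg D κ b) (cl_mem t).2⟩

/-- blocker data on the thickened space: cones are shrunk to radius `κ` -/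
noncomputable def bd1 {B : Type} (D : BD B) (κ : ℝ) : BD ↥(B1 D κ) where
  V := D.V
  fin := inferInstance
  dec := inferInstance
  ne := inferInstance
  F := fun v x => st κ (D.F v x.1.1)
  c := fun v z => bot1 D κ (D.c v (sh κ z))
  γ := fun a s => bot1 D κ (D.γ a s)

/-! ## Move O4: sliding blockers along arcs -/

/-- slide data: distinct blockers `w j` and pairwise disjoint arcs `T j` starting on the boundary
of their cones. -/
structure SlideData {B : Type} [TopologicalSpace B] (D : BD B) (n : ℕ) where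
  w : Fin n → D.V
  winj : Function.Injective w
  T : Fin n → ℝ → B
  hT : ∀ j, ContinuousOn (T j) (Icc 0 1)
  Tinj : ∀ j, InjOn (T j) (Icc 0 1)
  T0 : ∀ j, T j 0 = D.c (w j) (inc baseT)
  /-- away from `t = 0` the arcs avoid all closed cones -/
  Tcone : ∀ j, ∀ t ∈ Ioc (0 : ℝ) 1, ∀ v z, D.c v z ≠ T j t
  Tdisj : ∀ i j, i ≠ j → ∀ s ∈ Icc (0 : ℝ) 1, ∀ t ∈ Icc (0 : ℝ) 1, T i s ≠ T j t
  /-- closed cones are disjoint -/
  cdisj : ∀ u v, u ≠ v → ∀ z z', D.c u z ≠ D.c v z'

namespace SlideData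

variable {B : Type} [TopologicalSpace B] {D : BD B} {n : ℕ} (S : SlideData D n)

/-- path from the apex of the `j`-th blocker to the end of the arc, `u ∈ [0,1]` -/
noncomputable def that (j : Fin n) (u : ℝ) : B :=
  if u ≤ 1 / 2 then D.c (S.w j) (rad (2 * u) baseT) else S.T j (2 * u - 1)

/-- radial coordinate of the folding arc, `u ∈ [-1,1/2]` -/
noncomputable def rr (u : ℝ) : ℝ := if u ≤ 0 then (2 + u) / 3 else (2 + 2 * u) / 3

/-- the folding arc `u ∈ [-1,1]` -/
noncomputable def arc (j : Fin n) (u : ℝ) : B :=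
  if u ≤ 1 / 2 then D.c (S.w j) (rad (rr u) baseT) else S.T j (2 * u - 1)

/-- the space with strips attached along the folding arcs -/
def B4 : Set (B × ℝ) :=
  {x | x.2 = 0 ∨ (0 ≤ x.2 ∧ x.2 ≤ 1 ∧ ∃ j, ∃ u ∈ Icc (-1 : ℝ) 1, x.1 = S.arc j u)}

open Classical in
/-- dragging map: inside the cone of the `j`-th blocker the subcone of radius `2/3` is mapped
to the path `that j` -/
noncomputable def p0 (b : B) : B :=
  if h : ∃ j, nm (D.F (S.w j) b) < 1 then
    let j := h.choose
    let z := D.F (S.w j) b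
    if 2 / 3 ≤ nm z then D.c (S.w j) (rad (3 * nm z - 2) (dirT z))
    else S.that j (min 1 (2 - 3 * nm z))
  else b

open Classical in
/-- the projection `B4 → B` -/
noncomputable def p4 (x : ↥S.B4) : B :=
  if h : ∃ j, ∃ u ∈ Icc (-1 : ℝ) 1, x.1.1 = S.arc j u then
    S.that h.choose (max |h.choose_spec.choose| x.1.2)
  else S.p0 x.1.1

/-- inclusion of `B` as the bottom of `B4` -/
def bot4 (b : B) : ↥S.B4 := ⟨(b, 0), Or.inl rfl⟩

open Classical in
/-- blocker data on `B4`: the slid blockers are shrunk to radius `1/3` -/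
noncomputable def bd4 : BD ↥S.B4 where
  V := D.V
  fin := inferInstance
  dec := inferInstance
  ne := inferInstance
  F := fun v x => if v ∈ range S.w then st (1 / 3) (D.F v x.1.1) else D.F v x.1.1
  c := fun v z => S.bot4 (if v ∈ range S.w then D.c v (sh (1 / 3) z) else D.c v z)
  γ := fun a s => S.bot4 (D.γ a s)

end SlideData

end Pool.MP55
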