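import Pool.Agent.Lib.MP_55dccf_gt.Defs

/-!
# MP_55dccf_gt : macro steps and towers (definitions)
-/

set_option autoImplicit false

open Set Topology TopologicalSpace unitInterval

namespace Pool.MP55

/-- the holonomies are commutators -/
lemma rho_comm (i : Idx) : rhoG i = rhoG (ca i) * rhoG (cb i) * (rhoG (ca i))⁻¹ *
    (rhoG (cb i))⁻¹ := by
  revert i; decide

lemma rho_ne : rhoG 0 ≠ 1 := by decide

/-- wedge of `k` cones -/
def WW (k : ℕ) : Set (Fin k → CN) := {z | ∃ j0, ∀ j, j ≠ j0 → z j = inc baseT}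

/-- support of the `j`-th slide -/
def SlideData.Lam {B : Type} [TopologicalSpace B] {D : BD B} {n : ℕ} (S : SlideData D n)
    (j : Fin n) : Set B := range (D.c (S.w j)) ∪ S.T j '' Icc 0 1

/-- everything the limit argument needs about one macro step `P : B' → B` -/
structure MacroStep {B B' : Type} [MetricSpace B] [TopologicalSpace B'] (D : BD B) (D' : BD B')
    (P : B' → B) (Q : B → B') (H : B' × I → B') (δ ε : ℝ) : Prop where
  cP : Continuous P
  cQ : Continuous Q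
  cH : Continuous H
  H0 : ∀ x, H (x, 0) = x
  H1 : ∀ x, H (x, 1) = Q (P x)
  dQ : ∀ b, dist (P (Q b)) b ≤ δ
  dH : ∀ x t, dist (P (H (x, t))) (P x) ≤ δ
  dense : ∀ x, ∃ v, JoinedIn {y | dist (P y) (P x) < ε} (D'.c v apex) x
  goodQ : ∀ b ∈ D.good, Q b ∈ D'.good
  goodP : ∀ b ∈ D.good, P (Q b) = b
  Pγ : ∀ a s, P (D'.γ a s) = D.γ a s
  push : ∀ (t₀ τ : ℝ), 0 < τ → ∃ Ψ : Bool → B × ℝ → B' × ℝ, (∀ i, Continuous (Ψ i)) ∧
    (∀ i x, |(Ψ i x).2 - x.2| ≤ τ) ∧ (∀ i x, dist (P (Ψ i x).1) x.1 ≤ δ) ∧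
    (∀ i x, (Ψ i x).2 = t₀ → (Ψ i x).1 ∈ D'.good) ∧
    ∀ x y, (Ψ false x).2 = t₀ → (Ψ true y).2 = t₀ → (Ψ false x).1 ≠ (Ψ true y).1

/-- an inverse sequence of compact AE's with controlled homotopy equivalences -/
structure Tower where
  B : ℕ → Type
  ms : ∀ n, MetricSpace (B n)
  cs : ∀ n, CompactSpace (B n)
  ae : ∀ n, IsAE (B n)
  ne : ∀ n, Nonempty (B n)
  δ : ℕ → ℝ
  δpos : ∀ n, 0 < δ n
  δsum : Summable δ
  P : ∀ n, B (n + 1) → B n
  Q : ∀ n, B n → B (n + 1)
  H : ∀ n, B (n + 1) × I → B (n + 1)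
  cP : ∀ n, Continuous (P n)
  cQ : ∀ n, Continuous (Q n)
  cH : ∀ n, Continuous (H n)
  lip : ∀ n x y, dist (P n x) (P n y) ≤ dist x y
  H0 : ∀ n x, H n (x, 0) = x
  H1 : ∀ n x, H n (x, 1) = Q n (P n x)
  dQ : ∀ n b, dist (P n (Q n b)) b ≤ δ n
  dH : ∀ n x t, dist (P n (H n (x, t))) (P n x) ≤ δ n

attribute [instance] Tower.ms Tower.cs Tower.ne

namespace Tower

/-- the limit -/
def X (T : Tower) : Type := {x : ∀ n, T.B n // ∀ n, T.P n (x (n + 1)) = x n}

/-- the metric on the limit (some metric inducing the topology of the product). It is the ONLY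
topological structure registered on `T.X`. -/
noncomputable instance (T : Tower) : MetricSpace T.X := by
  have h1 : ∀ n, SecondCountableTopology (T.B n) := fun n => inferInstance
  have h2 : SecondCountableTopology (∀ n, T.B n) := inferInstance
  have h3 : SecondCountableTopology {x : ∀ n, T.B n // ∀ n, T.P n (x (n + 1)) = x n} :=
    TopologicalSpace.Subtype.secondCountableTopology _
  have h4 : MetrizableSpace {x : ∀ n, T.B n // ∀ n, T.P n (x (n + 1)) = x n} :=
    TopologicalSpace.metrizableSpace_of_t3_secondCountable _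
  exact TopologicalSpace.metrizableSpaceMetric {x : ∀ n, T.B n // ∀ n, T.P n (x (n + 1)) = x n}

/-- coordinates are continuous -/
lemma continuous_coord (T : Tower) (n : ℕ) : Continuous fun x : T.X => x.1 n :=
  (continuous_apply n).comp
    (continuous_subtype_val (p := fun x : ∀ n, T.B n => ∀ n, T.P n (x (n + 1)) = x n))

/-- a map into the limit is continuous if its coordinates are -/
lemma continuous_mk {Z : Type} [TopologicalSpace Z] (T : Tower) {f : Z → T.X}
    (h : ∀ n, Continuous fun z => (f z).1 n) : Continuous f :=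
  Continuous.subtype_mk (p := fun x : ∀ n, T.B n => ∀ n, T.P n (x (n + 1)) = x n)
    (f := fun z => (f z).1) (continuous_pi h) fun z => (f z).2

lemma continuousAt_mk {Z : Type} [TopologicalSpace Z] (T : Tower) {f : Z → T.X} {z0 : Z}
    (h : ∀ n, ContinuousAt (fun z => (f z).1 n) z0) : ContinuousAt f z0 := by
  have h1 : ContinuousAt (fun z => (f z).1) z0 := continuousAt_pi.2 h
  exact (Topology.IsInducing.subtypeVal
    (t := {x : ∀ n, T.B n | ∀ n, T.P n (x (n + 1)) = x n})).continuousAt_iff.2 h1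

instance compactSpace_X (T : Tower) : CompactSpace T.X := by
  have hc : IsClosed {x : ∀ n, T.B n | ∀ n, T.P n (x (n + 1)) = x n} := by
    simp only [Set.ofPred_forall]
    exact isClosed_iInter fun n => isClosed_eq ((T.cP n).comp (continuous_apply (n + 1)))
      (continuous_apply n)
  exact isCompact_iff_compactSpace.1 hc.isCompact

/-- iterated projection `B (m + k) → B m` -/
def PP (T : Tower) (m : ℕ) : ∀ k, T.B (m + k) → T.B m
  | 0 => id
  | k + 1 => fun x => T.PP m k (T.P (m + k) x)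

end Tower

/-- tower with blockers -/
structure BTower extends Tower where
  D : ∀ n, BD (B n)
  ok : ∀ n, (D n).OK
  ε : ℕ → ℝ
  εlim : Filter.Tendsto ε Filter.atTop (𝓝 0)
  dense : ∀ n b, ∃ v, dist ((D n).c v apex) b < ε n
  Pγ : ∀ n a s, P n ((D (n + 1)).γ a s) = (D n).γ a s
  γ0 : ∀ s t, (D 0).γ false s ≠ (D 0).γ true t
  goodQ : ∀ n, ∀ b ∈ (D n).good, Q n b ∈ (D (n + 1)).good
  goodP : ∀ n, ∀ b ∈ (D n).good, P n (Q n b) = b
  push : ∀ n (t₀ τ : ℝ), 0 < τ → ∃ Ψ : Bool → B n × ℝ → B (n + 1) × ℝ, (∀ i, Continuous (Ψ i)) ∧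
    (∀ i x, |(Ψ i x).2 - x.2| ≤ τ) ∧ (∀ i x, dist (P n (Ψ i x).1) x.1 ≤ δ n) ∧
    (∀ i x, (Ψ i x).2 = t₀ → (Ψ i x).1 ∈ (D (n + 1)).good) ∧
    ∀ x y, (Ψ false x).2 = t₀ → (Ψ true y).2 = t₀ → (Ψ false x).1 ≠ (Ψ true y).1

end Pool.MP55
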