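import Pool.Agent.Lib.MP_55dccf_gt.Defs2
import Pool.Agent.Lib.MP_55dccf_gt.Cone

/-!
# MP_55dccf_gt : move O4, the space and the projection
-/

set_option autoImplicit false
set_option linter.unusedSectionVars false
set_option linter.unusedVariables false

open Set Topology TopologicalSpace unitInterval

namespace Pool.MP55


/-- continuity on the image of a compact set -/
lemma Slide1_continuousOn_image {A X Y : Type} [TopologicalSpace A] [TopologicalSpace X]
    [T2Space X] [TopologicalSpace Y] {K : Set A} (hK : IsCompact K) {sg : A → X}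
    (hsg : ContinuousOn sg K) {f : X → Y} (h : ContinuousOn (fun a => f (sg a)) K) :
    ContinuousOn f (sg '' K) := by
  rw [continuousOn_iff_isClosed] at h ⊢
  intro t ht
  obtain ⟨u, hu, hut⟩ := h t ht
  have hKu : IsCompact (K ∩ u) := hK.inter_right hu
  refine ⟨sg '' (K ∩ u), (hKu.image_of_continuousOn (hsg.mono inter_subset_left)).isClosed, ?_⟩
  ext x
  constructor
  · rintro ⟨hx, a, ha, rfl⟩
    refine ⟨⟨a, ⟨ha, ?_⟩, rfl⟩, a, ha, rfl⟩
    have : a ∈ (fun a => f (sg a)) ⁻¹' t ∩ K := ⟨hx, ha⟩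
    rw [hut] at this
    exact this.1
  · rintro ⟨⟨a, ha, rfl⟩, hx⟩
    refine ⟨?_, hx⟩
    have : a ∈ u ∩ K := ⟨ha.2, ha.1⟩
    rw [← hut] at this
    exact this.1

/-! ### the function `rr` -/

lemma Slide1_rr_eq (u : ℝ) : SlideData.rr u = max ((2 + u) / 3) ((2 + 2 * u) / 3) := by
  unfold SlideData.rr
  split_ifs with h
  · rw [max_eq_left]; linarith
  · rw [max_eq_right]; linarith

lemma Slide1_rr_strictMono : StrictMono SlideData.rr := by
  intro a b h
  rw [Slide1_rr_eq, Slide1_rr_eq]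
  exact max_lt_max (by linarith) (by linarith)

lemma Slide1_continuous_rr : Continuous SlideData.rr := by
  have : SlideData.rr = fun u => max ((2 + u) / 3) ((2 + 2 * u) / 3) := funext Slide1_rr_eq
  rw [this]
  fun_prop

lemma Slide1_rr_half : SlideData.rr (1 / 2) = 1 := by
  unfold SlideData.rr; norm_num

lemma Slide1_rr_neg_one : SlideData.rr (-1) = 1 / 3 := by
  unfold SlideData.rr; norm_num

lemma Slide1_rr_mem {u : ℝ} (h : -1 ≤ u) (h' : u ≤ 1 / 2) :
    SlideData.rr u ∈ Icc (1 / 3 : ℝ) 1 := by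
  constructor
  · rw [← Slide1_rr_neg_one]; exact Slide1_rr_strictMono.monotone h
  · rw [← Slide1_rr_half]; exact Slide1_rr_strictMono.monotone h'

variable {B : Type} [TopologicalSpace B] [CompactSpace B] [MetrizableSpace B]
  {D : BD B} {n : ℕ} (S : SlideData D n)

namespace SlideData

lemma Slide1_continuous_Tcl (j : Fin n) : Continuous fun t => S.T j (cl t) :=
  (S.hT j).comp_continuous continuous_cl cl_mem

lemma Slide1_glue (hD : D.OK) (j : Fin n) {ρ : ℝ → ℝ} (hρ : Continuous ρ)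
    (hρ1 : ρ (1 / 2) = 1) : ContinuousOn
      (fun u => if u ≤ 1 / 2 then D.c (S.w j) (rad (ρ u) baseT) else S.T j (2 * u - 1))
      (Iic 1) := by
  have h1 : Continuous fun u : ℝ => if u ≤ 1 / 2 then D.c (S.w j) (rad (ρ u) baseT)
      else S.T j (cl (2 * u - 1)) := by
    refine Continuous.if_le ?_ ?_ continuous_id continuous_const ?_
    · exact (hD.hc _).comp (continuous_rad.comp (hρ.prodMk continuous_const))
    · exact (Slide1_continuous_Tcl S j).comp (by fun_prop)
    · intro u hu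
      have hu : u = 1 / 2 := hu
      subst hu
      have h2 : cl (2 * (1 / 2) - 1) = 0 := by
        rw [show (2 * (1 / 2) - 1 : ℝ) = 0 by norm_num]; exact cl_of_le le_rfl
      rw [h2, hρ1, S.T0]
      rfl
  refine h1.continuousOn.congr fun u hu => ?_
  by_cases hu2 : u ≤ 1 / 2
  · simp only [hu2, if_true]
  · simp only [hu2, if_false]
    rw [cl_of_mem ⟨by linarith [not_le.1 hu2], by linarith [mem_Iic.1 hu]⟩]

theorem continuousOn_that (hD : D.OK) (j : Fin n) : ContinuousOn (S.that j) (Icc 0 1) :=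
  (Slide1_glue S hD j (ρ := fun u => 2 * u) (by fun_prop) (by norm_num)).mono
    fun _ hu => hu.2

theorem continuousOn_arc (hD : D.OK) (j : Fin n) : ContinuousOn (S.arc j) (Icc (-1) 1) :=
  (Slide1_glue S hD j (ρ := SlideData.rr) Slide1_continuous_rr Slide1_rr_half).mono
    fun _ hu => hu.2

lemma Slide1_arc_le (j : Fin n) {u : ℝ} (h : u ≤ 1 / 2) :
    S.arc j u = D.c (S.w j) (rad (SlideData.rr u) baseT) := by
  unfold SlideData.arc; rw [if_pos h]

lemma Slide1_arc_gt (j : Fin n) {u : ℝ} (h : 1 / 2 < u) :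
    S.arc j u = S.T j (2 * u - 1) := by
  unfold SlideData.arc; rw [if_neg (not_le.2 h)]

lemma Slide1_that_le (j : Fin n) {u : ℝ} (h : u ≤ 1 / 2) :
    S.that j u = D.c (S.w j) (rad (2 * u) baseT) := by
  unfold SlideData.that; rw [if_pos h]

lemma Slide1_that_gt (j : Fin n) {u : ℝ} (h : 1 / 2 < u) :
    S.that j u = S.T j (2 * u - 1) := by
  unfold SlideData.that; rw [if_neg (not_le.2 h)]

theorem arc_injective (hD : D.OK) {i j : Fin n} {u u' : ℝ} (hu : u ∈ Icc (-1 : ℝ) 1)
    (hu' : u' ∈ Icc (-1 : ℝ) 1) (h : S.arc i u = S.arc j u') : i = j ∧ u = u' := by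
  rcases le_or_gt u (1 / 2) with h1 | h1 <;> rcases le_or_gt u' (1 / 2) with h2 | h2
  · rw [Slide1_arc_le S i h1, Slide1_arc_le S j h2] at h
    by_cases hij : i = j
    · subst hij
      refine ⟨rfl, ?_⟩
      have h3 : rad (SlideData.rr u) baseT = rad (SlideData.rr u') baseT := by
        rw [← hD.Fc (S.w i) (rad (SlideData.rr u) baseT), h, hD.Fc]
      have h4 := congrArg nm h3
      rw [nm_rad, nm_rad] at h4
      have m1 := Slide1_rr_mem hu.1 h1
      have m2 := Slide1_rr_mem hu'.1 h2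
      rw [cl_of_mem ⟨by linarith [m1.1], m1.2⟩, cl_of_mem ⟨by linarith [m2.1], m2.2⟩] at h4
      exact Slide1_rr_strictMono.injective h4
    · exact absurd h (S.cdisj _ _ (fun e => hij (S.winj e)) _ _)
  · rw [Slide1_arc_le S i h1, Slide1_arc_gt S j h2] at h
    exact absurd h (S.Tcone j _ ⟨by linarith, by linarith [hu'.2]⟩ _ _)
  · rw [Slide1_arc_gt S i h1, Slide1_arc_le S j h2] at h
    exact absurd h.symm (S.Tcone i _ ⟨by linarith, by linarith [hu.2]⟩ _ _)
  · rw [Slide1_arc_gt S i h1, Slide1_arc_gt S j h2] at h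
    have m1 : 2 * u - 1 ∈ Icc (0 : ℝ) 1 := ⟨by linarith, by linarith [hu.2]⟩
    have m2 : 2 * u' - 1 ∈ Icc (0 : ℝ) 1 := ⟨by linarith, by linarith [hu'.2]⟩
    by_cases hij : i = j
    · subst hij
      refine ⟨rfl, ?_⟩
      have := S.Tinj i m1 m2 h
      linarith
    · exact absurd h (S.Tdisj i j hij _ m1 _ m2)

/-- the strip along the `j`-th folding arc -/
def Slide1_strip (j : Fin n) : Set (B × ℝ) :=
  (fun p : ℝ × ℝ => (S.arc j p.1, p.2)) '' (Icc (-1 : ℝ) 1 ×ˢ Icc (0 : ℝ) 1)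

lemma Slide1_continuousOn_sig (hD : D.OK) (j : Fin n) :
    ContinuousOn (fun p : ℝ × ℝ => (S.arc j p.1, p.2)) (Icc (-1 : ℝ) 1 ×ˢ Icc (0 : ℝ) 1) :=
  ((continuousOn_arc S hD j).comp continuousOn_fst fun p hp => hp.1).prodMk continuousOn_snd

lemma Slide1_isClosed_strip (hD : D.OK) (j : Fin n) : IsClosed (Slide1_strip S j) :=
  ((isCompact_Icc.prod isCompact_Icc).image_of_continuousOn
    (Slide1_continuousOn_sig S hD j)).isClosed

lemma Slide1_B4_eq : S.B4 = {x | x.2 = 0} ∪ ⋃ j, Slide1_strip S j := by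
  ext x
  constructor
  · rintro (h | ⟨h0, h1, j, u, hu, hx⟩)
    · exact Or.inl h
    · refine Or.inr (mem_iUnion.2 ⟨j, (u, x.2), ⟨hu, h0, h1⟩, ?_⟩)
      exact Prod.ext hx.symm rfl
  · rintro (h | h)
    · exact Or.inl h
    · obtain ⟨j, ⟨u, s⟩, ⟨hu, hs⟩, rfl⟩ := mem_iUnion.1 h
      exact Or.inr ⟨hs.1, hs.2, j, u, hu, rfl⟩

theorem isClosed_B4 (hD : D.OK) : IsClosed S.B4 := by
  rw [Slide1_B4_eq]
  exact (isClosed_eq continuous_snd continuous_const).union
    (isClosed_iUnion_of_finite fun j => Slide1_isClosed_strip S hD j)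

theorem compactSpace_B4 (hD : D.OK) : CompactSpace ↥S.B4 := by
  refine isCompact_iff_compactSpace.1 ?_
  refine IsCompact.of_isClosed_subset (isCompact_univ.prod (isCompact_Icc (a := (0 : ℝ)) (b := 1)))
    (isClosed_B4 S hD) ?_
  rintro x (h | ⟨h0, h1, -⟩)
  · exact ⟨mem_univ _, by rw [h]; exact ⟨le_rfl, zero_le_one⟩⟩
  · exact ⟨mem_univ _, h0, h1⟩

theorem continuous_bot4 (hD : D.OK) : Continuous S.bot4 :=
  Continuous.subtype_mk (continuous_id.prodMk continuous_const) _

/-! ### the dragging map -/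

/-- the dragging map in the cone of the `j`-th blocker -/
noncomputable def Slide1_g (j : Fin n) (z : CN) : B :=
  if 2 / 3 ≤ nm z then D.c (S.w j) (rad (3 * nm z - 2) (dirT z))
    else S.that j (min 1 (2 - 3 * nm z))

lemma Slide1_continuous_g (hD : D.OK) (j : Fin n) : Continuous (Slide1_g S j) := by
  unfold Slide1_g
  refine Continuous.if_le ?_ ?_ continuous_const continuous_nm ?_
  · refine (hD.hc _).comp (continuous_rad_of (by have := continuous_nm; fun_prop) ?_)
    intro z hz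
    have hz0 : z ≠ apex := by
      rintro rfl
      rw [nm_apex] at hz
      linarith
    refine continuousOn_dirT.continuousAt ?_
    exact IsOpen.mem_nhds (isOpen_ne) hz0
  · have h1 : ContinuousOn (S.that j) (Iic 1) :=
      Slide1_glue S hD j (ρ := fun u => 2 * u) (by fun_prop) (by norm_num)
    refine h1.comp_continuous (by have := continuous_nm; fun_prop) fun z => mem_Iic.2 (min_le_left _ _)
  · intro z hz
    rw [← hz]
    have h1 : (3 * (2 / 3) - 2 : ℝ) = 0 := by norm_num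
    have h2 : (2 - 3 * (2 / 3) : ℝ) = 0 := by norm_num
    rw [h1, h2, rad_zero, min_eq_right zero_le_one, Slide1_that_le S j (by norm_num), mul_zero,
      rad_zero]

lemma Slide1_p0_of_lt (hD : D.OK) {j : Fin n} {b : B} (h : nm (D.F (S.w j) b) < 1) :
    S.p0 b = Slide1_g S j (D.F (S.w j) b) := by
  have hex : ∃ j, nm (D.F (S.w j) b) < 1 := ⟨j, h⟩
  have hj : hex.choose = j := by
    by_contra hne
    have h1 := hex.choose_spec
    rcases hD.disj (S.w hex.choose) (S.w j) (fun e => hne (S.winj e)) b with h2 | h2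
    · linarith
    · linarith
  unfold SlideData.p0
  rw [dif_pos hex, hj]
  rfl

theorem p0_of_nm_one (hD : D.OK) {b : B} (h : ∀ j, nm (D.F (S.w j) b) = 1) : S.p0 b = b := by
  unfold SlideData.p0
  rw [dif_neg]
  rintro ⟨j, hj⟩
  rw [h j] at hj
  exact lt_irrefl _ hj

/-- the formula for `p0` on the closed cone -/
lemma Slide1_p0_c (hD : D.OK) (j : Fin n) (z : CN) :
    S.p0 (D.c (S.w j) z) = Slide1_g S j z := by
  rcases lt_or_eq_of_le (nm_le_one z) with h | h
  · have h1 : nm (D.F (S.w j) (D.c (S.w j) z)) < 1 := by rw [hD.Fc]; exact h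
    rw [Slide1_p0_of_lt S hD h1, hD.Fc]
  · have h1 : ∀ i, nm (D.F (S.w i) (D.c (S.w j) z)) = 1 := by
      intro i
      by_cases hij : i = j
      · subst hij; rw [hD.Fc]; exact h
      · by_contra hne
        have hlt : nm (D.F (S.w i) (D.c (S.w j) z)) < 1 := lt_of_le_of_ne (nm_le_one _) hne
        exact S.cdisj _ _ (fun e => hij (S.winj e)) _ _ (hD.cF _ _ hlt)
    rw [p0_of_nm_one S hD h1]
    unfold Slide1_g
    rw [if_pos (by rw [h]; norm_num), h]
    congr 1
    rw [show (3 * 1 - 2 : ℝ) = 1 by norm_num]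
    exact (inc_dirT h).symm

theorem continuous_p0 (hD : D.OK) : Continuous S.p0 := by
  let f : Option (Fin n) → Set B := fun o => match o with
    | none => {b | ∀ j, nm (D.F (S.w j) b) = 1}
    | some j => range (D.c (S.w j))
  have hcl : ∀ o, IsClosed (f o) := by
    rintro (_ | j)
    · change IsClosed {b | ∀ j, nm (D.F (S.w j) b) = 1}
      simp only [Set.ofPred_forall]
      exact isClosed_iInter fun j => isClosed_eq (continuous_nm.comp (hD.hF _)) continuous_const
    · exact (isCompact_range (hD.hc _)).isClosed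
  have hcov : ⋃ o, f o = univ := by
    refine eq_univ_of_forall fun b => ?_
    by_cases h : ∀ j, nm (D.F (S.w j) b) = 1
    · exact mem_iUnion.2 ⟨none, h⟩
    · push Not at h
      obtain ⟨j, hj⟩ := h
      exact mem_iUnion.2 ⟨some j, _, hD.cF _ _ (lt_of_le_of_ne (nm_le_one _) hj)⟩
  refine (locallyFinite_of_finite f).continuous hcov hcl ?_
  rintro (_ | j)
  · exact continuousOn_id.congr fun b hb => p0_of_nm_one S hD hb
  · have h1 : Continuous fun b => Slide1_g S j (D.F (S.w j) b) :=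
      (Slide1_continuous_g S hD j).comp (hD.hF _)
    refine h1.continuousOn.congr ?_
    rintro _ ⟨z, rfl⟩
    change S.p0 (D.c (S.w j) z) = Slide1_g S j (D.F (S.w j) (D.c (S.w j) z))
    rw [Slide1_p0_c S hD, hD.Fc]

/-- on the arcs, off the cones, `p0` is the identity -/
lemma Slide1_p0_T (hD : D.OK) (j : Fin n) {t : ℝ} (ht : t ∈ Ioc (0 : ℝ) 1) :
    S.p0 (S.T j t) = S.T j t := by
  refine p0_of_nm_one S hD fun i => ?_
  by_contra hne
  have hlt : nm (D.F (S.w i) (S.T j t)) < 1 := lt_of_le_of_ne (nm_le_one _) hne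
  exact S.Tcone j t ht _ _ (hD.cF _ _ hlt)

theorem p0_arc (hD : D.OK) (j : Fin n) {u : ℝ} (hu : u ∈ Icc (-1 : ℝ) 1) :
    S.p0 (S.arc j u) = S.that j |u| := by
  rcases le_or_gt u (1 / 2) with h1 | h1
  · rw [Slide1_arc_le S j h1, Slide1_p0_c S hD]
    have m1 := Slide1_rr_mem hu.1 h1
    have hn : nm (rad (SlideData.rr u) baseT) = SlideData.rr u := by
      rw [nm_rad, cl_of_mem ⟨by linarith [m1.1], m1.2⟩]
    unfold Slide1_g
    rw [hn]
    rcases le_or_gt 0 u with h2 | h2
    · have hr : SlideData.rr u = (2 + 2 * u) / 3 := by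
        rw [Slide1_rr_eq, max_eq_right]; linarith
      rw [if_pos (by rw [hr]; linarith), dirT_rad (by linarith [m1.1]), abs_of_nonneg h2,
        Slide1_that_le S j h1, hr]
      congr 2
      ring
    · have hr : SlideData.rr u = (2 + u) / 3 := by
        rw [Slide1_rr_eq, max_eq_left]; linarith
      rw [if_neg (by rw [hr]; linarith), abs_of_neg h2, hr]
      have : (2 - 3 * ((2 + u) / 3) : ℝ) = -u := by ring
      rw [this, min_eq_right (by linarith [hu.1])]
  · rw [Slide1_arc_gt S j h1, abs_of_nonneg (by linarith), Slide1_that_gt S j h1]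
    exact Slide1_p0_T S hD j ⟨by linarith, by linarith [hu.2]⟩

/-! ### the projection -/

open Classical in
/-- the projection as a function on `B × ℝ` -/
noncomputable def Slide1_p4 (x : B × ℝ) : B :=
  if h : ∃ j, ∃ u ∈ Icc (-1 : ℝ) 1, x.1 = S.arc j u then
    S.that h.choose (max |h.choose_spec.choose| x.2)
  else S.p0 x.1

lemma Slide1_p4_bot (hD : D.OK) (b : B) : Slide1_p4 S (b, 0) = S.p0 b := by
  unfold Slide1_p4
  split_ifs with h
  · have h1 := h.choose_spec.choose_spec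
    change S.that h.choose (max |h.choose_spec.choose| 0) = S.p0 b
    rw [max_eq_left (abs_nonneg _), ← p0_arc S hD _ h1.1]
    congr 1
    exact h1.2.symm
  · rfl

lemma Slide1_p4_strip (hD : D.OK) (j : Fin n) {u s : ℝ} (hu : u ∈ Icc (-1 : ℝ) 1) :
    Slide1_p4 S (S.arc j u, s) = S.that j (max |u| s) := by
  have h : ∃ i, ∃ v ∈ Icc (-1 : ℝ) 1, S.arc j u = S.arc i v := ⟨j, u, hu, rfl⟩
  have h1 := h.choose_spec.choose_spec
  obtain ⟨e1, e2⟩ := arc_injective S hD hu h1.1 h1.2
  unfold Slide1_p4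
  rw [dif_pos h]
  change S.that h.choose (max |h.choose_spec.choose| s) = _
  rw [← e2, ← e1]

theorem p4_bot4 (hD : D.OK) (b : B) : S.p4 (S.bot4 b) = S.p0 b := Slide1_p4_bot S hD b

theorem p4_strip (hD : D.OK) (j : Fin n) {u s : ℝ} (hu : u ∈ Icc (-1 : ℝ) 1)
    (hs : s ∈ Icc (0 : ℝ) 1) (x : ↥S.B4) (hx : x.1 = (S.arc j u, s)) :
    S.p4 x = S.that j (max |u| s) := by
  have h1 : S.p4 x = Slide1_p4 S x.1 := rfl
  rw [h1, hx, Slide1_p4_strip S hD j hu]

lemma Slide1_continuousOn_p4_strip (hD : D.OK) (j : Fin n) :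
    ContinuousOn (Slide1_p4 S) (Slide1_strip S j) := by
  refine Slide1_continuousOn_image (isCompact_Icc.prod isCompact_Icc)
    (Slide1_continuousOn_sig S hD j) ?_
  have h1 : ContinuousOn (fun p : ℝ × ℝ => S.that j (max |p.1| p.2))
      (Icc (-1 : ℝ) 1 ×ˢ Icc (0 : ℝ) 1) := by
    refine (continuousOn_that S hD j).comp (by fun_prop) ?_
    rintro ⟨u, s⟩ ⟨hu, hs⟩
    exact ⟨le_max_of_le_left (abs_nonneg _), max_le (abs_le.2 hu) hs.2⟩
  exact h1.congr fun p hp => Slide1_p4_strip S hD j hp.1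

theorem continuous_p4 (hD : D.OK) : Continuous S.p4 := by
  let f : Option (Fin n) → Set ↥S.B4 := fun o => match o with
    | none => {x | x.1.2 = 0}
    | some j => {x | x.1 ∈ Slide1_strip S j}
  have hcl : ∀ o, IsClosed (f o) := by
    rintro (_ | j)
    · exact isClosed_eq (continuous_snd.comp continuous_subtype_val) continuous_const
    · exact (Slide1_isClosed_strip S hD j).preimage continuous_subtype_val
  have hcov : ⋃ o, f o = univ := by
    refine eq_univ_of_forall fun x => ?_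
    have hx := (Set.ext_iff.1 (Slide1_B4_eq S) x.1).1 x.2
    rcases hx with h | h
    · exact mem_iUnion.2 ⟨none, h⟩
    · obtain ⟨j, hj⟩ := mem_iUnion.1 h
      exact mem_iUnion.2 ⟨some j, hj⟩
  refine (locallyFinite_of_finite f).continuous hcov hcl ?_
  rintro (_ | j)
  · have h1 : Continuous fun x : ↥S.B4 => S.p0 x.1.1 :=
      (continuous_p0 S hD).comp (continuous_fst.comp continuous_subtype_val)
    refine h1.continuousOn.congr fun x hx => ?_
    have h2 : S.p4 x = Slide1_p4 S x.1 := rfl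
    have h3 : x.1 = (x.1.1, 0) := Prod.ext rfl hx
    rw [h2, h3, Slide1_p4_bot S hD]
  · exact (Slide1_continuousOn_p4_strip S hD j).comp continuous_subtype_val.continuousOn
      fun x hx => hx

/-! ### the supports -/

lemma Slide1_that_mem_Lam (j : Fin n) {u : ℝ} (h : u ≤ 1) : S.that j u ∈ S.Lam j := by
  rcases le_or_gt u (1 / 2) with h1 | h1
  · rw [Slide1_that_le S j h1]
    exact Or.inl ⟨_, rfl⟩
  · rw [Slide1_that_gt S j h1]
    exact Or.inr ⟨_, ⟨by linarith, by linarith⟩, rfl⟩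

lemma Slide1_arc_mem_Lam (j : Fin n) {u : ℝ} (h : u ≤ 1) : S.arc j u ∈ S.Lam j := by
  rcases le_or_gt u (1 / 2) with h1 | h1
  · rw [Slide1_arc_le S j h1]
    exact Or.inl ⟨_, rfl⟩
  · rw [Slide1_arc_gt S j h1]
    exact Or.inr ⟨_, ⟨by linarith, by linarith⟩, rfl⟩

theorem p0_mem_Lam (hD : D.OK) {j : Fin n} {b : B} (h : nm (D.F (S.w j) b) < 1) :
    S.p0 b ∈ S.Lam j := by
  rw [Slide1_p0_of_lt S hD h]
  unfold Slide1_g
  split_ifs with h1
  · exact Or.inl ⟨_, rfl⟩
  · exact Slide1_that_mem_Lam S j (min_le_left _ _)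

theorem isClosed_Lam (hD : D.OK) (j : Fin n) : IsClosed (S.Lam j) :=
  (isCompact_range (hD.hc _)).isClosed.union
    (isCompact_Icc.image_of_continuousOn (S.hT j)).isClosed

theorem disjoint_Lam (hD : D.OK) {i j : Fin n} (h : i ≠ j) : Disjoint (S.Lam i) (S.Lam j) := by
  have hw : S.w i ≠ S.w j := fun e => h (S.winj e)
  have key : ∀ k l : Fin n, S.w k ≠ S.w l → ∀ z, ∀ t ∈ Icc (0 : ℝ) 1,
      D.c (S.w k) z ≠ S.T l t := by
    intro k l hkl z t ht he
    rcases eq_or_lt_of_le ht.1 with h0 | h0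
    · rw [← h0, S.T0] at he
      exact S.cdisj _ _ hkl _ _ he
    · exact S.Tcone l t ⟨h0, ht.2⟩ _ _ he
  rw [Set.disjoint_left]
  rintro x (⟨z, rfl⟩ | ⟨s, hs, rfl⟩) (⟨z', hz'⟩ | ⟨t, ht, ht'⟩)
  · exact S.cdisj _ _ hw _ _ hz'.symm
  · exact key i j hw z t ht ht'.symm
  · exact key j i (Ne.symm hw) z' s hs hz'
  · exact S.Tdisj i j h _ hs _ ht ht'.symm

end SlideData

end Pool.MP55
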