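import Pool.Agent.Lib.MP_55dccf_gt.Defs2
import Pool.Agent.Lib.MP_55dccf_gt.Cone
import Pool.Agent.Lib.MP_55dccf_gt.Desc
import Pool.Agent.Lib.MP_55dccf_gt.Slide1

/-!
# MP_55dccf_gt : T14, paths in `B4`
-/

set_option autoImplicit false

open Set Topology TopologicalSpace unitInterval

namespace Pool.MP55

section F4

variable {B : Type} [TopologicalSpace B] [CompactSpace B] [MetrizableSpace B]
  {D : BD B} {n : ℕ} (S : SlideData D n)

namespace SlideData

/-! ### auxiliary facts -/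

include S in
omit [CompactSpace B] [MetrizableSpace B] in
theorem f4_nmF_other (hD : D.OK) {u v : D.V} (h : u ≠ v) (z : CN) :
    nm (D.F u (D.c v z)) = 1 := by
  by_contra hne
  have hlt : nm (D.F u (D.c v z)) < 1 := lt_of_le_of_ne (nm_le_one _) hne
  exact S.cdisj u v h _ _ (hD.cF u _ hlt)

omit [CompactSpace B] [MetrizableSpace B] in
theorem f4_T_good (hD : D.OK) (j : Fin n) {t : ℝ} (ht : t ∈ Ioc (0 : ℝ) 1) (v : D.V) :
    nm (D.F v (S.T j t)) = 1 := by
  by_contra hne
  have hlt : nm (D.F v (S.T j t)) < 1 := lt_of_le_of_ne (nm_le_one _) hne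
  exact S.Tcone j t ht v _ (hD.cF v _ hlt)

omit [CompactSpace B] [MetrizableSpace B] in
theorem f4_nm_that (hD : D.OK) (j : Fin n) {u : ℝ} (hu : u ∈ Icc (0 : ℝ) 1) :
    nm (D.F (S.w j) (S.that j u)) = min 1 (2 * u) := by
  unfold SlideData.that
  split_ifs with h
  · rw [hD.Fc, nm_rad, cl_of_mem ⟨by linarith [hu.1], by linarith⟩, min_eq_right (by linarith)]
  · rw [f4_T_good S hD j ⟨by linarith, by linarith [hu.2]⟩, min_eq_left (by linarith)]

omit [CompactSpace B] [MetrizableSpace B] in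
theorem f4_nm_that_other (hD : D.OK) (j : Fin n) {u : ℝ} (hu : u ∈ Icc (0 : ℝ) 1)
    {v : D.V} (hv : v ≠ S.w j) : nm (D.F v (S.that j u)) = 1 := by
  unfold SlideData.that
  split_ifs with h
  · exact f4_nmF_other S hD hv _
  · exact f4_T_good S hD j ⟨by linarith, by linarith [hu.2]⟩ v

omit [CompactSpace B] [MetrizableSpace B] in
theorem f4_p0_cone (hD : D.OK) (j : Fin n) {z : CN} (hz : nm z < 1) :
    S.p0 (D.c (S.w j) z) = if 2 / 3 ≤ nm z then D.c (S.w j) (rad (3 * nm z - 2) (dirT z))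
      else S.that j (min 1 (2 - 3 * nm z)) := by
  classical
  have h : ∃ i, nm (D.F (S.w i) (D.c (S.w j) z)) < 1 := ⟨j, by rwa [hD.Fc]⟩
  have hch : h.choose = j := by
    by_contra hne
    have h1 := h.choose_spec
    rw [f4_nmF_other S hD (fun e => hne (S.winj e))] at h1
    exact lt_irrefl _ h1
  unfold SlideData.p0
  rw [dif_pos h]
  simp only [hch, hD.Fc]

omit [CompactSpace B] [MetrizableSpace B] in
theorem f4_that_eq_arc (j : Fin n) {m : ℝ} (hm : 1 / 2 ≤ m) : S.arc j m = S.that j m := by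
  unfold SlideData.arc SlideData.that
  split_ifs with h
  · have h1 : m = 1 / 2 := le_antisymm h hm
    subst h1
    unfold SlideData.rr
    norm_num
  · rfl

omit [CompactSpace B] [MetrizableSpace B] in
theorem f4_arc_neg (j : Fin n) {m : ℝ} (hm : 0 ≤ m) :
    S.arc j (-m) = D.c (S.w j) (rad ((2 - m) / 3) baseT) := by
  unfold SlideData.arc SlideData.rr
  rw [if_pos (by linarith), if_pos (by linarith)]
  congr 2

/-- the point of the `j`-th strip with parameters `p` (clamped) -/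
noncomputable def f4_sp (j : Fin n) (p : ℝ × ℝ) : ↥S.B4 :=
  ⟨(S.arc j (max (-1) (min 1 p.1)), cl p.2), Or.inr ⟨(cl_mem _).1, (cl_mem _).2, j,
    max (-1) (min 1 p.1), ⟨le_max_left _ _, max_le (by norm_num) (min_le_left _ _)⟩, rfl⟩⟩

theorem f4_continuous_sp (hD : D.OK) (j : Fin n) : Continuous (f4_sp S j) := by
  refine Continuous.subtype_mk ?_ _
  refine Continuous.prodMk ?_ (continuous_cl.comp continuous_snd)
  have h1 : Continuous fun p : ℝ × ℝ => max (-1) (min 1 p.1) := by fun_prop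
  exact (S.continuousOn_arc hD j).comp_continuous h1 fun p =>
    ⟨le_max_left _ _, max_le (by norm_num) (min_le_left _ _)⟩

omit [CompactSpace B] [MetrizableSpace B] in
theorem f4_sp_val (j : Fin n) {u s : ℝ} (hu : u ∈ Icc (-1 : ℝ) 1) (hs : s ∈ Icc (0 : ℝ) 1) :
    (f4_sp S j (u, s)).1 = (S.arc j u, s) := by
  unfold f4_sp
  simp only [min_eq_right hu.2, max_eq_right hu.1, cl_of_mem hs]

theorem f4_p4_sp (hD : D.OK) (j : Fin n) {u s : ℝ} (hu : u ∈ Icc (-1 : ℝ) 1)
    (hs : s ∈ Icc (0 : ℝ) 1) : S.p4 (f4_sp S j (u, s)) = S.that j (max |u| s) :=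
  S.p4_strip hD j hu hs _ (f4_sp_val S j hu hs)

omit [CompactSpace B] [MetrizableSpace B] in
theorem f4_sp_zero (j : Fin n) {u : ℝ} (hu : u ∈ Icc (-1 : ℝ) 1) :
    f4_sp S j (u, 0) = S.bot4 (S.arc j u) :=
  Subtype.ext (f4_sp_val S j hu ⟨le_rfl, zero_le_one⟩)

/-- affine paths in the strip -/
theorem f4_line (hD : D.OK) (j : Fin n) {u u' s s' : ℝ} (hu : u ∈ Icc (-1 : ℝ) 1)
    (hs : s ∈ Icc (0 : ℝ) 1) (hu' : u' ∈ Icc (-1 : ℝ) 1)
    (hs' : s' ∈ Icc (0 : ℝ) 1) {F : Set B}
    (hF : ∀ t ∈ Icc (0 : ℝ) 1, S.that j (max |u + t * (u' - u)| (s + t * (s' - s))) ∈ F) :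
    JoinedIn (S.p4 ⁻¹' F) (f4_sp S j (u, s)) (f4_sp S j (u', s')) := by
  refine JoinedIn.ofLine (f := fun t : ℝ => f4_sp S j (u + t * (u' - u), s + t * (s' - s)))
    ?_ ?_ ?_ ?_
  · refine Continuous.continuousOn ?_
    exact (f4_continuous_sp S hD j).comp (by fun_prop)
  · simp
  · simp
  · rintro _ ⟨t, ht, rfl⟩
    have ht' : t ∈ Icc (0 : ℝ) 1 := ht
    show S.p4 (f4_sp S j (u + t * (u' - u), s + t * (s' - s))) ∈ F
    rw [f4_p4_sp S hD j]
    · exact hF t ht'
    · constructor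
      · nlinarith [ht'.1, ht'.2, hu.1, hu'.1]
      · nlinarith [ht'.1, ht'.2, hu.2, hu'.2]
    · constructor
      · nlinarith [ht'.1, ht'.2, hs.1, hs'.1]
      · nlinarith [ht'.1, ht'.2, hs.2, hs'.2]

/-- level sets of the strip are path connected -/
theorem f4_level (hD : D.OK) (j : Fin n) {m u s : ℝ} (hu : u ∈ Icc (-1 : ℝ) 1)
    (hs : s ∈ Icc (0 : ℝ) 1) (h : max |u| s = m) :
    JoinedIn (S.p4 ⁻¹' {S.that j m}) (f4_sp S j (u, s)) (f4_sp S j (m, 0)) := by
  have hum : |u| ≤ m := h ▸ le_max_left _ _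
  have hsm : s ≤ m := h ▸ le_max_right _ _
  have hm0 : 0 ≤ m := (abs_nonneg u).trans hum
  have hm1 : m ≤ 1 := h ▸ max_le (abs_le.2 hu) hs.2
  obtain ⟨hu1, hu2⟩ := abs_le.1 hum
  have hmI : m ∈ Icc (0 : ℝ) 1 := ⟨hm0, hm1⟩
  have hmI' : m ∈ Icc (-1 : ℝ) 1 := ⟨by linarith, hm1⟩
  have h1 : JoinedIn (S.p4 ⁻¹' {S.that j m}) (f4_sp S j (u, s)) (f4_sp S j (u, m)) := by
    refine f4_line S hD j hu hs hu hmI fun t ht => ?_
    have e : max |u + t * (u - u)| (s + t * (m - s)) = m := by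
      rw [sub_self, mul_zero, add_zero]
      apply le_antisymm
      · refine max_le hum ?_
        nlinarith [ht.1, ht.2]
      · rcases max_choice |u| s with h2 | h2
        · rw [h2] at h
          exact h ▸ le_max_left _ _
        · rw [h2] at h
          refine le_trans ?_ (le_max_right _ _)
          rw [h]; simp
    rw [e]; rfl
  have h2 : JoinedIn (S.p4 ⁻¹' {S.that j m}) (f4_sp S j (u, m)) (f4_sp S j (m, m)) := by
    refine f4_line S hD j hu hmI hmI' hmI fun t ht => ?_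
    have e : max |u + t * (m - u)| (m + t * (m - m)) = m := by
      rw [sub_self, mul_zero, add_zero]
      refine max_eq_right (abs_le.2 ⟨?_, ?_⟩)
      · nlinarith [ht.1, ht.2]
      · nlinarith [ht.1, ht.2]
    rw [e]; rfl
  have h3 : JoinedIn (S.p4 ⁻¹' {S.that j m}) (f4_sp S j (m, m)) (f4_sp S j (m, 0)) := by
    refine f4_line S hD j hmI' hmI hmI' ⟨le_rfl, zero_le_one⟩ fun t ht => ?_
    have e : max |m + t * (m - m)| (m + t * (0 - m)) = m := by
      rw [sub_self, mul_zero, add_zero, abs_of_nonneg hm0]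
      refine max_eq_left ?_
      nlinarith [ht.1, ht.2]
    rw [e]; rfl
  exact (h1.trans h2).trans h3

/-- level path ending at `bot4 (that j m)` -/
theorem f4_level_end (hD : D.OK) (j : Fin n) {m u s : ℝ} (hu : u ∈ Icc (-1 : ℝ) 1)
    (hs : s ∈ Icc (0 : ℝ) 1) (h : max |u| s = m) (hm : 1 / 2 ≤ m) :
    JoinedIn (S.p4 ⁻¹' {S.that j m}) (f4_sp S j (u, s)) (S.bot4 (S.that j m)) := by
  have h1 := f4_level S hD j hu hs h
  have hm1 : m ≤ 1 := h ▸ max_le (abs_le.2 hu) hs.2
  rwa [f4_sp_zero S j ⟨by linarith, hm1⟩, f4_that_eq_arc S j hm] at h1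

/-- radial paths in a cone -/
theorem f4_radial (hD : D.OK) (v : D.V) (θ : TH) {a b : ℝ} {F : Set ↥S.B4}
    (hF : ∀ r ∈ uIcc a b, S.bot4 (D.c v (rad r θ)) ∈ F) :
    JoinedIn F (S.bot4 (D.c v (rad a θ))) (S.bot4 (D.c v (rad b θ))) := by
  refine JoinedIn.ofLine (f := fun t : ℝ => S.bot4 (D.c v (rad (a + t * (b - a)) θ)))
    ?_ ?_ ?_ ?_
  · refine Continuous.continuousOn ?_
    refine (S.continuous_bot4 hD).comp ((hD.hc v).comp ?_)
    exact continuous_rad.comp (by fun_prop : Continuous fun t : ℝ => (a + t * (b - a), θ))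
  · simp
  · simp
  · rintro _ ⟨t, ht, rfl⟩
    refine hF _ ?_
    have ht' : t ∈ Icc (0 : ℝ) 1 := ht
    rcases le_total a b with hab | hab
    · rw [uIcc_of_le hab]
      constructor <;> nlinarith [ht'.1, ht'.2]
    · rw [uIcc_of_ge hab]
      constructor <;> nlinarith [ht'.1, ht'.2]

/-- rotation in a cone -/
theorem f4_rot (hD : D.OK) (v : D.V) (r : ℝ) (θ θ' : TH) {F : Set ↥S.B4}
    (hF : ∀ η, S.bot4 (D.c v (rad r η)) ∈ F) :
    JoinedIn F (S.bot4 (D.c v (rad r θ))) (S.bot4 (D.c v (rad r θ'))) := by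
  have h1 : JoinedIn (univ : Set TH) θ θ' := joinedIn_univ.2 (PathConnectedSpace.joined θ θ')
  have hc : Continuous fun η : TH => S.bot4 (D.c v (rad r η)) :=
    (S.continuous_bot4 hD).comp ((hD.hc v).comp (continuous_rad.comp
      (Continuous.prodMk continuous_const continuous_id)))
  refine (h1.map hc).mono ?_
  rintro _ ⟨η, -, rfl⟩
  exact hF η

omit [CompactSpace B] [MetrizableSpace B] in
theorem f4_cases (x : ↥S.B4) : (x = S.bot4 x.1.1) ∨
    ∃ j, ∃ u ∈ Icc (-1 : ℝ) 1, ∃ s ∈ Icc (0 : ℝ) 1, x = f4_sp S j (u, s) := by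
  rcases x.2 with h | ⟨h0, h1, j, u, hu, h⟩
  · left
    exact Subtype.ext (Prod.ext rfl h)
  · right
    refine ⟨j, u, hu, x.1.2, ⟨h0, h1⟩, ?_⟩
    apply Subtype.ext
    rw [f4_sp_val S j hu ⟨h0, h1⟩]
    exact Prod.ext h rfl

theorem f4_fiber_bot (hD : D.OK) (b : B) (hx : S.p0 b ∈ D.good) :
    JoinedIn (S.p4 ⁻¹' {S.p0 b}) (S.bot4 b) (S.bot4 (S.p0 b)) := by
  by_cases h : ∃ j, nm (D.F (S.w j) b) < 1
  · obtain ⟨j, hj⟩ := h
    obtain ⟨z, hz, rfl⟩ : ∃ z, nm z < 1 ∧ D.c (S.w j) z = b := ⟨_, hj, hD.cF _ _ hj⟩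
    have e := f4_p0_cone S hD j hz
    by_cases h23 : 2 / 3 ≤ nm z
    · exfalso
      rw [if_pos h23] at e
      have h1 := hx (S.w j)
      rw [e, hD.Fc, nm_rad, cl_of_mem ⟨by linarith, by linarith⟩] at h1
      linarith
    · rw [if_neg h23] at e
      have h23' := not_le.1 h23
      set m := min 1 (2 - 3 * nm z) with hm
      have hnz := nm_nonneg z
      have hmI : m ∈ Icc (0 : ℝ) 1 := ⟨le_min zero_le_one (by linarith), min_le_left _ _⟩
      have hm2 : 1 / 2 ≤ m := by
        have h1 := hx (S.w j)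
        rw [e, f4_nm_that S hD j hmI] at h1
        have := min_le_right (1 : ℝ) (2 * m)
        linarith
      rw [e]
      -- all points with radius `r ≤ 2/3` and the same level
      have key : ∀ r : ℝ, 0 ≤ r → r < 2 / 3 → min 1 (2 - 3 * r) = m → ∀ η : TH,
          S.bot4 (D.c (S.w j) (rad r η)) ∈ S.p4 ⁻¹' {S.that j m} := by
        intro r hr0 hr1 hr η
        have hn : nm (rad r η) = r := by rw [nm_rad, cl_of_mem ⟨hr0, by linarith⟩]
        show S.p4 _ = S.that j m
        rw [S.p4_bot4 hD, f4_p0_cone S hD j (by rw [hn]; linarith), hn, if_neg (by linarith), hr]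
      have p1 : JoinedIn (S.p4 ⁻¹' {S.that j m}) (S.bot4 (D.c (S.w j) z))
          (S.bot4 (D.c (S.w j) (rad (nm z) baseT))) := by
        have := f4_rot S hD (S.w j) (nm z) (dirT z) baseT
          (F := S.p4 ⁻¹' {S.that j m}) (key _ hnz h23' hm.symm)
        rwa [rad_nm_dirT] at this
      have hmax : (2 - m) / 3 = max (1 / 3) (nm z) := by
        rw [hm]
        rcases le_total 1 (2 - 3 * nm z) with h1 | h1
        · rw [min_eq_left h1, max_eq_left (by linarith)]; norm_num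
        · rw [min_eq_right h1, max_eq_right (by linarith)]; ring
      have p2 : JoinedIn (S.p4 ⁻¹' {S.that j m}) (S.bot4 (D.c (S.w j) (rad (nm z) baseT)))
          (S.bot4 (D.c (S.w j) (rad ((2 - m) / 3) baseT))) := by
        refine f4_radial S hD (S.w j) baseT fun r hr => ?_
        have hle : nm z ≤ (2 - m) / 3 := hmax ▸ le_max_right _ _
        rw [uIcc_of_le hle] at hr
        refine key r (hnz.trans hr.1) (lt_of_le_of_lt hr.2 (by linarith)) ?_ baseT
        rcases le_total (1 / 3) (nm z) with h1 | h1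
        · have : r = nm z := le_antisymm (by
            have := hr.2; rw [hmax, max_eq_right h1] at this; exact this) hr.1
          rw [this]
        · have hr3 : r ≤ 1 / 3 := by have := hr.2; rwa [hmax, max_eq_left h1] at this
          rw [hm, min_eq_left (by linarith), min_eq_left (by linarith)]
      have p3 := f4_level_end S hD j (m := m) (u := -m) (s := 0) ⟨by linarith [hmI.2], by
        linarith⟩ ⟨le_rfl, zero_le_one⟩ (by
          rw [abs_neg, abs_of_nonneg hmI.1, max_eq_left hmI.1]) hm2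
      rw [f4_sp_zero S j ⟨by linarith [hmI.2], by linarith⟩, f4_arc_neg S j hmI.1] at p3
      exact (p1.trans p2).trans p3
  · have h1 : ∀ j, nm (D.F (S.w j) b) = 1 := fun j =>
      le_antisymm (nm_le_one _) (not_lt.1 fun h2 => h ⟨j, h2⟩)
    rw [S.p0_of_nm_one hD h1]
    refine JoinedIn.refl ?_
    show S.p4 _ = b
    rw [S.p4_bot4 hD, S.p0_of_nm_one hD h1]

/-- fibres of `p4` over good points are path connected -/
theorem joinedIn_fiber (hD : D.OK) (x : ↥S.B4) (hx : S.p4 x ∈ D.good) :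
    JoinedIn (S.p4 ⁻¹' {S.p4 x}) x (S.bot4 (S.p4 x)) := by
  rcases f4_cases S x with h | ⟨j, u, hu, s, hs, rfl⟩
  · rw [h] at hx ⊢
    rw [S.p4_bot4 hD] at hx ⊢
    exact f4_fiber_bot S hD _ hx
  · rw [f4_p4_sp S hD j hu hs] at hx ⊢
    have hmI : max |u| s ∈ Icc (0 : ℝ) 1 :=
      ⟨(abs_nonneg u).trans (le_max_left _ _), max_le (abs_le.2 hu) hs.2⟩
    have hm2 : 1 / 2 ≤ max |u| s := by
      have h1 := hx (S.w j)
      rw [f4_nm_that S hD j hmI] at h1
      have := min_le_right (1 : ℝ) (2 * max |u| s)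
      linarith
    exact f4_level_end S hD j hu hs rfl hm2

/-- points over an open cone can be joined to the boundary of the cone: bottom points -/
theorem f4_cone_bot (hD : D.OK) (v : D.V) (b : B) (hx : nm (D.F v (S.p0 b)) < 1) :
    ∃ θ : TH, JoinedIn (S.p4 ⁻¹' (range (D.c v))) (S.bot4 b) (S.bot4 (D.c v (inc θ))) := by
  by_cases h : ∃ j, nm (D.F (S.w j) b) < 1
  · obtain ⟨j, hj⟩ := h
    obtain ⟨z, hz, rfl⟩ : ∃ z, nm z < 1 ∧ D.c (S.w j) z = b := ⟨_, hj, hD.cF _ _ hj⟩
    have hnz := nm_nonneg z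
    -- `v = w j` and `1/2 < nm z`
    have hv : v = S.w j ∧ 1 / 2 < nm z := by
      rw [f4_p0_cone S hD j hz] at hx
      by_cases h23 : 2 / 3 ≤ nm z
      · rw [if_pos h23] at hx
        refine ⟨?_, by linarith⟩
        by_contra hne
        rw [f4_nmF_other S hD hne] at hx
        exact lt_irrefl _ hx
      · rw [if_neg h23] at hx
        have h23' := not_le.1 h23
        have hmI : min 1 (2 - 3 * nm z) ∈ Icc (0 : ℝ) 1 :=
          ⟨le_min zero_le_one (by linarith), min_le_left _ _⟩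
        have hv : v = S.w j := by
          by_contra hne
          rw [f4_nm_that_other S hD j hmI hne] at hx
          exact lt_irrefl _ hx
        refine ⟨hv, ?_⟩
        rw [hv, f4_nm_that S hD j hmI] at hx
        by_contra h12
        have h12' := not_lt.1 h12
        have h1 : 1 / 2 ≤ min 1 (2 - 3 * nm z) := le_min (by norm_num) (by linarith)
        rw [min_eq_left (by linarith)] at hx
        exact lt_irrefl _ hx
    obtain ⟨rfl, hz2⟩ := hv
    refine ⟨dirT z, ?_⟩
    have := f4_radial S hD (S.w j) (dirT z) (a := nm z) (b := 1)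
      (F := S.p4 ⁻¹' (range (D.c (S.w j)))) ?_
    · rwa [rad_nm_dirT] at this
    · intro r hr
      rw [uIcc_of_le hz.le] at hr
      show S.p4 (S.bot4 _) ∈ range _
      rw [S.p4_bot4 hD]
      rcases lt_or_eq_of_le hr.2 with h1 | h1
      · have hn : nm (rad r (dirT z)) = r := by
          rw [nm_rad, cl_of_mem ⟨by linarith [hr.1], hr.2⟩]
        rw [f4_p0_cone S hD j (by rwa [hn]), hn]
        split_ifs with h23
        · exact ⟨_, rfl⟩
        · have h23' := not_le.1 h23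
          have h3 : min 1 (2 - 3 * r) ≤ 1 / 2 := (min_le_right _ _).trans (by linarith [hr.1])
          unfold SlideData.that
          rw [if_pos h3]
          exact ⟨_, rfl⟩
      · rw [S.p0_of_nm_one hD]
        · exact ⟨_, rfl⟩
        · intro i
          by_cases hi : i = j
          · subst hi; rw [hD.Fc, h1, nm_rad, cl_of_ge le_rfl]
          · exact f4_nmF_other S hD (fun e => hi (S.winj e)) _
  · have h1 : ∀ j, nm (D.F (S.w j) b) = 1 := fun j =>
      le_antisymm (nm_le_one _) (not_lt.1 fun h2 => h ⟨j, h2⟩)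
    rw [S.p0_of_nm_one hD h1] at hx
    obtain ⟨z, hz, rfl⟩ : ∃ z, nm z < 1 ∧ D.c v z = b := ⟨_, hx, hD.cF _ _ hx⟩
    have hvw : ∀ j, S.w j ≠ v := by
      intro j hj
      have := h1 j
      rw [hj, hD.Fc] at this
      linarith
    refine ⟨dirT z, ?_⟩
    have := f4_radial S hD v (dirT z) (a := nm z) (b := 1)
      (F := S.p4 ⁻¹' (range (D.c v))) ?_
    · rwa [rad_nm_dirT] at this
    · intro r hr
      show S.p4 (S.bot4 _) ∈ range _
      rw [S.p4_bot4 hD, S.p0_of_nm_one hD fun i => f4_nmF_other S hD (hvw i) _]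
      exact ⟨_, rfl⟩

/-- points over an open cone can be joined to the boundary of the cone -/
theorem joinedIn_cone (hD : D.OK) (v : D.V) (x : ↥S.B4) (hx : nm (D.F v (S.p4 x)) < 1) :
    ∃ θ : TH, JoinedIn (S.p4 ⁻¹' (range (D.c v))) x (S.bot4 (D.c v (inc θ))) := by
  rcases f4_cases S x with h | ⟨j, u, hu, s, hs, rfl⟩
  · rw [h] at hx ⊢
    rw [S.p4_bot4 hD] at hx
    exact f4_cone_bot S hD v _ hx
  · rw [f4_p4_sp S hD j hu hs] at hx
    have hmI : max |u| s ∈ Icc (0 : ℝ) 1 :=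
      ⟨(abs_nonneg u).trans (le_max_left _ _), max_le (abs_le.2 hu) hs.2⟩
    have hv : v = S.w j := by
      by_contra hne
      rw [f4_nm_that_other S hD j hmI hne] at hx
      exact lt_irrefl _ hx
    subst hv
    have hm2 : max |u| s < 1 / 2 := by
      rw [f4_nm_that S hD j hmI] at hx
      by_contra h12
      rw [min_eq_left (by linarith [not_lt.1 h12])] at hx
      exact lt_irrefl _ hx
    have hum : |u| < 1 / 2 := lt_of_le_of_lt (le_max_left _ _) hm2
    -- vertical path down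
    have p1 : JoinedIn (S.p4 ⁻¹' (range (D.c (S.w j)))) (f4_sp S j (u, s))
        (f4_sp S j (u, 0)) := by
      refine f4_line S hD j hu hs hu ⟨le_rfl, zero_le_one⟩ fun t ht => ?_
      have h1 : max |u + t * (u - u)| (s + t * (0 - s)) ≤ 1 / 2 := by
        rw [sub_self, mul_zero, add_zero]
        refine max_le hum.le ?_
        have : s ≤ max |u| s := le_max_right _ _
        nlinarith [ht.1, ht.2, hs.1]
      unfold SlideData.that
      rw [if_pos h1]
      exact ⟨_, rfl⟩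
    rw [f4_sp_zero S j hu] at p1
    have h2 : nm (D.F (S.w j) (S.p0 (S.arc j u))) < 1 := by
      rw [S.p0_arc hD j hu, f4_nm_that S hD j ⟨abs_nonneg _, by linarith⟩]
      exact lt_of_le_of_lt (min_le_right _ _) (by linarith)
    obtain ⟨θ, p2⟩ := f4_cone_bot S hD (S.w j) (S.arc j u) h2
    exact ⟨θ, p1.trans p2⟩

/-- the slid blocker lies over the end of the arc -/
theorem joinedIn_end (hD : D.OK) (j : Fin n) :
    JoinedIn (S.p4 ⁻¹' {S.T j 1}) (S.bot4 (S.T j 1)) (S.bd4.c (S.w j) apex) := by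
  classical
  have e1 : S.bd4.c (S.w j) apex = S.bot4 (D.c (S.w j) apex) := by
    show S.bot4 (if S.w j ∈ range S.w then D.c (S.w j) (sh (1 / 3) apex)
      else D.c (S.w j) apex) = _
    rw [sh_apex, ite_self]
  have e2 : S.p0 (D.c (S.w j) apex) = S.T j 1 := by
    rw [f4_p0_cone S hD j (by rw [nm_apex]; exact zero_lt_one), nm_apex, if_neg (by norm_num)]
    unfold SlideData.that
    norm_num
  have h1 : S.T j 1 ∈ D.good := fun v => f4_T_good S hD j ⟨zero_lt_one, le_rfl⟩ v
  have h2 := f4_fiber_bot S hD (D.c (S.w j) apex) (by rw [e2]; exact h1)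
  rw [e2] at h2
  rw [e1]
  exact h2.symm

end SlideData

end F4

end Pool.MP55
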