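import Pool.Agent.Lib.MP_55dccf_gt.Defs2

set_option autoImplicit false

open Set Topology TopologicalSpace unitInterval

namespace Pool.MP55

/-- the total projection of a macro step -/
noncomputable def Pf {B : Type} [TopologicalSpace B] {D : BD B} {n k : ℕ} [NeZero k]
    (S : SlideData (bd1 (bd3 D k) (1 / 2)) n) (x : ↥S.B4) : B :=
  (S.p4 x).1.1.1.1

end Pool.MP55
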