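import Pool.Agent.Lib.MP_55dccf_gt.Defs2
import Pool.Agent.Lib.MP_55dccf_gt.AE1
import Pool.Agent.Lib.MP_55dccf_gt.AE2
import Pool.Agent.Lib.MP_55dccf_gt.Cone
import Pool.Agent.Lib.MP_55dccf_gt.AEcone
import Pool.Agent.Lib.MP_55dccf_gt.Slide1

/-!
# MP_55dccf_gt : T13 (Slide2), move O4: blocker data, AE property and controlled homotopy
-/

set_option autoImplicit false
set_option linter.unusedSectionVars false

open Set Topology TopologicalSpace unitInterval

namespace Pool.MP55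

section T13

variable {B : Type} [TopologicalSpace B] [CompactSpace B] [MetrizableSpace B]
  {D : BD B} {n : ℕ} (S : SlideData D n)

namespace SlideData

theorem s2_nm_eq_one_of {v : D.V} {b : B} (hD : D.OK) (h : ∀ z, D.c v z ≠ b) :
    nm (D.F v b) = 1 := by
  by_contra hne
  have hlt : nm (D.F v b) < 1 := lt_of_le_of_ne (nm_le_one _) hne
  exact h _ (hD.cF v b hlt)

theorem s2_nm_T (hD : D.OK) (j : Fin n) {t : ℝ} (ht : t ∈ Ioc (0 : ℝ) 1) (v : D.V) :
    nm (D.F v (S.T j t)) = 1 :=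
  s2_nm_eq_one_of hD fun z => S.Tcone j t ht v z

include S in
theorem s2_nm_c_ne (hD : D.OK) {u v : D.V} (h : u ≠ v) (z : CN) :
    nm (D.F u (D.c v z)) = 1 := by
  rcases hD.disj u v h (D.c v z) with h1 | h1
  · exact h1
  · by_contra hne
    have hlt : nm (D.F u (D.c v z)) < 1 := lt_of_le_of_ne (nm_le_one _) hne
    exact S.cdisj u v h _ _ (hD.cF u _ hlt)

theorem s2_rr_bounds {u : ℝ} (hu : u ∈ Icc (-1 : ℝ) (1 / 2)) :
    1 / 3 ≤ SlideData.rr u ∧ SlideData.rr u ≤ 1 := by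
  unfold SlideData.rr
  obtain ⟨h1, h2⟩ := hu
  split_ifs with h
  · constructor <;> linarith
  · constructor <;> linarith

theorem s2_arc_nm_own (hD : D.OK) (j : Fin n) {u : ℝ} (hu : u ∈ Icc (-1 : ℝ) 1) :
    1 / 3 ≤ nm (D.F (S.w j) (S.arc j u)) := by
  by_cases h : u ≤ 1 / 2
  · have hb := s2_rr_bounds ⟨hu.1, h⟩
    simp only [SlideData.arc, if_pos h, hD.Fc]
    rw [nm_rad, cl_of_mem ⟨by linarith [hb.1], hb.2⟩]
    exact hb.1
  · simp only [SlideData.arc, if_neg h]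
    rw [s2_nm_T S hD j ⟨by linarith [not_le.1 h], by linarith [hu.2]⟩]
    norm_num

theorem s2_arc_nm_other (hD : D.OK) (j : Fin n) {u : ℝ} (hu : u ∈ Icc (-1 : ℝ) 1) {v : D.V}
    (hv : v ≠ S.w j) : nm (D.F v (S.arc j u)) = 1 := by
  by_cases h : u ≤ 1 / 2
  · simp only [SlideData.arc, if_pos h]
    exact s2_nm_c_ne S hD hv _
  · simp only [SlideData.arc, if_neg h]
    exact s2_nm_T S hD j ⟨by linarith [not_le.1 h], by linarith [hu.2]⟩ v

theorem s2_that_mem (j : Fin n) {u : ℝ} (hu : u ∈ Icc (0 : ℝ) 1) : S.that j u ∈ S.Lam j := by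
  unfold SlideData.that SlideData.Lam
  split_ifs with h
  · exact Or.inl ⟨_, rfl⟩
  · exact Or.inr ⟨2 * u - 1, ⟨by linarith [not_le.1 h], by linarith [hu.2]⟩, rfl⟩

theorem s2_arc_mem (j : Fin n) {u : ℝ} (hu : u ∈ Icc (-1 : ℝ) 1) : S.arc j u ∈ S.Lam j := by
  unfold SlideData.arc SlideData.Lam
  split_ifs with h
  · exact Or.inl ⟨_, rfl⟩
  · exact Or.inr ⟨2 * u - 1, ⟨by linarith [not_le.1 h], by linarith [hu.2]⟩, rfl⟩

theorem s2_F_pos {v : D.V} (hv : v ∈ range S.w) (x : ↥S.B4) :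
    S.bd4.F v x = st (1 / 3) (D.F v x.1.1) := if_pos hv

theorem s2_F_neg {v : D.V} (hv : v ∉ range S.w) (x : ↥S.B4) :
    S.bd4.F v x = D.F v x.1.1 := if_neg hv

theorem s2_c_pos {v : D.V} (hv : v ∈ range S.w) (z : CN) :
    S.bd4.c v z = S.bot4 (D.c v (sh (1 / 3) z)) := by
  show S.bot4 (if v ∈ range S.w then D.c v (sh (1 / 3) z) else D.c v z) = _
  rw [if_pos hv]

theorem s2_c_neg {v : D.V} (hv : v ∉ range S.w) (z : CN) :
    S.bd4.c v z = S.bot4 (D.c v z) := by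
  show S.bot4 (if v ∈ range S.w then D.c v (sh (1 / 3) z) else D.c v z) = _
  rw [if_neg hv]

theorem bd4_ok (hD : D.OK) : S.bd4.OK where
  hF := by
    intro (v : D.V)
    have h1 : Continuous fun x : ↥S.B4 => D.F v x.1.1 :=
      (hD.hF v).comp (continuous_fst.comp continuous_subtype_val)
    by_cases hv : v ∈ range S.w
    · have : S.bd4.F v = fun x : ↥S.B4 => st (1 / 3) (D.F v x.1.1) := funext (s2_F_pos S hv)
      rw [this]
      exact (continuous_st (by norm_num)).comp h1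
    · have : S.bd4.F v = fun x : ↥S.B4 => D.F v x.1.1 := funext (s2_F_neg S hv)
      rw [this]
      exact h1
  hc := by
    intro (v : D.V)
    by_cases hv : v ∈ range S.w
    · have : S.bd4.c v = fun z => S.bot4 (D.c v (sh (1 / 3) z)) := funext (s2_c_pos S hv)
      rw [this]
      exact (S.continuous_bot4 hD).comp ((hD.hc v).comp (continuous_sh _))
    · have : S.bd4.c v = fun z => S.bot4 (D.c v z) := funext (s2_c_neg S hv)
      rw [this]
      exact (S.continuous_bot4 hD).comp (hD.hc v)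
  Fc := by
    intro (v : D.V) z
    by_cases hv : v ∈ range S.w
    · rw [s2_c_pos S hv, s2_F_pos S hv]
      show st (1 / 3) (D.F v (D.c v (sh (1 / 3) z))) = z
      rw [hD.Fc]
      exact st_sh (by norm_num) (by norm_num) z
    · rw [s2_c_neg S hv, s2_F_neg S hv]
      exact hD.Fc v z
  cF := by
    intro (v : D.V) x hx
    apply Subtype.ext
    by_cases hv : v ∈ range S.w
    · rw [s2_F_pos S hv] at hx
      rw [s2_c_pos S hv, s2_F_pos S hv]
      obtain ⟨j, rfl⟩ := hv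
      rw [nm_st_lt_one_iff (by norm_num)] at hx
      have h0 : x.1.2 = 0 := by
        rcases x.2 with h | ⟨-, -, i, u, hu, hxu⟩
        · exact h
        · exfalso
          rw [hxu] at hx
          by_cases hij : i = j
          · subst hij
            linarith [s2_arc_nm_own S hD i hu]
          · rw [s2_arc_nm_other S hD i hu (fun h => hij (S.winj h).symm)] at hx
            norm_num at hx
      rw [sh_st (by norm_num) hx.le]
      have h1 : nm (D.F (S.w j) x.1.1) < 1 := by linarith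
      apply Prod.ext
      · exact hD.cF _ _ h1
      · exact h0.symm
    · rw [s2_F_neg S hv] at hx
      rw [s2_c_neg S hv, s2_F_neg S hv]
      have h0 : x.1.2 = 0 := by
        rcases x.2 with h | ⟨-, -, i, u, hu, hxu⟩
        · exact h
        · exfalso
          rw [hxu, s2_arc_nm_other S hD i hu (fun h => hv ⟨i, h.symm⟩)] at hx
          exact lt_irrefl _ hx
      apply Prod.ext
      · exact hD.cF _ _ hx
      · exact h0.symm
  disj := by
    intro (u : D.V) (v : D.V) huv x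
    have key : ∀ v : D.V, nm (D.F v x.1.1) = 1 → nm (S.bd4.F v x) = 1 := by
      intro v hv1
      by_cases hv : v ∈ range S.w
      · rw [s2_F_pos S hv, st_of_nm_one (by norm_num) (by norm_num) hv1, hv1]
      · rw [s2_F_neg S hv, hv1]
    rcases hD.disj u v huv x.1.1 with h | h
    · exact Or.inl (key u h)
    · exact Or.inr (key v h)
  hγ := fun a => (S.continuous_bot4 hD).comp (hD.hγ a)
  γn := by
    intro a (v : D.V) s
    have h := hD.γn a v s
    by_cases hv : v ∈ range S.w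
    · rw [s2_F_pos S hv]
      show nm (st (1 / 3) (D.F v (D.γ a s))) = 1
      rw [st_of_nm_one (by norm_num) (by norm_num) h, h]
    · rw [s2_F_neg S hv]
      exact h
  γE := by
    intro a (v : D.V)
    have h := hD.γE a v
    by_cases hv : v ∈ range S.w
    · have : (fun s => dirT (S.bd4.F v (S.bd4.γ a s))) = fun s => dirT (D.F v (D.γ a s)) := by
        funext s
        rw [s2_F_pos S hv]
        exact dirT_st (by norm_num) _
      rw [this]; exact h
    · have : (fun s => dirT (S.bd4.F v (S.bd4.γ a s))) = fun s => dirT (D.F v (D.γ a s)) := by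
        funext s
        rw [s2_F_neg S hv]
        rfl
      rw [this]; exact h

/-! ### the strips -/

/-- the strip over the `j`-th folding arc -/
def s2Strip (j : Fin n) : Set (B × ℝ) :=
  (fun p : ℝ × ℝ => (S.arc j p.1, p.2)) '' (Icc (-1 : ℝ) 1 ×ˢ Icc (0 : ℝ) 1)

theorem s2_stripMap_cont (hD : D.OK) (j : Fin n) :
    ContinuousOn (fun p : ℝ × ℝ => (S.arc j p.1, p.2)) (Icc (-1 : ℝ) 1 ×ˢ Icc (0 : ℝ) 1) :=
  ((S.continuousOn_arc hD j).comp continuousOn_fst fun _ hp => hp.1).prodMk continuousOn_snd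

theorem s2_stripMap_inj (hD : D.OK) (j : Fin n) :
    InjOn (fun p : ℝ × ℝ => (S.arc j p.1, p.2)) (Icc (-1 : ℝ) 1 ×ˢ Icc (0 : ℝ) 1) := by
  intro p hp q hq hpq
  have h1 : S.arc j p.1 = S.arc j q.1 := congrArg Prod.fst hpq
  have h2 : p.2 = q.2 := (Prod.ext_iff.1 hpq).2
  exact Prod.ext (S.arc_injective hD hp.1 hq.1 h1).2 h2

theorem s2_compact_box : IsCompact (Icc (-1 : ℝ) 1 ×ˢ Icc (0 : ℝ) 1) :=
  isCompact_Icc.prod isCompact_Icc

theorem s2_aeset_box : AESet (Icc (-1 : ℝ) 1 ×ˢ Icc (0 : ℝ) 1) :=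
  AESet.prod (aeset_Icc (by norm_num)) (aeset_Icc (by norm_num))

theorem s2_isClosed_strip (hD : D.OK) (j : Fin n) : IsClosed (s2Strip S j) :=
  (s2_compact_box.image_of_continuousOn (s2_stripMap_cont S hD j)).isClosed

theorem s2_aeset_strip (hD : D.OK) (j : Fin n) : AESet (s2Strip S j) :=
  AESet.image_of_injOn s2_aeset_box s2_compact_box _ (s2_stripMap_cont S hD j)
    (s2_stripMap_inj S hD j)

theorem s2_strip_disj (hD : D.OK) {i j : Fin n} (h : i ≠ j) :
    Disjoint (s2Strip S i) (s2Strip S j) := by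
  rw [Set.disjoint_left]
  rintro x ⟨p, hp, rfl⟩ ⟨q, hq, hpq⟩
  have h1 : S.arc j q.1 = S.arc i p.1 := congrArg Prod.fst hpq
  exact h (S.arc_injective hD hq.1 hp.1 h1).1.symm

theorem s2_B4_eq : S.B4 = (univ ×ˢ {(0 : ℝ)}) ∪ ⋃ j, s2Strip S j := by
  ext x
  simp only [SlideData.B4, Set.mem_ofPred_eq, mem_union, mem_prod, mem_univ, true_and,
    mem_singleton_iff, mem_iUnion, s2Strip, mem_image, Prod.exists]
  constructor
  · rintro (h | ⟨h0, h1, j, u, hu, hx⟩)
    · exact Or.inl h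
    · exact Or.inr ⟨j, u, x.2, ⟨hu, h0, h1⟩, Prod.ext hx.symm rfl⟩
  · rintro (h | ⟨j, u, s, ⟨hu, hs⟩, rfl⟩)
    · exact Or.inl h
    · exact Or.inr ⟨hs.1, hs.2, j, u, hu, rfl⟩

theorem s2_strip_bottom (hD : D.OK) (j : Fin n) : AESet (s2Strip S j ∩ (univ ×ˢ {(0 : ℝ)})) := by
  have h1 : s2Strip S j ∩ (univ ×ˢ {(0 : ℝ)}) =
      (fun p : ℝ × ℝ => (S.arc j p.1, p.2)) '' (Icc (-1 : ℝ) 1 ×ˢ {(0 : ℝ)}) := by
    ext x
    constructor
    · rintro ⟨⟨p, hp, rfl⟩, hx⟩
      exact ⟨p, ⟨hp.1, hx.2⟩, rfl⟩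
    · rintro ⟨p, hp, rfl⟩
      have hp2 : p.2 = 0 := hp.2
      exact ⟨⟨p, ⟨hp.1, by rw [hp2]; exact ⟨le_rfl, zero_le_one⟩⟩, rfl⟩, ⟨mem_univ _, hp.2⟩⟩
  have hsub : Icc (-1 : ℝ) 1 ×ˢ {(0 : ℝ)} ⊆ Icc (-1 : ℝ) 1 ×ˢ Icc (0 : ℝ) 1 := by
    intro p hp
    have hp2 : p.2 = 0 := hp.2
    exact ⟨hp.1, by rw [hp2]; exact ⟨le_rfl, zero_le_one⟩⟩
  rw [h1]
  exact AESet.image_of_injOn (AESet.prod (aeset_Icc (by norm_num)) (aeset_singleton 0))
    (isCompact_Icc.prod isCompact_singleton) _ ((s2_stripMap_cont S hD j).mono hsub)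
    ((s2_stripMap_inj S hD j).mono hsub)

theorem s2_aeset_B4 (hD : D.OK) (hB : IsAE B) : AESet S.B4 := by
  rw [s2_B4_eq]
  have hbot : AESet ((univ : Set B) ×ˢ {(0 : ℝ)}) := AESet.prod hB (aeset_singleton 0)
  have hbotc : IsClosed ((univ : Set B) ×ˢ {(0 : ℝ)}) := isClosed_univ.prod isClosed_singleton
  have key : ∀ s : Finset (Fin n),
      AESet ((univ ×ˢ {(0 : ℝ)}) ∪ ⋃ j ∈ s, s2Strip S j) := by
    intro s
    induction s using Finset.induction_on with
    | empty => simpa using hbot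
    | insert j s hj ih =>
      have h1 : ((univ : Set B) ×ˢ {(0 : ℝ)}) ∪ ⋃ i ∈ insert j s, s2Strip S i =
          s2Strip S j ∪ ((univ ×ˢ {(0 : ℝ)}) ∪ ⋃ i ∈ s, s2Strip S i) := by
        rw [Finset.set_biUnion_insert]
        ext x; simp only [mem_union]; tauto
      rw [h1]
      refine aeset_union (s2_isClosed_strip S hD j) ?_ (s2_aeset_strip S hD j) ih ?_
      · refine hbotc.union ?_
        exact isClosed_biUnion_finset fun i _ => s2_isClosed_strip S hD i
      · have h2 : s2Strip S j ∩ ((univ ×ˢ {(0 : ℝ)}) ∪ ⋃ i ∈ s, s2Strip S i) =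
            s2Strip S j ∩ (univ ×ˢ {(0 : ℝ)}) := by
          rw [inter_union_distrib_left]
          have : s2Strip S j ∩ ⋃ i ∈ s, s2Strip S i = ∅ := by
            rw [← Set.disjoint_iff_inter_eq_empty, Set.disjoint_left]
            intro x hx hx'
            simp only [mem_iUnion, exists_prop] at hx'
            obtain ⟨i, hi, hxi⟩ := hx'
            have hne : j ≠ i := by rintro rfl; exact hj hi
            exact (Set.disjoint_left.1 (s2_strip_disj S hD hne)) hx hxi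
          rw [this, union_empty]
        rw [h2]
        exact s2_strip_bottom S hD j
  have h := key Finset.univ
  simpa using h

theorem isAE_B4 (hD : D.OK) (hB : IsAE B) : IsAE ↥S.B4 := by
  obtain ⟨v⟩ := D.ne
  exact (isAE_subtype_iff ⟨(D.c v apex, 0), Or.inl rfl⟩).2 (s2_aeset_B4 S hD hB)

/-! ### preimage of `Lam j` -/

open Classical in
/-- parametrisation of the strip inside `B4` -/
noncomputable def s2g (j : Fin n) (p : ℝ × ℝ) : ↥S.B4 :=
  if h : (S.arc j p.1, p.2) ∈ S.B4 then ⟨(S.arc j p.1, p.2), h⟩ else S.bot4 (S.arc j 0)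

theorem s2g_mem (j : Fin n) {p : ℝ × ℝ} (hp : p ∈ Icc (-1 : ℝ) 1 ×ˢ Icc (0 : ℝ) 1) :
    (S.arc j p.1, p.2) ∈ S.B4 := Or.inr ⟨hp.2.1, hp.2.2, j, p.1, hp.1, rfl⟩

theorem s2g_val (j : Fin n) {p : ℝ × ℝ} (hp : p ∈ Icc (-1 : ℝ) 1 ×ˢ Icc (0 : ℝ) 1) :
    (s2g S j p).1 = (S.arc j p.1, p.2) := by
  unfold s2g
  rw [dif_pos (s2g_mem S j hp)]

theorem s2g_cont (hD : D.OK) (j : Fin n) :
    ContinuousOn (s2g S j) (Icc (-1 : ℝ) 1 ×ˢ Icc (0 : ℝ) 1) := by
  rw [Topology.IsInducing.subtypeVal.continuousOn_iff]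
  exact (s2_stripMap_cont S hD j).congr fun p hp => s2g_val S j hp

theorem s2g_inj (hD : D.OK) (j : Fin n) :
    InjOn (s2g S j) (Icc (-1 : ℝ) 1 ×ˢ Icc (0 : ℝ) 1) := by
  intro p hp q hq hpq
  apply s2_stripMap_inj S hD j hp hq
  have := congrArg Subtype.val hpq
  rwa [s2g_val S j hp, s2g_val S j hq] at this

theorem s2_p4_mem_Lam_strip (hD : D.OK) (j : Fin n) {x : ↥S.B4} {u : ℝ}
    (hu : u ∈ Icc (-1 : ℝ) 1) (hx : x.1.1 = S.arc j u) (hs : x.1.2 ∈ Icc (0 : ℝ) 1) :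
    S.p4 x ∈ S.Lam j := by
  rw [S.p4_strip hD j hu hs x (Prod.ext hx rfl)]
  refine s2_that_mem S j ⟨le_max_of_le_right hs.1, max_le ?_ hs.2⟩
  exact abs_le.2 hu

theorem s2_mem_B4_height (x : ↥S.B4) : x.1.2 ∈ Icc (0 : ℝ) 1 := by
  rcases x.2 with h | ⟨h0, h1, -⟩
  · rw [h]; exact ⟨le_rfl, zero_le_one⟩
  · exact ⟨h0, h1⟩

/-- `p0` fixes the points outside the open cones of the slid blockers -/
theorem s2_p0_of_Lam (hD : D.OK) {j : Fin n} {b : B} (hb : b ∈ S.Lam j) :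
    S.p0 b ∈ S.Lam j := by
  by_cases h : nm (D.F (S.w j) b) < 1
  · exact S.p0_mem_Lam hD h
  · have h1 : nm (D.F (S.w j) b) = 1 := le_antisymm (nm_le_one _) (not_lt.1 h)
    have h2 : ∀ i, nm (D.F (S.w i) b) = 1 := by
      intro i
      by_contra hne
      have hlt : nm (D.F (S.w i) b) < 1 := lt_of_le_of_ne (nm_le_one _) hne
      have hij : i ≠ j := by rintro rfl; exact hne h1
      have hmem : b ∈ S.Lam i := Or.inl ⟨_, hD.cF _ _ hlt⟩
      exact Set.disjoint_left.1 (S.disjoint_Lam hD hij) hmem hb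
    rw [S.p0_of_nm_one hD h2]
    exact hb

theorem s2_preimage_Lam (hD : D.OK) (j : Fin n) :
    S.p4 ⁻¹' (S.Lam j) = (fun z : CN => S.bot4 (D.c (S.w j) z)) '' univ ∪
      s2g S j '' (Icc (-1 : ℝ) 1 ×ˢ Icc (0 : ℝ) 1) := by
  ext x
  constructor
  · intro hx
    have hx' : S.p4 x ∈ S.Lam j := hx
    by_cases hst : ∃ i, ∃ u ∈ Icc (-1 : ℝ) 1, x.1.1 = S.arc i u
    · obtain ⟨i, u, hu, hxu⟩ := hst
      have h1 := s2_p4_mem_Lam_strip S hD i hu hxu (s2_mem_B4_height S x)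
      have hij : i = j := by
        by_contra hne
        exact Set.disjoint_left.1 (S.disjoint_Lam hD hne) h1 hx'
      subst hij
      refine Or.inr ⟨(u, x.1.2), ⟨hu, s2_mem_B4_height S x⟩, ?_⟩
      apply Subtype.ext
      rw [s2g_val S i ⟨hu, s2_mem_B4_height S x⟩]
      exact Prod.ext hxu.symm rfl
    · have h0 : x.1.2 = 0 := by
        rcases x.2 with h | ⟨-, -, i, u, hu, hxu⟩
        · exact h
        · exact absurd ⟨i, u, hu, hxu⟩ hst
      have hxb : x = S.bot4 x.1.1 := Subtype.ext (Prod.ext rfl h0)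
      have hp : S.p4 x = S.p0 x.1.1 := by
        conv_lhs => rw [hxb]
        exact S.p4_bot4 hD _
      rw [hp] at hx'
      refine Or.inl ?_
      by_cases h : nm (D.F (S.w j) x.1.1) < 1
      · refine ⟨D.F (S.w j) x.1.1, mem_univ _, ?_⟩
        show S.bot4 (D.c (S.w j) (D.F (S.w j) x.1.1)) = x
        rw [hD.cF _ _ h]; exact hxb.symm
      · have h2 : ∀ i, nm (D.F (S.w i) x.1.1) = 1 := by
          intro i
          by_contra hne
          have hlt : nm (D.F (S.w i) x.1.1) < 1 := lt_of_le_of_ne (nm_le_one _) hne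
          have hij : i ≠ j := by rintro rfl; exact h hlt
          exact Set.disjoint_left.1 (S.disjoint_Lam hD hij) (S.p0_mem_Lam hD hlt) hx'
        rw [S.p0_of_nm_one hD h2] at hx'
        rcases hx' with ⟨z, hz⟩ | ⟨t, ht, htx⟩
        · refine ⟨z, mem_univ _, ?_⟩
          show S.bot4 (D.c (S.w j) z) = x
          rw [hz]; exact hxb.symm
        · exfalso
          refine hst ⟨j, (t + 1) / 2, ⟨by linarith [ht.1], by linarith [ht.2]⟩, ?_⟩
          rcases eq_or_lt_of_le ht.1 with h0t | h0t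
          · subst h0t
            rw [← htx, S.T0 j]
            have : ((0 : ℝ) + 1) / 2 ≤ 1 / 2 := by norm_num
            simp only [SlideData.arc, if_pos this]
            have hr : SlideData.rr (((0 : ℝ) + 1) / 2) = 1 := by
              unfold SlideData.rr; norm_num
            rw [hr]; rfl
          · have : ¬ (t + 1) / 2 ≤ 1 / 2 := by linarith
            simp only [SlideData.arc, if_neg this]
            rw [← htx]; congr 1; ring
  · rintro (⟨z, -, rfl⟩ | ⟨p, hp, rfl⟩)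
    · show S.p4 (S.bot4 (D.c (S.w j) z)) ∈ S.Lam j
      rw [S.p4_bot4 hD]
      exact s2_p0_of_Lam S hD (Or.inl ⟨z, rfl⟩)
    · have hv := s2g_val S j hp
      refine s2_p4_mem_Lam_strip S hD j hp.1 ?_ ?_
      · rw [hv]
      · rw [hv]; exact hp.2

theorem aeset_p4_Lam (hD : D.OK) (j : Fin n) : AESet (S.p4 ⁻¹' (S.Lam j)) := by
  rw [s2_preimage_Lam S hD j]
  have hc1 : Continuous fun z : CN => S.bot4 (D.c (S.w j) z) :=
    (S.continuous_bot4 hD).comp (hD.hc _)
  have hinj1 : Function.Injective fun z : CN => S.bot4 (D.c (S.w j) z) := by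
    intro z z' h
    have h1 : D.c (S.w j) z = D.c (S.w j) z' := congrArg (fun y : ↥S.B4 => y.1.1) h
    have h2 := congrArg (D.F (S.w j)) h1
    rwa [hD.Fc, hD.Fc] at h2
  have hA : AESet ((fun z : CN => S.bot4 (D.c (S.w j) z)) '' univ) :=
    AESet.image_of_injOn isAE_CN isCompact_univ _ hc1.continuousOn hinj1.injOn
  have hAc : IsClosed ((fun z : CN => S.bot4 (D.c (S.w j) z)) '' univ) :=
    (isCompact_univ.image hc1).isClosed
  have hS : AESet (s2g S j '' (Icc (-1 : ℝ) 1 ×ˢ Icc (0 : ℝ) 1)) :=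
    AESet.image_of_injOn s2_aeset_box s2_compact_box _ (s2g_cont S hD j) (s2g_inj S hD j)
  have hSc : IsClosed (s2g S j '' (Icc (-1 : ℝ) 1 ×ˢ Icc (0 : ℝ) 1)) :=
    (s2_compact_box.image_of_continuousOn (s2g_cont S hD j)).isClosed
  refine aeset_union hAc hSc hA hS ?_
  have hsub : Icc (-1 : ℝ) (1 / 2) ×ˢ {(0 : ℝ)} ⊆ Icc (-1 : ℝ) 1 ×ˢ Icc (0 : ℝ) 1 := by
    intro p hp
    have hp2 : p.2 = 0 := hp.2
    exact ⟨⟨hp.1.1, by linarith [hp.1.2]⟩, by rw [hp2]; exact ⟨le_rfl, zero_le_one⟩⟩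
  have hint : (fun z : CN => S.bot4 (D.c (S.w j) z)) '' univ ∩
      s2g S j '' (Icc (-1 : ℝ) 1 ×ˢ Icc (0 : ℝ) 1) =
      s2g S j '' (Icc (-1 : ℝ) (1 / 2) ×ˢ {(0 : ℝ)}) := by
    ext x
    constructor
    · rintro ⟨⟨z, -, rfl⟩, ⟨p, hp, hpz⟩⟩
      have hv := congrArg Subtype.val hpz
      rw [s2g_val S j hp] at hv
      have h1 : S.arc j p.1 = D.c (S.w j) z := congrArg Prod.fst hv
      have h2 : p.2 = 0 := congrArg Prod.snd hv
      refine ⟨p, ⟨⟨hp.1.1, ?_⟩, h2⟩, hpz⟩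
      by_contra hlt
      have hlt' := not_le.1 hlt
      have : S.arc j p.1 = S.T j (2 * p.1 - 1) := by
        simp only [SlideData.arc, if_neg hlt]
      exact S.Tcone j (2 * p.1 - 1) ⟨by linarith, by linarith [hp.1.2]⟩ _ _ (h1.symm.trans this)
    · rintro ⟨p, hp, rfl⟩
      refine ⟨⟨rad (SlideData.rr p.1) baseT, mem_univ _, ?_⟩, ⟨p, hsub hp, rfl⟩⟩
      apply Subtype.ext
      rw [s2g_val S j (hsub hp)]
      have hp2 : p.2 = 0 := hp.2
      apply Prod.ext
      · show D.c (S.w j) (rad (SlideData.rr p.1) baseT) = S.arc j p.1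
        simp only [SlideData.arc, if_pos hp.1.2]
      · exact hp2.symm
  rw [hint]
  exact AESet.image_of_injOn (AESet.prod (aeset_Icc (by norm_num)) (aeset_singleton 0))
    (isCompact_Icc.prod isCompact_singleton) _ ((s2g_cont S hD j).mono hsub)
    ((s2g_inj S hD j).mono hsub)

theorem exists_H4 (hD : D.OK) : ∃ H : ↥S.B4 × I → ↥S.B4, Continuous H ∧
    (∀ x, H (x, 0) = x) ∧ (∀ x, H (x, 1) = S.bot4 (S.p4 x)) ∧
    ∀ x t, H (x, t) = x ∨ ∃ j, S.p4 x ∈ S.Lam j ∧ S.p4 (H (x, t)) ∈ S.Lam j := by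
  have : CompactSpace ↥S.B4 := S.compactSpace_B4 hD
  refine exists_homotopy S.p4 (S.continuous_p4 hD) S.bot4 (S.continuous_bot4 hD) S.Lam
    (S.isClosed_Lam hD) (fun i j h => S.disjoint_Lam hD h) (aeset_p4_Lam S hD) ?_ ?_
  · intro i b hb
    rw [S.p4_bot4 hD]
    exact s2_p0_of_Lam S hD hb
  · intro x hx
    have hst : ¬ ∃ i, ∃ u ∈ Icc (-1 : ℝ) 1, x.1.1 = S.arc i u := by
      rintro ⟨i, u, hu, hxu⟩
      exact hx i (s2_p4_mem_Lam_strip S hD i hu hxu (s2_mem_B4_height S x))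
    have h0 : x.1.2 = 0 := by
      rcases x.2 with h | ⟨-, -, i, u, hu, hxu⟩
      · exact h
      · exact absurd ⟨i, u, hu, hxu⟩ hst
    have hxb : x = S.bot4 x.1.1 := Subtype.ext (Prod.ext rfl h0)
    have hp : S.p4 x = S.p0 x.1.1 := by
      conv_lhs => rw [hxb]
      exact S.p4_bot4 hD _
    have h2 : ∀ i, nm (D.F (S.w i) x.1.1) = 1 := by
      intro i
      by_contra hne
      have hlt : nm (D.F (S.w i) x.1.1) < 1 := lt_of_le_of_ne (nm_le_one _) hne
      exact hx i (by rw [hp]; exact S.p0_mem_Lam hD hlt)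
    rw [hp, S.p0_of_nm_one hD h2]
    exact hxb.symm

end SlideData

end T13

end Pool.MP55
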