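import Pool.Agent.Lib.MP_55dccf_gt.AE1
import Pool.Agent.Lib.MP_55dccf_gt.Cone

/-!
# MP_55dccf_gt : T11, move O1 (thickening)
-/

set_option autoImplicit false
set_option linter.unusedSectionVars false
set_option linter.unusedVariables false

open Set Topology TopologicalSpace unitInterval

namespace Pool.MP55

section T11

variable {B : Type} [TopologicalSpace B] [CompactSpace B] [MetrizableSpace B]
  (D : BD B) {κ : ℝ}

theorem continuous_rho (hD : D.OK) : Continuous (rho D κ) := by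
  unfold rho
  exact continuous_finsetProd _ fun v _ =>
    continuous_const.max ((continuous_nm.comp (hD.hF v)).sub continuous_const)

theorem rho_pos (hD : D.OK) {b : B} (h : ∀ v, κ < nm (D.F v b)) : 0 < rho D κ b :=
  Finset.prod_pos fun v _ => lt_max_of_lt_right (sub_pos.2 (h v))

theorem rho_eq_zero (hD : D.OK) {b : B} (h : ∃ v, nm (D.F v b) ≤ κ) : rho D κ b = 0 := by
  obtain ⟨v, hv⟩ := h
  exact Finset.prod_eq_zero (Finset.mem_univ v) (max_eq_left (by linarith))

theorem thick_isClosed_B1 (hD : D.OK) : IsClosed (B1 D κ) :=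
  (isClosed_le continuous_const continuous_snd).inter
    (isClosed_le continuous_snd ((continuous_rho D hD).comp continuous_fst))

theorem thick_exists_bound (hD : D.OK) : ∃ M, 0 ≤ M ∧ ∀ b, rho D κ b ≤ M := by
  obtain ⟨M, hM⟩ := (isCompact_range (continuous_rho (κ := κ) D hD)).bddAbove
  exact ⟨max 0 M, le_max_left _ _, fun b => (hM ⟨b, rfl⟩).trans (le_max_right _ _)⟩

theorem compactSpace_B1 (hD : D.OK) : CompactSpace ↥(B1 D κ) := by
  obtain ⟨M, hM0, hM⟩ := thick_exists_bound (κ := κ) D hD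
  refine isCompact_iff_compactSpace.1 (IsCompact.of_isClosed_subset
    (isCompact_univ.prod (isCompact_Icc (a := (0 : ℝ)) (b := M))) (thick_isClosed_B1 D hD) ?_)
  rintro ⟨b, s⟩ ⟨h1, h2⟩
  exact ⟨mem_univ _, h1, h2.trans (hM b)⟩

theorem continuous_bot1 (hD : D.OK) : Continuous (bot1 D κ) :=
  Continuous.subtype_mk (continuous_id.prodMk continuous_const) _

theorem continuous_sec1 (hD : D.OK) : Continuous fun p : ℝ × B => sec1 D κ p.1 p.2 :=
  Continuous.subtype_mk (continuous_snd.prodMk ((continuous_cl.comp continuous_fst).mul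
    ((continuous_rho D hD).comp continuous_snd))) _

theorem bd1_ok (hD : D.OK) (h0 : 0 < κ) (h1 : κ < 1) : (bd1 D κ).OK where
  hF := fun v => (continuous_st h0).comp ((hD.hF v).comp
    (continuous_fst.comp continuous_subtype_val))
  hc := fun v => (continuous_bot1 D hD).comp ((hD.hc v).comp (continuous_sh κ))
  Fc := fun (v : D.V) z => by
    change st κ (D.F v (D.c v (sh κ z))) = z
    rw [hD.Fc, st_sh h0 h1.le]
  cF := fun (v : D.V) x hx => by
    change nm (st κ (D.F v x.1.1)) < 1 at hx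
    change bot1 D κ (D.c v (sh κ (st κ (D.F v x.1.1)))) = x
    have hx' : nm (D.F v x.1.1) < κ := (nm_st_lt_one_iff h0).1 hx
    rw [sh_st h0 hx'.le, hD.cF v _ (hx'.trans h1)]
    have hr : rho D κ x.1.1 = 0 := rho_eq_zero D hD ⟨v, hx'.le⟩
    have h2 : x.1.2 = 0 := le_antisymm (x.2.2.trans hr.le) x.2.1
    apply Subtype.ext
    exact Prod.ext rfl h2.symm
  disj := fun (u v : D.V) huv x => by
    change nm (st κ (D.F u x.1.1)) = 1 ∨ nm (st κ (D.F v x.1.1)) = 1
    rcases hD.disj u v huv x.1.1 with h | h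
    · left; rw [st_of_nm_one h0 h1.le h, h]
    · right; rw [st_of_nm_one h0 h1.le h, h]
  hγ := fun a => (continuous_bot1 D hD).comp (hD.hγ a)
  γn := fun a (v : D.V) s => by
    change nm (st κ (D.F v (D.γ a s))) = 1
    rw [st_of_nm_one h0 h1.le (hD.γn a v s), hD.γn a v s]
  γE := fun a (v : D.V) => by
    change Ess (fun s => dirT (st κ (D.F v (D.γ a s))))
    simp only [dirT_st h0]
    exact hD.γE a v

theorem isAE_B1 (hD : D.OK) (hB : IsAE B) : IsAE ↥(B1 D κ) := by
  obtain ⟨M, hM0, hM⟩ := thick_exists_bound (κ := κ) D hD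
  obtain ⟨v⟩ := D.ne
  have hne : (B1 D κ).Nonempty := ⟨(D.c v apex, 0), le_rfl, rho_nonneg D κ _⟩
  rw [isAE_subtype_iff hne]
  have hprod : AESet ((univ : Set B) ×ˢ Icc (0 : ℝ) M) := AESet.prod hB (aeset_Icc hM0)
  refine AESet.of_retract hprod (fun x => x)
    (fun x => (x.1, max 0 (min x.2 (rho D κ x.1)))) continuousOn_id ?_ ?_ ?_ ?_
  · exact (continuous_fst.prodMk (continuous_const.max (continuous_snd.min
      ((continuous_rho D hD).comp continuous_fst)))).continuousOn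
  · rintro ⟨b, s⟩ ⟨h1, h2⟩
    exact ⟨mem_univ _, h1, h2.trans (hM b)⟩
  · rintro ⟨b, s⟩ -
    exact ⟨le_max_left _ _, max_le (rho_nonneg D κ b) (min_le_right _ _)⟩
  · rintro ⟨b, s⟩ ⟨h1, h2⟩
    change (b, max 0 (min s (rho D κ b))) = (b, s)
    have h1' : 0 ≤ s := h1
    have h2' : s ≤ rho D κ b := h2
    rw [min_eq_left h2', max_eq_right h1']

/-- slide data on the thickened space from paths in `B` -/
theorem exists_slideData (hD : D.OK) (h0 : 0 < κ) (h1 : κ < 1) (n : ℕ) (w : Fin n → D.V)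
    (hw : Function.Injective w) (β : Fin n → ℝ → B) (hβ : ∀ j, ContinuousOn (β j) (Icc 0 1))
    (hβ0 : ∀ j, β j 0 = D.c (w j) (rad κ baseT))
    (hβ1 : ∀ j, ∀ t ∈ Ioc (0 : ℝ) 1, ∀ v, κ < nm (D.F v (β j t))) :
    ∃ S : SlideData (bd1 D κ) n, (∀ j, S.w j = w j) ∧
      ∀ j t, S.T j t = sec1 D κ (((j : ℕ) + t) / (n + 1)) (β j t) := by
  have hn : (0 : ℝ) < (n : ℝ) + 1 := by positivity
  have hcl : ∀ (j : Fin n) (t : ℝ), t ∈ Icc (0 : ℝ) 1 →
      cl ((((j : ℕ) : ℝ) + t) / (n + 1)) = (((j : ℕ) : ℝ) + t) / (n + 1) := by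
    intro j t ht
    apply cl_of_mem
    refine ⟨div_nonneg (add_nonneg (Nat.cast_nonneg _) ht.1) hn.le, ?_⟩
    rw [div_le_one hn]
    have hj : ((j : ℕ) : ℝ) ≤ n := by exact_mod_cast j.2.le
    linarith [ht.2]
  have hnm0 : ∀ j, nm (D.F (w j) (β j 0)) = κ := by
    intro j
    rw [hβ0, hD.Fc, nm_rad, cl_of_mem ⟨h0.le, h1.le⟩]
  have hrho0 : ∀ j, rho D κ (β j 0) = 0 := fun j => rho_eq_zero D hD ⟨w j, (hnm0 j).le⟩
  have hrho1 : ∀ j, ∀ t ∈ Ioc (0 : ℝ) 1, 0 < rho D κ (β j t) := fun j t ht =>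
    rho_pos D hD (hβ1 j t ht)
  -- equality of two points of the arcs
  have hkey : ∀ (i j : Fin n) (s t : ℝ), s ∈ Icc (0 : ℝ) 1 → t ∈ Icc (0 : ℝ) 1 →
      sec1 D κ ((((i : ℕ) : ℝ) + s) / (n + 1)) (β i s) =
        sec1 D κ ((((j : ℕ) : ℝ) + t) / (n + 1)) (β j t) →
      β i s = β j t ∧ ((s = 0 ∧ t = 0) ∨
        (0 < s ∧ 0 < t ∧ ((i : ℕ) : ℝ) + s = ((j : ℕ) : ℝ) + t)) := by
    intro i j s t hs ht h
    have e := congrArg Subtype.val h
    have e1 : β i s = β j t := congrArg Prod.fst e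
    have e2 : cl ((((i : ℕ) : ℝ) + s) / (n + 1)) * rho D κ (β i s) =
        cl ((((j : ℕ) : ℝ) + t) / (n + 1)) * rho D κ (β j t) := congrArg Prod.snd e
    refine ⟨e1, ?_⟩
    rcases eq_or_lt_of_le hs.1 with h3 | h3
    · left
      refine ⟨h3.symm, ?_⟩
      by_contra h4
      have h5 : 0 < rho D κ (β j t) := hrho1 j t ⟨lt_of_le_of_ne ht.1 (Ne.symm h4), ht.2⟩
      rw [← e1, ← h3, hrho0] at h5
      exact lt_irrefl _ h5
    · right
      have h5 : 0 < rho D κ (β i s) := hrho1 i s ⟨h3, hs.2⟩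
      have h4 : 0 < t := by
        rcases eq_or_lt_of_le ht.1 with h6 | h6
        · rw [e1, ← h6, hrho0] at h5
          exact absurd h5 (lt_irrefl _)
        · exact h6
      refine ⟨h3, h4, ?_⟩
      rw [hcl i s hs, hcl j t ht, ← e1] at e2
      have e3 := mul_right_cancel₀ h5.ne' e2
      rw [div_left_inj' hn.ne'] at e3
      exact e3
  refine ⟨{ w := w
            winj := hw
            T := fun j t => sec1 D κ (((j : ℕ) + t) / (n + 1)) (β j t)
            hT := ?_
            Tinj := ?_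
            T0 := ?_
            Tcone := ?_
            Tdisj := ?_
            cdisj := ?_ }, fun j => rfl, fun j t => rfl⟩
  · intro j
    refine (continuous_sec1 D hD).comp_continuousOn (ContinuousOn.prodMk ?_ (hβ j))
    exact (by fun_prop : Continuous fun t : ℝ => (((j : ℕ) : ℝ) + t) / (n + 1)).continuousOn
  · intro j s hs t ht h
    obtain ⟨-, h2 | h2⟩ := hkey j j s t hs ht h
    · rw [h2.1, h2.2]
    · linarith [h2.2.2]
  · intro j
    change sec1 D κ ((((j : ℕ) : ℝ) + 0) / (n + 1)) (β j 0) =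
      bot1 D κ (D.c (w j) (sh κ (inc baseT)))
    have e : sh κ (inc baseT) = rad κ baseT := by
      unfold sh
      rw [nm_inc, dirT_inc, mul_one]
    rw [e, ← hβ0 j]
    apply Subtype.ext
    change (β j 0, cl ((((j : ℕ) : ℝ) + 0) / (n + 1)) * rho D κ (β j 0)) = (β j 0, 0)
    rw [hrho0, mul_zero]
  · intro j t ht (v : D.V) z h
    change bot1 D κ (D.c v (sh κ z)) = sec1 D κ ((((j : ℕ) : ℝ) + t) / (n + 1)) (β j t) at h
    have e : D.c v (sh κ z) = β j t := congrArg (fun x => x.1.1) h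
    have h2 := hβ1 j t ht v
    rw [← e, hD.Fc, nm_sh h0 h1.le] at h2
    have h3 := nm_le_one z
    nlinarith
  · intro i j hij s hs t ht h
    obtain ⟨h1', h2 | h2⟩ := hkey i j s t hs ht h
    · rw [h2.1, h2.2] at h1'
      have hne : w i ≠ w j := fun h => hij (hw h)
      rcases hD.disj (w i) (w j) hne (β i 0) with h3 | h3
      · rw [hnm0 i] at h3; linarith
      · rw [h1', hnm0 j] at h3; linarith
    · have hs1 : s ≤ 1 := hs.2
      have ht1 : t ≤ 1 := ht.2
      have hlt : ((i : ℕ) : ℝ) < ((j : ℕ) : ℝ) + 1 := by linarith [h2.1, h2.2.1, h2.2.2]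
      have hlt' : ((j : ℕ) : ℝ) < ((i : ℕ) : ℝ) + 1 := by linarith [h2.1, h2.2.1, h2.2.2]
      have a1 : (i : ℕ) < (j : ℕ) + 1 := by exact_mod_cast hlt
      have a2 : (j : ℕ) < (i : ℕ) + 1 := by exact_mod_cast hlt'
      exact hij (Fin.ext (by omega))
  · intro (u : D.V) (v : D.V) huv z z' h
    change bot1 D κ (D.c u (sh κ z)) = bot1 D κ (D.c v (sh κ z')) at h
    have e : D.c u (sh κ z) = D.c v (sh κ z') := congrArg (fun x => x.1.1) h
    have b1 : nm (D.F u (D.c u (sh κ z))) < 1 := by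
      rw [hD.Fc, nm_sh h0 h1.le]
      nlinarith [nm_le_one z, nm_nonneg z]
    have b2 : nm (D.F v (D.c u (sh κ z))) < 1 := by
      rw [e, hD.Fc, nm_sh h0 h1.le]
      nlinarith [nm_le_one z', nm_nonneg z']
    rcases hD.disj u v huv (D.c u (sh κ z)) with h3 | h3
    · linarith
    · linarith

end T11

end Pool.MP55
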