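import Pool.Agent.Lib.MP_55dccf_gt.Defs2
import Pool.Agent.Lib.MP_55dccf_gt.Cone
import Pool.Agent.Lib.MP_55dccf_gt.Blow
import Pool.Agent.Lib.MP_55dccf_gt.Push
import Pool.Agent.Lib.MP_55dccf_gt.Thick
import Pool.Agent.Lib.MP_55dccf_gt.Slide1
import Pool.Agent.Lib.MP_55dccf_gt.Slide2
import Pool.Agent.Lib.MP_55dccf_gt.Fiber4
import Pool.Agent.Lib.MP_55dccf_gt.PfDef

set_option autoImplicit false

open Set Topology TopologicalSpace unitInterval

namespace Pool.MP55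

section

variable {A : Type} {D : BD A} {κ : ℝ}

/-- vertical path in the thickened space -/
theorem dense_vertical [TopologicalSpace A] (x : ↥(B1 D κ)) :
    JoinedIn {y : ↥(B1 D κ) | y.1.1 = x.1.1} x (bot1 D κ x.1.1) := by
  have hmem : ∀ t : ℝ, (x.1.1, (1 - cl t) * x.1.2) ∈ B1 D κ := fun t => by
    have h0 := (cl_mem t).1
    have h1 := (cl_mem t).2
    refine ⟨mul_nonneg (by linarith) x.2.1, ?_⟩
    exact (mul_le_of_le_one_left x.2.1 (by linarith)).trans x.2.2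
  have hcont : Continuous fun t : ℝ => (⟨(x.1.1, (1 - cl t) * x.1.2), hmem t⟩ : ↥(B1 D κ)) := by
    refine Continuous.subtype_mk ?_ _
    have := continuous_cl
    fun_prop
  refine JoinedIn.ofLine (f := fun t : ℝ => (⟨(x.1.1, (1 - cl t) * x.1.2), hmem t⟩ : ↥(B1 D κ)))
    hcont.continuousOn ?_ ?_ ?_
  · apply Subtype.ext
    have : cl 0 = 0 := cl_of_le le_rfl
    simp [this]
  · apply Subtype.ext
    have : cl 1 = 1 := cl_of_ge le_rfl
    simp [this, bot1]
  · rintro _ ⟨t, -, rfl⟩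
    rfl

/-- goodness in the thickened space -/
theorem dense_good_iff (h0 : 0 < κ) (x : ↥(B1 D κ)) :
    x ∈ (bd1 D κ).good ↔ ∀ v, κ ≤ nm (D.F v x.1.1) := by
  have key : ∀ v : D.V, nm ((bd1 D κ).F v x) = 1 ↔ κ ≤ nm (D.F v x.1.1) := by
    intro v
    have h1 : nm ((bd1 D κ).F v x) = min 1 (nm (D.F v x.1.1) / κ) := nm_st h0 _
    rw [h1]
    constructor
    · intro h
      have : 1 ≤ nm (D.F v x.1.1) / κ := by rw [← h]; exact min_le_right _ _
      rwa [le_div_iff₀ h0, one_mul] at this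
    · intro h
      exact min_eq_left (by rwa [le_div_iff₀ h0, one_mul])
  constructor
  · intro h v; exact (key v).1 (h v)
  · intro h v; exact (key v).2 (h v)

end

section

variable {B : Type} [MetricSpace B] [CompactSpace B] {D : BD B} {n k : ℕ} [NeZero k]

theorem dense_p4_bot4 (hD : D.OK) (S : SlideData (bd1 (bd3 D k) (1 / 2)) n)
    {y : ↥(B1 (bd3 D k) (1 / 2))} (hy : ∀ u, 1 / 2 ≤ nm ((bd3 D k).F u y.1.1)) :
    S.p4 (S.bot4 y) = y := by
  have hD3 := bd3_ok D k hD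
  have := compactSpace_B3 D k hD
  have hD1 := bd1_ok (bd3 D k) hD3 (κ := 1 / 2) (by norm_num) (by norm_num)
  have := compactSpace_B1 (bd3 D k) (κ := 1 / 2) hD3
  rw [S.p4_bot4 hD1]
  exact S.p0_of_nm_one hD1 fun j => (dense_good_iff (by norm_num) y).2 hy (S.w j)

theorem dense_stepFiber (hD : D.OK) (S : SlideData (bd1 (bd3 D k) (1 / 2)) n) (x : ↥S.B4)
    (hx : S.p4 x ∈ (bd1 (bd3 D k) (1 / 2)).good) :
    JoinedIn {z | Pf S z = Pf S x} x (S.bot4 (bot1 (bd3 D k) (1 / 2) (S.p4 x).1.1)) := by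
  have hD3 := bd3_ok D k hD
  have := compactSpace_B3 D k hD
  have hD1 := bd1_ok (bd3 D k) hD3 (κ := 1 / 2) (by norm_num) (by norm_num)
  have := compactSpace_B1 (bd3 D k) (κ := 1 / 2) hD3
  have hx' := (dense_good_iff (by norm_num) (S.p4 x)).1 hx
  have h1 := S.joinedIn_fiber hD1 x hx
  have h1' : JoinedIn {z | Pf S z = Pf S x} x (S.bot4 (S.p4 x)) :=
    h1.mono fun z hz => by
      have : S.p4 z = S.p4 x := hz
      show (S.p4 z).1.1.1.1 = (S.p4 x).1.1.1.1
      rw [this]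
  refine h1'.trans ?_
  have h2 := (dense_vertical (S.p4 x)).map_continuousOn (f := S.bot4)
    (S.continuous_bot4 hD1).continuousOn
  refine h2.mono ?_
  rintro _ ⟨y, hy, rfl⟩
  have hy' : y.1.1 = (S.p4 x).1.1 := hy
  show (S.p4 (S.bot4 y)).1.1.1.1 = (S.p4 x).1.1.1.1
  rw [dense_p4_bot4 hD S (by rw [hy']; exact hx'), hy']

omit [MetricSpace B] [CompactSpace B] in
theorem dense_lift_good (b : B) (u) : nm ((bd3 D k).F u (lift3 D k b)) = 1 := nm_inc _

theorem dense_stepNet (hD : D.OK) {ε κ : ℝ} (hκ : 0 < κ)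
    (S : SlideData (bd1 (bd3 D k) (1 / 2)) n) (y : Fin n → B)
    (hST : ∀ j, ∃ r : ℝ, S.T j 1 = sec1 (bd3 D k) (1 / 2) r (lift3 D k (y j)))
    (b : B) (hnet : ∃ j, JoinedIn {b' | dist b' b < 3 * ε ∧ ∀ v, κ ≤ nm (D.F v b')} b (y j)) :
    ∃ v, JoinedIn {z | dist (Pf S z) b < 3 * ε} (S.bd4.c v apex)
      (S.bot4 (bot1 (bd3 D k) (1 / 2) (lift3 D k b))) := by
  have hD3 := bd3_ok D k hD
  have := compactSpace_B3 D k hD
  have hD1 := bd1_ok (bd3 D k) hD3 (κ := 1 / 2) (by norm_num) (by norm_num)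
  have := compactSpace_B1 (bd3 D k) (κ := 1 / 2) hD3
  obtain ⟨j, hj⟩ := hnet
  have hPf : ∀ b' : B, Pf S (S.bot4 (bot1 (bd3 D k) (1 / 2) (lift3 D k b'))) = b' := fun b' => by
    show (S.p4 _).1.1.1.1 = b'
    rw [dense_p4_bot4 hD S]
    · rfl
    · intro u
      have := dense_lift_good (D := D) (k := k) b' u
      show 1 / 2 ≤ nm ((bd3 D k).F u (lift3 D k b'))
      rw [this]; norm_num
  have hyd : dist (y j) b < 3 * ε := hj.target_mem.1
  -- step 1 : along the lifted net path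
  have h1 : JoinedIn {z | dist (Pf S z) b < 3 * ε}
      (S.bot4 (bot1 (bd3 D k) (1 / 2) (lift3 D k b)))
      (S.bot4 (bot1 (bd3 D k) (1 / 2) (lift3 D k (y j)))) := by
    have hc : ContinuousOn (fun b' => S.bot4 (bot1 (bd3 D k) (1 / 2) (lift3 D k b')))
        {b' | dist b' b < 3 * ε ∧ ∀ v, κ ≤ nm (D.F v b')} := by
      refine ((S.continuous_bot4 hD1).comp (continuous_bot1 _ hD3)).comp_continuousOn
        ((continuousOn_lift3 D k hD).mono fun b' hb' v hv => ?_)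
      have := hb'.2 v
      rw [hv, nm_apex] at this
      linarith
    refine (hj.map_continuousOn hc).mono ?_
    rintro _ ⟨b', hb', rfl⟩
    show dist (Pf S _) b < _
    rw [hPf b']
    exact hb'.1
  -- step 2 : vertical
  obtain ⟨r, hr⟩ := hST j
  have h2 : JoinedIn {z | dist (Pf S z) b < 3 * ε}
      (S.bot4 (S.T j 1)) (S.bot4 (bot1 (bd3 D k) (1 / 2) (lift3 D k (y j)))) := by
    have h3 := (dense_vertical (S.T j 1)).map_continuousOn (f := S.bot4)
      (S.continuous_bot4 hD1).continuousOn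
    have h4 : (S.T j 1).1.1 = lift3 D k (y j) := by rw [hr]; rfl
    rw [h4] at h3
    refine h3.mono ?_
    rintro _ ⟨z, hz, rfl⟩
    have hz' : z.1.1 = lift3 D k (y j) := hz
    show dist (S.p4 (S.bot4 z)).1.1.1.1 b < _
    rw [dense_p4_bot4 hD S, hz']
    · exact hyd
    · intro u
      rw [hz', dense_lift_good]; norm_num
  -- step 3 : the end of the arc
  have h3 : JoinedIn {z | dist (Pf S z) b < 3 * ε} (S.bot4 (S.T j 1))
      (S.bd4.c (S.w j) apex) := by
    refine (S.joinedIn_end hD1 j).mono fun z hz => ?_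
    have hz' : S.p4 z = S.T j 1 := hz
    show dist (S.p4 z).1.1.1.1 b < _
    rw [hz', hr]
    exact hyd
  exact ⟨S.w j, h3.symm.trans (h2.trans h1.symm)⟩

theorem dense_stepCone (hD : D.OK) {ε κ : ℝ} (hκ : 0 < κ)
    (hκ1 : κ < 1) (hsm : ∀ v b b', nm (D.F v b) ≤ κ → nm (D.F v b') ≤ κ → dist b b' < ε)
    (S : SlideData (bd1 (bd3 D k) (1 / 2)) n) (x : ↥S.B4)
    (v : D.V) (hv : nm (D.F v (Pf S x)) ≤ κ) :
    ∃ θ : TH, JoinedIn {z | dist (Pf S z) (Pf S x) < ε} x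
      (S.bot4 (bot1 (bd3 D k) (1 / 2) (lift3 D k (D.c v (rad κ θ))))) := by
  have hD3 := bd3_ok D k hD
  have := compactSpace_B3 D k hD
  have hD1 := bd1_ok (bd3 D k) hD3 (κ := 1 / 2) (by norm_num) (by norm_num)
  have := compactSpace_B1 (bd3 D k) (κ := 1 / 2) hD3
  have hε : 0 < ε := by simpa using hsm v _ _ hv hv
  -- the good case
  have good : ∀ x' : ↥S.B4, Pf S x' = Pf S x → S.p4 x' ∈ (bd1 (bd3 D k) (1 / 2)).good →
      ∃ θ : TH, JoinedIn {z | dist (Pf S z) (Pf S x) < ε} x'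
      (S.bot4 (bot1 (bd3 D k) (1 / 2) (lift3 D k (D.c v (rad κ θ))))) := by
    intro x' hx' hg
    have hg' := (dense_good_iff (by norm_num) (S.p4 x')).1 hg
    have h1 := dense_stepFiber hD S x' hg
    have hv' : nm (D.F v (S.p4 x').1.1.1.1) ≤ κ := by
      have : (S.p4 x').1.1.1.1 = Pf S x := hx'
      rw [this]; exact hv
    obtain ⟨θ, hθ⟩ := joinedIn_B3 D k hD v hκ hκ1 (κ' := 1 / 2) (by norm_num) (by norm_num)
      (S.p4 x').1.1 hv' hg'
    refine ⟨θ, JoinedIn.trans (h1.mono fun z hz => ?_) ?_⟩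
    · have : Pf S z = Pf S x' := hz
      show dist (Pf S z) (Pf S x) < ε
      rw [this, hx', dist_self]; exact hε
    · have h2 := hθ.map_continuousOn (f := fun z => S.bot4 (bot1 (bd3 D k) (1 / 2) z))
        ((S.continuous_bot4 hD1).comp (continuous_bot1 _ hD3)).continuousOn
      refine h2.mono ?_
      rintro _ ⟨z, hz, rfl⟩
      have hz1 : nm (D.F v z.1.1) ≤ κ := hz.1
      have hz2 : ∀ u, 1 / 2 ≤ nm ((bd3 D k).F u z) := hz.2
      have h3 : S.p4 (S.bot4 (bot1 (bd3 D k) (1 / 2) z)) = bot1 (bd3 D k) (1 / 2) z :=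
        dense_p4_bot4 hD S hz2
      have h4 : Pf S (S.bot4 (bot1 (bd3 D k) (1 / 2) z)) = z.1.1 := by
        unfold Pf
        rw [h3]
        rfl
      show dist (Pf S (S.bot4 (bot1 (bd3 D k) (1 / 2) z))) (Pf S x) < ε
      rw [h4]
      exact hsm v _ _ hz1 hv
  by_cases hg : S.p4 x ∈ (bd1 (bd3 D k) (1 / 2)).good
  · exact good x rfl hg
  · -- the point lies over an open cone
    have : ∃ u : D.V × Fin k, nm ((bd1 (bd3 D k) (1 / 2)).F u (S.p4 x)) < 1 := by
      by_contra hc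
      push Not at hc
      exact hg fun u => le_antisymm (nm_le_one _) (hc u)
    obtain ⟨u, hu⟩ := this
    obtain ⟨θ, hθ⟩ := S.joinedIn_cone hD1 u x hu
    have hFc : nm ((bd3 D k).F u ((bd3 D k).c u (sh (1 / 2) (inc θ)))) = 1 / 2 := by
      have h0 : (bd3 D k).F u ((bd3 D k).c u (sh (1 / 2) (inc θ))) = sh (1 / 2) (inc θ) :=
        hD3.Fc u _
      rw [h0, nm_sh (by norm_num) (by norm_num), nm_inc]; norm_num
    have hconst : ∀ z : ↥S.B4, S.p4 z ∈ range ((bd1 (bd3 D k) (1 / 2)).c u) →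
        Pf S z = D.c u.1 apex := by
      rintro z ⟨w, hw⟩
      show (S.p4 z).1.1.1.1 = _
      rw [← hw]
      show ((bd3 D k).c u (sh (1 / 2) w)).1.1 = _
      have := bd3_c_val D k hD u.1 u.2 (sh (1 / 2) w)
      rw [show u = (u.1, u.2) from rfl, this]
    have hxc : Pf S x = D.c u.1 apex := by
      refine hconst x ⟨(bd1 (bd3 D k) (1 / 2)).F u (S.p4 x), ?_⟩
      exact hD1.cF u _ hu
    set y' := (bd1 (bd3 D k) (1 / 2)).c u (inc θ) with hy'
    have hgood : ∀ u', 1 / 2 ≤ nm ((bd3 D k).F u' y'.1.1) := by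
      intro u'
      have h1 : y'.1.1 = (bd3 D k).c u (sh (1 / 2) (inc θ)) := rfl
      have h2 : nm ((bd3 D k).F u y'.1.1) = 1 / 2 := hFc
      by_cases he : u' = u
      · rw [he, h2]
      · rcases hD3.disj u' u he y'.1.1 with h | h
        · rw [h]; norm_num
        · rw [h2] at h; norm_num at h
    have hp4 : S.p4 (S.bot4 y') = y' := dense_p4_bot4 hD S hgood
    have hend : Pf S (S.bot4 y') = Pf S x := by
      rw [hxc]
      exact hconst _ (by rw [hp4]; exact ⟨_, rfl⟩)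
    obtain ⟨θ', hθ'⟩ := good (S.bot4 y') hend (by
      rw [hp4]; exact (dense_good_iff (by norm_num) y').2 hgood)
    refine ⟨θ', JoinedIn.trans (hθ.mono fun z hz => ?_) hθ'⟩
    show dist (Pf S z) (Pf S x) < ε
    rw [hconst z hz, hxc, dist_self]; exact hε

theorem dense_final (hD : D.OK) {ε κ : ℝ} (hε : 0 < ε) (hκ : 0 < κ)
    (hκ1 : κ < 1) (hsm : ∀ v b b', nm (D.F v b) ≤ κ → nm (D.F v b') ≤ κ → dist b b' < ε)
    (S : SlideData (bd1 (bd3 D k) (1 / 2)) n) (y : Fin n → B)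
    (hST : ∀ j, ∃ r : ℝ, S.T j 1 = sec1 (bd3 D k) (1 / 2) r (lift3 D k (y j)))
    (_hy : ∀ j v, κ ≤ nm (D.F v (y j)))
    (hnet : ∀ b, (∀ v, κ ≤ nm (D.F v b)) →
        ∃ j, JoinedIn {b' | dist b' b < 3 * ε ∧ ∀ v, κ ≤ nm (D.F v b')} b (y j)) :
    ∀ x : ↥S.B4, ∃ v, JoinedIn {z | dist (Pf S z) (Pf S x) < 8 * ε} (S.bd4.c v apex) x := by
  intro x
  have hD3 := bd3_ok D k hD
  have := compactSpace_B3 D k hD
  by_cases hA : ∀ v, κ ≤ nm (D.F v (Pf S x))
  · have hz : (S.p4 x).1.1 = lift3 D k (Pf S x) := by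
      refine eq_lift3 D k hD (S.p4 x).1.1 fun v hv => ?_
      have h1 := hA v
      have h2 : D.F v (Pf S x) = apex := hv
      rw [h2, nm_apex] at h1
      linarith
    have hg : S.p4 x ∈ (bd1 (bd3 D k) (1 / 2)).good := by
      refine (dense_good_iff (by norm_num) (S.p4 x)).2 fun u => ?_
      rw [hz, dense_lift_good]; norm_num
    have h1 := dense_stepFiber hD S x hg
    rw [hz] at h1
    obtain ⟨v, hv⟩ := dense_stepNet hD hκ S y hST (Pf S x) (hnet _ hA)
    refine ⟨v, JoinedIn.trans (hv.mono fun z hz' => ?_) (h1.symm.mono fun z hz' => ?_)⟩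
    · have h2 : dist (Pf S z) (Pf S x) < 3 * ε := hz'
      exact lt_of_lt_of_le h2 (by linarith)
    · have : Pf S z = Pf S x := hz'
      show dist (Pf S z) (Pf S x) < 8 * ε
      rw [this, dist_self]; positivity
  · push Not at hA
    obtain ⟨v, hv⟩ := hA
    obtain ⟨θ, hθ⟩ := dense_stepCone hD hκ hκ1 hsm S x v hv.le
    set b' := D.c v (rad κ θ) with hb'
    have hFv : nm (D.F v b') = κ := by
      rw [hb', hD.Fc, nm_rad, cl_of_mem ⟨hκ.le, hκ1.le⟩]
    have hb'κ : ∀ u, κ ≤ nm (D.F u b') := by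
      intro u
      by_cases he : u = v
      · rw [he, hFv]
      · rcases hD.disj u v he b' with h | h
        · rw [h]; exact hκ1.le
        · rw [hFv] at h; exact absurd h hκ1.ne
    obtain ⟨v', hv'⟩ := dense_stepNet hD hκ S y hST b' (hnet _ hb'κ)
    have hdist : dist b' (Pf S x) < ε := hsm v _ _ hFv.le hv.le
    refine ⟨v', JoinedIn.trans (hv'.mono fun z hz => ?_) (hθ.symm.mono fun z hz => ?_)⟩
    · have h1 : dist (Pf S z) b' < 3 * ε := hz
      show dist (Pf S z) (Pf S x) < 8 * ε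
      have := dist_triangle (Pf S z) b' (Pf S x)
      linarith
    · have h1 : dist (Pf S z) (Pf S x) < ε := hz
      exact lt_of_lt_of_le h1 (by linarith)

end

end Pool.MP55
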