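import Pool.Agent.Lib.MP_55dccf_gt.AE2
import Pool.Agent.Lib.MP_55dccf_gt.Cone
import Pool.Agent.Lib.MP_55dccf_gt.Desc

/-!
# MP_55dccf_gt : T15, nets and paths
-/

set_option autoImplicit false

open Set Topology TopologicalSpace unitInterval

namespace Pool.MP55

section T15

variable {B : Type} [MetricSpace B] [CompactSpace B] (D : BD B)

theorem exists_small_cones (hD : D.OK) {ε : ℝ} (hε : 0 < ε) : ∃ κ, 0 < κ ∧ κ < 1 ∧
    ∀ v b b', nm (D.F v b) ≤ κ → nm (D.F v b') ≤ κ → dist b b' < ε := by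
  have h1 : ∀ v : D.V, ∃ d > 0, ∀ z : CN, nm z < d → dist (D.c v z) (D.c v apex) < ε / 2 := by
    intro v
    obtain ⟨d, hd, h⟩ := Metric.continuousAt_iff.1 ((hD.hc v).continuousAt (x := apex)) (ε / 2)
      (half_pos hε)
    refine ⟨d, hd, fun z hz => h ?_⟩
    have : dist z apex = nm z := by
      have h0 : (apex : CN).1 = 0 := by
        have : ‖(apex : CN).1‖ = 0 := nm_apex
        exact norm_eq_zero.1 this
      rw [Subtype.dist_eq, h0, dist_zero_right]; rfl
    rw [this]; exact hz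
  choose d hd h using h1
  obtain ⟨v0, hv0⟩ := Finite.exists_min d
  refine ⟨min (1 / 2) (d v0 / 2), lt_min (by norm_num) (half_pos (hd v0)),
    (min_le_left _ _).trans_lt (by norm_num), fun v b b' hb hb' => ?_⟩
  have hlt1 : min (1 / 2) (d v0 / 2) < 1 := (min_le_left _ _).trans_lt (by norm_num)
  have hltd : min (1 / 2) (d v0 / 2) < d v :=
    (min_le_right _ _).trans_lt ((half_lt_self (hd v0)).trans_le (hv0 v))
  have e1 := h v _ (hb.trans_lt hltd)
  have e2 := h v _ (hb'.trans_lt hltd)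
  rw [hD.cF v b (hb.trans_lt hlt1)] at e1
  rw [hD.cF v b' (hb'.trans_lt hlt1)] at e2
  calc dist b b' ≤ dist b (D.c v apex) + dist b' (D.c v apex) := dist_triangle_right _ _ _
    _ < ε / 2 + ε / 2 := add_lt_add e1 e2
    _ = ε := add_halves ε

/-- a point of radius `κ` -/
private lemma net_F_sphere (hD : D.OK) {κ : ℝ} (hκ : 0 < κ) (hκ1 : κ < 1) (v : D.V) (θ : TH) :
    nm (D.F v (D.c v (rad κ θ))) = κ := by
  rw [hD.Fc, nm_rad, cl_of_mem ⟨hκ.le, hκ1.le⟩]

/-- points of radius `κ` for one blocker are outside the open subcones of radius `κ` -/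
private lemma net_sphere_mem (hD : D.OK) {κ : ℝ} (hκ1 : κ < 1) {v : D.V} {b : B}
    (hb : nm (D.F v b) = κ) : ∀ u, κ ≤ nm (D.F u b) := by
  intro u
  by_cases huv : u = v
  · subst huv; exact hb.ge
  · rcases hD.disj u v huv b with h | h
    · rw [h]; exact hκ1.le
    · rw [hb] at h; exact absurd h hκ1.ne

/-- the spheres are path connected -/
private lemma net_sphere_joined (hD : D.OK) {κ : ℝ} (hκ : 0 < κ) (hκ1 : κ < 1) (v : D.V)
    (θ θ' : TH) : JoinedIn {b | nm (D.F v b) = κ} (D.c v (rad κ θ)) (D.c v (rad κ θ')) := by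
  have h : Joined θ θ' := PathConnectedSpace.joined θ θ'
  obtain ⟨p⟩ := h
  have hc : Continuous fun x : TH => D.c v (rad κ x) :=
    (hD.hc v).comp (continuous_rad.comp (continuous_const.prodMk continuous_id))
  exact ⟨p.map hc, fun t => net_F_sphere D hD hκ hκ1 v _⟩

/-- follow a path until it hits a subcone of radius `κ` -/
private lemma net_exit (hD : D.OK) {κ : ℝ} (hκ1 : κ < 1) {S : Set B} {x y : B}
    (hx : ∀ v, κ ≤ nm (D.F v x)) (h : JoinedIn S x y) :
    JoinedIn (S ∩ {b | ∀ v, κ ≤ nm (D.F v b)}) x y ∨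
      ∃ v θ, JoinedIn (S ∩ {b | ∀ v, κ ≤ nm (D.F v b)}) x (D.c v (rad κ θ)) := by
  obtain ⟨p, hp⟩ := h
  have hcont : ∀ v, Continuous fun t : I => nm (D.F v (p t)) := fun v =>
    continuous_nm.comp ((hD.hF v).comp p.continuous)
  set T : Set I := {t | ∃ v, nm (D.F v (p t)) ≤ κ} with hT
  have hTc : IsClosed T := by
    rw [hT]
    simp only [Set.ofPred_exists]
    exact isClosed_iUnion_of_finite fun v => isClosed_le (hcont v) continuous_const
  rcases T.eq_empty_or_nonempty with hemp | hne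
  · left
    refine ⟨p, fun t => ⟨hp t, fun v => ?_⟩⟩
    by_contra hlt
    have : t ∈ T := ⟨v, (not_le.1 hlt).le⟩
    rw [hemp] at this; exact this
  · right
    obtain ⟨t₀, ht₀, hmin⟩ := hTc.isCompact.exists_isLeast hne
    have hlt : ∀ t < t₀, ∀ v, κ < nm (D.F v (p t)) := by
      intro t ht v
      by_contra hle
      exact absurd (hmin ⟨v, not_lt.1 hle⟩) (not_le.2 ht)
    have hat : ∀ v, κ ≤ nm (D.F v (p t₀)) := by
      intro v
      rcases eq_or_lt_of_le (bot_le : (⊥ : I) ≤ t₀) with h0 | h0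
      · rw [← h0]
        have : p (⊥ : I) = x := p.source
        rw [this]; exact hx v
      · have hcl : IsClosed {t : I | κ ≤ nm (D.F v (p t))} := isClosed_le continuous_const (hcont v)
        have hsub : Iio t₀ ⊆ {t : I | κ ≤ nm (D.F v (p t))} := fun t (ht : t < t₀) => (hlt t ht v).le
        have hmem : t₀ ∈ closure (Iio t₀) := by
          have hne' : (Iio t₀).Nonempty := ⟨⊥, h0⟩
          rw [closure_Iio' hne']; exact (le_refl t₀ : t₀ ≤ t₀)
        exact (closure_minimal hsub hcl) hmem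
    obtain ⟨v, hv⟩ := ht₀
    have hveq : nm (D.F v (p t₀)) = κ := le_antisymm hv (hat v)
    have hpt : p t₀ = D.c v (rad κ (dirT (D.F v (p t₀)))) := by
      have e1 : D.c v (D.F v (p t₀)) = p t₀ := hD.cF v _ (hv.trans_lt hκ1)
      have e2 : rad κ (dirT (D.F v (p t₀))) = D.F v (p t₀) := rad_dirT_of hveq
      rw [e2, e1]
    refine ⟨v, dirT (D.F v (p t₀)), ?_⟩
    rw [← hpt]
    -- truncated path
    let q : Path x (p t₀) :=
      { toFun := fun t => p (min t t₀)
        continuous_toFun := p.continuous.comp (continuous_id.min continuous_const)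
        source' := by
          have : min (0 : I) t₀ = 0 := min_eq_left (unitInterval.nonneg' )
          rw [this]; exact p.source
        target' := by
          have : min (1 : I) t₀ = t₀ := min_eq_right (unitInterval.le_one')
          rw [this] }
    refine ⟨q, fun t => ⟨hp _, fun u => ?_⟩⟩
    change κ ≤ nm (D.F u (p (min t t₀)))
    rcases lt_or_ge t t₀ with h | h
    · rw [min_eq_left h.le]; exact (hlt t h u).le
    · rw [min_eq_right h]; exact hat u

/-- paths from the cones to the points of a net -/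
private lemma net_path (hD : D.OK) {δ κ : ℝ} (hd : D.PathDense δ) (hκ : 0 < κ) (hκ1 : κ < 1)
    (hsm : ∀ v b b', nm (D.F v b) ≤ κ → nm (D.F v b') ≤ κ → dist b b' < δ)
    {y : B} (hy : ∀ v, κ ≤ nm (D.F v y)) :
    ∃ (u : D.V) (ω : ℝ → B), Continuous ω ∧ ω 0 = D.c u (rad κ baseT) ∧
      (∀ t ∈ Icc (0 : ℝ) 1, ∀ v, κ ≤ nm (D.F v (ω t))) ∧
      (∀ t ∈ Icc (0 : ℝ) 1, dist (ω t) (D.c u apex) ≤ 3 * δ) ∧ ω 1 = y := by
  obtain ⟨v₀, hv₀⟩ := hd y
  have hapex : ∀ v : D.V, nm (D.F v (D.c v apex)) = 0 := fun v => by rw [hD.Fc, nm_apex]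
  rcases net_exit D hD hκ1 hy hv₀.symm with h | ⟨u, θ, h⟩
  · have := h.target_mem.2 v₀
    rw [hapex] at this; linarith
  · set S : Set B := {b | dist b (D.c u apex) ≤ 3 * δ} ∩ {b | ∀ v, κ ≤ nm (D.F v b)} with hS
    have hsp : ∀ b, nm (D.F u b) = κ → dist b (D.c u apex) < δ := fun b hb =>
      hsm u b _ hb.le (by rw [hapex]; exact hκ.le)
    have hend : dist y (D.c u (rad κ θ)) < δ := by
      have := h.target_mem.1
      rw [Metric.mem_ball, dist_comm] at this; exact this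
    have hcu : dist (D.c u (rad κ θ)) (D.c u apex) < δ := hsp _ (net_F_sphere D hD hκ hκ1 u θ)
    have hδ : 0 < δ := lt_of_le_of_lt dist_nonneg hcu
    have h1 : JoinedIn S y (D.c u (rad κ θ)) := by
      refine h.mono fun b hb => ⟨?_, hb.2⟩
      have hb1 : dist b y < δ := hb.1
      have := dist_triangle4 b y (D.c u (rad κ θ)) (D.c u apex)
      change dist b (D.c u apex) ≤ 3 * δ
      linarith
    have h2 : JoinedIn S (D.c u (rad κ θ)) (D.c u (rad κ baseT)) := by
      refine (net_sphere_joined D hD hκ hκ1 u θ baseT).mono fun b hb => ⟨?_, ?_⟩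
      · have := hsp b hb
        change dist b (D.c u apex) ≤ 3 * δ
        linarith
      · exact net_sphere_mem D hD hκ1 hb
    obtain ⟨p, hp⟩ := (h1.trans h2).symm
    refine ⟨u, p.extend, p.continuous_extend, p.extend_zero, fun t ht v => ?_,
      fun t ht => ?_, p.extend_one⟩
    · rw [p.extend_apply ht]; exact (hp _).2 v
    · rw [p.extend_apply ht]; exact (hp _).1

theorem exists_net (hD : D.OK) (hB : IsAE B) {δ ε κ : ℝ} (hδ : 0 < δ) (hε : 0 < ε)
    (hd : D.PathDense δ) (hκ : 0 < κ) (hκ1 : κ < 1)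
    (hsm : ∀ v b b', nm (D.F v b) ≤ κ → nm (D.F v b') ≤ κ → dist b b' < min δ ε) :
    ∃ (n : ℕ) (_ : NeZero n) (u : Fin n → D.V) (ω : Fin n → ℝ → B),
      (∀ j, ContinuousOn (ω j) (Icc 0 1)) ∧
      (∀ j, ω j 0 = D.c (u j) (rad κ baseT)) ∧
      (∀ j, ∀ t ∈ Icc (0 : ℝ) 1, ∀ v, κ ≤ nm (D.F v (ω j t))) ∧
      (∀ j, ∀ t ∈ Icc (0 : ℝ) 1, dist (ω j t) (D.c (u j) apex) ≤ 3 * δ) ∧
      ∀ b, (∀ v, κ ≤ nm (D.F v b)) →
        ∃ j, JoinedIn {b' | dist b' b < 3 * ε ∧ ∀ v, κ ≤ nm (D.F v b')} b (ω j 1) := by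
  have hsmδ : ∀ v b b', nm (D.F v b) ≤ κ → nm (D.F v b') ≤ κ → dist b b' < δ :=
    fun v b b' h h' => (hsm v b b' h h').trans_le (min_le_left _ _)
  have hsmε : ∀ v b b', nm (D.F v b) ≤ κ → nm (D.F v b') ≤ κ → dist b b' < ε :=
    fun v b b' h h' => (hsm v b b' h h').trans_le (min_le_right _ _)
  obtain ⟨η, hη, hjoin⟩ := exists_joinedIn_ball hB hε
  -- the closed set
  set K : Set B := {b | ∀ v, κ ≤ nm (D.F v b)} with hK
  have hKc : IsClosed K := by
    rw [hK]
    simp only [Set.ofPred_forall]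
    exact isClosed_iInter fun v => isClosed_le continuous_const (continuous_nm.comp (hD.hF v))
  obtain ⟨Y, hYK, hYfin, hYcov⟩ := finite_cover_balls_of_compact hKc.isCompact hη
  -- the index type
  have : Fintype ↥Y := hYfin.fintype
  have hpath : ∀ i : ↥Y ⊕ D.V, ∃ (u : D.V) (ω : ℝ → B), Continuous ω ∧
      ω 0 = D.c u (rad κ baseT) ∧
      (∀ t ∈ Icc (0 : ℝ) 1, ∀ v, κ ≤ nm (D.F v (ω t))) ∧
      (∀ t ∈ Icc (0 : ℝ) 1, dist (ω t) (D.c u apex) ≤ 3 * δ) ∧
      ω 1 = Sum.elim (fun y => y.1) (fun v => D.c v (rad κ baseT)) i := by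
    rintro (y | v)
    · exact net_path D hD hd hκ hκ1 hsmδ (hYK y.2)
    · exact net_path D hD hd hκ hκ1 hsmδ
        (net_sphere_mem D hD hκ1 (net_F_sphere D hD hκ hκ1 v baseT))
  choose u ω hω h0 hin hdist h1 using hpath
  have hcard : 0 < Fintype.card (↥Y ⊕ D.V) := Fintype.card_pos
  let e : Fin (Fintype.card (↥Y ⊕ D.V)) ≃ ↥Y ⊕ D.V := (Fintype.equivFin _).symm
  refine ⟨Fintype.card (↥Y ⊕ D.V), ⟨hcard.ne'⟩, fun j => u (e j), fun j => ω (e j),
    fun j => (hω _).continuousOn, fun j => h0 _, fun j => hin _, fun j => hdist _,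
    fun b hb => ?_⟩
  have hsub : ∀ i : ↥Y ⊕ D.V, JoinedIn {b' | dist b' b < 3 * ε ∧ ∀ v, κ ≤ nm (D.F v b')} b
      (Sum.elim (fun y => y.1) (fun v => D.c v (rad κ baseT)) i) →
      ∃ j, JoinedIn {b' | dist b' b < 3 * ε ∧ ∀ v, κ ≤ nm (D.F v b')} b (ω (e j) 1) := by
    intro i hi
    refine ⟨e.symm i, ?_⟩
    rw [Equiv.apply_symm_apply, h1]; exact hi
  obtain ⟨y, hyY, hy⟩ := mem_iUnion₂.1 (hYcov hb)
  have hj := hjoin b y (by simpa using hy)
  rcases net_exit D hD hκ1 hb hj with h | ⟨v, θ, h⟩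
  · refine hsub (Sum.inl ⟨y, hyY⟩) (h.mono fun b' hb' => ⟨?_, hb'.2⟩)
    have : dist b' b < ε := hb'.1
    linarith
  · refine hsub (Sum.inr v) ?_
    have h2 : JoinedIn {b' | dist b' b < 3 * ε ∧ ∀ v, κ ≤ nm (D.F v b')} b
        (D.c v (rad κ θ)) := h.mono fun b' hb' => ⟨by
          have : dist b' b < ε := hb'.1
          linarith, hb'.2⟩
    have hd1 : dist (D.c v (rad κ θ)) b < ε := h.target_mem.1
    refine h2.trans ((net_sphere_joined D hD hκ hκ1 v θ baseT).mono fun b' hb' => ⟨?_, ?_⟩)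
    · have e1 : dist b' (D.c v (rad κ θ)) < ε :=
        hsmε v _ _ (le_of_eq hb') (net_F_sphere D hD hκ hκ1 v θ).le
      have := dist_triangle b' (D.c v (rad κ θ)) b
      linarith
    · exact net_sphere_mem D hD hκ1 hb'

end T15

end Pool.MP55
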