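import Pool.Agent.Lib.MP_55dccf_gt.Defs2
import Pool.Agent.Lib.MP_55dccf_gt.Cone
import Pool.Agent.Lib.MP_55dccf_gt.Blow
import Pool.Agent.Lib.MP_55dccf_gt.Push
import Pool.Agent.Lib.MP_55dccf_gt.Thick
import Pool.Agent.Lib.MP_55dccf_gt.Slide1
import Pool.Agent.Lib.MP_55dccf_gt.Slide2
import Pool.Agent.Lib.MP_55dccf_gt.PfDef

/-!
# MP_55dccf_gt, T18: the maps `Q` and `H` of the macro step
-/

set_option autoImplicit false

open Set Topology TopologicalSpace unitInterval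

namespace Pool.MP55

/-- concatenation of two homotopies -/
theorem qh_concat {X Y : Type} [TopologicalSpace X] [TopologicalSpace Y]
    {K₁ K₂ : X × I → Y} (h₁ : Continuous K₁) (h₂ : Continuous K₂)
    (h : ∀ x, K₁ (x, 1) = K₂ (x, 0)) :
    ∃ K : X × I → Y, Continuous K ∧ (∀ x, K (x, 0) = K₁ (x, 0)) ∧
      (∀ x, K (x, 1) = K₂ (x, 1)) ∧
      ∀ x t, (∃ s, K (x, t) = K₁ (x, s)) ∨ ∃ s, K (x, t) = K₂ (x, s) := by
  classical
  refine ⟨fun p => if (p.2 : ℝ) ≤ 1 / 2 then K₁ (p.1, projIcc 0 1 zero_le_one (2 * p.2))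
    else K₂ (p.1, projIcc 0 1 zero_le_one (2 * p.2 - 1)), ?_, ?_, ?_, ?_⟩
  · refine Continuous.if_le ?_ ?_ (by fun_prop) continuous_const ?_
    · exact h₁.comp (continuous_fst.prodMk (continuous_projIcc.comp (by fun_prop)))
    · exact h₂.comp (continuous_fst.prodMk (continuous_projIcc.comp (by fun_prop)))
    · intro p hp
      have e1 : projIcc (0:ℝ) 1 zero_le_one (2 * (p.2 : ℝ)) = 1 :=
        projIcc_of_right_le _ (by rw [hp]; norm_num)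
      have e2 : projIcc (0:ℝ) 1 zero_le_one (2 * (p.2 : ℝ) - 1) = 0 :=
        projIcc_of_le_left _ (by rw [hp]; norm_num)
      rw [e1, e2]
      exact h p.1
  · intro x
    have e1 : projIcc (0:ℝ) 1 zero_le_one (2 * ((0 : I) : ℝ)) = 0 :=
      projIcc_of_le_left _ (by simp)
    have e2 : (((x, (0 : I)) : X × I).2 : ℝ) ≤ 1 / 2 := by simp
    show (if (((x, (0 : I)) : X × I).2 : ℝ) ≤ 1 / 2 then _ else _) = _
    rw [if_pos e2]
    exact congrArg (fun t => K₁ (x, t)) e1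
  · intro x
    have e1 : projIcc (0:ℝ) 1 zero_le_one (2 * ((1 : I) : ℝ) - 1) = 1 :=
      projIcc_of_right_le _ (by norm_num)
    have e2 : ¬ (((x, (1 : I)) : X × I).2 : ℝ) ≤ 1 / 2 := by norm_num
    show (if (((x, (1 : I)) : X × I).2 : ℝ) ≤ 1 / 2 then _ else _) = _
    rw [if_neg e2]
    exact congrArg (fun t => K₂ (x, t)) e1
  · intro x t
    by_cases ht : (t : ℝ) ≤ 1 / 2
    · exact Or.inl ⟨_, if_pos ht⟩
    · exact Or.inr ⟨_, if_neg ht⟩

section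

variable {B : Type} [MetricSpace B] [CompactSpace B] {D : BD B} {n k : ℕ} [NeZero k]

theorem qh_compact3 (hD : D.OK) : CompactSpace ↥(B3 D k) := compactSpace_B3 D k hD

theorem qh_Lam (hD : D.OK) {δ : ℝ} (hδ : 0 < δ)
    (S : SlideData (bd1 (bd3 D k) (1 / 2)) n)
    (hS : ∀ j, ∀ t ∈ Icc (0 : ℝ) 1, dist (S.T j t).1.1.1.1 (D.c (S.w j).1 apex) ≤ 3 * δ)
    (j : Fin n) {y : ↥(B1 (bd3 D k) (1 / 2))} (hy : y ∈ S.Lam j) :
    dist y.1.1.1.1 (D.c (S.w j).1 apex) ≤ 3 * δ := by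
  rcases hy with ⟨z, rfl⟩ | ⟨t, ht, rfl⟩
  · have h1 : ((bd1 (bd3 D k) (1 / 2)).c (S.w j) z).1.1.1.1 = D.c (S.w j).1 apex := by
      show ((bd3 D k).c (S.w j) (sh (1 / 2) z)).1.1 = _
      rw [show S.w j = ((S.w j).1, (S.w j).2) from rfl, bd3_c_val D k hD]
    rw [h1, dist_self]
    positivity
  · exact hS j t ht

theorem qh_base (hD : D.OK) (v : (bd1 (bd3 D k) (1 / 2)).V) {y : ↥(B1 (bd3 D k) (1 / 2))}
    (hy : nm ((bd1 (bd3 D k) (1 / 2)).F v y) < 1) :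
    y.1.1.1.1 = D.c v.1 apex := by
  have := qh_compact3 (k := k) hD
  have h0 : (bd3 D k).OK := bd3_ok D k hD
  have h1 : (bd1 (bd3 D k) (1 / 2)).OK := bd1_ok _ h0 (by norm_num) (by norm_num)
  rw [← h1.cF v y hy]
  show ((bd3 D k).c v (sh (1 / 2) _)).1.1 = _
  rw [show v = (v.1, v.2) from rfl, bd3_c_val D k hD]

theorem qh_bot4 (hD : D.OK) {δ : ℝ} (hδ : 0 < δ)
    (S : SlideData (bd1 (bd3 D k) (1 / 2)) n)
    (hS : ∀ j, ∀ t ∈ Icc (0 : ℝ) 1, dist (S.T j t).1.1.1.1 (D.c (S.w j).1 apex) ≤ 3 * δ)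
    (y : ↥(B1 (bd3 D k) (1 / 2))) : dist (Pf S (S.bot4 y)) y.1.1.1.1 ≤ 3 * δ := by
  have := qh_compact3 (k := k) hD
  have h0 : (bd3 D k).OK := bd3_ok D k hD
  have : CompactSpace ↥(B1 (bd3 D k) (1 / 2)) := compactSpace_B1 _ h0
  have h1 : (bd1 (bd3 D k) (1 / 2)).OK := bd1_ok _ h0 (by norm_num) (by norm_num)
  have e : Pf S (S.bot4 y) = (S.p0 y).1.1.1.1 := by
    show (S.p4 (S.bot4 y)).1.1.1.1 = _
    rw [S.p4_bot4 h1]
  rw [e]
  by_cases h : ∀ j, nm ((bd1 (bd3 D k) (1 / 2)).F (S.w j) y) = 1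
  · rw [S.p0_of_nm_one h1 h, dist_self]
    positivity
  · push Not at h
    obtain ⟨j, hj⟩ := h
    have hj' : nm ((bd1 (bd3 D k) (1 / 2)).F (S.w j) y) < 1 :=
      lt_of_le_of_ne (nm_le_one _) hj
    rw [qh_base hD (S.w j) hj']
    exact qh_Lam hD hδ S hS j (S.p0_mem_Lam h1 hj')

omit [MetricSpace B] [CompactSpace B] in
theorem qh_lift_nm (b : B) (v : (bd3 D k).V) : nm ((bd3 D k).F v (lift3 D k b)) = 1 := nm_inc _

omit [MetricSpace B] [CompactSpace B] in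
theorem qh_bot1_nm (b : B) (v : (bd1 (bd3 D k) (1 / 2)).V) :
    nm ((bd1 (bd3 D k) (1 / 2)).F v (bot1 (bd3 D k) (1 / 2) (lift3 D k b))) = 1 := by
  have h1 : nm ((bd3 D k).F v (lift3 D k b)) = 1 := qh_lift_nm b v
  have h2 : nm (st (1 / 2) ((bd3 D k).F v (lift3 D k b))) = 1 := by
    rw [nm_st (by norm_num), h1]
    norm_num
  exact h2

theorem qh_good (S : SlideData (bd1 (bd3 D k) (1 / 2)) n) (b : B) :
    S.bot4 (bot1 (bd3 D k) (1 / 2) (lift3 D k b)) ∈ S.bd4.good := by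
  intro v
  have h1 := qh_bot1_nm (D := D) (k := k) b v
  have h2 : nm (st (1 / 3) ((bd1 (bd3 D k) (1 / 2)).F v
      (bot1 (bd3 D k) (1 / 2) (lift3 D k b)))) = 1 := by
    rw [nm_st (by norm_num), h1]
    norm_num
  unfold SlideData.bd4
  dsimp only
  split_ifs
  · exact h2
  · exact h1

theorem qh_Pf_lift (hD : D.OK) (S : SlideData (bd1 (bd3 D k) (1 / 2)) n) (b : B) :
    Pf S (S.bot4 (bot1 (bd3 D k) (1 / 2) (lift3 D k b))) = b := by
  have := qh_compact3 (k := k) hD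
  have h0 : (bd3 D k).OK := bd3_ok D k hD
  have : CompactSpace ↥(B1 (bd3 D k) (1 / 2)) := compactSpace_B1 _ h0
  have h1 : (bd1 (bd3 D k) (1 / 2)).OK := bd1_ok _ h0 (by norm_num) (by norm_num)
  show (S.p4 (S.bot4 _)).1.1.1.1 = _
  rw [S.p4_bot4 h1, S.p0_of_nm_one h1 fun j => qh_bot1_nm b (S.w j)]
  rfl

/-- the vertical contraction of the thickened space -/
def qh_vert {B : Type} (D : BD B) (κ : ℝ) (p : ↥(B1 D κ) × I) : ↥(B1 D κ) :=
  ⟨(p.1.1.1, (1 - (p.2 : ℝ)) * p.1.1.2), by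
    refine ⟨mul_nonneg (by linarith [p.2.2.2]) p.1.2.1, ?_⟩
    exact (mul_le_of_le_one_left p.1.2.1 (by linarith [p.2.2.1])).trans p.1.2.2⟩

/-- T18 (QH.lean): the maps `Q` and `H` of the macro step -/
theorem exists_QH_final (hD : D.OK) (hB : IsAE B) {δ κ : ℝ} (hδ : 0 < δ) (hκ : 0 < κ)
    (hκ1 : κ < 1) (hsm : ∀ v b b', nm (D.F v b) ≤ κ → nm (D.F v b') ≤ κ → dist b b' < δ)
    (S : SlideData (bd1 (bd3 D k) (1 / 2)) n)
    (hS : ∀ j, ∀ t ∈ Icc (0 : ℝ) 1, dist (S.T j t).1.1.1.1 (D.c (S.w j).1 apex) ≤ 3 * δ) :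
    ∃ (Q : B → ↥S.B4) (H : ↥S.B4 × I → ↥S.B4), Continuous (Pf S) ∧ Continuous Q ∧
      Continuous H ∧ (∀ x, H (x, 0) = x) ∧ (∀ x, H (x, 1) = Q (Pf S x)) ∧
      (∀ b, dist (Pf S (Q b)) b ≤ 20 * δ) ∧
      (∀ x t, dist (Pf S (H (x, t))) (Pf S x) ≤ 20 * δ) ∧
      (∀ b ∈ D.good, Q b ∈ S.bd4.good ∧ Pf S (Q b) = b) ∧
      ∀ a s, Pf S (S.bd4.γ a s) = D.γ a s := by
  have := qh_compact3 (k := k) hD
  have h0 : (bd3 D k).OK := bd3_ok D k hD
  have : CompactSpace ↥(B1 (bd3 D k) (1 / 2)) := compactSpace_B1 _ h0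
  have h1 : (bd1 (bd3 D k) (1 / 2)).OK := bd1_ok _ h0 (by norm_num) (by norm_num)
  have hbot4 : Continuous S.bot4 := S.continuous_bot4 h1
  have hbot1 : Continuous (bot1 (bd3 D k) (1 / 2)) := continuous_bot1 _ h0
  have hp4 : Continuous S.p4 := S.continuous_p4 h1
  obtain ⟨q3, H3, hq3, hH3, hq3a, hq3b, hH30, hH31, hH3d⟩ := exists_q3 D k hD hB hκ hκ1
  obtain ⟨H4, hH4, hH40, hH41, hH4d⟩ := S.exists_H4 h1
  have hval : Continuous fun y : ↥(B1 (bd3 D k) (1 / 2)) => y.1.1 :=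
    continuous_fst.comp continuous_subtype_val
  have hvert : Continuous (qh_vert (bd3 D k) (1 / 2)) := by
    refine Continuous.subtype_mk ?_ _
    exact (hval.comp continuous_fst).prodMk
      ((continuous_const.sub (continuous_subtype_val.comp continuous_snd)).mul
        ((continuous_snd.comp continuous_subtype_val).comp continuous_fst))
  -- the three homotopies
  set K2 : ↥S.B4 × I → ↥S.B4 := fun p =>
    S.bot4 (qh_vert (bd3 D k) (1 / 2) (S.p4 p.1, p.2)) with hK2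
  set K3 : ↥S.B4 × I → ↥S.B4 := fun p =>
    S.bot4 (bot1 (bd3 D k) (1 / 2) (H3 ((S.p4 p.1).1.1, p.2))) with hK3
  have cK2 : Continuous K2 :=
    hbot4.comp (hvert.comp ((hp4.comp continuous_fst).prodMk continuous_snd))
  have cK3 : Continuous K3 :=
    hbot4.comp (hbot1.comp (hH3.comp
      ((hval.comp (hp4.comp continuous_fst)).prodMk continuous_snd)))
  have e12 : ∀ x, H4 (x, 1) = K2 (x, 0) := by
    intro x
    rw [hH41]
    show S.bot4 (S.p4 x) = S.bot4 (qh_vert (bd3 D k) (1 / 2) (S.p4 x, 0))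
    congr 1
    apply Subtype.ext
    show (S.p4 x).1 = ((S.p4 x).1.1, (1 - ((0 : I) : ℝ)) * (S.p4 x).1.2)
    simp
  obtain ⟨K, cK, hK0, hK1, hKd⟩ := qh_concat hH4 cK2 e12
  have e23 : ∀ x, K (x, 1) = K3 (x, 0) := by
    intro x
    rw [hK1]
    show S.bot4 (qh_vert (bd3 D k) (1 / 2) (S.p4 x, 1)) =
      S.bot4 (bot1 (bd3 D k) (1 / 2) (H3 ((S.p4 x).1.1, 0)))
    rw [hH30]
    congr 1
    apply Subtype.ext
    show ((S.p4 x).1.1, (1 - ((1 : I) : ℝ)) * (S.p4 x).1.2) = ((S.p4 x).1.1, 0)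
    simp
  obtain ⟨H, cH, hH0, hH1, hHd⟩ := qh_concat cK cK3 e23
  have hPf4 : ∀ y, dist (Pf S (S.bot4 y)) y.1.1.1.1 ≤ 3 * δ := qh_bot4 hD hδ S hS
  refine ⟨fun b => S.bot4 (bot1 (bd3 D k) (1 / 2) (q3 b)), H, ?_, hbot4.comp (hbot1.comp hq3),
    cH, ?_, ?_, ?_, ?_, ?_, ?_⟩
  · exact continuous_fst.comp (continuous_subtype_val.comp (hval.comp hp4))
  · intro x
    rw [hH0, hK0, hH40]
  · intro x
    rw [hH1]
    show S.bot4 (bot1 (bd3 D k) (1 / 2) (H3 ((S.p4 x).1.1, 1))) = _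
    rw [hH31]
    rfl
  · intro b
    have a1 := hPf4 (bot1 (bd3 D k) (1 / 2) (q3 b))
    have a2 : dist (q3 b).1.1 b ≤ δ := by
      rcases hq3b b with h | ⟨v, hv1, hv2⟩
      · rw [h, dist_self]
        exact hδ.le
      · exact (hsm v _ _ hv2 hv1).le
    have a3 : dist (Pf S (S.bot4 (bot1 (bd3 D k) (1 / 2) (q3 b)))) (q3 b).1.1 ≤ 3 * δ := a1
    linarith [dist_triangle (Pf S (S.bot4 (bot1 (bd3 D k) (1 / 2) (q3 b)))) (q3 b).1.1 b]
  · intro x t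
    rcases hHd x t with ⟨s, hs⟩ | ⟨s, hs⟩
    · rcases hKd x s with ⟨r, hr⟩ | ⟨r, hr⟩
      · rw [hs, hr]
        rcases hH4d x r with h | ⟨j, hj1, hj2⟩
        · rw [h, dist_self]
          positivity
        · have b1 := qh_Lam hD hδ S hS j hj1
          have b2 := qh_Lam hD hδ S hS j hj2
          have b3 : dist (Pf S (H4 (x, r))) (Pf S x) ≤ 3 * δ + 3 * δ :=
            (dist_triangle_right _ _ (D.c (S.w j).1 apex)).trans (add_le_add b2 b1)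
          linarith
      · rw [hs, hr]
        have b1 := hPf4 (qh_vert (bd3 D k) (1 / 2) (S.p4 x, r))
        have b2 : dist (Pf S (K2 (x, r))) (Pf S x) ≤ 3 * δ := b1
        linarith
    · rw [hs]
      have b1 : dist (Pf S (K3 (x, s))) (H3 ((S.p4 x).1.1, s)).1.1 ≤ 3 * δ :=
        hPf4 (bot1 (bd3 D k) (1 / 2) (H3 ((S.p4 x).1.1, s)))
      have b2 : dist (H3 ((S.p4 x).1.1, s)).1.1 (Pf S x) ≤ δ := by
        rcases hH3d (S.p4 x).1.1 s with h | ⟨v, hv1, hv2⟩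
        · rw [h]
          show dist (Pf S x) (Pf S x) ≤ δ
          rw [dist_self]
          exact hδ.le
        · exact (hsm v _ _ hv2 hv1).le
      linarith [dist_triangle (Pf S (K3 (x, s))) (H3 ((S.p4 x).1.1, s)).1.1 (Pf S x)]
  · intro b hb
    have e : q3 b = lift3 D k b := hq3a b fun v => by
      rw [hb v]
      exact hκ1.le
    show S.bot4 (bot1 (bd3 D k) (1 / 2) (q3 b)) ∈ S.bd4.good ∧
      Pf S (S.bot4 (bot1 (bd3 D k) (1 / 2) (q3 b))) = b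
    rw [e]
    exact ⟨qh_good S b, qh_Pf_lift hD S b⟩
  · intro a s
    exact qh_Pf_lift hD S (D.γ a s)

end

end Pool.MP55
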