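import Pool.Agent.Lib.MP_55dccf_gt.Defs2
import Pool.Agent.Lib.MP_55dccf_gt.Cone
import Pool.Agent.Lib.MP_55dccf_gt.Blow
import Pool.Agent.Lib.MP_55dccf_gt.Push
import Pool.Agent.Lib.MP_55dccf_gt.Thick
import Pool.Agent.Lib.MP_55dccf_gt.Slide1
import Pool.Agent.Lib.MP_55dccf_gt.Slide2
import Pool.Agent.Lib.MP_55dccf_gt.Net
import Pool.Agent.Lib.MP_55dccf_gt.Beta
import Pool.Agent.Lib.MP_55dccf_gt.Dense
import Pool.Agent.Lib.MP_55dccf_gt.QH
import Pool.Agent.Lib.MP_55dccf_gt.PushF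

set_option autoImplicit false

open Set Topology TopologicalSpace unitInterval

namespace Pool.MP55

/-- a metric on `B'` for which `P` is 1-Lipschitz and with small fibres -/
theorem macro_exists_metric {B B' : Type} [MetricSpace B] [t : TopologicalSpace B']
    [CompactSpace B'] [MetrizableSpace B'] (P : B' → B) (hP : Continuous P) {ε : ℝ}
    (hε : 0 < ε) : ∃ m : MetricSpace B', m.toUniformSpace.toTopologicalSpace = t ∧
      (∀ x y, dist (P x) (P y) ≤ m.dist x y) ∧
      ∀ x y, m.dist x y ≤ max (dist (P x) (P y)) (ε / 2) := by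
  let m0 : MetricSpace B' := metrizableSpaceMetric B'
  obtain ⟨C, hC⟩ : ∃ C : ℝ, ∀ x y : B', dist x y ≤ C := by
    obtain ⟨C, hC⟩ := Metric.isBounded_iff.1 (isCompact_univ (X := B')).isBounded
    exact ⟨C, fun x y => hC (mem_univ x) (mem_univ y)⟩
  have hC0 : 0 ≤ max C 0 := le_max_right _ _
  set η : ℝ := ε / 2 / (max C 0 + 1) with hη
  have hη0 : 0 < η := by positivity
  have hηC : ∀ x y : B', η * dist x y ≤ ε / 2 := fun x y => by
    have h1 : dist x y ≤ max C 0 + 1 := (hC x y).trans (by linarith [le_max_left C 0])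
    calc η * dist x y ≤ η * (max C 0 + 1) := by gcongr
      _ = ε / 2 := by rw [hη]; field_simp
  let d : B' → B' → ℝ := fun x y => max (dist (P x) (P y)) (η * dist x y)
  have hd0 : ∀ x, d x x = 0 := fun x => by simp [d]
  have hdc : ∀ x y, d x y = d y x := fun x y => by simp only [d, dist_comm]
  have hdt : ∀ x y z, d x z ≤ d x y + d y z := fun x y z => by
    refine max_le ?_ ?_
    · exact (dist_triangle _ (P y) _).trans (add_le_add (le_max_left _ _) (le_max_left _ _))
    · calc η * dist x z ≤ η * (dist x y + dist y z) := by gcongr; exact dist_triangle _ _ _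
        _ = η * dist x y + η * dist y z := by ring
        _ ≤ _ := add_le_add (le_max_right _ _) (le_max_right _ _)
  have hcont : Continuous fun p : B' × B' => d p.1 p.2 := by
    refine Continuous.max ?_ ?_
    · exact (hP.comp continuous_fst).dist (hP.comp continuous_snd)
    · exact continuous_const.mul (continuous_fst.dist continuous_snd)
  have hH : ∀ s : Set B', IsOpen s ↔ ∀ x ∈ s, ∃ e > 0, ∀ y, d x y < e → y ∈ s := by
    intro s
    constructor
    · intro hs x hx
      obtain ⟨r, hr, hrs⟩ := Metric.isOpen_iff.1 hs x hx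
      refine ⟨η * r, by positivity, fun y hy => hrs ?_⟩
      rw [Metric.mem_ball, dist_comm]
      have : η * dist x y < η * r := (le_max_right _ _).trans_lt hy
      exact lt_of_mul_lt_mul_left this hη0.le
    · intro h
      rw [isOpen_iff_mem_nhds]
      intro x hx
      obtain ⟨e, he, hes⟩ := h x hx
      have h1 : Continuous fun y => d x y := hcont.comp (Continuous.prodMk_right x)
      have h2 : {y | d x y < e} ∈ 𝓝 x := by
        apply (isOpen_lt h1 continuous_const).mem_nhds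
        simp only [mem_ofPred_eq, hd0]; exact he
      filter_upwards [h2] with y hy using hes y hy
  have hd1 : ∀ {x y : B'}, d x y = 0 → x = y := fun {x y} h => by
    have h1 : η * dist x y ≤ 0 := h ▸ le_max_right (dist (P x) (P y)) (η * dist x y)
    have h2 : dist x y ≤ 0 := by
      by_contra hc; push Not at hc; exact absurd h1 (not_le.2 (mul_pos hη0 hc))
    exact dist_le_zero.1 h2
  refine ⟨MetricSpace.ofDistTopology d hd0 hdc hdt hH (fun x y => hd1), rfl,
    fun x y => le_max_left _ _, fun x y => ?_⟩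
  exact max_le_max le_rfl (hηC x y)

/-- macro step, topological output -/
theorem exists_macro {B : Type} [MetricSpace B] [CompactSpace B] (D : BD B) (hD : D.OK)
    (hB : IsAE B) {δ ε : ℝ} (hδ : 0 < δ) (hε : 0 < ε) (hd : D.PathDense δ) :
    ∃ (B' : Type) (_ : TopologicalSpace B') (_ : CompactSpace B') (_ : MetrizableSpace B')
      (D' : BD B') (P : B' → B) (Q : B → B') (H : B' × I → B'),
      D'.OK ∧ IsAE B' ∧ MacroStep D D' P Q H (20 * δ) ε := by
  have hε8 : 0 < ε / 8 := by positivity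
  obtain ⟨κ, hκ, hκ1, hsm⟩ := exists_small_cones D hD (lt_min hδ hε8)
  obtain ⟨n, hn, u, ω, hω, hω0, hωκ, hωδ, hnet⟩ := exists_net D hD hB hδ hε8 hd hκ hκ1 hsm
  have hsmδ : ∀ v b b', nm (D.F v b) ≤ κ → nm (D.F v b') ≤ κ → dist b b' < δ :=
    fun v b b' h h' => (hsm v b b' h h').trans_le (min_le_left _ _)
  have hsmε : ∀ v b b', nm (D.F v b) ≤ κ → nm (D.F v b') ≤ κ → dist b b' < ε / 8 :=
    fun v b b' h h' => (hsm v b b' h h').trans_le (min_le_right _ _)
  obtain ⟨β, hβ, hβ0, hβ1, hβκ, hβδ⟩ := exists_beta D hD hδ hκ hκ1 hsmδ u ω hω hω0 hωκ hωδ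
  have hD3 := bd3_ok D n hD
  have := compactSpace_B3 D n hD
  obtain ⟨S, hSw, hST⟩ := exists_slideData (bd3 D n) hD3 (κ := 1 / 2) (by norm_num) (by norm_num) n
    (fun j => (u j, j)) (fun i j h => (Prod.ext_iff.1 h).2) β hβ hβ0 hβκ
  have hD1 := bd1_ok (bd3 D n) hD3 (κ := 1 / 2) (by norm_num) (by norm_num)
  have := compactSpace_B1 (bd3 D n) (κ := 1 / 2) hD3
  have := S.compactSpace_B4 hD1
  have hB3 := isAE_B3 D n hD hB
  have hB1 := isAE_B1 (bd3 D n) (κ := 1 / 2) hD3 hB3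
  have hS : ∀ j, ∀ t ∈ Icc (0 : ℝ) 1,
      dist (S.T j t).1.1.1.1 (D.c (S.w j).1 apex) ≤ 3 * δ := by
    intro j t ht
    rw [hST j t, hSw j]
    exact hβδ j t ht
  obtain ⟨Q, H, cP, cQ, cH, H0, H1, dQ, dH, hg, hγ⟩ :=
    exists_QH_final (D := D) hD hB hδ hκ hκ1 hsmδ S hS
  refine ⟨↥S.B4, inferInstance, inferInstance, inferInstance, S.bd4, Pf S, Q, H,
    S.bd4_ok hD1, S.isAE_B4 hD1 hB1, ⟨cP, cQ, cH, H0, H1, dQ, dH, ?_, fun b hb => (hg b hb).1,
    fun b hb => (hg b hb).2, hγ, fun t₀ τ hτ => push_final hD hδ hκ hκ1 hsmδ S hS t₀ hτ⟩⟩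
  have h := dense_final (D := D) hD hε8 hκ hκ1 hsmε S (fun j => ω j 1)
    (fun j => ⟨((j : ℕ) + 1) / (n + 1), by rw [hST j 1, hβ1 j]⟩)
    (fun j v => hωκ j 1 (by simp) v) hnet
  intro x
  obtain ⟨v, hv⟩ := h x
  refine ⟨v, ?_⟩
  have : (8 : ℝ) * (ε / 8) = ε := by ring
  rw [this] at hv
  exact hv

/-- macro step with metric -/
theorem exists_macro_metric {B : Type} [MetricSpace B] [CompactSpace B] (D : BD B) (hD : D.OK)
    (hB : IsAE B) {δ ε : ℝ} (hδ : 0 < δ) (hε : 0 < ε) (hd : D.PathDense δ) :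
    ∃ (B' : Type) (_ : MetricSpace B') (_ : CompactSpace B')
      (D' : BD B') (P : B' → B) (Q : B → B') (H : B' × I → B'),
      D'.OK ∧ IsAE B' ∧ MacroStep D D' P Q H (20 * δ) ε ∧
      (∀ x y, dist (P x) (P y) ≤ dist x y) ∧ D'.PathDense ε := by
  obtain ⟨B', t, c, mz, D', P, Q, H, ok, ae, ms⟩ := exists_macro D hD hB hδ hε hd
  obtain ⟨m, hm, h1, h2⟩ := macro_exists_metric P ms.cP hε
  subst hm
  refine ⟨B', m, c, D', P, Q, H, ok, ae, ms, h1, fun b => ?_⟩
  obtain ⟨v, hv⟩ := ms.dense b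
  refine ⟨v, hv.mono fun y hy => ?_⟩
  rw [Metric.mem_ball]
  exact (h2 y b).trans_lt (max_lt hy (by linarith))

end Pool.MP55
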