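import Pool.Agent.Lib.MP_55dccf_gt.Defs2
import Pool.Agent.Lib.MP_55dccf_gt.Cone
import Pool.Agent.Lib.MP_55dccf_gt.Cover
import Pool.Agent.Lib.MP_55dccf_gt.AEcone
import Pool.Agent.Lib.MP_55dccf_gt.Macro

/-!
# MP_55dccf_gt, T23 : existence of the tower with blockers
-/

set_option autoImplicit false

open Set Topology TopologicalSpace unitInterval

namespace Pool.MP55

/-- blocker data of the initial stage -/
noncomputable def exiD (ℓ : Circle → TH) : BD CN where
  V := Unit
  fin := inferInstance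
  dec := inferInstance
  ne := inferInstance
  F := fun _ => st (1 / 2)
  c := fun _ => sh (1 / 2)
  γ := fun a s => if a then rad (3 / 4) (ℓ s) else inc (ℓ s)

lemma exi_half_pos : (0 : ℝ) < 1 / 2 := by norm_num

lemma exi_half_le : (1 / 2 : ℝ) ≤ 1 := by norm_num

lemma exi_cl : cl (3 / 4) = 3 / 4 := cl_of_mem ⟨by norm_num, by norm_num⟩

lemma exiD_ok {ℓ : Circle → TH} (hℓ : Continuous ℓ) (he : Ess ℓ) : (exiD ℓ).OK where
  hF := fun _ => continuous_st exi_half_pos
  hc := fun _ => continuous_sh _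
  Fc := fun _ z => st_sh exi_half_pos exi_half_le z
  cF := fun _ b hb => sh_st exi_half_pos ((nm_st_lt_one_iff exi_half_pos).1 hb).le
  disj := fun u v huv => absurd (Subsingleton.elim (α := Unit) u v) huv
  hγ := by
    intro a
    cases a
    · exact continuous_inc.comp hℓ
    · exact continuous_rad.comp (continuous_const.prodMk hℓ)
  γn := by
    intro a v s
    cases a
    · change nm (st (1 / 2) (inc (ℓ s))) = 1
      rw [nm_st exi_half_pos, nm_inc]
      norm_num
    · change nm (st (1 / 2) (rad (3 / 4) (ℓ s))) = 1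
      rw [nm_st exi_half_pos, nm_rad, exi_cl]
      norm_num
  γE := by
    intro a v
    cases a
    · have : (fun s => dirT ((exiD ℓ).F v ((exiD ℓ).γ false s))) = ℓ := by
        funext s
        change dirT (st (1 / 2) (inc (ℓ s))) = ℓ s
        rw [dirT_st exi_half_pos, dirT_inc]
      rw [this]
      exact he
    · have : (fun s => dirT ((exiD ℓ).F v ((exiD ℓ).γ true s))) = ℓ := by
        funext s
        change dirT (st (1 / 2) (rad (3 / 4) (ℓ s))) = ℓ s
        rw [dirT_st exi_half_pos, dirT_rad (by norm_num)]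
      rw [this]
      exact he

lemma exi_dist_lt (x y : CN) : dist x y < 3 := by
  have hx := nm_le_one x
  have hy := nm_le_one y
  unfold nm at hx hy
  calc dist x y = ‖x.1 - y.1‖ := by rw [Subtype.dist_eq, dist_eq_norm]
    _ ≤ ‖x.1‖ + ‖y.1‖ := norm_sub_le _ _
    _ < 3 := by linarith

lemma exiD_dense (ℓ : Circle → TH) : (exiD ℓ).PathDense 3 := by
  intro b
  refine ⟨(), ?_⟩
  have hball : Metric.ball b 3 = univ := eq_univ_of_forall fun x => exi_dist_lt x b
  rw [hball, joinedIn_univ]
  have h0 : (exiD ℓ).c () apex = apex := sh_apex _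
  rw [h0]
  refine ⟨⟨⟨fun t : I => rad ((t : ℝ) * nm b) (dirT b), ?_⟩, ?_, ?_⟩⟩
  · exact continuous_rad.comp ((by fun_prop : Continuous fun t : I => (t : ℝ) * nm b).prodMk
      continuous_const)
  · change rad (((0 : I) : ℝ) * nm b) (dirT b) = apex
    rw [Set.Icc.coe_zero, zero_mul, rad_zero]
  · change rad (((1 : I) : ℝ) * nm b) (dirT b) = b
    rw [Set.Icc.coe_one, one_mul, rad_nm_dirT]

/-- one stage of the construction -/
structure ExiStage where
  B : Type
  ms : MetricSpace B
  cs : CompactSpace B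
  D : BD B
  ok : D.OK
  ae : IsAE B
  e : ℝ
  epos : 0 < e
  pd : D.PathDense e

attribute [instance] ExiStage.ms ExiStage.cs

/-- one step of the construction -/
structure ExiStep (s s' : ExiStage) where
  P : s'.B → s.B
  Q : s.B → s'.B
  H : s'.B × I → s'.B
  he : s'.e = s.e / 2
  step : MacroStep s.D s'.D P Q H (20 * s.e) s'.e
  lip : ∀ x y, dist (P x) (P y) ≤ dist x y

lemma exi_next (s : ExiStage) : ∃ s' : ExiStage, Nonempty (ExiStep s s') := by
  obtain ⟨B', ms', cs', D', P, Q, H, hok, hae, hst, hlip, hpd⟩ :=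
    exists_macro_metric s.D s.ok s.ae s.epos (half_pos s.epos) s.pd
  exact ⟨⟨B', ms', cs', D', hok, hae, s.e / 2, half_pos s.epos, hpd⟩,
    ⟨⟨P, Q, H, rfl, hst, hlip⟩⟩⟩

/-- the next stage -/
noncomputable def exiNext (s : ExiStage) : ExiStage := Classical.choose (exi_next s)

/-- the step to the next stage -/
noncomputable def exiStepTo (s : ExiStage) : ExiStep s (exiNext s) :=
  Classical.choice (Classical.choose_spec (exi_next s))

/-- the sequence of stages -/
noncomputable def exiSeq (s : ExiStage) : ℕ → ExiStage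
  | 0 => s
  | n + 1 => exiNext (exiSeq s n)

lemma exiSeq_e (s : ExiStage) : ∀ n, (exiSeq s n).e = s.e * (1 / 2) ^ n
  | 0 => by simp [exiSeq]
  | n + 1 => by
    have h1 : (exiSeq s (n + 1)).e = (exiSeq s n).e / 2 := (exiStepTo (exiSeq s n)).he
    rw [h1, exiSeq_e s n, pow_succ]
    ring

/-- the tower of a sequence of stages -/
noncomputable def exiTower (s : ExiStage) : Tower where
  B := fun n => (exiSeq s n).B
  ms := fun n => (exiSeq s n).ms
  cs := fun n => (exiSeq s n).cs
  ae := fun n => (exiSeq s n).ae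
  ne := fun n => ⟨(exiSeq s n).D.c (Classical.choice (exiSeq s n).D.ne) apex⟩
  δ := fun n => 20 * (exiSeq s n).e
  δpos := fun n => mul_pos (by norm_num) (exiSeq s n).epos
  δsum := by
    have h1 : (fun n => 20 * (exiSeq s n).e) = fun n : ℕ => (20 * s.e) * (1 / 2 : ℝ) ^ n := by
      funext n
      rw [exiSeq_e]
      ring
    rw [h1]
    exact (summable_geometric_of_lt_one (by norm_num) (by norm_num)).mul_left _
  P := fun n => (exiStepTo (exiSeq s n)).P
  Q := fun n => (exiStepTo (exiSeq s n)).Q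
  H := fun n => (exiStepTo (exiSeq s n)).H
  cP := fun n => (exiStepTo (exiSeq s n)).step.cP
  cQ := fun n => (exiStepTo (exiSeq s n)).step.cQ
  cH := fun n => (exiStepTo (exiSeq s n)).step.cH
  lip := fun n => (exiStepTo (exiSeq s n)).lip
  H0 := fun n => (exiStepTo (exiSeq s n)).step.H0
  H1 := fun n => (exiStepTo (exiSeq s n)).step.H1
  dQ := fun n => (exiStepTo (exiSeq s n)).step.dQ
  dH := fun n => (exiStepTo (exiSeq s n)).step.dH

/-- the tower with blockers of a sequence of stages -/
noncomputable def exiBTower (s : ExiStage) (h0 : ∀ t t', s.D.γ false t ≠ s.D.γ true t') :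
    BTower where
  toTower := exiTower s
  D := fun n => (exiSeq s n).D
  ok := fun n => (exiSeq s n).ok
  ε := fun n => (exiSeq s n).e
  εlim := by
    have h1 : (fun n => (exiSeq s n).e) = fun n : ℕ => s.e * (1 / 2 : ℝ) ^ n :=
      funext (exiSeq_e s)
    rw [h1]
    have h2 : Filter.Tendsto (fun n : ℕ => s.e * (1 / 2 : ℝ) ^ n) Filter.atTop (𝓝 (s.e * 0)) :=
      (tendsto_pow_atTop_nhds_zero_of_lt_one (by norm_num) (by norm_num)).const_mul _
    rwa [mul_zero] at h2
  dense := by
    intro n b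
    obtain ⟨v, hv⟩ := (exiSeq s n).pd b
    exact ⟨v, hv.source_mem⟩
  Pγ := fun n => (exiStepTo (exiSeq s n)).step.Pγ
  γ0 := h0
  goodQ := fun n => (exiStepTo (exiSeq s n)).step.goodQ
  goodP := fun n => (exiStepTo (exiSeq s n)).step.goodP
  push := fun n => (exiStepTo (exiSeq s n)).step.push

theorem exists_bTower : Nonempty BTower := by
  obtain ⟨ℓ, hℓ, he⟩ := exists_ess
  refine ⟨exiBTower ⟨CN, inferInstance, inferInstance, exiD ℓ, exiD_ok hℓ he, isAE_CN, 3,
    by norm_num, exiD_dense ℓ⟩ ?_⟩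
  intro t t' h
  have h1 : nm (inc (ℓ t)) = nm (rad (3 / 4) (ℓ t')) := congrArg nm h
  rw [nm_inc, nm_rad, exi_cl] at h1
  norm_num at h1

end Pool.MP55
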