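import Pool.Agent.Lib.MP_55dccf_gt.Defs2
import Pool.Agent.Lib.MP_55dccf_gt.Cone
import Pool.Agent.Lib.MP_55dccf_gt.Cover
import Pool.Agent.Lib.MP_55dccf_gt.AE1
import Pool.Agent.Lib.MP_55dccf_gt.AE2

set_option autoImplicit false

open Set Topology TopologicalSpace unitInterval

namespace Pool.MP55

/-! ## T24 : no `Z_2`-points -/

/-- the limit loops -/
noncomputable def noZ2_gam (T : BTower) (a : Bool) (s : Circle) : T.X :=
  ⟨fun n => (T.D n).γ a s, fun n => T.Pγ n a s⟩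

lemma noZ2_continuous_gam (T : BTower) (a : Bool) : Continuous (noZ2_gam T a) :=
  T.toTower.continuous_mk fun n => (T.ok n).hγ a

lemma noZ2_dist_coord (T : Tower) (x y : T.X) {m n : ℕ} (h : m ≤ n) :
    dist (x.1 m) (y.1 m) ≤ dist (x.1 n) (y.1 n) := by
  induction n, h using Nat.le_induction with
  | base => exact le_rfl
  | succ n _ ih =>
    refine ih.trans ?_
    rw [← x.2 n, ← y.2 n]
    exact T.lip n _ _

lemma noZ2_hit (T : BTower) (a : Bool) (d : ℂ → T.X)
    (hd : ContinuousOn d (Metric.closedBall 0 1)) (hb : ∀ z : Circle, d z = noZ2_gam T a z)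
    (n : ℕ) (v : (T.D n).V) :
    ∃ z ∈ Metric.closedBall (0 : ℂ) 1, (d z).1 n = (T.D n).c v apex := by
  by_contra hcon
  push Not at hcon
  have hok := T.ok n
  have hne : ∀ z ∈ Metric.closedBall (0 : ℂ) 1, (T.D n).F v ((d z).1 n) ≠ apex := by
    intro z hz h
    apply hcon z hz
    have h1 : nm ((T.D n).F v ((d z).1 n)) < 1 := by rw [h, nm_apex]; norm_num
    have h2 := hok.cF v _ h1
    rw [h] at h2
    exact h2.symm
  have hc : ContinuousOn (fun z => dirT ((T.D n).F v ((d z).1 n))) (Metric.closedBall 0 1) := by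
    have h1 : ContinuousOn (fun z => (T.D n).F v ((d z).1 n)) (Metric.closedBall 0 1) :=
      ((hok.hF v).comp (T.toTower.continuous_coord n)).comp_continuousOn hd
    exact continuousOn_dirT.comp h1 fun z hz => hne z hz
  obtain ⟨z, hz⟩ := Ess.no_disc (hok.γE a v) _ hc
  apply hz
  simp only [hb z]
  rfl

lemma noZ2_onto (T : BTower) (a : Bool) (d : ℂ → T.X)
    (hd : ContinuousOn d (Metric.closedBall 0 1)) (hb : ∀ z : Circle, d z = noZ2_gam T a z)
    (x : T.X) : ∃ z ∈ Metric.closedBall (0 : ℂ) 1, d z = x := by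
  have h1 : ∀ n, ∃ z ∈ Metric.closedBall (0 : ℂ) 1, dist ((d z).1 n) (x.1 n) < T.ε n := by
    intro n
    obtain ⟨v, hv⟩ := T.dense n (x.1 n)
    obtain ⟨z, hz, hzv⟩ := noZ2_hit T a d hd hb n v
    exact ⟨z, hz, by rw [hzv]; exact hv⟩
  choose z hz hzd using h1
  obtain ⟨w, hw, φ, hφ, hlim⟩ := (isCompact_closedBall (0 : ℂ) 1).tendsto_subseq hz
  refine ⟨w, hw, ?_⟩
  apply Subtype.ext; funext m
  have h2 : Filter.Tendsto (fun k => d (z (φ k))) Filter.atTop (𝓝 (d w)) := by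
    refine Filter.Tendsto.comp (hd w hw) ?_
    exact tendsto_nhdsWithin_iff.2 ⟨hlim, Filter.Eventually.of_forall fun k => hz _⟩
  have h3 : Filter.Tendsto (fun k => dist ((d (z (φ k))).1 m) (x.1 m)) Filter.atTop
      (𝓝 (dist ((d w).1 m) (x.1 m))) :=
    ((((T.toTower.continuous_coord m).tendsto _).comp h2).dist tendsto_const_nhds)
  have h4 : Filter.Tendsto (fun k => T.ε (φ k)) Filter.atTop (𝓝 0) :=
    T.εlim.comp hφ.tendsto_atTop
  have h5 : dist ((d w).1 m) (x.1 m) ≤ 0 := by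
    refine le_of_tendsto_of_tendsto h3 h4 ?_
    filter_upwards [hφ.tendsto_atTop.eventually_ge_atTop m] with k hk
    exact (noZ2_dist_coord T.toTower _ _ hk).trans (hzd _).le
  exact dist_le_zero.1 h5

/-- the direction of a complex number -/
noncomputable def noZ2_dir (z : ℂ) : Circle :=
  if h : z = 0 then 1 else ⟨z / ‖z‖, mem_sphere_zero_iff_norm.2 (by
    rw [norm_div, Complex.norm_real, norm_norm, div_self (norm_ne_zero_iff.2 h)])⟩

lemma noZ2_dir_coe {z : ℂ} (h : z ≠ 0) : (noZ2_dir z : ℂ) = z / ‖z‖ := by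
  simp [noZ2_dir, h]

lemma noZ2_dir_circle (z : Circle) : noZ2_dir z = z := by
  apply Circle.ext
  rw [noZ2_dir_coe z.coe_ne_zero, Circle.norm_coe]; simp

lemma noZ2_continuousOn_dir : ContinuousOn noZ2_dir {z | z ≠ 0} := by
  have h : ContinuousOn (fun z : ℂ => (noZ2_dir z : ℂ)) {z | z ≠ 0} := by
    have h1 : ContinuousOn (fun z : ℂ => z / (‖z‖ : ℂ)) {z | z ≠ 0} := by
      refine ContinuousOn.div continuousOn_id (by fun_prop) fun z hz => ?_
      have := norm_ne_zero_iff.2 hz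
      exact_mod_cast this
    exact h1.congr fun z hz => noZ2_dir_coe hz
  exact (Topology.IsInducing.subtypeVal.continuousOn_iff (f := noZ2_dir)).2 h

/-- the inscribed disc in the square -/
noncomputable def noZ2_e (z : ℂ) : Fin 2 → I :=
  ![projIcc 0 1 zero_le_one ((1 + z.re) / 2), projIcc 0 1 zero_le_one ((1 + z.im) / 2)]

lemma noZ2_continuous_e : Continuous noZ2_e := by
  refine continuous_pi fun i => ?_
  fin_cases i
  · exact (continuous_projIcc (h := (zero_le_one : (0 : ℝ) ≤ 1))).comp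
      (f := fun z : ℂ => (1 + z.re) / 2) (by fun_prop)
  · exact (continuous_projIcc (h := (zero_le_one : (0 : ℝ) ≤ 1))).comp
      (f := fun z : ℂ => (1 + z.im) / 2) (by fun_prop)

/-- the retraction of the square onto the inscribed disc -/
noncomputable def noZ2_r0 (t : Fin 2 → I) : ℂ :=
  ((2 * (t 0 : ℝ) - 1 : ℝ) : ℂ) + ((2 * (t 1 : ℝ) - 1 : ℝ) : ℂ) * Complex.I

noncomputable def noZ2_r (t : Fin 2 → I) : ℂ :=
  (((max 1 ‖noZ2_r0 t‖)⁻¹ : ℝ) : ℂ) * noZ2_r0 t

lemma noZ2_continuous_r0 : Continuous noZ2_r0 := by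
  unfold noZ2_r0; fun_prop

lemma noZ2_continuous_r : Continuous noZ2_r := by
  unfold noZ2_r
  refine Continuous.mul ?_ noZ2_continuous_r0
  refine Complex.continuous_ofReal.comp ?_
  refine Continuous.inv₀ (continuous_const.max noZ2_continuous_r0.norm) fun t => ?_
  have : (1 : ℝ) ≤ max 1 ‖noZ2_r0 t‖ := le_max_left _ _
  positivity

lemma noZ2_r_mem (t : Fin 2 → I) : noZ2_r t ∈ Metric.closedBall (0 : ℂ) 1 := by
  rw [mem_closedBall_zero_iff]
  unfold noZ2_r
  have h1 : (1 : ℝ) ≤ max 1 ‖noZ2_r0 t‖ := le_max_left _ _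
  have h2 : ‖noZ2_r0 t‖ ≤ max 1 ‖noZ2_r0 t‖ := le_max_right _ _
  rw [norm_mul, Complex.norm_real, Real.norm_of_nonneg (by positivity), inv_mul_le_iff₀ (by linarith),
    mul_one]
  exact h2

lemma noZ2_r_e {z : ℂ} (h : ‖z‖ ≤ 1) : noZ2_r (noZ2_e z) = z := by
  have h1 : |z.re| ≤ 1 := (Complex.abs_re_le_norm z).trans h
  have h2 : |z.im| ≤ 1 := (Complex.abs_im_le_norm z).trans h
  rw [abs_le] at h1 h2
  have e0 : ((noZ2_e z 0 : I) : ℝ) = (1 + z.re) / 2 := by
    change ((projIcc 0 1 zero_le_one ((1 + z.re) / 2) : I) : ℝ) = _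
    rw [projIcc_of_mem zero_le_one (⟨by linarith, by linarith⟩ : (1 + z.re) / 2 ∈ Icc (0:ℝ) 1)]
  have e1 : ((noZ2_e z 1 : I) : ℝ) = (1 + z.im) / 2 := by
    change ((projIcc 0 1 zero_le_one ((1 + z.im) / 2) : I) : ℝ) = _
    rw [projIcc_of_mem zero_le_one (⟨by linarith, by linarith⟩ : (1 + z.im) / 2 ∈ Icc (0:ℝ) 1)]
  have h0 : noZ2_r0 (noZ2_e z) = z := by
    unfold noZ2_r0
    rw [e0, e1]
    have a1 : (2 * ((1 + z.re) / 2) - 1 : ℝ) = z.re := by ring
    have a2 : (2 * ((1 + z.im) / 2) - 1 : ℝ) = z.im := by ring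
    rw [a1, a2]
    exact Complex.re_add_im z
  unfold noZ2_r
  rw [h0, max_eq_left h]
  simp

/-- no point of the limit is a `Z_2`-point (disc version) -/
theorem no_Z2 (T : BTower) (hX : IsAE T.X) (x : T.X) :
    ∃ f : C(Fin 2 → I, T.X), ∃ ε : ℝ, 0 < ε ∧ ∀ g : C(Fin 2 → I, T.X),
      (∀ t, dist (f t) (g t) < ε) → ∃ t, g t = x := by
  -- choose a loop missing `x`
  obtain ⟨a, ha⟩ : ∃ a, ∀ s, noZ2_gam T a s ≠ x := by
    by_contra hcon
    push Not at hcon
    obtain ⟨s, hs⟩ := hcon false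
    obtain ⟨t, ht⟩ := hcon true
    have h := hs.trans ht.symm
    exact T.γ0 s t (congrFun (congrArg Subtype.val h) 0)
  -- distance from `x` to the loop
  obtain ⟨η, hη, hηd⟩ : ∃ η > 0, ∀ s, η ≤ dist (noZ2_gam T a s) x := by
    obtain ⟨s0, -, hs0⟩ := isCompact_univ.exists_isMinOn (s := (univ : Set Circle)) ⟨1, mem_univ _⟩
      (f := fun s => dist (noZ2_gam T a s) x)
      (((noZ2_continuous_gam T a).dist continuous_const).continuousOn)
    exact ⟨dist (noZ2_gam T a s0) x, dist_pos.2 (ha s0), fun s => hs0 (mem_univ s)⟩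
  -- the disc
  obtain ⟨F, hF, hFe⟩ := IsAE.extend hX (Z := ↥(Metric.closedBall (0 : ℂ) 1))
    (C := {z | ‖(z : ℂ)‖ = 1}) (isClosed_eq (by fun_prop) continuous_const)
    (f := fun z => noZ2_gam T a (noZ2_dir z)) (by
      refine (noZ2_continuous_gam T a).comp_continuousOn ?_
      refine noZ2_continuousOn_dir.comp continuous_subtype_val.continuousOn fun z hz => ?_
      rintro h0
      rw [mem_ofPred_eq, h0, norm_zero] at hz
      exact zero_ne_one hz)
  obtain ⟨lam, hlam, hl0, hl1, hlx⟩ := exists_lam hX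
  -- modulus of continuity of `lam`
  obtain ⟨ε, hε, hlε⟩ : ∃ ε > 0, ∀ y y' : T.X, dist y' y < ε → ∀ s ∈ Icc (0 : ℝ) 1,
      dist (lam (y', y, s)) y < η := by
    have hc : Continuous fun p : T.X × T.X × I => lam (p.1, p.2.1, (p.2.2 : ℝ)) :=
      hlam.comp (by fun_prop)
    have hu := CompactSpace.uniformContinuous_of_continuous hc
    obtain ⟨ε, hε, h⟩ := Metric.uniformContinuous_iff.1 hu η hη
    refine ⟨ε, hε, fun y y' hyy s hs => ?_⟩
    have h1 := @h (y', y, ⟨s, hs⟩) (y, y, ⟨s, hs⟩) (by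
      rw [Prod.dist_eq, Prod.dist_eq]
      simp only [dist_self, max_self]
      exact max_lt hyy hε)
    simp only [hlx] at h1
    exact h1
  refine ⟨⟨fun t => F ⟨noZ2_r t, noZ2_r_mem t⟩, hF.comp (noZ2_continuous_r.subtype_mk _)⟩, ε, hε,
    fun g hg => ?_⟩
  -- the disc built from `g` and a collar
  let d : ℂ → T.X := fun z => if ‖z‖ ≤ 1 / 2 then g (noZ2_e (2 * z)) else
    lam (g (noZ2_e (noZ2_dir z)), noZ2_gam T a (noZ2_dir z), 2 * ‖z‖ - 1)
  have hd2 : ∀ z, 1 / 2 ≤ ‖z‖ → d z =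
      lam (g (noZ2_e (noZ2_dir z)), noZ2_gam T a (noZ2_dir z), 2 * ‖z‖ - 1) := by
    intro z hz
    by_cases h : ‖z‖ ≤ 1 / 2
    · have he : ‖z‖ = 1 / 2 := le_antisymm h hz
      have hz0 : z ≠ 0 := by rintro rfl; simp at he
      have h2 : (noZ2_dir z : ℂ) = 2 * z := by
        rw [noZ2_dir_coe hz0, he]; push_cast; ring
      simp only [d, if_pos h, h2, he]
      have : (2 * (1 / 2) - 1 : ℝ) = 0 := by norm_num
      rw [this, hl0]
    · simp only [d, if_neg h]
  have hdc : ContinuousOn d (Metric.closedBall 0 1) := by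
    have hA : ContinuousOn d {z | ‖z‖ ≤ 1 / 2} := by
      have : Continuous fun z : ℂ => g (noZ2_e (2 * z)) :=
        g.continuous.comp (noZ2_continuous_e.comp (by fun_prop))
      exact this.continuousOn.congr fun z hz => if_pos hz
    have hB : ContinuousOn d {z | 1 / 2 ≤ ‖z‖} := by
      have hdir : ContinuousOn noZ2_dir {z : ℂ | 1 / 2 ≤ ‖z‖} :=
        noZ2_continuousOn_dir.mono fun z hz => by
          rintro rfl
          rw [mem_ofPred_eq, norm_zero] at hz
          norm_num at hz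
      have hcoe : Continuous (fun c : Circle => (c : ℂ)) := continuous_subtype_val
      have h1 : ContinuousOn (fun z : ℂ => g (noZ2_e (noZ2_dir z))) {z | 1 / 2 ≤ ‖z‖} :=
        (g.continuous.comp (noZ2_continuous_e.comp hcoe)).comp_continuousOn hdir
      have h2 : ContinuousOn (fun z : ℂ => noZ2_gam T a (noZ2_dir z)) {z | 1 / 2 ≤ ‖z‖} :=
        (noZ2_continuous_gam T a).comp_continuousOn hdir
      have h3 : ContinuousOn (fun z : ℂ => 2 * ‖z‖ - 1) {z | 1 / 2 ≤ ‖z‖} := by fun_prop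
      exact (hlam.comp_continuousOn (h1.prodMk (h2.prodMk h3))).congr fun z hz => hd2 z hz
    refine (hA.union_of_isClosed hB (isClosed_le (by fun_prop) continuous_const)
      (isClosed_le continuous_const (by fun_prop))).mono fun z _ => ?_
    exact le_total ‖z‖ (1 / 2)
  have hdb : ∀ z : Circle, d z = noZ2_gam T a z := by
    intro z
    rw [hd2 z (by rw [Circle.norm_coe]; norm_num), noZ2_dir_circle, Circle.norm_coe]
    have : (2 * 1 - 1 : ℝ) = 1 := by norm_num
    rw [this, hl1]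
  obtain ⟨z, hz, hzx⟩ := noZ2_onto T a d hdc hdb x
  rw [mem_closedBall_zero_iff] at hz
  by_cases h : ‖z‖ ≤ 1 / 2
  · exact ⟨noZ2_e (2 * z), by rw [← hzx]; exact (if_pos h).symm⟩
  · exfalso
    push Not at h
    rw [hd2 z h.le] at hzx
    set u := noZ2_dir z with hu
    have hun : ‖(u : ℂ)‖ = 1 := u.norm_coe
    have hru : noZ2_r (noZ2_e u) = u := noZ2_r_e hun.le
    have hfu : F ⟨noZ2_r (noZ2_e u), noZ2_r_mem _⟩ = noZ2_gam T a u := by
      have h1 : (⟨noZ2_r (noZ2_e u), noZ2_r_mem _⟩ : ↥(Metric.closedBall (0 : ℂ) 1)) ∈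
          {z : ↥(Metric.closedBall (0 : ℂ) 1) | ‖(z : ℂ)‖ = 1} := by
        simp only [mem_ofPred_eq, hru, hun]
      rw [hFe h1]
      simp only [hru, noZ2_dir_circle]
    have h2 : dist (g (noZ2_e u)) (noZ2_gam T a u) < ε := by
      have := hg (noZ2_e u)
      rw [dist_comm]
      simp only [ContinuousMap.coe_mk, hfu] at this
      exact this
    have h3 := hlε _ _ h2 (2 * ‖z‖ - 1) ⟨by linarith, by linarith⟩
    rw [hzx, dist_comm] at h3
    exact absurd h3 (not_lt.2 (hηd u))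

end Pool.MP55
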