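import Pool.Agent.Lib.MP_55dccf_gt.Tower1

/-!
# MP_55dccf_gt, T22 : the limit of a tower is an absolute extensor
-/

set_option autoImplicit false

open Set Topology TopologicalSpace unitInterval

namespace Pool.MP55

/-- a decreasing null sequence below a given positive sequence -/
noncomputable def tow2Eta (η : ℕ → ℝ) : ℕ → ℝ
  | 0 => min (η 0) 1
  | m + 1 => min (η (m + 1)) (tow2Eta η m / 2)

lemma tow2Eta_pos {η : ℕ → ℝ} (hη : ∀ m, 0 < η m) : ∀ m, 0 < tow2Eta η m
  | 0 => lt_min (hη 0) one_pos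
  | m + 1 => lt_min (hη (m + 1)) (half_pos (tow2Eta_pos hη m))

lemma tow2Eta_le (η : ℕ → ℝ) (m : ℕ) : tow2Eta η m ≤ η m := by
  cases m with
  | zero => exact min_le_left _ _
  | succ m => exact min_le_left _ _

lemma tow2Eta_anti {η : ℕ → ℝ} (hη : ∀ m, 0 < η m) : Antitone (tow2Eta η) := by
  refine antitone_nat_of_succ_le (fun m => ?_)
  have h1 : tow2Eta η (m + 1) ≤ tow2Eta η m / 2 := min_le_right _ _
  have h2 := tow2Eta_pos hη m
  linarith

lemma tow2Eta_pow {η : ℕ → ℝ} (m : ℕ) : tow2Eta η m ≤ (1 / 2) ^ m := by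
  induction m with
  | zero =>
    rw [pow_zero]
    exact min_le_right (η 0) 1
  | succ m ih =>
    have h1 : tow2Eta η (m + 1) ≤ tow2Eta η m / 2 := min_le_right _ _
    rw [pow_succ]
    linarith

lemma tow2_theta (η : ℕ → ℝ) (hη : ∀ m, 0 < η m) : ∃ θ : ℝ → ℝ, ContinuousOn θ (Ioi 0) ∧
    (∀ r > 0, ∀ m : ℕ, (m : ℝ) + 1 ≤ θ r → r < η m) ∧
    (∀ M : ℝ, ∃ ρ > 0, ∀ r, 0 < r → r < ρ → M ≤ θ r) := by
  have hpos := tow2Eta_pos hη
  have hanti := tow2Eta_anti hη
  -- finitely many terms
  have hzero : ∀ r : ℝ, ∀ N : ℕ, tow2Eta η N ≤ r → ∀ j ∉ Finset.range N,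
      max 0 (1 - r / tow2Eta η j) = 0 := by
    intro r N hN j hj
    rw [Finset.mem_range, not_lt] at hj
    have h1 : tow2Eta η j ≤ r := (hanti hj).trans hN
    have h2 : 1 ≤ r / tow2Eta η j := by
      rw [le_div_iff₀ (hpos j)]
      linarith
    exact max_eq_left (by linarith)
  have hsum : ∀ r : ℝ, ∀ N : ℕ, tow2Eta η N ≤ r →
      ∑' j, max 0 (1 - r / tow2Eta η j) = ∑ j ∈ Finset.range N, max 0 (1 - r / tow2Eta η j) :=
    fun r N hN => tsum_eq_sum (hzero r N hN)
  have hex : ∀ r : ℝ, 0 < r → ∃ N : ℕ, tow2Eta η N ≤ r := by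
    intro r hr
    obtain ⟨N, hN⟩ := exists_pow_lt_of_lt_one hr (show (1 / 2 : ℝ) < 1 by norm_num)
    exact ⟨N, (tow2Eta_pow N).trans hN.le⟩
  refine ⟨fun r => ∑' j, max 0 (1 - r / tow2Eta η j), ?_, ?_, ?_⟩
  · intro r0 hr0
    have hr0' : (0:ℝ) < r0 := hr0
    obtain ⟨N, hN⟩ := hex (r0 / 2) (half_pos hr0')
    refine ContinuousAt.continuousWithinAt ?_
    have h1 : ContinuousAt (fun r : ℝ => ∑ j ∈ Finset.range N, max 0 (1 - r / tow2Eta η j)) r0 := by
      refine Continuous.continuousAt ?_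
      refine continuous_finsetSum _ (fun j _ => ?_)
      exact continuous_const.max (continuous_const.sub (continuous_id.div_const _))
    refine h1.congr ?_
    filter_upwards [Ioi_mem_nhds (half_lt_self hr0')] with r hr
    exact (hsum r N (hN.trans (le_of_lt hr))).symm
  · intro r hr m hm
    by_contra hc
    rw [not_lt] at hc
    have h1 : tow2Eta η m ≤ r := (tow2Eta_le η m).trans hc
    simp only at hm
    rw [hsum r m h1] at hm
    have h2 : ∑ j ∈ Finset.range m, max 0 (1 - r / tow2Eta η j) ≤ ∑ _j ∈ Finset.range m, (1:ℝ) := by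
      refine Finset.sum_le_sum (fun j _ => max_le zero_le_one ?_)
      have := div_nonneg hr.le (hpos j).le
      linarith
    rw [Finset.sum_const, Finset.card_range, nsmul_eq_mul, mul_one] at h2
    linarith
  · intro M
    obtain ⟨n, hn⟩ := exists_nat_ge (2 * M)
    refine ⟨tow2Eta η n / 2, half_pos (hpos n), fun r hr hr2 => ?_⟩
    obtain ⟨N, hN⟩ := hex r hr
    simp only
    rw [hsum r N hN]
    have hnN : n ≤ N := by
      by_contra hc
      rw [not_le] at hc
      have := hanti hc.le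
      linarith [hpos n]
    have h1 : ∑ j ∈ Finset.range n, max 0 (1 - r / tow2Eta η j) ≤
        ∑ j ∈ Finset.range N, max 0 (1 - r / tow2Eta η j) := by
      refine Finset.sum_le_sum_of_subset_of_nonneg ?_ (fun j _ _ => le_max_left _ _)
      intro j hj
      rw [Finset.mem_range] at hj ⊢
      omega
    have h2 : ∑ _j ∈ Finset.range n, (1 / 2 : ℝ) ≤
        ∑ j ∈ Finset.range n, max 0 (1 - r / tow2Eta η j) := by
      refine Finset.sum_le_sum (fun j hj => ?_)
      rw [Finset.mem_range] at hj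
      refine le_trans ?_ (le_max_right _ _)
      have h3 : tow2Eta η n ≤ tow2Eta η j := hanti hj.le
      have h4 : r / tow2Eta η j ≤ 1 / 2 := by
        rw [div_le_iff₀ (hpos j)]
        linarith
      linarith
    rw [Finset.sum_const, Finset.card_range, nsmul_eq_mul] at h2
    linarith

namespace Tower

lemma tow2_dist (T : Tower) {Qi : ∀ m, T.B m → T.X}
    (h3 : ∀ m k b, dist ((Qi (m + k) b).1 m) (T.PP m k b) ≤ ∑' i, T.δ (i + (m + k)))
    {l N : ℕ} (h : l ≤ N) (b : T.B N) :
    dist ((Qi N b).1 l) (T.tow1Thr N b l) ≤ ∑' i, T.δ (i + N) := by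
  obtain ⟨k, rfl⟩ := Nat.exists_eq_add_of_le h
  rw [T.tow1Thr_PP]
  exact h3 l k b

lemma tow2_thr (T : Tower) (x : T.X) : ∀ N l, l ≤ N → T.tow1Thr N (x.1 N) l = x.1 l
  | 0, l, h => by
    obtain rfl : l = 0 := by omega
    exact T.tow1Thr_self 0 _
  | N + 1, l, h => by
    rcases Nat.le_succ_iff.1 h with h' | h'
    · rw [T.tow1Thr_down h', x.2 N]
      exact tow2_thr T x N l h'
    · subst h'
      exact T.tow1Thr_self _ _

theorem isAE_X (T : Tower) : IsAE T.X := by
  obtain ⟨Qi, hQc, hQQ, hQd, -⟩ := T.exists_Qinf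
  intro Z _ _ _ C hC f hf _
  rcases C.eq_empty_or_nonempty with rfl | hCne
  · obtain ⟨b⟩ := T.ne 0
    exact ⟨fun _ => Qi 0 b, continuous_const, fun _ => mem_univ _,
      fun z hz => absurd hz (notMem_empty z)⟩
  let _ : MetricSpace Z := metrizableSpaceMetric Z
  -- the extensions of the coordinates
  have hF : ∀ m, ∃ F : Z → T.B m, Continuous F ∧ ∀ c ∈ C, F c = (f c).1 m := by
    intro m
    obtain ⟨F, h1, -, h2⟩ := T.ae m Z C hC (fun z => (f z).1 m)
      ((T.continuous_coord m).comp_continuousOn hf) (fun _ _ => mem_univ _)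
    exact ⟨F, h1, h2⟩
  choose F hFc hFe using hF
  -- the homotopies
  have hK : ∀ m, ∃ K : Z × I → T.B (m + 1), Continuous K ∧ (∀ z, K (z, 0) = F (m + 1) z) ∧
      (∀ z, K (z, 1) = T.Q m (F m z)) ∧
      ∀ c ∈ C, ∀ t, K (c, t) = T.H m ((f c).1 (m + 1), t) := by
    intro m
    classical
    set k : Z × I → T.B (m + 1) := fun p => if p.2 = 0 then F (m + 1) p.1 else
      if p.2 = 1 then T.Q m (F m p.1) else T.H m ((f p.1).1 (m + 1), p.2) with hk
    have c0 : IsClosed {p : Z × I | p.2 = 0} := isClosed_eq continuous_snd continuous_const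
    have c1 : IsClosed {p : Z × I | p.2 = 1} := isClosed_eq continuous_snd continuous_const
    have c2 : IsClosed {p : Z × I | p.1 ∈ C} := hC.preimage continuous_fst
    have e0 : EqOn k (fun p => F (m + 1) p.1) {p : Z × I | p.2 = 0} := by
      intro p hp
      have hp' : p.2 = 0 := hp
      simp only [hk, if_pos hp']
    have e1 : EqOn k (fun p => T.Q m (F m p.1)) {p : Z × I | p.2 = 1} := by
      intro p hp
      have hp' : p.2 = 1 := hp
      have hp0 : p.2 ≠ 0 := by rw [hp']; exact one_ne_zero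
      simp only [hk, if_neg hp0, if_pos hp']
    have e2 : EqOn k (fun p => T.H m ((f p.1).1 (m + 1), p.2)) {p : Z × I | p.1 ∈ C} := by
      intro p hp
      have hp' : p.1 ∈ C := hp
      by_cases h0 : p.2 = 0
      · simp only [hk, if_pos h0]
        rw [h0, T.H0, hFe (m + 1) _ hp']
      · by_cases h1 : p.2 = 1
        · simp only [hk, if_neg h0, if_pos h1]
          rw [h1, T.H1, hFe m _ hp', (f p.1).2 m]
        · simp only [hk, if_neg h0, if_neg h1]
    have k0 : ContinuousOn k {p : Z × I | p.2 = 0} :=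
      (((hFc (m + 1)).comp continuous_fst).continuousOn).congr e0
    have k1 : ContinuousOn k {p : Z × I | p.2 = 1} :=
      ((((T.cQ m).comp (hFc m)).comp continuous_fst).continuousOn).congr e1
    have k2 : ContinuousOn k {p : Z × I | p.1 ∈ C} := by
      refine ContinuousOn.congr ?_ e2
      refine (T.cH m).comp_continuousOn ?_
      refine ContinuousOn.prodMk ?_ continuous_snd.continuousOn
      exact (T.continuous_coord (m + 1)).comp_continuousOn
        (hf.comp continuous_fst.continuousOn (fun p hp => hp))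
    have kk : ContinuousOn k (({p : Z × I | p.2 = 0} ∪ {p : Z × I | p.2 = 1}) ∪
        {p : Z × I | p.1 ∈ C}) :=
      (k0.union_of_isClosed k1 c0 c1).union_of_isClosed k2 (c0.union c1) c2
    obtain ⟨K, h1, -, h2⟩ := T.ae (m + 1) (Z × I) _ ((c0.union c1).union c2) k kk
      (fun _ _ => mem_univ _)
    refine ⟨K, h1, fun z => ?_, fun z => ?_, fun c hc t => ?_⟩
    · have := h2 (x := (z, 0)) (Or.inl (Or.inl rfl))
      rw [this]
      exact e0 (x := (z, 0)) rfl
    · have := h2 (x := (z, 1)) (Or.inl (Or.inr rfl))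
      rw [this]
      exact e1 (x := (z, 1)) rfl
    · have := h2 (x := (c, t)) (Or.inr hc)
      rw [this]
      exact e2 (x := (c, t)) hc
  choose K hKc hK0 hK1 hKC using hK
  -- uniform closeness
  have hη : ∀ j : ℕ, ∃ η : ℝ, 0 < η ∧ ∀ z z' : Z, dist z z' < η → ∀ t : I,
      dist (K (j + 1) (z, t)) (K (j + 1) (z', t)) < (1 / 2) ^ (j + 1) := by
    intro j
    have hu := CompactSpace.uniformContinuous_of_continuous (hKc (j + 1))
    obtain ⟨η, h1, h2⟩ := Metric.uniformContinuous_iff.1 hu ((1 / 2) ^ (j + 1)) (by positivity)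
    refine ⟨η, h1, fun z z' hz t => h2 ?_⟩
    rw [Prod.dist_eq, dist_self]
    exact max_lt hz h1
  choose η hη0 hη using hη
  obtain ⟨θ, hθc, hθη, hθM⟩ := tow2_theta η hη0
  -- the pieces
  set cI : ℝ → I := Set.projIcc 0 1 zero_le_one with hcI
  have hcIc : Continuous cI := continuous_projIcc
  have hcI1 : cI 1 = 1 := by
    rw [hcI]
    refine Subtype.ext ?_
    simp
  have hcI0 : cI 0 = 0 := by
    rw [hcI]
    refine Subtype.ext ?_
    simp
  set A : ℕ → Z × ℝ → T.X := fun m p => Qi (m + 1) (K m (p.1, cI (1 - (p.2 - m)))) with hA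
  have hAc : ∀ m, Continuous (A m) := by
    intro m
    refine (hQc (m + 1)).comp ((hKc m).comp (continuous_fst.prodMk (hcIc.comp ?_)))
    exact continuous_const.sub (continuous_snd.sub continuous_const)
  have hA0 : ∀ m z, A m (z, (m:ℝ)) = Qi m (F m z) := by
    intro m z
    have h1 : cI (1 - ((m:ℝ) - m)) = 1 := by
      rw [sub_self, sub_zero]
      exact hcI1
    simp only [hA]
    rw [h1, hK1, hQQ]
  have hA1 : ∀ m z, A m (z, (m:ℝ) + 1) = Qi (m + 1) (F (m + 1) z) := by
    intro m z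
    have h1 : cI (1 - ((m:ℝ) + 1 - m)) = 0 := by
      have : (1 - ((m:ℝ) + 1 - m)) = 0 := by ring
      rw [this]
      exact hcI0
    simp only [hA]
    rw [h1, hK0]
  set G : Z × ℝ → T.X := fun p => A ⌊p.2⌋₊ p with hG
  have hGeq : ∀ m : ℕ, EqOn G (A m) {p : Z × ℝ | (m:ℝ) ≤ p.2 ∧ p.2 ≤ m + 1} := by
    intro m p hp
    obtain ⟨h1, h2⟩ := hp
    rcases h2.lt_or_eq with h3 | h3
    · have : ⌊p.2⌋₊ = m := by
        rw [Nat.floor_eq_iff ((Nat.cast_nonneg m).trans h1)]
        exact ⟨h1, h3⟩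
      simp only [hG, this]
    · have h4 : ⌊p.2⌋₊ = m + 1 := by
        rw [h3]
        exact_mod_cast Nat.floor_natCast (m + 1)
      have h5 : p = (p.1, ((m + 1 : ℕ) : ℝ)) := by
        refine Prod.ext rfl ?_
        rw [h3]
        push_cast
        rfl
      have h6 : p = (p.1, (m : ℝ) + 1) := Prod.ext rfl h3
      show A ⌊p.2⌋₊ p = A m p
      rw [h4]
      calc A (m + 1) p = A (m + 1) (p.1, ((m + 1 : ℕ) : ℝ)) := by rw [← h5]
        _ = Qi (m + 1) (F (m + 1) p.1) := hA0 (m + 1) p.1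
        _ = A m (p.1, (m : ℝ) + 1) := (hA1 m p.1).symm
        _ = A m p := by rw [← h6]
  have hGn : ∀ n : ℕ, ContinuousOn G {p : Z × ℝ | p.2 ≤ n} := by
    intro n
    induction n with
    | zero =>
      refine (hAc 0).continuousOn.congr (fun p hp => ?_)
      have hp' : p.2 ≤ ((0 : ℕ) : ℝ) := hp
      have : ⌊p.2⌋₊ = 0 := by
        apply Nat.floor_of_nonpos
        exact_mod_cast hp'
      simp only [hG, this]
    | succ n ih =>
      have h1 : ContinuousOn G {p : Z × ℝ | (n:ℝ) ≤ p.2 ∧ p.2 ≤ n + 1} :=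
        (hAc n).continuousOn.congr (hGeq n)
      have h2 := ih.union_of_isClosed h1 (isClosed_le continuous_snd continuous_const)
        ((isClosed_le continuous_const continuous_snd).inter
          (isClosed_le continuous_snd continuous_const))
      refine h2.mono (fun p hp => ?_)
      have hp' : p.2 ≤ ((n + 1 : ℕ) : ℝ) := hp
      push_cast at hp'
      rcases le_total p.2 n with h | h
      · exact Or.inl h
      · exact Or.inr ⟨h, hp'⟩
  have hGc : Continuous G := by
    rw [continuous_iff_continuousAt]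
    intro p
    obtain ⟨n, hn⟩ := exists_nat_gt p.2
    refine (hGn n).continuousAt ?_
    filter_upwards [(isOpen_lt continuous_snd continuous_const).mem_nhds hn] with q hq
    exact le_of_lt hq
  -- the extension
  classical
  set FF : Z → T.X := fun z => if z ∈ C then f z else G (z, θ (Metric.infDist z C)) with hFF
  refine ⟨FF, ?_, fun _ => mem_univ _, fun z hz => by simp only [hFF, if_pos hz]⟩
  rw [continuous_iff_continuousAt]
  intro c
  by_cases hc : c ∈ C
  · -- points of `C`
    refine T.continuousAt_mk (fun l => ?_)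
    rw [Metric.continuousAt_iff]
    intro ε hε
    have hφ : ContinuousWithinAt (fun z => (f z).1 l) C c :=
      ((T.continuous_coord l).comp_continuousOn hf) c hc
    obtain ⟨ρ₁, hρ₁, h1⟩ := Metric.continuousWithinAt_iff.1 hφ (ε / 2) (half_pos hε)
    have htend : Filter.Tendsto (fun m : ℕ => (∑' i, T.δ (i + (m + 1))) + ((1 / 2 : ℝ) ^ m + T.δ m))
        Filter.atTop (𝓝 (0 + (0 + 0))) := by
      refine Filter.Tendsto.add ?_ (Filter.Tendsto.add ?_ ?_)
      · exact (tendsto_sum_nat_add T.δ).comp (Filter.tendsto_add_atTop_nat 1)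
      · exact tendsto_pow_atTop_nhds_zero_of_lt_one (by norm_num) (by norm_num)
      · exact T.δsum.tendsto_atTop_zero
    rw [add_zero, add_zero] at htend
    have hev := (htend.eventually (gt_mem_nhds (half_pos hε))).and (Filter.eventually_ge_atTop l)
    obtain ⟨m₀, hm₀⟩ := Filter.eventually_atTop.1 hev
    obtain ⟨ρ₂, hρ₂, h2⟩ := hθM (m₀ + 1)
    refine ⟨min (ρ₁ / 3) ρ₂, lt_min (by positivity) hρ₂, fun z hz => ?_⟩
    have hz1 : dist z c < ρ₁ / 3 := lt_of_lt_of_le hz (min_le_left _ _)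
    have hz2 : dist z c < ρ₂ := lt_of_lt_of_le hz (min_le_right _ _)
    have hFc : FF c = f c := by simp only [hFF, if_pos hc]
    rw [hFc]
    by_cases hzC : z ∈ C
    · have hFz : FF z = f z := by simp only [hFF, if_pos hzC]
      rw [hFz]
      have := h1 hzC (by linarith)
      linarith
    · have hFz : FF z = G (z, θ (Metric.infDist z C)) := by simp only [hFF, if_neg hzC]
      set r := Metric.infDist z C with hr
      have hr0 : 0 < r := (hC.notMem_iff_infDist_pos hCne).1 hzC
      have hrc : r ≤ dist z c := Metric.infDist_le_dist_of_mem hc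
      have hu : (m₀ : ℝ) + 1 ≤ θ r := h2 r hr0 (lt_of_le_of_lt hrc hz2)
      have hθ0 : 0 ≤ θ r := le_trans (by positivity) hu
      have hmle : ((⌊θ r⌋₊ : ℕ) : ℝ) ≤ θ r := Nat.floor_le hθ0
      have hm1 : m₀ + 1 ≤ ⌊θ r⌋₊ := Nat.le_floor (by exact_mod_cast hu)
      obtain ⟨j, hj⟩ : ∃ j, ⌊θ r⌋₊ = j + 1 := ⟨⌊θ r⌋₊ - 1, by omega⟩
      rw [hj] at hmle hm1
      push_cast at hmle
      have hrη : r < η j := hθη r hr0 j hmle
      obtain ⟨c', hc', hcr⟩ := hC.isCompact.exists_infDist_eq_dist hCne z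
      rw [← hr] at hcr
      have hclose := hη j z c' (by rw [← hcr]; exact hrη)
      have hφc : dist ((f c').1 l) ((f c).1 l) < ε / 2 := by
        refine h1 hc' ?_
        have h3 : dist c' c ≤ dist c' z + dist z c := dist_triangle _ _ _
        rw [dist_comm c' z, ← hcr] at h3
        linarith
      have hm2 := hm₀ (j + 1) (by omega)
      obtain ⟨hm3, hm4⟩ := hm2
      -- the value
      set t : I := cI (1 - (θ r - ((j + 1 : ℕ) : ℝ))) with ht
      have hval : G (z, θ r) = Qi (j + 2) (K (j + 1) (z, t)) := by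
        show A ⌊θ r⌋₊ (z, θ r) = _
        rw [hj]
      rw [hFz, hval]
      have hl2 : l ≤ j + 2 := by omega
      have a1 : dist ((Qi (j + 2) (K (j + 1) (z, t))).1 l)
          (T.tow1Thr (j + 2) (K (j + 1) (z, t)) l) ≤ ∑' i, T.δ (i + (j + 2)) :=
        T.tow2_dist hQd hl2 _
      have a2 : dist (T.tow1Thr (j + 2) (K (j + 1) (z, t)) l)
          (T.tow1Thr (j + 2) (K (j + 1) (c', t)) l) ≤ (1 / 2) ^ (j + 1) :=
        (T.tow1Thr_lip (j + 2) l hl2 _ _).trans (hclose t).le
      have a3 : dist (T.tow1Thr (j + 2) (K (j + 1) (c', t)) l) ((f c').1 l) ≤ T.δ (j + 1) := by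
        rw [hKC (j + 1) c' hc' t, ← T.tow2_thr (f c') (j + 2) l hl2,
          T.tow1Thr_down (n := j + 1) (by omega), T.tow1Thr_down (n := j + 1) (by omega)]
        exact (T.tow1Thr_lip (j + 1) l (by omega) _ _).trans (T.dH (j + 1) _ _)
      have a4 := dist_triangle ((Qi (j + 2) (K (j + 1) (z, t))).1 l)
        (T.tow1Thr (j + 2) (K (j + 1) (z, t)) l) ((f c').1 l)
      have a5 := dist_triangle (T.tow1Thr (j + 2) (K (j + 1) (z, t)) l)
        (T.tow1Thr (j + 2) (K (j + 1) (c', t)) l) ((f c').1 l)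
      have a6 := dist_triangle ((Qi (j + 2) (K (j + 1) (z, t))).1 l) ((f c').1 l) ((f c).1 l)
      have hm5 : (∑' i, T.δ (i + (j + 2))) + ((1 / 2 : ℝ) ^ (j + 1) + T.δ (j + 1)) < ε / 2 := hm3
      linarith
  · -- points outside `C`
    have hpos : 0 < Metric.infDist c C := (hC.notMem_iff_infDist_pos hCne).1 hc
    have h1 : ContinuousAt (fun z => G (z, θ (Metric.infDist z C))) c := by
      refine hGc.continuousAt.comp ?_
      refine continuousAt_id.prodMk ?_
      have h2 : ContinuousAt (fun z => Metric.infDist z C) c :=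
        (Metric.continuous_infDist_pt C).continuousAt
      exact ContinuousAt.comp (g := θ) (f := fun z => Metric.infDist z C)
        (hθc.continuousAt (Ioi_mem_nhds hpos)) h2
    refine h1.congr ?_
    filter_upwards [hC.isOpen_compl.mem_nhds hc] with z hz
    have hz' : z ∉ C := hz
    simp only [hFF, if_neg hz']

end Tower

end Pool.MP55
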