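import Pool.Agent.Lib.MP_55dccf_gt.Defs2

/-!
# MP_55dccf_gt, T21 : the maps from the stages to the limit
-/

set_option autoImplicit false

open Set Topology TopologicalSpace unitInterval

namespace Pool.MP55

namespace Tower

/-- the thread through `x : B n`: upwards by the maps `Q`, downwards by the maps `P` -/
def tow1Thr (T : Tower) : ∀ n, T.B n → ∀ l, T.B l
  | 0, x, l => Nat.leRecOn (Nat.zero_le l) (fun {k} => T.Q k) x
  | n + 1, x, l => if h : n + 1 ≤ l then Nat.leRecOn h (fun {k} => T.Q k) x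
      else tow1Thr T n (T.P n x) l

lemma tow1Thr_of_le (T : Tower) {n l : ℕ} (h : n ≤ l) (x : T.B n) :
    T.tow1Thr n x l = Nat.leRecOn h (fun {k} => T.Q k) x := by
  cases n with
  | zero => rfl
  | succ n => rw [tow1Thr, dif_pos h]

lemma tow1Thr_self (T : Tower) (n : ℕ) (x : T.B n) : T.tow1Thr n x n = x := by
  rw [tow1Thr_of_le T le_rfl, Nat.leRecOn_self]

lemma tow1Thr_succ (T : Tower) {n l : ℕ} (h : n ≤ l) (x : T.B n) :
    T.tow1Thr n x (l + 1) = T.Q l (T.tow1Thr n x l) := by
  rw [tow1Thr_of_le T h, tow1Thr_of_le T (h.trans (Nat.le_succ l)), Nat.leRecOn_succ h]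

lemma tow1Thr_down (T : Tower) {n l : ℕ} (h : l ≤ n) (y : T.B (n + 1)) :
    T.tow1Thr (n + 1) y l = T.tow1Thr n (T.P n y) l := by
  rw [tow1Thr, dif_neg (by omega)]

lemma tow1Thr_P (T : Tower) : ∀ (n l : ℕ) (_ : l < n) (x : T.B n),
    T.P l (T.tow1Thr n x (l + 1)) = T.tow1Thr n x l
  | 0, l, h, x => absurd h (Nat.not_lt_zero l)
  | n + 1, l, h, x => by
    rcases Nat.lt_succ_iff_lt_or_eq.1 h with h' | h'
    · rw [tow1Thr_down T h', tow1Thr_down T h'.le, tow1Thr_P T n l h']
    · subst h'
      rw [tow1Thr_self, tow1Thr_down T le_rfl, tow1Thr_self]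

lemma tow1Thr_lip (T : Tower) : ∀ (n l : ℕ) (_ : l ≤ n) (x y : T.B n),
    dist (T.tow1Thr n x l) (T.tow1Thr n y l) ≤ dist x y
  | 0, l, h, x, y => by
    obtain rfl : l = 0 := by omega
    rw [tow1Thr_self, tow1Thr_self]
  | n + 1, l, h, x, y => by
    rcases Nat.le_succ_iff.1 h with h' | h'
    · rw [tow1Thr_down T h', tow1Thr_down T h']
      exact (tow1Thr_lip T n l h' _ _).trans (T.lip n x y)
    · subst h'
      rw [tow1Thr_self, tow1Thr_self]

lemma continuous_tow1Thr_up (T : Tower) {n l : ℕ} (h : n ≤ l) :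
    Continuous fun x => T.tow1Thr n x l := by
  induction l, h using Nat.le_induction with
  | base =>
    have : (fun x => T.tow1Thr n x n) = id := funext fun x => T.tow1Thr_self n x
    rw [this]
    exact continuous_id
  | succ l hl ih =>
    have : (fun x => T.tow1Thr n x (l + 1)) = fun x => T.Q l (T.tow1Thr n x l) :=
      funext fun x => T.tow1Thr_succ hl x
    rw [this]
    exact (T.cQ l).comp ih

lemma continuous_tow1Thr_down (T : Tower) : ∀ (n l : ℕ) (_ : l ≤ n),
    Continuous fun x => T.tow1Thr n x l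
  | 0, l, h => by
    obtain rfl : l = 0 := by omega
    exact T.continuous_tow1Thr_up le_rfl
  | n + 1, l, h => by
    rcases Nat.le_succ_iff.1 h with h' | h'
    · have : (fun x => T.tow1Thr (n + 1) x l) = fun x => T.tow1Thr n (T.P n x) l :=
        funext fun x => T.tow1Thr_down h' x
      rw [this]
      exact (continuous_tow1Thr_down T n l h').comp (T.cP n)
    · subst h'
      exact T.continuous_tow1Thr_up le_rfl

/-- threads of `Q m b` and of `b` agree above `m` -/
lemma tow1Thr_Q (T : Tower) {m N : ℕ} (h : m + 1 ≤ N) (b : T.B m) :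
    T.tow1Thr (m + 1) (T.Q m b) N = T.tow1Thr m b N := by
  induction N, h using Nat.le_induction with
  | base => rw [tow1Thr_self, tow1Thr_succ T le_rfl, tow1Thr_self]
  | succ l hl ih => rw [tow1Thr_succ T hl, tow1Thr_succ T (by omega), ih]

lemma tow1Thr_PP (T : Tower) (m : ℕ) : ∀ (k : ℕ) (b : T.B (m + k)),
    T.tow1Thr (m + k) b m = T.PP m k b
  | 0, b => T.tow1Thr_self m b
  | k + 1, b => by
    have h1 := T.tow1Thr_down (n := m + k) (l := m) (Nat.le_add_right m k) b
    exact h1.trans (tow1Thr_PP T m k _)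

/-- the approximations of the maps into the limit -/
def tow1A (T : Tower) (m N l : ℕ) (b : T.B m) : T.B l := T.tow1Thr N (T.tow1Thr m b N) l

lemma continuous_tow1A (T : Tower) {m N l : ℕ} (hm : m ≤ N) (hl : l ≤ N) :
    Continuous (T.tow1A m N l) :=
  (T.continuous_tow1Thr_down N l hl).comp (T.continuous_tow1Thr_up hm)

lemma tow1A_succ (T : Tower) {m N l : ℕ} (hm : m ≤ N) (hl : l ≤ N) (b : T.B m) :
    T.tow1A m (N + 1) l b = T.tow1Thr N (T.P N (T.Q N (T.tow1Thr m b N))) l := by
  rw [tow1A, tow1Thr_down T hl, tow1Thr_succ T hm]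

lemma tow1A_dist (T : Tower) {m N l : ℕ} (hm : m ≤ N) (hl : l ≤ N) (b : T.B m) :
    dist (T.tow1A m N l b) (T.tow1A m (N + 1) l b) ≤ T.δ N := by
  rw [tow1A_succ T hm hl, dist_comm]
  exact (T.tow1Thr_lip N l hl _ _).trans (T.dQ N _)

lemma exists_tow1L (T : Tower) (m l : ℕ) : ∃ L : T.B m → T.B l,
    (∀ b N, m ≤ N → l ≤ N → dist (T.tow1A m N l b) (L b) ≤ ∑' i, T.δ (i + N)) ∧
    (∀ b, Filter.Tendsto (fun N => T.tow1A m N l b) Filter.atTop (𝓝 (L b))) := by
  have hsum : ∀ N, Summable fun i => T.δ (i + N) := fun N => (summable_nat_add_iff N).2 T.δsum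
  have key : ∀ b, ∃ y, Filter.Tendsto (fun N => T.tow1A m N l b) Filter.atTop (𝓝 y) := by
    intro b
    have hc : CauchySeq fun k => T.tow1A m (k + max m l) l b := by
      refine cauchySeq_of_dist_le_of_summable (fun k => T.δ (k + max m l)) (fun k => ?_) (hsum _)
      have h1 := T.tow1A_dist (m := m) (N := k + max m l) (l := l)
        ((le_max_left m l).trans (Nat.le_add_left _ _))
        ((le_max_right m l).trans (Nat.le_add_left _ _)) b
      have h2 : k.succ + max m l = k + max m l + 1 := by omega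
      rw [h2]
      exact h1
    obtain ⟨y, hy⟩ := cauchySeq_tendsto_of_complete hc
    exact ⟨y, (Filter.tendsto_add_atTop_iff_nat (max m l)).1 hy⟩
  choose L hL using key
  refine ⟨L, fun b N hm hl => ?_, hL⟩
  have h1 : Filter.Tendsto (fun k => T.tow1A m (k + N) l b) Filter.atTop (𝓝 (L b)) :=
    (Filter.tendsto_add_atTop_iff_nat N).2 (hL b)
  have h2 := dist_le_tsum_of_dist_le_of_tendsto₀ (f := fun k => T.tow1A m (k + N) l b)
    (fun k => T.δ (k + N)) (fun k => ?_) (hsum N) h1
  · simpa using h2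
  · have h3 : k.succ + N = k + N + 1 := by omega
    rw [h3]
    exact T.tow1A_dist (hm.trans (Nat.le_add_left _ _)) (hl.trans (Nat.le_add_left _ _)) b

/-- the maps `B m → X` -/
theorem exists_Qinf (T : Tower) : ∃ Qi : ∀ m, T.B m → T.X, (∀ m, Continuous (Qi m)) ∧
    (∀ m b, Qi (m + 1) (T.Q m b) = Qi m b) ∧
    (∀ m k b, dist ((Qi (m + k) b).1 m) (T.PP m k b) ≤ ∑' i, T.δ (i + (m + k))) ∧
    (∀ (G : ∀ n, Set (T.B n)), (∀ n, ∀ b ∈ G n, T.Q n b ∈ G (n + 1) ∧ T.P n (T.Q n b) = b) →
      ∀ m, ∀ b ∈ G m, (Qi m b).1 m = b) := by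
  choose L hL1 hL2 using T.exists_tow1L
  have hP : ∀ m b l, T.P l (L m (l + 1) b) = L m l b := by
    intro m b l
    have h1 : Filter.Tendsto (fun N => T.P l (T.tow1A m N (l + 1) b)) Filter.atTop
        (𝓝 (T.P l (L m (l + 1) b))) := ((T.cP l).tendsto _).comp (hL2 m (l + 1) b)
    refine tendsto_nhds_unique (h1.congr' ?_) (hL2 m l b)
    filter_upwards [Filter.eventually_gt_atTop l] with N hN
    exact T.tow1Thr_P N l hN _
  refine ⟨fun m b => ⟨fun l => L m l b, hP m b⟩, fun m => ?_, fun m b => ?_, fun m k b => ?_,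
    fun G hG m b hb => ?_⟩
  · -- continuity
    refine T.continuous_mk fun l => ?_
    change Continuous (L m l)
    have hu : TendstoUniformly (fun N b => T.tow1A m N l b) (L m l) Filter.atTop := by
      rw [Metric.tendstoUniformly_iff]
      intro e he
      have htail : Filter.Tendsto (fun N => ∑' i, T.δ (i + N)) Filter.atTop (𝓝 0) :=
        tendsto_sum_nat_add T.δ
      filter_upwards [htail.eventually (gt_mem_nhds he), Filter.eventually_ge_atTop m,
        Filter.eventually_ge_atTop l] with N h1 h2 h3 b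
      rw [dist_comm]
      exact lt_of_le_of_lt (hL1 m l b N h2 h3) h1
    refine hu.continuous ?_
    refine Filter.Eventually.frequently ?_
    filter_upwards [Filter.eventually_ge_atTop m, Filter.eventually_ge_atTop l] with N h2 h3
    exact T.continuous_tow1A h2 h3
  · -- compatibility with `Q`
    apply Subtype.ext
    funext l
    change L (m + 1) l (T.Q m b) = L m l b
    refine tendsto_nhds_unique ((hL2 (m + 1) l (T.Q m b)).congr' ?_) (hL2 m l b)
    filter_upwards [Filter.eventually_ge_atTop (m + 1)] with N hN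
    rw [tow1A, tow1A, T.tow1Thr_Q hN]
  · -- distance bound
    change dist (L (m + k) m b) (T.PP m k b) ≤ _
    have h1 := hL1 (m + k) m b (m + k) le_rfl (Nat.le_add_right m k)
    rw [tow1A, T.tow1Thr_self, T.tow1Thr_PP] at h1
    rw [dist_comm]
    exact h1
  · -- good points
    change L m m b = b
    have h1 : ∀ N, m ≤ N → T.tow1Thr m b N ∈ G N ∧ T.tow1A m N m b = b := by
      intro N hN
      induction N, hN using Nat.le_induction with
      | base =>
        refine ⟨?_, ?_⟩
        · rw [T.tow1Thr_self]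
          exact hb
        · rw [tow1A, T.tow1Thr_self, T.tow1Thr_self]
      | succ N hN ih =>
        obtain ⟨i1, i2⟩ := ih
        obtain ⟨g1, g2⟩ := hG N _ i1
        refine ⟨?_, ?_⟩
        · rw [T.tow1Thr_succ hN]
          exact g1
        · rw [T.tow1A_succ hN hN, g2]
          exact i2
    refine tendsto_nhds_unique (hL2 m m b) (tendsto_const_nhds.congr' ?_)
    filter_upwards [Filter.eventually_ge_atTop m] with N hN
    exact (h1 N hN).2.symm

end Tower

end Pool.MP55
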