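import Pool.Agent.Lib.MP_55dccf_gt.Defs2
import Pool.Agent.Lib.MP_55dccf_gt.Tower1

/-!
# MP_55dccf_gt, T25 : all points of `X × [0,1]` are `Z_n`
-/

set_option autoImplicit false

open Set Topology TopologicalSpace unitInterval

namespace Pool.MP55

/-- lower coordinates are controlled by higher coordinates -/
lemma zinf_dist_le (T : Tower) (x y : T.X) {l m : ℕ} (h : l ≤ m) :
    dist (x.1 l) (y.1 l) ≤ dist (x.1 m) (y.1 m) := by
  induction m, h using Nat.le_induction with
  | base => exact le_rfl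
  | succ m hm ih =>
    refine ih.trans ?_
    calc dist (x.1 m) (y.1 m) = dist (T.P m (x.1 (m + 1))) (T.P m (y.1 (m + 1))) := by
          rw [x.2 m, y.2 m]
      _ ≤ dist (x.1 (m + 1)) (y.1 (m + 1)) := T.lip m _ _

/-- points with close coordinates at a high level are close -/
lemma zinf_unif (T : Tower) {ε : ℝ} (hε : 0 < ε) : ∃ l : ℕ, ∃ η > 0, ∀ x y : T.X,
    dist (x.1 l) (y.1 l) < η → dist x y < ε := by
  by_contra hcon
  push Not at hcon
  let K : ℕ → Set (T.X × T.X) := fun l =>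
    {p | ε ≤ dist p.1 p.2 ∧ dist (p.1.1 l) (p.2.1 l) ≤ 1 / ((l : ℝ) + 1)}
  have hcl : ∀ l, IsClosed (K l) := by
    intro l
    have h1 : IsClosed {p : T.X × T.X | ε ≤ dist p.1 p.2} :=
      isClosed_le continuous_const (continuous_fst.dist continuous_snd)
    have h2 : IsClosed {p : T.X × T.X | dist (p.1.1 l) (p.2.1 l) ≤ 1 / ((l : ℝ) + 1)} :=
      isClosed_le (((T.continuous_coord l).comp continuous_fst).dist
        ((T.continuous_coord l).comp continuous_snd)) continuous_const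
    exact h1.inter h2
  have hne : (⋂ l, K l).Nonempty := by
    refine IsCompact.nonempty_iInter_of_sequence_nonempty_isCompact_isClosed K ?_ ?_
      (hcl 0).isCompact hcl
    · rintro l p ⟨hp1, hp2⟩
      refine ⟨hp1, (zinf_dist_le T p.1 p.2 (Nat.le_succ l)).trans (hp2.trans ?_)⟩
      refine one_div_le_one_div_of_le (by positivity) ?_
      push_cast
      linarith
    · intro l
      obtain ⟨x, y, h1, h2⟩ := hcon l (1 / ((l : ℝ) + 1)) (by positivity)
      exact ⟨(x, y), h2, h1.le⟩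
  obtain ⟨⟨x, y⟩, hxy⟩ := hne
  rw [mem_iInter] at hxy
  have hxy' : x = y := by
    apply Subtype.ext
    funext l
    refine eq_of_dist_eq_zero (le_antisymm ?_ dist_nonneg)
    refine le_of_forall_pos_le_add fun e he => ?_
    obtain ⟨N, hN⟩ := exists_nat_one_div_lt he
    have h1 : dist (x.1 l) (y.1 l) ≤ 1 / (((max l N : ℕ) : ℝ) + 1) :=
      (zinf_dist_le T x y (le_max_left l N)).trans (hxy (max l N)).2
    have h2 : 1 / (((max l N : ℕ) : ℝ) + 1) ≤ 1 / ((N : ℝ) + 1) := by
      refine one_div_le_one_div_of_le (by positivity) ?_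
      have : (N : ℝ) ≤ ((max l N : ℕ) : ℝ) := by exact_mod_cast le_max_right l N
      linarith
    linarith
  have h3 := (hxy 0).1
  rw [hxy'] at h3
  simp only [dist_self] at h3
  linarith

/-- the maps `Qi` are uniformly good at high levels -/
lemma zinf_close (T : Tower) (Qi : ∀ m, T.B m → T.X)
    (h3 : ∀ m k b, dist ((Qi (m + k) b).1 m) (T.PP m k b) ≤ ∑' i, T.δ (i + (m + k)))
    {ε : ℝ} (hε : 0 < ε) : ∃ m : ℕ, ∀ (b : T.B (m + 1)) (x : T.X),
      dist (T.P m b) (x.1 m) ≤ T.δ m → dist (Qi (m + 1) b) x < ε := by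
  obtain ⟨l, η, hη, hl⟩ := zinf_unif T hε
  have htail : Filter.Tendsto (fun m => ∑' i, T.δ (i + m)) Filter.atTop (𝓝 0) :=
    tendsto_sum_nat_add T.δ
  obtain ⟨m, hm1, hm2⟩ : ∃ m, l ≤ m ∧ ∑' i, T.δ (i + m) < η := by
    have := (htail.eventually (gt_mem_nhds hη)).and (Filter.eventually_ge_atTop l)
    obtain ⟨m, hm⟩ := this.exists
    exact ⟨m, hm.2, hm.1⟩
  refine ⟨m, fun b x hb => hl _ _ ?_⟩
  refine lt_of_le_of_lt (zinf_dist_le T _ _ hm1) (lt_of_le_of_lt ?_ hm2)
  have e1 : dist ((Qi (m + 1) b).1 m) (T.P m b) ≤ ∑' i, T.δ (i + (m + 1)) := h3 m 1 b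
  have e2 : ∑' i, T.δ (i + m) = T.δ m + ∑' i, T.δ (i + (m + 1)) := by
    have hs : Summable fun i => T.δ (i + m) := (summable_nat_add_iff m).2 T.δsum
    rw [hs.tsum_eq_zero_add, zero_add]
    congr 1
    refine tsum_congr fun i => ?_
    congr 1
    ring
  rw [e2]
  calc dist ((Qi (m + 1) b).1 m) (x.1 m)
      ≤ dist ((Qi (m + 1) b).1 m) (T.P m b) + dist (T.P m b) (x.1 m) := dist_triangle _ _ _
    _ ≤ T.δ m + ∑' i, T.δ (i + (m + 1)) := by linarith

theorem all_Zn (T : BTower) (p : T.X × I) (n : ℕ)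
    (f : C(Fin n → I, T.X × I)) (ε : ℝ) (hε : 0 < ε) :
    ∃ g : C(Fin n → I, T.X × I), (∀ t, g t ≠ p) ∧ ∀ t, dist (f t) (g t) < ε := by
  obtain ⟨x, t₀⟩ := p
  set c : ℝ := min (ε / 2) (1 / 2) with hc
  have hc0 : 0 < c := lt_min (by linarith) (by norm_num)
  have hc1 : c ≤ 1 / 2 := min_le_right _ _
  have hcε : c < ε := lt_of_le_of_lt (min_le_left _ _) (by linarith)
  rcases eq_or_lt_of_le t₀.2.1 with h0 | h0
  · -- `t₀ = 0`
    let g : C(Fin n → I, T.X × I) :=
      ⟨fun t => ((f t).1, Set.projIcc (0 : ℝ) 1 zero_le_one (max ((f t).2 : ℝ) c)), by fun_prop⟩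
    have hval : ∀ t, ((g t).2 : ℝ) = max ((f t).2 : ℝ) c := by
      intro t
      have : max ((f t).2 : ℝ) c ∈ Icc (0 : ℝ) 1 :=
        ⟨(f t).2.2.1.trans (le_max_left _ _), max_le (f t).2.2.2 (by linarith)⟩
      exact congrArg Subtype.val (Set.projIcc_of_mem zero_le_one this)
    refine ⟨g, fun t ht => ?_, fun t => ?_⟩
    · have h1 : ((g t).2 : ℝ) = 0 := by rw [ht]; exact h0.symm
      rw [hval] at h1
      have := le_max_right ((f t).2 : ℝ) c
      linarith
    · have h1 : dist (f t).2 (g t).2 ≤ c := by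
        rw [Subtype.dist_eq, hval, Real.dist_eq, abs_sub_le_iff]
        have a1 := (f t).2.2.1
        constructor
        · have := le_max_left ((f t).2 : ℝ) c
          linarith
        · rcases max_cases ((f t).2 : ℝ) c with h | h <;> linarith
      rw [Prod.dist_eq]
      refine max_lt ?_ (lt_of_le_of_lt h1 hcε)
      change dist (f t).1 (f t).1 < ε
      rw [dist_self]
      exact hε
  rcases eq_or_lt_of_le t₀.2.2 with h1 | h1
  · -- `t₀ = 1`
    let g : C(Fin n → I, T.X × I) :=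
      ⟨fun t => ((f t).1, Set.projIcc (0 : ℝ) 1 zero_le_one (min ((f t).2 : ℝ) (1 - c))),
        by fun_prop⟩
    have hval : ∀ t, ((g t).2 : ℝ) = min ((f t).2 : ℝ) (1 - c) := by
      intro t
      have : min ((f t).2 : ℝ) (1 - c) ∈ Icc (0 : ℝ) 1 :=
        ⟨le_min (f t).2.2.1 (by linarith), (min_le_left _ _).trans (f t).2.2.2⟩
      exact congrArg Subtype.val (Set.projIcc_of_mem zero_le_one this)
    refine ⟨g, fun t ht => ?_, fun t => ?_⟩
    · have h2 : ((g t).2 : ℝ) = 1 := by rw [ht]; exact h1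
      rw [hval] at h2
      have := min_le_right ((f t).2 : ℝ) (1 - c)
      linarith
    · have h2 : dist (f t).2 (g t).2 ≤ c := by
        rw [Subtype.dist_eq, hval, Real.dist_eq, abs_sub_le_iff]
        have a1 := (f t).2.2.2
        constructor
        · rcases min_cases ((f t).2 : ℝ) (1 - c) with h | h <;> linarith
        · have := min_le_left ((f t).2 : ℝ) (1 - c)
          linarith
      rw [Prod.dist_eq]
      refine max_lt ?_ (lt_of_le_of_lt h2 hcε)
      change dist (f t).1 (f t).1 < ε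
      rw [dist_self]
      exact hε
  -- `0 < t₀ < 1`
  obtain ⟨Qi, hQc, -, hQ3, hQ4⟩ := T.toTower.exists_Qinf
  obtain ⟨m, hm⟩ := zinf_close T.toTower Qi hQ3 hε
  obtain ⟨Ψ, hΨc, hΨt, hΨd, hΨg, hΨn⟩ := T.push m t₀ c hc0
  have hgood : ∀ b ∈ (T.D (m + 1)).good, (Qi (m + 1) b).1 (m + 1) = b :=
    hQ4 (fun n => (T.D n).good) (fun n b hb => ⟨T.goodQ n b hb, T.goodP n b hb⟩) (m + 1)
  -- the two candidates
  have hcoord : Continuous fun t => (f t).1.1 m := (T.toTower.continuous_coord m).comp (by fun_prop)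
  have harg : Continuous fun t => (((f t).1.1 m, ((f t).2 : ℝ)) : T.B m × ℝ) :=
    hcoord.prodMk (by fun_prop)
  let g : Bool → C(Fin n → I, T.X × I) := fun i =>
    ⟨fun t => (Qi (m + 1) (Ψ i ((f t).1.1 m, ((f t).2 : ℝ))).1,
        Set.projIcc (0 : ℝ) 1 zero_le_one (Ψ i ((f t).1.1 m, ((f t).2 : ℝ))).2),
      ((hQc (m + 1)).comp (continuous_fst.comp ((hΨc i).comp harg))).prodMk
        (continuous_projIcc.comp (continuous_snd.comp ((hΨc i).comp harg)))⟩
  have hclose : ∀ i t, dist (f t) (g i t) < ε := by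
    intro i t
    rw [Prod.dist_eq]
    refine max_lt ?_ ?_
    · rw [dist_comm]
      exact hm _ _ (hΨd i _)
    · refine lt_of_le_of_lt ?_ hcε
      have e1 : (f t).2 = Set.projIcc (0 : ℝ) 1 zero_le_one ((f t).2 : ℝ) :=
        (Set.projIcc_val zero_le_one (f t).2).symm
      have e2 : dist (Set.projIcc (0 : ℝ) 1 zero_le_one ((f t).2 : ℝ))
          (Set.projIcc (0 : ℝ) 1 zero_le_one (Ψ i ((f t).1.1 m, ((f t).2 : ℝ))).2)
          ≤ dist ((f t).2 : ℝ) (Ψ i ((f t).1.1 m, ((f t).2 : ℝ))).2 := by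
        rw [Subtype.dist_eq, Real.dist_eq, Real.dist_eq]
        exact abs_projIcc_sub_projIcc zero_le_one
      rw [← e1] at e2
      refine e2.trans ?_
      rw [dist_comm, Real.dist_eq]
      exact hΨt i _
  -- time coordinate of a hit
  have htime : ∀ s : ℝ, Set.projIcc (0 : ℝ) 1 zero_le_one s = t₀ → s = t₀ := by
    intro s hs
    have hv : max 0 (min 1 s) = (t₀ : ℝ) := by
      rw [← hs, Set.coe_projIcc]
    rcases le_total s 0 with h | h
    · rw [max_eq_left ((min_le_right _ _).trans h)] at hv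
      linarith
    · rcases le_total 1 s with h' | h'
      · rw [min_eq_left h', max_eq_right zero_le_one] at hv
        linarith
      · rw [min_eq_right h', max_eq_right h] at hv
        exact hv
  by_cases hfalse : ∃ t, g false t = (x, t₀)
  · by_cases htrue : ∃ t, g true t = (x, t₀)
    · exfalso
      obtain ⟨t, ht⟩ := hfalse
      obtain ⟨t', ht'⟩ := htrue
      have a1 : Qi (m + 1) (Ψ false ((f t).1.1 m, ((f t).2 : ℝ))).1 = x := congrArg Prod.fst ht
      have a2 := htime _ (congrArg Prod.snd ht : Set.projIcc (0 : ℝ) 1 zero_le_one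
        (Ψ false ((f t).1.1 m, ((f t).2 : ℝ))).2 = t₀)
      have b1 : Qi (m + 1) (Ψ true ((f t').1.1 m, ((f t').2 : ℝ))).1 = x := congrArg Prod.fst ht'
      have b2 := htime _ (congrArg Prod.snd ht' : Set.projIcc (0 : ℝ) 1 zero_le_one
        (Ψ true ((f t').1.1 m, ((f t').2 : ℝ))).2 = t₀)
      refine hΨn _ _ a2 b2 ?_
      rw [← hgood _ (hΨg false _ a2), ← hgood _ (hΨg true _ b2), a1, b1]
    · push Not at htrue
      exact ⟨g true, htrue, hclose true⟩
  · push Not at hfalse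
    exact ⟨g false, hfalse, hclose false⟩

end Pool.MP55
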