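import Pool.Agent.Lib.MP_55dccf_gt.Tower1
import Pool.Agent.Lib.MP_55dccf_gt.Tower2
import Pool.Agent.Lib.MP_55dccf_gt.Exist
import Pool.Agent.Lib.MP_55dccf_gt.NoZ2
import Pool.Agent.Lib.MP_55dccf_gt.Zinf
import Pool.Agent.Lib.MP_55dccf_gt.Cube

set_option autoImplicit false

open Set Topology TopologicalSpace unitInterval

namespace Pool.MP55

theorem main : ¬ (∀ (X : Type) [MetricSpace X] [CompactSpace X],
      (∃ e : C(X, ℕ → unitInterval), ∃ r : C(ℕ → unitInterval, X), ∀ x : X, r (e x) = x) →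
      (∀ p : X × unitInterval, ∀ n : ℕ, ∀ f : C(Fin n → unitInterval, X × unitInterval),
        ∀ ε : ℝ, 0 < ε → ∃ g : C(Fin n → unitInterval, X × unitInterval),
          (∀ t, g t ≠ p) ∧ ∀ t, dist (f t) (g t) < ε) →
      ∃ x : X, ∀ f : C(Fin 2 → unitInterval, X), ∀ ε : ℝ, 0 < ε →
        ∃ g : C(Fin 2 → unitInterval, X), (∀ t, g t ≠ x) ∧ ∀ t, dist (f t) (g t) < ε) := by
  intro h
  obtain ⟨T⟩ := exists_bTower
  have hX : IsAE T.X := Tower.isAE_X T.toTower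
  have hne : Nonempty T.X := by
    obtain ⟨Qi, -⟩ := Tower.exists_Qinf T.toTower
    exact ⟨Qi 0 (Classical.arbitrary _)⟩
  obtain ⟨x, hx⟩ := h T.X (exists_retract hX hne) (fun p n f ε hε => all_Zn T p n f ε hε)
  obtain ⟨f, ε, hε, hf⟩ := no_Z2 T hX x
  obtain ⟨g, hg, hgf⟩ := hx f ε hε
  obtain ⟨t, ht⟩ := hf g hgf
  exact hg t ht

end Pool.MP55
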