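import Pool.Agent.Lib.MP_55dccf_gt.Defs2
import Pool.Agent.Lib.MP_55dccf_gt.Cone
import Pool.Agent.Lib.MP_55dccf_gt.Blow
import Pool.Agent.Lib.MP_55dccf_gt.Push
import Pool.Agent.Lib.MP_55dccf_gt.Thick
import Pool.Agent.Lib.MP_55dccf_gt.Slide1
import Pool.Agent.Lib.MP_55dccf_gt.Slide2
import Pool.Agent.Lib.MP_55dccf_gt.PfDef

set_option autoImplicit false

open Set Topology TopologicalSpace unitInterval

namespace Pool.MP55

variable {B : Type} [MetricSpace B] [CompactSpace B] {D : BD B} {n k : ℕ} [NeZero k]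

/-- projection of a bottom point moves little -/
theorem pushF_dist (hD : D.OK) {δ : ℝ} (hδ : 0 < δ)
    (S : SlideData (bd1 (bd3 D k) (1 / 2)) n)
    (hS : ∀ j, ∀ t ∈ Icc (0 : ℝ) 1, dist (S.T j t).1.1.1.1 (D.c (S.w j).1 apex) ≤ 3 * δ)
    (y : ↥(B1 (bd3 D k) (1 / 2))) : dist (Pf S (S.bot4 y)) y.1.1.1.1 ≤ 3 * δ := by
  have hD3 := bd3_ok D k hD
  have := compactSpace_B3 D k hD
  have hD1 := bd1_ok (bd3 D k) hD3 (κ := 1 / 2) (by norm_num) (by norm_num)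
  have := compactSpace_B1 (bd3 D k) (κ := 1 / 2) hD3
  unfold Pf
  rw [S.p4_bot4 hD1]
  by_cases h : ∀ j, nm ((bd1 (bd3 D k) (1 / 2)).F (S.w j) y) = 1
  · rw [S.p0_of_nm_one hD1 h, dist_self]; positivity
  · push Not at h
    obtain ⟨j, hj⟩ := h
    have hj' : nm ((bd1 (bd3 D k) (1 / 2)).F (S.w j) y) < 1 := lt_of_le_of_ne (nm_le_one _) hj
    -- points of the closed cone lie over the apex
    have hcone : ∀ z, ((bd1 (bd3 D k) (1 / 2)).c (S.w j) z).1.1.1.1 = D.c (S.w j).1 apex := by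
      intro z
      show ((bd3 D k).c (S.w j) (sh (1 / 2) z)).1.1 = _
      have := bd3_c_val D k hD (S.w j).1 (S.w j).2 (sh (1 / 2) z)
      rw [show S.w j = ((S.w j).1, (S.w j).2) from rfl, this]
    have hy : y.1.1.1.1 = D.c (S.w j).1 apex := by
      have := hD1.cF (S.w j) y hj'
      rw [← this]; exact hcone _
    rw [hy]
    rcases S.p0_mem_Lam hD1 hj' with ⟨z, hz⟩ | ⟨t, ht, hz⟩
    · rw [← hz, hcone, dist_self]; positivity
    · rw [← hz]; exact hS j t ht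

theorem push_final (hD : D.OK) {δ κ : ℝ} (hδ : 0 < δ) (hκ : 0 < κ)
    (hκ1 : κ < 1) (hsm : ∀ v b b', nm (D.F v b) ≤ κ → nm (D.F v b') ≤ κ → dist b b' < δ)
    (S : SlideData (bd1 (bd3 D k) (1 / 2)) n)
    (hS : ∀ j, ∀ t ∈ Icc (0 : ℝ) 1, dist (S.T j t).1.1.1.1 (D.c (S.w j).1 apex) ≤ 3 * δ)
    (t₀ : ℝ) {τ : ℝ} (hτ : 0 < τ) :
    ∃ Ψ : Bool → B × ℝ → ↥S.B4 × ℝ, (∀ i, Continuous (Ψ i)) ∧
    (∀ i x, |(Ψ i x).2 - x.2| ≤ τ) ∧ (∀ i x, dist (Pf S (Ψ i x).1) x.1 ≤ 20 * δ) ∧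
    (∀ i x, (Ψ i x).2 = t₀ → (Ψ i x).1 ∈ S.bd4.good) ∧
    ∀ x y, (Ψ false x).2 = t₀ → (Ψ true y).2 = t₀ → (Ψ false x).1 ≠ (Ψ true y).1 := by
  have hD3 := bd3_ok D k hD
  have := compactSpace_B3 D k hD
  have hD1 := bd1_ok (bd3 D k) hD3 (κ := 1 / 2) (by norm_num) (by norm_num)
  have := compactSpace_B1 (bd3 D k) (κ := 1 / 2) hD3
  obtain ⟨h, hc, h2, h1, hg⟩ := exists_pushoff D k hD hκ hκ1 t₀ hτ
  -- the section at relative height `0` or `1`
  let r : Bool → ℝ := fun i => if i then 1 else 0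
  let sec : Bool → ↥(B3 D k) → ↥S.B4 := fun i z => S.bot4 (sec1 (bd3 D k) (1 / 2) (r i) z)
  have hsec : ∀ i, Continuous (sec i) := fun i => (S.continuous_bot4 hD1).comp
    ((continuous_sec1 (bd3 D k) (κ := 1 / 2) hD3).comp (Continuous.prodMk_right (r i)))
  refine ⟨fun i x => (sec i (h x).1, (h x).2), fun i => ?_, fun i x => h2 x, fun i x => ?_,
    fun i x hx => ?_, fun x y hx hy heq => ?_⟩
  · exact ((hsec i).comp (continuous_fst.comp hc)).prodMk (continuous_snd.comp hc)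
  · have e1 : dist (Pf S (sec i (h x).1)) (h x).1.1.1 ≤ 3 * δ :=
      pushF_dist hD hδ S hS (sec1 (bd3 D k) (1 / 2) (r i) (h x).1)
    have e2 : dist (h x).1.1.1 x.1 ≤ δ := by
      rcases h1 x with h | ⟨v, hv, hv'⟩
      · rw [h, dist_self]; exact hδ.le
      · exact (hsm v _ _ hv' hv).le
    have := dist_triangle (Pf S (sec i (h x).1)) (h x).1.1.1 x.1
    show dist (Pf S (sec i (h x).1)) x.1 ≤ 20 * δ
    linarith
  · -- goodness
    have hz := hg x hx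
    have hD4 := S.bd4_ok hD1
    intro v
    have e1 : nm ((bd1 (bd3 D k) (1 / 2)).F v (sec1 (bd3 D k) (1 / 2) (r i) (h x).1)) = 1 := by
      have : (bd1 (bd3 D k) (1 / 2)).F v (sec1 (bd3 D k) (1 / 2) (r i) (h x).1) =
        st (1 / 2) ((bd3 D k).F v (h x).1) := rfl
      rw [this, nm_st (by norm_num), hz v]; norm_num
    have e2 : (S.bd4.F v (sec i (h x).1) =
        st (1 / 3) ((bd1 (bd3 D k) (1 / 2)).F v (sec1 (bd3 D k) (1 / 2) (r i) (h x).1))) ∨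
        (S.bd4.F v (sec i (h x).1) =
        (bd1 (bd3 D k) (1 / 2)).F v (sec1 (bd3 D k) (1 / 2) (r i) (h x).1)) := by
      simp only [SlideData.bd4]
      split_ifs
      · exact Or.inl rfl
      · exact Or.inr rfl
    show nm (S.bd4.F v (sec i (h x).1)) = 1
    rcases e2 with e2 | e2 <;> rw [e2]
    · rw [nm_st (by norm_num), e1]; norm_num
    · exact e1
  · -- the two sections are disjoint over good points
    have hz := hg x hx
    have hz' := hg y hy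
    have e1 : sec false (h x).1 = sec true (h y).1 := heq
    have e2 := congrArg (fun z : ↥S.B4 => z.1.1) e1
    have e3 : sec1 (bd3 D k) (1 / 2) 0 (h x).1 = sec1 (bd3 D k) (1 / 2) 1 (h y).1 := e2
    have e4 : (h x).1 = (h y).1 := congrArg (fun z : ↥(B1 (bd3 D k) (1 / 2)) => z.1.1) e3
    have e5 : cl 0 * rho (bd3 D k) (1 / 2) (h x).1 = cl 1 * rho (bd3 D k) (1 / 2) (h y).1 :=
      congrArg (fun z : ↥(B1 (bd3 D k) (1 / 2)) => z.1.2) e3
    rw [cl_of_le le_rfl, cl_of_ge le_rfl, zero_mul, one_mul] at e5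
    have e6 : 0 < rho (bd3 D k) (1 / 2) (h y).1 :=
      rho_pos (bd3 D k) hD3 fun v => by rw [hz' v]; norm_num
    linarith

end Pool.MP55
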